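import Pool.Agent.Lib.MP_44a56e_nt.Defs2

/-! # MP_44a56e_nt, module ConeU: units and the fundamental cone.

PROOFS. `F` a number field. Everything is in `Mathlib/NumberTheory/NumberField/CanonicalEmbedding/
FundamentalCone.lean`: the action of a unit `u` on the mixed space is multiplication by
`mixedEmbedding F u`; `fundamentalCone.exists_unit_smul_mem`, `unit_smul_mem_iff_mem_torsion`,
`torsion_smul_mem_of_mem`, `norm_pos_of_mem`. `mixedEmbedding.norm (mixedEmbedding F x) =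
|Algebra.norm ℚ x|` (`norm_eq_norm`). `nrm_unit_mul`: the norm of a unit is `±1`.
`card_units_inCone`: by `exists_unit_inCone` choose `u₀` with `u₀ α` in the cone; `u α = (u u₀⁻¹)(u₀ α)`
is in the cone iff `u u₀⁻¹ ∈ torsion F`; so the set is `torsion F * u₀`, with
`Nat.card (torsion F) = torsionOrder F` elements. `nrm_eq_absNorm`: `Ideal.absNorm_span_singleton`. -/

open NumberField Module NumberField.Units

namespace QTow

theorem nrm_unit_mul (F : Type) [Field F] [NumberField F] (u : (𝓞 F)ˣ) (α : 𝓞 F) :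
    nrm F ((u : 𝓞 F) * α) = nrm F α := by
  unfold nrm
  have h : IsUnit (Algebra.norm ℤ (u : 𝓞 F)) := u.isUnit.map (Algebra.norm ℤ)
  rw [map_mul, Int.cast_mul, abs_mul]
  rcases Int.isUnit_iff.1 h with h | h <;> rw [h] <;> simp

theorem nrm_eq_absNorm (F : Type) [Field F] [NumberField F] (α : 𝓞 F) :
    nrm F α = (Ideal.absNorm (Ideal.span {α}) : ℝ) := by
  unfold nrm
  rw [Ideal.absNorm_span_singleton, ← Int.cast_abs, ← Int.natCast_natAbs]
  simp

private theorem ConeU_smul (F : Type) [Field F] [NumberField F] (u : (𝓞 F)ˣ) (α : 𝓞 F) :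
    mixedEmbedding F ((((u : 𝓞 F) * α : 𝓞 F)) : F) = u • mixedEmbedding F (α : F) := by
  change mixedEmbedding F ((((u : 𝓞 F)) : F) * (α : F)) = u • mixedEmbedding F (α : F)
  rw [map_mul]
  rfl

theorem ne_zero_of_inCone (F : Type) [Field F] [NumberField F] {α : 𝓞 F} (h : InCone F α) :
    α ≠ 0 := by
  rintro rfl
  have h1 := mixedEmbedding.fundamentalCone.norm_pos_of_mem h
  have h2 : (((0 : 𝓞 F)) : F) = 0 := rfl
  rw [h2, map_zero, map_zero] at h1
  exact lt_irrefl _ h1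

private theorem ConeU_norm_ne (F : Type) [Field F] [NumberField F] {α : 𝓞 F} (h : α ≠ 0) :
    mixedEmbedding.norm (mixedEmbedding F (α : F)) ≠ 0 := by
  rw [mixedEmbedding.norm_eq_norm]
  have h1 : Algebra.norm ℚ (α : F) ≠ 0 := by
    rw [Algebra.norm_ne_zero_iff]
    exact fun h2 => h (by exact_mod_cast h2)
  exact_mod_cast abs_ne_zero.2 h1

theorem exists_unit_inCone (F : Type) [Field F] [NumberField F] {α : 𝓞 F} (h : α ≠ 0) :
    ∃ u : (𝓞 F)ˣ, InCone F ((u : 𝓞 F) * α) := by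
  obtain ⟨u, hu⟩ := mixedEmbedding.fundamentalCone.exists_unit_smul_mem (ConeU_norm_ne F h)
  refine ⟨u, ?_⟩
  unfold InCone
  rw [ConeU_smul]
  exact hu

theorem inCone_unit_iff (F : Type) [Field F] [NumberField F] {α : 𝓞 F} (h : InCone F α)
    (u : (𝓞 F)ˣ) : InCone F ((u : 𝓞 F) * α) ↔ u ∈ torsion F := by
  have h1 := mixedEmbedding.fundamentalCone.unit_smul_mem_iff_mem_torsion h u
  rw [← ConeU_smul] at h1
  exact h1

theorem card_units_inCone (F : Type) [Field F] [NumberField F] {α : 𝓞 F} (h : α ≠ 0) :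
    Nat.card {u : (𝓞 F)ˣ // InCone F ((u : 𝓞 F) * α)} = torsionOrder F := by
  obtain ⟨u₀, hu₀⟩ := exists_unit_inCone F h
  have key : ∀ u : (𝓞 F)ˣ, InCone F ((u : 𝓞 F) * α) ↔ u * u₀⁻¹ ∈ torsion F := by
    intro u
    rw [← inCone_unit_iff F hu₀ (u * u₀⁻¹)]
    have h1 : (((u * u₀⁻¹ : (𝓞 F)ˣ)) : 𝓞 F) * ((u₀ : 𝓞 F) * α) = (u : 𝓞 F) * α := by
      rw [← mul_assoc, ← Units.val_mul, inv_mul_cancel_right]
    rw [h1]
  have e : {u : (𝓞 F)ˣ // InCone F ((u : 𝓞 F) * α)} ≃ torsion F :=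
    { toFun := fun u => ⟨u.1 * u₀⁻¹, (key u.1).1 u.2⟩
      invFun := fun z => ⟨z.1 * u₀, (key _).2 (by rw [mul_inv_cancel_right]; exact z.2)⟩
      left_inv := fun u => Subtype.ext (inv_mul_cancel_right _ _)
      right_inv := fun z => Subtype.ext (mul_inv_cancel_right _ _) }
  rw [Nat.card_congr e]
  rfl

end QTow
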