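import Pool.Agent.Lib.MP_44a56e_nt.Defs2

/-! # MP_44a56e_nt, module ParamA: representatives of `F* / F*²`.

PROOF of `exists_reps`. `h` = class number, `𝔟 i` a nonzero integral ideal in the `i`-th class
(`ClassGroup.mk0_surjective`, `Fintype.equivFin`).
Existence: `β ≠ 0`. Write `β = x / y²` with `x, y ∈ 𝓞 F` nonzero (`β = u/w = u w/w²`). The ideal
`span {x}` is `𝔞 𝔠²` with `𝔞` not contained in the square of a prime (unique factorization; e.g. `𝔠` a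
divisor with `𝔠² ∣ span {x}` of maximal norm). Let `𝔟 i` be in the class of `𝔠`: `μ 𝔠 = ν 𝔟 i` with
nonzero `μ, ν ∈ 𝓞 F` (`ClassGroup.mk0_eq_mk0_iff`). `λ = μ y / ν`, `α = λ² β = μ² x / ν²`:
`ν² α = μ² x`, `span {μ² x} = 𝔞 (μ 𝔠)² = ν² 𝔞 (𝔟 i)²`; so `α` is integral, in `(𝔟 i)²`,
`span {α} = 𝔞 (𝔟 i)²`, and `α ∉ P² (𝔟 i)²` as otherwise `P² ∣ 𝔞` (cancellation).
Uniqueness: `span {α} = 𝔞 (𝔟 i)²`, `span {α'} = 𝔞' (𝔟 i')²`, `λ = μ/ν` with `μ, ν ∈ 𝓞 F`, `ν ≠ 0`;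
`μ ≠ 0` as `α' ≠ 0`; `ν² α' = μ² α`: `𝔞' (ν 𝔟 i')² = 𝔞 (μ 𝔟 i)²` with `𝔞, 𝔞'` squarefree, so
`ν 𝔟 i' = μ 𝔟 i` (compare exponents of each prime: `e' + 2 k' = e + 2 k`, `e, e' ≤ 1`; or: if
`𝔞' A² = 𝔞 B²` divide by the gcd of `A, B`: coprime `A, B`, then `A² ∣ 𝔞`, so `A = ⊤`, same for
`B`); hence the classes agree, `i = i'`, and `span {ν} = span {μ}` by cancellation, so `μ/ν` is a
unit. -/

open NumberField Module

namespace QTow

section ded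
variable {R : Type} [CommRing R] [IsDedekindDomain R]

/-- Squarefree part of an ideal. -/
private theorem exists_sq_mul (I : Ideal R) (hI : I ≠ ⊥) :
    ∃ 𝔞 𝔠 : Ideal R, SqFree 𝔞 ∧ I = 𝔞 * 𝔠 ^ 2 := by
  induction I using WellFoundedGT.induction with
  | ind I ih =>
    by_cases h : SqFree I
    · exact ⟨I, ⊤, h, by rw [← Ideal.one_eq_top, one_pow, mul_one]⟩
    · unfold SqFree at h
      push Not at h
      obtain ⟨P, hP, hle⟩ := h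
      obtain ⟨J, hJ⟩ := Ideal.dvd_iff_le.2 hle
      have hJ0 : J ≠ ⊥ := by
        rintro rfl
        exact hI (by rw [hJ]; exact Ideal.mul_bot _)
      have hP0 : P ≠ ⊥ := by
        rintro rfl
        apply hI
        rw [hJ]
        simp
      have hlt : I < J := by
        refine lt_of_le_of_ne (by rw [hJ]; exact Ideal.mul_le_right) ?_
        intro h0
        have h1 : P ^ 2 * J = 1 * J := by rw [← hJ, h0, one_mul]
        have h2 : P ^ 2 = 1 := mul_right_cancel₀ hJ0 h1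
        have h3 : P = 1 := by
          rw [Ideal.one_eq_top, eq_top_iff]
          calc (⊤ : Ideal R) = P ^ 2 := by rw [h2, Ideal.one_eq_top]
            _ ≤ P := Ideal.pow_le_self two_ne_zero
        exact hP.ne_top (by rw [h3, Ideal.one_eq_top])
      obtain ⟨𝔞, 𝔠, h1, h2⟩ := ih J hlt hJ0
      refine ⟨𝔞, P * 𝔠, h1, ?_⟩
      rw [hJ, h2]
      ring

omit [IsDedekindDomain R] in
private theorem eq_top_of_sqf {𝔞 A : Ideal R} (h : SqFree 𝔞) (hA : A ^ 2 ∣ 𝔞) : A = ⊤ := by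
  by_contra hne
  obtain ⟨P, hP, hAP⟩ := Ideal.exists_le_maximal A hne
  exact h P hP.isPrime ((Ideal.le_of_dvd hA).trans (Ideal.pow_right_mono hAP 2))

private theorem eq_of_mul_sq {𝔞 𝔞' A B : Ideal R} (h : SqFree 𝔞) (h' : SqFree 𝔞') (hA : A ≠ ⊥)
    (he : 𝔞' * A ^ 2 = 𝔞 * B ^ 2) : A = B := by
  have hG : A ⊔ B ≠ ⊥ := fun h0 => hA (le_bot_iff.1 (le_sup_left.trans h0.le))
  obtain ⟨A1, hA1⟩ := Ideal.dvd_iff_le.2 (le_sup_left : A ≤ A ⊔ B)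
  obtain ⟨B1, hB1⟩ := Ideal.dvd_iff_le.2 (le_sup_right : B ≤ A ⊔ B)
  set G := A ⊔ B with hGdef
  have h1 : G * (A1 ⊔ B1) = G * 1 := by
    rw [Ideal.mul_sup, ← hA1, ← hB1, mul_one]
  have h2 : A1 ⊔ B1 = 1 := mul_left_cancel₀ hG h1
  have h3 : IsCoprime A1 B1 := by
    rw [Ideal.isCoprime_iff_sup_eq, h2, Ideal.one_eq_top]
  have h4 : IsCoprime (A1 ^ 2) (B1 ^ 2) := h3.pow
  have h5 : 𝔞' * A1 ^ 2 = 𝔞 * B1 ^ 2 := by
    have : G ^ 2 * (𝔞' * A1 ^ 2) = G ^ 2 * (𝔞 * B1 ^ 2) := by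
      calc G ^ 2 * (𝔞' * A1 ^ 2) = 𝔞' * (G * A1) ^ 2 := by ring
        _ = 𝔞 * (G * B1) ^ 2 := by rw [← hA1, ← hB1, he]
        _ = G ^ 2 * (𝔞 * B1 ^ 2) := by ring
    exact mul_left_cancel₀ (pow_ne_zero 2 hG) this
  have h6 : A1 = ⊤ := eq_top_of_sqf h
    (h4.dvd_of_dvd_mul_right (by rw [← h5]; exact Dvd.intro_left _ rfl))
  have h7 : B1 = ⊤ := eq_top_of_sqf h'
    (h4.symm.dvd_of_dvd_mul_right (by rw [h5]; exact Dvd.intro_left _ rfl))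
  rw [hA1, hB1, h6, h7]

private theorem sqf_ideal (𝔟 : Ideal R)
    (α : R) (hα : SqF 𝔟 α) : ∃ 𝔞 : Ideal R, SqFree 𝔞 ∧ 𝔞 * 𝔟 ^ 2 = Ideal.span {α} := by
  obtain ⟨𝔞, h𝔞⟩ := Ideal.dvd_span_singleton.2 hα.1
  refine ⟨𝔞, fun P hP hle => hα.2 P hP ?_, by rw [h𝔞, mul_comm]⟩
  rw [← Ideal.dvd_span_singleton, h𝔞, mul_comm]
  exact mul_dvd_mul_left _ (Ideal.dvd_iff_le.2 hle)

private theorem sqf_of_ideal (𝔟 𝔞 : Ideal R) (h𝔟 : 𝔟 ≠ ⊥) (α : R) (h𝔞 : SqFree 𝔞)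
    (h : 𝔞 * 𝔟 ^ 2 = Ideal.span {α}) : SqF 𝔟 α := by
  refine ⟨?_, fun P hP hm => h𝔞 P hP ?_⟩
  · rw [← Ideal.dvd_span_singleton, ← h]
    exact Dvd.intro_left _ rfl
  · rw [← Ideal.dvd_span_singleton, ← h] at hm
    exact Ideal.le_of_dvd ((mul_dvd_mul_iff_right (pow_ne_zero 2 h𝔟)).1 hm)

end ded

theorem exists_reps (F : Type) [Field F] [NumberField F] :
    ∃ (h : ℕ) (𝔟 : Fin h → Ideal (𝓞 F)), (∀ i, 𝔟 i ≠ ⊥) ∧
      (∀ β : F, β ≠ 0 → ∃ (i : Fin h) (α : 𝓞 F) (l : F), l ≠ 0 ∧ SqF (𝔟 i) α ∧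
        (α : F) = l ^ 2 * β) ∧
      (∀ (i i' : Fin h) (α α' : 𝓞 F) (l : F), SqF (𝔟 i) α → SqF (𝔟 i') α' →
        (α' : F) = l ^ 2 * (α : F) → i = i' ∧ ∃ v : (𝓞 F)ˣ, ((v : 𝓞 F) : F) = l) := by
  let e : ClassGroup (𝓞 F) ≃ Fin (Fintype.card (ClassGroup (𝓞 F))) := Fintype.equivFin _
  choose I hI using ClassGroup.mk0_surjective (R := 𝓞 F)
  have hne : ∀ c, (I c : Ideal (𝓞 F)) ≠ ⊥ := fun c => nonZeroDivisors.ne_zero (I c).2
  refine ⟨Fintype.card (ClassGroup (𝓞 F)), fun i => (I (e.symm i) : Ideal (𝓞 F)),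
    fun i => hne _, ?_, ?_⟩
  · intro β hβ
    obtain ⟨x, y, hy, hxy⟩ := IsFractionRing.div_surjective (𝓞 F) β
    have hy0 : y ≠ 0 := nonZeroDivisors.ne_zero hy
    have hyF : (y : F) ≠ 0 := by simpa using hy0
    have hx0 : x ≠ 0 := by
      rintro rfl
      exact hβ (by rw [← hxy]; simp)
    obtain ⟨𝔞, 𝔠, h𝔞, h𝔠⟩ := exists_sq_mul (Ideal.span {x * y})
      (by simp [hx0, hy0])
    have h𝔠0 : 𝔠 ≠ ⊥ := by
      rintro rfl
      have : Ideal.span {x * y} = (⊥ : Ideal (𝓞 F)) := by rw [h𝔠]; simp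
      rw [Ideal.span_singleton_eq_bot] at this
      exact mul_ne_zero hx0 hy0 this
    set c : ClassGroup (𝓞 F) := ClassGroup.mk0 ⟨𝔠, mem_nonZeroDivisors_of_ne_zero h𝔠0⟩ with hc
    obtain ⟨μ, ν, hμ, hν, hμν⟩ := ClassGroup.mk0_eq_mk0_iff.1
      (hc.symm.trans (hI c).symm)
    simp only at hμν
    have h1 : Ideal.span {μ ^ 2 * (x * y)} = Ideal.span {ν ^ 2} * (𝔞 * (I c : Ideal (𝓞 F)) ^ 2) := by
      calc Ideal.span {μ ^ 2 * (x * y)} = Ideal.span {μ} ^ 2 * Ideal.span {x * y} := by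
            rw [Ideal.span_singleton_pow, Ideal.span_singleton_mul_span_singleton]
        _ = 𝔞 * (Ideal.span {μ} * 𝔠) ^ 2 := by rw [h𝔠]; ring
        _ = 𝔞 * (Ideal.span {ν} * (I c : Ideal (𝓞 F))) ^ 2 := by rw [hμν]
        _ = Ideal.span {ν} ^ 2 * (𝔞 * (I c : Ideal (𝓞 F)) ^ 2) := by ring
        _ = _ := by rw [Ideal.span_singleton_pow]
    have h2 : μ ^ 2 * (x * y) ∈ Ideal.span {ν ^ 2} * (𝔞 * (I c : Ideal (𝓞 F)) ^ 2) := by
      rw [← h1]; exact Ideal.mem_span_singleton_self _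
    obtain ⟨α, _, hα⟩ := Ideal.mem_span_singleton_mul.1 h2
    have h3 : 𝔞 * (I c : Ideal (𝓞 F)) ^ 2 = Ideal.span {α} := by
      have : Ideal.span {ν ^ 2} * (𝔞 * (I c : Ideal (𝓞 F)) ^ 2)
          = Ideal.span {ν ^ 2} * Ideal.span {α} := by
        rw [← h1, Ideal.span_singleton_mul_span_singleton, hα]
      exact mul_left_cancel₀ (by simpa using hν) this
    have hνF : (ν : F) ≠ 0 := by simpa using hν
    have hμF : (μ : F) ≠ 0 := by simpa using hμ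
    refine ⟨e c, α, (μ : F) * (y : F) / (ν : F), by positivity, ?_, ?_⟩
    · simp only [Equiv.symm_apply_apply]
      exact sqf_of_ideal _ 𝔞 (hne c) α h𝔞 h3
    · have h4 : (ν : F) ^ 2 * (α : F) = (μ : F) ^ 2 * ((x : F) * (y : F)) := by
        have := congrArg (algebraMap (𝓞 F) F) hα
        simpa only [map_mul, map_pow] using this
      rw [← hxy]
      field_simp
      linear_combination h4
  · intro i i' α α' l hα hα' hl
    have hα0 : α ≠ 0 := by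
      rintro rfl
      exact hα.2 ⊥ Ideal.isPrime_bot (by simp)
    have hα'0 : α' ≠ 0 := by
      rintro rfl
      exact hα'.2 ⊥ Ideal.isPrime_bot (by simp)
    obtain ⟨μ, ν, hν', hμν⟩ := IsFractionRing.div_surjective (𝓞 F) l
    have hν : ν ≠ 0 := nonZeroDivisors.ne_zero hν'
    have hνF : (ν : F) ≠ 0 := by simpa using hν
    have hμ : μ ≠ 0 := by
      rintro rfl
      apply hα'0
      have : (α' : F) = 0 := by rw [hl, ← hμν]; simp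
      simpa using this
    obtain ⟨𝔞, h𝔞, h𝔞e⟩ := sqf_ideal _ α hα
    obtain ⟨𝔞', h𝔞', h𝔞'e⟩ := sqf_ideal _ α' hα'
    have h1 : ν ^ 2 * α' = μ ^ 2 * α := by
      apply RingOfIntegers.coe_injective
      rw [map_mul, map_mul, map_pow, map_pow]
      refine (congrArg (fun z : F => (algebraMap (𝓞 F) F ν) ^ 2 * z) hl).trans ?_
      rw [← hμν]
      field_simp
    have h2 : 𝔞' * (Ideal.span {ν} * (I (e.symm i') : Ideal (𝓞 F))) ^ 2 =
        𝔞 * (Ideal.span {μ} * (I (e.symm i) : Ideal (𝓞 F))) ^ 2 := by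
      calc 𝔞' * (Ideal.span {ν} * (I (e.symm i') : Ideal (𝓞 F))) ^ 2
          = Ideal.span {ν} ^ 2 * (𝔞' * (I (e.symm i') : Ideal (𝓞 F)) ^ 2) := by ring
        _ = Ideal.span {μ} ^ 2 * (𝔞 * (I (e.symm i) : Ideal (𝓞 F)) ^ 2) := by
            rw [h𝔞e, h𝔞'e, Ideal.span_singleton_pow, Ideal.span_singleton_pow,
              Ideal.span_singleton_mul_span_singleton, Ideal.span_singleton_mul_span_singleton, h1]
        _ = _ := by ring
    have h3 : Ideal.span {ν} * (I (e.symm i') : Ideal (𝓞 F)) =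
        Ideal.span {μ} * (I (e.symm i) : Ideal (𝓞 F)) := by
      refine eq_of_mul_sq h𝔞 h𝔞' ?_ h2
      exact mul_ne_zero (by simpa using hν) (hne _)
    have h4 : ClassGroup.mk0 (I (e.symm i')) = ClassGroup.mk0 (I (e.symm i)) :=
      ClassGroup.mk0_eq_mk0_iff.2 ⟨ν, μ, hν, hμ, h3⟩
    rw [hI, hI] at h4
    have h5 : i' = i := e.symm.injective h4
    subst h5
    have h6 : Ideal.span {ν} = Ideal.span {μ} := mul_right_cancel₀ (hne _) h3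
    obtain ⟨v, hv⟩ := Ideal.span_singleton_eq_span_singleton.1 h6
    refine ⟨rfl, v, ?_⟩
    rw [← hμν, ← hv, map_mul]
    field_simp

theorem exists_sqf_ideal (F : Type) [Field F] [NumberField F] (𝔟 : Ideal (𝓞 F)) (h𝔟 : 𝔟 ≠ ⊥)
    (α : 𝓞 F) (hα : SqF 𝔟 α) : ∃ 𝔞 : Ideal (𝓞 F), SqFree 𝔞 ∧ 𝔞 * 𝔟 ^ 2 = Ideal.span {α} :=
  sqf_ideal 𝔟 α hα

theorem sqf_unit_mul (F : Type) [Field F] [NumberField F] (𝔟 : Ideal (𝓞 F)) (α : 𝓞 F)
    (u : (𝓞 F)ˣ) : SqF 𝔟 ((u : 𝓞 F) * α) ↔ SqF 𝔟 α := by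
  unfold SqF
  simp only [Ideal.unit_mul_mem_iff_mem _ u.isUnit]

/-- Representatives of the units modulo squares. PROOF: the group of units is a finitely generated
commutative group (`Monoid.FG`/Dirichlet's unit theorem: `NumberField.Units`), so its quotient by the
subgroup of squares (the range of `powMonoidHom 2`) is finitely generated of exponent two, hence
finite; choose representatives of its elements, `η ↦` the class of `η⁻¹`. -/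
theorem exists_units (F : Type) [Field F] [NumberField F] :
    ∃ (r : ℕ) (u : Fin r → (𝓞 F)ˣ), ∀ η : (𝓞 F)ˣ, ∃! k : Fin r, ∃ v : (𝓞 F)ˣ,
      η * u k = v ^ 2 := by
  have hfin : Finite ((𝓞 F)ˣ ⧸ (powMonoidHom 2 : (𝓞 F)ˣ →* (𝓞 F)ˣ).range) := by
    have hG : Group.FG (𝓞 F)ˣ := Group.fg_iff_monoid_fg.2 inferInstance
    have hQ : Group.FG ((𝓞 F)ˣ ⧸ (powMonoidHom 2 : (𝓞 F)ˣ →* (𝓞 F)ˣ).range) :=
      QuotientGroup.fg _
    apply CommGroup.finite_of_fg_isMulTorsion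
    intro q
    obtain ⟨x, rfl⟩ := QuotientGroup.mk_surjective q
    rw [isOfFinOrder_iff_pow_eq_one]
    refine ⟨2, two_pos, ?_⟩
    rw [← QuotientGroup.mk_pow, QuotientGroup.eq_one_iff]
    exact ⟨x, rfl⟩
  obtain ⟨r, ⟨e⟩⟩ := Finite.exists_equiv_fin
    ((𝓞 F)ˣ ⧸ (powMonoidHom 2 : (𝓞 F)ˣ →* (𝓞 F)ˣ).range)
  refine ⟨r, fun k => (e.symm k).out, fun η => ?_⟩
  have key : ∀ k : Fin r, (∃ v : (𝓞 F)ˣ, η * (e.symm k).out = v ^ 2) ↔
      k = e ((η : (𝓞 F)ˣ ⧸ (powMonoidHom 2 : (𝓞 F)ˣ →* (𝓞 F)ˣ).range)⁻¹) := by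
    intro k
    have h1 : (∃ v : (𝓞 F)ˣ, η * (e.symm k).out = v ^ 2) ↔
        η * (e.symm k).out ∈ (powMonoidHom 2 : (𝓞 F)ˣ →* (𝓞 F)ˣ).range := by
      constructor
      · rintro ⟨v, hv⟩
        exact ⟨v, hv.symm⟩
      · rintro ⟨v, hv⟩
        exact ⟨v, hv.symm⟩
    rw [h1, ← QuotientGroup.eq_one_iff, QuotientGroup.mk_mul, QuotientGroup.out_eq',
      ← Equiv.symm_apply_eq, eq_comm (a := e.symm k), mul_eq_one_iff_inv_eq]
  refine ⟨_, (key _).2 rfl, fun k hk => (key k).1 hk⟩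

end QTow
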