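import Pool.Agent.Lib.MP_44a56e_nt.Defs2

/-! # MP_44a56e_nt, module SFBasic: subfields of `ℂ` and their quadratic extensions.

PROOFS. `dabs_eq`: unfold, proof irrelevance of the instance (`NumberField` is a `Prop`).
`one_le_dabs`: `discr_ne_zero`. `finite_dabs`: `NumberField.finite_of_discr_bdd ℂ`.
`dabs_iso`, `deg_iso`: `discr_eq_discr_of_algEquiv`, `LinearEquiv.finrank_eq`.
For `K ∈ Quad F` use the algebra structure `(IntermediateField.inclusion h).toAlgebra` (or
`IntermediateField.extendScalars`), `finrank F K = 2` by the tower law (`finrank_mul_finrank`,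
degrees are positive).
`quad_base`: `F ≤ K` and `K` finite dimensional.
`sq_le`: `natAbs_discr_eq_absNorm_differentIdeal_mul_natAbs_discr_pow` with exponent `2`.
`exists_sqrt_mem`: some `x ∈ K \ F`; complete the square in its quadratic equation over `F`.
`eq_of_mem`: `K = F ⊔ ℚ⟮s⟯ = K'` as `[K : F] = 2` is prime (an intermediate field `F ≤ M ≤ K`,
`M ≠ F`, has `deg M > deg F` and `deg F ∣ deg M ∣ 2 deg F`).
`sup_mem_quad`: `M = F ⊔ ℚ⟮s⟯`: `{1, s}` is a basis over `F`.
`exists_conj`: `K / F` is Galois of degree two (characteristic zero); `σ` = the nontrivial element of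
the Galois group; `σ` as a `ℚ`-automorphism; the fixed field of `σ` is `F`.
`unique_base`: if `K ≃ₐ[ℚ] K` has two elements, the two automorphisms `σ, σ'` of `exists_conj` for
`F, F'` are equal (both are `≠ 1`), so `F = F'` (fixed points).
`aut_le`: an automorphism composed with the inclusion is an embedding `K → ℂ`, there are `deg K` of
them (`AlgHom.card`), or `IntermediateField`/`AlgEquiv.card_le`. `iso_finite`: the subfields of `ℂ`
isomorphic to `F` have the same discriminant (`finite_dabs`). -/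

open NumberField Module

namespace QTow

theorem dabs_eq (K : SF) [NumberField K] : dabs K = |((discr K : ℤ) : ℝ)| := by
  unfold dabs
  rw [dif_pos (inferInstance : FiniteDimensional ℚ K)]

theorem one_le_dabs (K : SF) [NumberField K] : 1 ≤ dabs K := by
  rw [dabs_eq]
  have h : (1 : ℤ) ≤ |discr K| := Int.one_le_abs (discr_ne_zero K)
  exact_mod_cast h

theorem dabs_int (K : SF) : ∃ n : ℕ, dabs K = n := by
  unfold dabs
  split_ifs with h
  · refine ⟨(@NumberField.discr K _ (numberField_of K h)).natAbs, ?_⟩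
    rw [← Int.cast_abs, Int.abs_eq_natAbs]
    simp
  · exact ⟨0, by simp⟩

theorem finite_dabs (X : ℝ) : {K : SF | FiniteDimensional ℚ K ∧ dabs K ≤ X}.Finite := by
  have h := NumberField.finite_of_discr_bdd ℂ ⌊X⌋₊
  refine (h.image Subtype.val).subset ?_
  rintro K ⟨hK, hX⟩
  have hKn : NumberField K := numberField_of K hK
  refine ⟨⟨K, hK⟩, ?_, rfl⟩
  simp only [Set.mem_ofPred_eq]
  rw [dabs_eq] at hX
  have h1 : (((discr K).natAbs : ℕ) : ℝ) ≤ X := by
    rw [Nat.cast_natAbs, Int.cast_abs]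
    exact hX
  have h2 : (discr K).natAbs ≤ ⌊X⌋₊ := Nat.le_floor h1
  rw [Int.abs_eq_natAbs]
  exact_mod_cast h2

theorem dabs_iso {K L : SF} (e : K ≃ₐ[ℚ] L) : dabs K = dabs L := by
  by_cases h : FiniteDimensional ℚ K
  · have hK : NumberField K := numberField_of K h
    have h' : FiniteDimensional ℚ L := LinearEquiv.finiteDimensional e.toLinearEquiv
    have hL : NumberField L := numberField_of L h'
    rw [dabs_eq, dabs_eq, discr_eq_discr_of_algEquiv K e]
  · have h' : ¬ FiniteDimensional ℚ L := fun h' =>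
      h (LinearEquiv.finiteDimensional e.symm.toLinearEquiv)
    unfold dabs
    rw [dif_neg h, dif_neg h']

theorem deg_iso {K L : SF} (e : K ≃ₐ[ℚ] L) : deg K = deg L := e.toLinearEquiv.finrank_eq

theorem deg_pos (K : SF) [NumberField K] : 0 < deg K := Module.finrank_pos

theorem quad_numberField {F K : SF} (h : K ∈ Quad F) : NumberField K := numberField_of K h.1

theorem quad_base {F K : SF} (h : K ∈ Quad F) : NumberField F := by
  have := h.1
  exact numberField_of F (FiniteDimensional.of_injective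
    (IntermediateField.inclusion h.2.1).toLinearMap (IntermediateField.inclusion_injective h.2.1))

private lemma sf_tower {F K : SF} (h : F ≤ K) :
    letI := (IntermediateField.inclusion h).toAlgebra
    IsScalarTower ℚ F K := by
  letI := (IntermediateField.inclusion h).toAlgebra
  exact IsScalarTower.of_algebraMap_eq fun x => ((IntermediateField.inclusion h).commutes x).symm

theorem finrank_quad {F K : SF} (h : K ∈ Quad F) :
    letI := (IntermediateField.inclusion h.2.1).toAlgebra
    finrank F K = 2 := by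
  letI := (IntermediateField.inclusion h.2.1).toAlgebra
  have hF := quad_base h
  have hK := quad_numberField h
  have := sf_tower h.2.1
  have h1 := Module.finrank_mul_finrank ℚ F K
  have h2 : finrank ℚ K = 2 * finrank ℚ F := h.2.2
  have h3 : 0 < finrank ℚ F := deg_pos F
  rw [h2] at h1
  have : finrank ℚ F * finrank F K = finrank ℚ F * 2 := by rw [h1]; ring
  exact Nat.eq_of_mul_eq_mul_left h3 this

private lemma sf_sq_le (F K : Type) [Field F] [NumberField F] [Field K] [NumberField K]
    [Algebra F K] (h2 : finrank F K = 2) : |discr F| ^ 2 ≤ |discr K| := by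
  have h := natAbs_discr_eq_absNorm_differentIdeal_mul_natAbs_discr_pow F (𝓞 F) K (𝓞 K)
  rw [h2] at h
  have h0 : 0 < (discr K).natAbs := Int.natAbs_pos.2 (discr_ne_zero K)
  have h1 : 1 ≤ Ideal.absNorm (differentIdeal (𝓞 F) (𝓞 K)) := by
    rcases Nat.eq_zero_or_pos (Ideal.absNorm (differentIdeal (𝓞 F) (𝓞 K))) with h3 | h3
    · rw [h3, zero_mul] at h
      omega
    · exact h3
  have h4 : (discr F).natAbs ^ 2 ≤ (discr K).natAbs := by
    rw [h]
    exact Nat.le_mul_of_pos_left _ h1
  rw [Int.abs_eq_natAbs, Int.abs_eq_natAbs]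
  exact_mod_cast h4

theorem sq_le {F K : SF} (h : K ∈ Quad F) : dabs F ^ 2 ≤ dabs K := by
  have hF := quad_base h
  have hK := quad_numberField h
  letI := (IntermediateField.inclusion h.2.1).toAlgebra
  have h2 := sf_sq_le F K (finrank_quad h)
  rw [dabs_eq, dabs_eq]
  exact_mod_cast h2

private lemma sf_sqrt (F K : Type) [Field F] [CharZero F] [Field K] [Algebra F K]
    (h2 : finrank F K = 2) :
    ∃ s : K, s ∉ (algebraMap F K).range ∧ s ^ 2 ∈ (algebraMap F K).range := by
  have hfd : FiniteDimensional F K := FiniteDimensional.of_finrank_pos (by omega)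
  obtain ⟨y, hy⟩ : ∃ y : K, y ∉ (algebraMap F K).range := by
    by_contra hcon
    push Not at hcon
    have h3 : Function.Surjective (algebraMap F K) := fun y => hcon y
    have h4 : finrank F K ≤ 1 := by
      refine finrank_le_one (1 : K) fun w => ?_
      obtain ⟨c, hc⟩ := h3 w
      exact ⟨c, by rw [← hc, Algebra.smul_def, mul_one]⟩
    omega
  have hint : IsIntegral F y := Algebra.IsIntegral.isIntegral y
  have h3 : (minpoly F y).natDegree = 2 := by
    have h4 : (minpoly F y).natDegree ≤ 2 := h2 ▸ minpoly.natDegree_le y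
    have h5 := minpoly.natDegree_pos hint
    have h6 : (minpoly F y).natDegree ≠ 1 := fun h => hy (minpoly.natDegree_eq_one_iff.1 h)
    omega
  have h4 := minpoly.aeval F y
  rw [(minpoly.monic hint).as_sum, h3] at h4
  simp only [Finset.sum_range_succ, Finset.sum_range_zero, map_add, map_mul, map_pow,
    Polynomial.aeval_X, Polynomial.aeval_C, pow_zero, mul_one, pow_one, zero_add] at h4
  obtain ⟨b, hb⟩ : ∃ b, b = (minpoly F y).coeff 0 := ⟨_, rfl⟩
  obtain ⟨a, ha⟩ : ∃ a, a = (minpoly F y).coeff 1 := ⟨_, rfl⟩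
  rw [← hb, ← ha] at h4
  have h2F : (2 : F) ≠ 0 := two_ne_zero
  refine ⟨y + algebraMap F K (a / 2), fun h => hy ?_, ?_⟩
  · have : y = (y + algebraMap F K (a / 2)) - algebraMap F K (a / 2) := by ring
    rw [this]
    exact sub_mem h ⟨_, rfl⟩
  · refine ⟨a ^ 2 / 4 - b, ?_⟩
    have e1 : algebraMap F K a = 2 * algebraMap F K (a / 2) := by
      rw [← map_ofNat (algebraMap F K) 2, ← map_mul]
      congr 1
      field_simp
    have e2 : algebraMap F K (a ^ 2 / 4) = algebraMap F K (a / 2) ^ 2 := by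
      rw [← map_pow]
      congr 1
      ring
    rw [map_sub, e2]
    rw [e1] at h4
    linear_combination (-1 : K) * h4

theorem exists_sqrt_mem {F K : SF} (h : K ∈ Quad F) : ∃ s : ℂ, s ∈ K ∧ s ∉ F ∧ s ^ 2 ∈ F := by
  letI := (IntermediateField.inclusion h.2.1).toAlgebra
  obtain ⟨s, hs1, hs2⟩ := sf_sqrt F K (finrank_quad h)
  refine ⟨s, s.2, fun hs => hs1 ⟨⟨s, hs⟩, Subtype.ext rfl⟩, ?_⟩
  obtain ⟨a, ha⟩ := hs2
  have : ((algebraMap F K a : K) : ℂ) = (s : ℂ) ^ 2 := by rw [ha]; rfl
  rw [← this]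
  exact a.2

private lemma sf_dvd {F M : SF} (h : F ≤ M) [FiniteDimensional ℚ M] : deg F ∣ deg M := by
  letI := (IntermediateField.inclusion h).toAlgebra
  have := sf_tower h
  exact ⟨_, (Module.finrank_mul_finrank ℚ F M).symm⟩

private lemma sf_eq {F K M : SF} (h : K ∈ Quad F) (h1 : F ≤ M) (h2 : M ≤ K) {s : ℂ} (hs : s ∈ M)
    (hF : s ∉ F) : M = K := by
  have hKn := quad_numberField h
  have hKf : FiniteDimensional ℚ K := h.1
  have hMf : FiniteDimensional ℚ M := FiniteDimensional.of_injective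
    (IntermediateField.inclusion h2).toLinearMap (IntermediateField.inclusion_injective h2)
  have hMn := numberField_of M hMf
  have hFn := quad_base h
  obtain ⟨k, hk⟩ := sf_dvd h1
  have h3 : deg M ≤ 2 * deg F := by
    rw [← h.2.2]
    exact LinearMap.finrank_le_finrank_of_injective
      (f := (IntermediateField.inclusion h2).toLinearMap)
      (IntermediateField.inclusion_injective h2)
  have h4 := deg_pos F
  have h5 := deg_pos M
  have hk2 : k ≤ 2 := by
    by_contra hcon
    push Not at hcon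
    rw [hk] at h3
    nlinarith
  have hk0 : k ≠ 0 := by
    rintro rfl
    rw [hk] at h5
    omega
  have hk1 : k ≠ 1 := by
    rintro rfl
    rw [mul_one] at hk
    have := IntermediateField.eq_of_le_of_finrank_eq h1 hk.symm
    rw [this] at hF
    exact hF hs
  have hk' : k = 2 := by omega
  refine IntermediateField.eq_of_le_of_finrank_eq h2 ?_
  have h6 : deg M = deg K := by rw [hk, hk', h.2.2]; ring
  exact h6

theorem eq_of_mem {F K K' : SF} (h : K ∈ Quad F) (h' : K' ∈ Quad F) {s : ℂ} (hs : s ∈ K)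
    (hs' : s ∈ K') (hF : s ∉ F) : K = K' := by
  have h1 := sf_eq h (M := K ⊓ K') (le_inf h.2.1 h'.2.1) inf_le_left ⟨hs, hs'⟩ hF
  have h2 := sf_eq h' (M := K ⊓ K') (le_inf h.2.1 h'.2.1) inf_le_right ⟨hs, hs'⟩ hF
  rw [← h1]
  nth_rewrite 2 [← h2]
  rfl

theorem exists_quad (F : SF) [NumberField F] {s : ℂ} (hs : s ^ 2 ∈ F) (hF : s ∉ F) :
    ∃ K : SF, K ∈ Quad F ∧ s ∈ K := by
  obtain ⟨p, hp⟩ : ∃ p : Polynomial F, p = Polynomial.X ^ 2 - Polynomial.C ⟨s ^ 2, hs⟩ := ⟨_, rfl⟩
  have hpm : p.Monic := by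
    rw [hp]
    exact Polynomial.monic_X_pow_sub_C _ two_ne_zero
  have hp0 : Polynomial.aeval s p = 0 := by
    rw [hp]
    simp only [map_sub, map_pow, Polynomial.aeval_X, Polynomial.aeval_C]
    exact sub_self _
  have hint : IsIntegral F s := ⟨p, hpm, hp0⟩
  have h1 : (minpoly F s).natDegree = 2 := by
    have h2 : (minpoly F s).natDegree ≤ 2 := by
      have h3 := Polynomial.natDegree_le_of_dvd (minpoly.dvd F s hp0) hpm.ne_zero
      rwa [hp, Polynomial.natDegree_X_pow_sub_C] at h3
    have h5 := minpoly.natDegree_pos hint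
    have h6 : (minpoly F s).natDegree ≠ 1 := by
      intro h
      obtain ⟨a, ha⟩ := minpoly.natDegree_eq_one_iff.1 h
      apply hF
      rw [← ha]
      exact a.2
    omega
  have h2 : finrank F (IntermediateField.adjoin F {s}) = 2 := by
    rw [IntermediateField.adjoin.finrank hint, h1]
  have hfd : FiniteDimensional F (IntermediateField.adjoin F {s}) :=
    FiniteDimensional.of_finrank_pos (by omega)
  have hfd' : FiniteDimensional ℚ (IntermediateField.adjoin F {s}) :=
    FiniteDimensional.trans ℚ F _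
  refine ⟨(IntermediateField.adjoin F {s}).restrictScalars ℚ, ⟨hfd', ?_, ?_⟩, ?_⟩
  · intro x hx
    exact (IntermediateField.adjoin F {s}).algebraMap_mem ⟨x, hx⟩
  · have h3 := Module.finrank_mul_finrank ℚ F (IntermediateField.adjoin F {s})
    rw [h2] at h3
    have h4 : deg ((IntermediateField.adjoin F {s}).restrictScalars ℚ) =
        finrank ℚ (IntermediateField.adjoin F {s}) := rfl
    rw [h4, ← h3]
    unfold deg
    ring
  · exact IntermediateField.mem_adjoin_simple_self F s

private lemma sf_conj (F K : Type) [Field F] [CharZero F] [Field K] [Algebra F K]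
    (h2 : finrank F K = 2) :
    ∃ σ : K ≃ₐ[F] K, σ ≠ 1 ∧ (∀ x : K, σ x = x ↔ x ∈ (algebraMap F K).range) ∧
      ∀ τ : K ≃ₐ[F] K, τ = 1 ∨ τ = σ := by
  have hq : Algebra.IsQuadraticExtension F K := { finrank_eq_two' := h2 }
  have hfd : FiniteDimensional F K := FiniteDimensional.of_finrank_pos (by omega)
  have hgal : IsGalois F K := inferInstance
  have hcard : Nat.card (K ≃ₐ[F] K) = 2 := by
    rw [IsGalois.card_aut_eq_finrank, h2]
  have hfin : Finite (K ≃ₐ[F] K) := Nat.finite_of_card_ne_zero (by omega)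
  obtain ⟨σ, hσ⟩ : ∃ σ : K ≃ₐ[F] K, σ ≠ 1 := by
    by_contra hcon
    push Not at hcon
    have : Subsingleton (K ≃ₐ[F] K) := ⟨fun a b => by rw [hcon a, hcon b]⟩
    have := Nat.card_of_subsingleton (1 : K ≃ₐ[F] K)
    omega
  have hall : ∀ τ : K ≃ₐ[F] K, τ = 1 ∨ τ = σ := by
    intro τ
    by_contra hcon
    push Not at hcon
    have h3 : ({1, σ, τ} : Set (K ≃ₐ[F] K)).ncard = 3 := by
      classical
      rw [Set.ncard_eq_toFinset_card']
      rw [Set.toFinset_insert, Set.toFinset_insert, Set.toFinset_singleton,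
        Finset.card_insert_of_notMem, Finset.card_insert_of_notMem, Finset.card_singleton]
      · simp only [Finset.mem_singleton]
        exact fun h => hcon.2 h.symm
      · simp only [Finset.mem_insert, Finset.mem_singleton, not_or]
        exact ⟨fun h => hσ h.symm, fun h => hcon.1 h.symm⟩
    have h4 := Set.ncard_le_card ({1, σ, τ} : Set (K ≃ₐ[F] K))
    omega
  refine ⟨σ, hσ, fun x => ?_, hall⟩
  constructor
  · intro hx
    refine (IsGalois.mem_range_algebraMap_iff_fixed x).2 fun f => ?_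
    rcases hall f with rfl | rfl
    · rfl
    · exact hx
  · rintro ⟨a, rfl⟩
    exact σ.commutes a

theorem exists_conj {F K : SF} (h : K ∈ Quad F) :
    ∃ σ : K ≃ₐ[ℚ] K, σ ≠ 1 ∧ (∀ x : K, σ x = x ↔ (x : ℂ) ∈ F) ∧ (∀ x, σ (σ x) = x) ∧
      ∀ τ : K ≃ₐ[ℚ] K, (∀ x : K, (x : ℂ) ∈ F → τ x = x) → τ = 1 ∨ τ = σ := by
  letI := (IntermediateField.inclusion h.2.1).toAlgebra
  have := sf_tower h.2.1
  have hr : ∀ x : K, x ∈ (algebraMap F K).range ↔ (x : ℂ) ∈ F := by
    intro x
    constructor
    · rintro ⟨a, ha⟩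
      rw [← ha]
      exact a.2
    · intro hx
      exact ⟨⟨x, hx⟩, Subtype.ext rfl⟩
  obtain ⟨σ, h1, h2, h3⟩ := sf_conj F K (finrank_quad h)
  refine ⟨σ.restrictScalars ℚ, fun hσ => h1 ?_, fun x => ?_, fun x => ?_, fun τ hτ => ?_⟩
  · ext x
    have := congrArg (fun f : K ≃ₐ[ℚ] K => f x) hσ
    exact congrArg Subtype.val this
  · rw [← hr x, ← h2 x]
    rfl
  · change σ (σ x) = x
    rcases h3 (σ * σ) with h4 | h4
    · exact congrArg (fun f : K ≃ₐ[F] K => f x) h4
    · exact absurd (mul_eq_left.1 h4) h1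
  · obtain ⟨τ', hτ'⟩ : ∃ τ' : K ≃ₐ[F] K, ∀ x, τ' x = τ x :=
      ⟨{ τ with commutes' := fun a => hτ _ a.2 }, fun x => rfl⟩
    rcases h3 τ' with h4 | h4
    · left
      ext x
      rw [← hτ' x, h4]
      rfl
    · right
      ext x
      rw [← hτ' x, h4]
      rfl

theorem unique_base {F F' K : SF} (h : K ∈ Quad F) (h' : K ∈ Quad F')
    (hK : Nat.card (K ≃ₐ[ℚ] K) = 2) : F = F' := by
  obtain ⟨σ, h1, h2, -, -⟩ := exists_conj h
  obtain ⟨σ', h1', h2', -, -⟩ := exists_conj h'
  have hfin : Finite (K ≃ₐ[ℚ] K) := Nat.finite_of_card_ne_zero (by omega)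
  have he : σ = σ' := by
    by_contra hcon
    have h3 : ({1, σ, σ'} : Set (K ≃ₐ[ℚ] K)).ncard = 3 := by
      classical
      rw [Set.ncard_eq_toFinset_card']
      rw [Set.toFinset_insert, Set.toFinset_insert, Set.toFinset_singleton,
        Finset.card_insert_of_notMem, Finset.card_insert_of_notMem, Finset.card_singleton]
      · simp only [Finset.mem_singleton]
        exact hcon
      · simp only [Finset.mem_insert, Finset.mem_singleton, not_or]
        exact ⟨fun h => h1 h.symm, fun h => h1' h.symm⟩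
    have h4 := Set.ncard_le_card ({1, σ, σ'} : Set (K ≃ₐ[ℚ] K))
    omega
  ext x
  constructor
  · intro hx
    have h3 := (h2 ⟨x, h.2.1 hx⟩).2 hx
    rw [he] at h3
    exact (h2' ⟨x, h.2.1 hx⟩).1 h3
  · intro hx
    have h3 := (h2' ⟨x, h'.2.1 hx⟩).2 hx
    rw [← he] at h3
    exact (h2 ⟨x, h'.2.1 hx⟩).1 h3

theorem aut_le (K : SF) [NumberField K] :
    0 < Nat.card (K ≃ₐ[ℚ] K) ∧ Nat.card (K ≃ₐ[ℚ] K) ≤ deg K := by
  refine ⟨Nat.card_pos, ?_⟩
  rw [Nat.card_eq_fintype_card]
  exact AlgEquiv.card_le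

theorem iso_finite (F : SF) [NumberField F] : {L : SF | Nonempty (F ≃ₐ[ℚ] L)}.Finite := by
  refine (finite_dabs (dabs F)).subset ?_
  rintro L ⟨e⟩
  exact ⟨LinearEquiv.finiteDimensional e.toLinearEquiv, (dabs_iso e).ge⟩

end QTow
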