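import Pool.Agent.Lib.MP_44a56e_nt.Defs2
import Pool.Agent.Lib.MP_44a56e_nt.SFBasic
import Pool.Agent.Lib.MP_44a56e_nt.ConeU
import Pool.Agent.Lib.MP_44a56e_nt.ParamA

/-! # MP_44a56e_nt, module ParamB: the parametrization of the quadratic extensions.

PROOF of `ratio_mem`: `K ∈ Quad F`, `s, t ∈ K \ F` with squares in `F`: every element of `K` is
`a + b s` with `a, b ∈ F` (degree two); `t = a + b s`, `t² = a² + b² s² + 2 a b s ∈ F`, so `a b = 0`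
(`s ∉ F`), `b ≠ 0` (`t ∉ F`), so `a = 0`, `t = b s`. (Or with the automorphism `σ` of `exists_conj`:
`σ s = - s`, `σ t = - t`, so `σ (t / s) = t / s`.)
PROOF of `param`. `h, 𝔟` from `exists_reps`, `r, u` from `exists_units`. For `X` real let `Ω` be the
(finite) set of triples `(i, k, α)` with `SqF (𝔟 i) α`, `InCone α` and `K ∈ Quad F`, `dabs K ≤ X`,
`s ∈ K \ F`, `s² = u_k α` for some `K`, `s`. Such a `K` is unique (`eq_of_mem`, `s` is determined up to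
sign). Claim: for every `K ∈ Quad F` exactly `w = torsionOrder F` triples belong to `K`. Choose
`s₀ ∈ K \ F`, `s₀² = β ∈ F`, `β ≠ 0` (`exists_sqrt_mem`) and by `exists_reps` `i₀, α₀, l₀` with
`SqF (𝔟 i₀) α₀`, `α₀ = l₀² β`, so `α₀ = t₀²`, `t₀ = l₀ s₀ ∈ K \ F`. If `(i, k, α)` belongs to `K` with
`s² = u_k α` then `s = l t₀`, `l ∈ F` (`ratio_mem`), `u_k α = l² α₀`, `SqF (𝔟 i) (u_k α)`
(`sqf_unit_mul`), so `i = i₀` and `l = v` is a unit; `α = η α₀` with the unit `η = u_k⁻¹ v²`.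
Conversely for each unit `η` with `InCone (η α₀)` there is exactly one `k` with `η u_k = v²`, and then
`(i₀, k, η α₀)` belongs to `K` (`s = v t₀`). So the triples correspond to
`{η | InCone (η α₀)}` which has `w` elements (`card_units_inCone`).
Finiteness of the sets of `α` (needed for `Nat.card`): they are finite as `Ω` is the union of finite
fibres over the finite set of `K` (`finite_dabs`). -/

open NumberField Module

namespace QTow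

private theorem conj_neg {F K : SF} (σ : K ≃ₐ[ℚ] K) (hσ : ∀ x : K, σ x = x ↔ (x : ℂ) ∈ F)
    {s : ℂ} (hs : s ∈ K) (hsF : s ∉ F) (hs2 : s ^ 2 ∈ F) :
    σ ⟨s, hs⟩ = -⟨s, hs⟩ := by
  have h1 : σ ((⟨s, hs⟩ : K) ^ 2) = (⟨s, hs⟩ : K) ^ 2 := (hσ _).2 (by simpa using hs2)
  rw [map_pow] at h1
  rcases sq_eq_sq_iff_eq_or_eq_neg.mp h1 with h2 | h2
  · exact absurd ((hσ _).1 h2) hsF
  · exact h2

theorem ratio_mem {F K : SF} (h : K ∈ Quad F) {s t : ℂ} (hs : s ∈ K) (hsF : s ∉ F)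
    (hs2 : s ^ 2 ∈ F) (ht : t ∈ K) (htF : t ∉ F) (ht2 : t ^ 2 ∈ F) :
    ∃ l : F, t = (l : ℂ) * s := by
  obtain ⟨σ, _, hσ, _, _⟩ := exists_conj h
  have h1 := conj_neg σ hσ hs hsF hs2
  have h2 := conj_neg σ hσ ht htF ht2
  have hs0 : s ≠ 0 := fun h0 => hsF (by rw [h0]; exact zero_mem F)
  have h3 : σ ((⟨t, ht⟩ : K) / ⟨s, hs⟩) = (⟨t, ht⟩ : K) / ⟨s, hs⟩ := by
    rw [map_div₀, h1, h2, neg_div_neg_eq]
  have h4 : ((((⟨t, ht⟩ : K) / ⟨s, hs⟩ : K)) : ℂ) ∈ F := (hσ _).1 h3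
  have h5 : ((((⟨t, ht⟩ : K) / ⟨s, hs⟩ : K)) : ℂ) = t / s := by simp
  rw [h5] at h4
  exact ⟨⟨t / s, h4⟩, by field_simp⟩

/-- The integer `β` of `F` has a square root in `K` which is not in `F`. -/
def Rt (F K : SF) (β : 𝓞 F) : Prop := ∃ s : ℂ, s ∈ K ∧ s ∉ F ∧ s ^ 2 = ((β : F) : ℂ)

private theorem rt_unique {F K K' : SF} (h : K ∈ Quad F) (h' : K' ∈ Quad F) {β : 𝓞 F}
    (r : Rt F K β) (r' : Rt F K' β) : K = K' := by
  obtain ⟨s, hs, hsF, hs2⟩ := r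
  obtain ⟨t, ht, htF, ht2⟩ := r'
  have h1 : s = t ∨ s = -t := sq_eq_sq_iff_eq_or_eq_neg.mp (hs2.trans ht2.symm)
  have hsK' : s ∈ K' := by
    rcases h1 with h1 | h1
    · rw [h1]; exact ht
    · rw [h1]; exact neg_mem ht
  exact eq_of_mem h h' hs hsK' hsF

/-- The triples belonging to `K`. -/
private def Fib (F : SF) [NumberField F] {h r : ℕ} (𝔟 : Fin h → Ideal (𝓞 F))
    (u : Fin r → (𝓞 F)ˣ) (K : SF) : Type :=
  {p : Fin h × Fin r × 𝓞 F // SqF (𝔟 p.1) p.2.2 ∧ InCone F p.2.2 ∧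
    Rt F K ((u p.2.1 : 𝓞 F) * p.2.2)}

private theorem card_fib (F : SF) [NumberField F] {h r : ℕ} (𝔟 : Fin h → Ideal (𝓞 F))
    (u : Fin r → (𝓞 F)ˣ)
    (hex : ∀ β : F, β ≠ 0 → ∃ (i : Fin h) (α : 𝓞 F) (l : F), l ≠ 0 ∧ SqF (𝔟 i) α ∧
        (α : F) = l ^ 2 * β)
    (hun : ∀ (i i' : Fin h) (α α' : 𝓞 F) (l : F), SqF (𝔟 i) α → SqF (𝔟 i') α' →
        (α' : F) = l ^ 2 * (α : F) → i = i' ∧ ∃ v : (𝓞 F)ˣ, ((v : 𝓞 F) : F) = l)
    (hu : ∀ η : (𝓞 F)ˣ, ∃! k : Fin r, ∃ v : (𝓞 F)ˣ, η * u k = v ^ 2)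
    {K : SF} (hK : K ∈ Quad F) : Nat.card (Fib F 𝔟 u K) = Units.torsionOrder F := by
  obtain ⟨s₀, hs₀, hs₀F, hs₀2⟩ := exists_sqrt_mem hK
  have hs₀0 : s₀ ≠ 0 := fun h0 => hs₀F (by rw [h0]; exact zero_mem F)
  obtain ⟨i₀, α₀, l₀, hl₀, hα₀, hα₀e⟩ := hex ⟨s₀ ^ 2, hs₀2⟩ (by
    intro h0
    have := congrArg (fun x : F => (x : ℂ)) h0
    simp only [ZeroMemClass.coe_zero] at this
    exact hs₀0 (pow_eq_zero_iff (two_ne_zero) |>.1 this))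
  set t₀ : ℂ := (l₀ : ℂ) * s₀ with ht₀
  have ht₀2 : t₀ ^ 2 = ((α₀ : F) : ℂ) := by
    rw [hα₀e, ht₀]; push_cast; ring
  have hl₀c : (l₀ : ℂ) ≠ 0 := fun h0 => hl₀ (by exact_mod_cast h0)
  have ht₀K : t₀ ∈ K := mul_mem (hK.2.1 l₀.2) hs₀
  have ht₀F : t₀ ∉ F := by
    intro h0
    apply hs₀F
    have : s₀ = t₀ * (l₀ : ℂ)⁻¹ := by rw [ht₀]; field_simp
    rw [this]
    exact mul_mem h0 (inv_mem l₀.2)
  have ht₀0 : t₀ ≠ 0 := fun h0 => ht₀F (by rw [h0]; exact zero_mem F)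
  have hα₀0 : α₀ ≠ 0 := by
    intro h0
    rw [h0] at ht₀2
    exact ht₀0 (pow_eq_zero_iff (two_ne_zero) |>.1 (by rw [ht₀2]; simp))
  have ht₀2F : t₀ ^ 2 ∈ F := by rw [ht₀2]; exact (α₀ : F).2
  choose κ hκ hκu using hu
  simp only at hκ hκu
  choose v hv using hκ
  have key : ∀ η : (𝓞 F)ˣ, Rt F K ((u (κ η) : 𝓞 F) * ((η : 𝓞 F) * α₀)) := by
    intro η
    have hvF : ((((v η : (𝓞 F)ˣ) : 𝓞 F) : F) : ℂ) ≠ 0 := by
      simp
    refine ⟨(((v η : 𝓞 F) : F) : ℂ) * t₀, mul_mem (hK.2.1 ((v η : 𝓞 F) : F).2) ht₀K, ?_, ?_⟩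
    · intro h0
      apply ht₀F
      have h1 : t₀ = (((v η : 𝓞 F) : F) : ℂ)⁻¹ * ((((v η : 𝓞 F) : F) : ℂ) * t₀) := by
        field_simp
      rw [h1]
      exact mul_mem (inv_mem ((v η : 𝓞 F) : F).2) h0
    · rw [mul_pow, ht₀2]
      have h2 : ((η : 𝓞 F)) * (u (κ η) : 𝓞 F) = (v η : 𝓞 F) ^ 2 := by
        have := congrArg (fun x : (𝓞 F)ˣ => (x : 𝓞 F)) (hv η)
        simpa using this
      have h3 : (u (κ η) : 𝓞 F) * ((η : 𝓞 F) * α₀) = (v η : 𝓞 F) ^ 2 * α₀ := by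
        rw [← h2]; ring
      rw [h3]
      push_cast
      rfl
  let f : {η : (𝓞 F)ˣ // InCone F ((η : 𝓞 F) * α₀)} → Fib F 𝔟 u K := fun η =>
    ⟨(i₀, κ η.1, (η.1 : 𝓞 F) * α₀), (sqf_unit_mul F (𝔟 i₀) α₀ η.1).2 hα₀, η.2, key η.1⟩
  have hf : Function.Bijective f := by
    constructor
    · rintro ⟨η, hη⟩ ⟨η', hη'⟩ he
      have h1 : (η : 𝓞 F) * α₀ = (η' : 𝓞 F) * α₀ :=
        congrArg (fun p : Fib F 𝔟 u K => p.1.2.2) he
      have h2 : (η : 𝓞 F) = (η' : 𝓞 F) := mul_right_cancel₀ hα₀0 h1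
      exact Subtype.ext (Units.ext h2)
    · rintro ⟨⟨i, k, α⟩, hα, hc, s, hs, hsF, hs2⟩
      simp only at hα hc hs2
      have hs2F : s ^ 2 ∈ F := by rw [hs2]; exact (((u k : 𝓞 F) * α : 𝓞 F) : F).2
      obtain ⟨l, hl⟩ := ratio_mem hK ht₀K ht₀F ht₀2F hs hsF hs2F
      have h1 : ((((u k : 𝓞 F) * α : 𝓞 F) : F)) = l ^ 2 * (α₀ : F) := by
        apply Subtype.ext
        rw [← hs2, hl, mul_pow, ht₀2]
        push_cast
        rfl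
      obtain ⟨hi, w, hw⟩ := hun i₀ i α₀ ((u k : 𝓞 F) * α) l hα₀
        ((sqf_unit_mul F (𝔟 i) α (u k)).2 hα) h1
      have h2 : (u k : 𝓞 F) * α = (w : 𝓞 F) ^ 2 * α₀ := by
        apply RingOfIntegers.coe_injective
        refine h1.trans ?_
        rw [← hw, map_mul, map_pow]
      have h3 : ((w ^ 2 * (u k)⁻¹ : (𝓞 F)ˣ) : 𝓞 F) * α₀ = α := by
        have h4 : (u k : 𝓞 F) * (((w ^ 2 * (u k)⁻¹ : (𝓞 F)ˣ) : 𝓞 F) * α₀) = (u k : 𝓞 F) * α := by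
          rw [h2, ← mul_assoc]
          congr 1
          rw [← Units.val_mul]
          rw [mul_comm (u k), mul_assoc, inv_mul_cancel, mul_one, Units.val_pow_eq_pow_val]
        exact mul_left_cancel₀ (Units.ne_zero (u k)) h4
      have h5 : k = κ (w ^ 2 * (u k)⁻¹) := hκu _ k ⟨w, by
        rw [mul_assoc, inv_mul_cancel, mul_one]⟩
      refine ⟨⟨w ^ 2 * (u k)⁻¹, ?_⟩, ?_⟩
      · rw [h3]; exact hc
      · apply Subtype.ext
        simp only [f]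
        refine Prod.ext hi (Prod.ext h5.symm h3)
  rw [← Nat.card_eq_of_bijective f hf]
  exact card_units_inCone F hα₀0

theorem param (F : SF) [NumberField F] : ∃ (h : ℕ) (𝔟 : Fin h → Ideal (𝓞 F)) (r : ℕ)
    (u : Fin r → (𝓞 F)ˣ), 0 < h ∧ 0 < r ∧ (∀ i, 𝔟 i ≠ ⊥) ∧ ∀ X : ℝ,
      (Units.torsionOrder F : ℕ) * qcount F X = ∑ i, ∑ k, Nat.card {α : 𝓞 F //
        SqF (𝔟 i) α ∧ InCone F α ∧ ∃ K ∈ Quad F, dabs K ≤ X ∧ Rt F K ((u k : 𝓞 F) * α)} := by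
  obtain ⟨h, 𝔟, h𝔟, hex, hun⟩ := exists_reps F
  obtain ⟨r, u, hu⟩ := exists_units F
  refine ⟨h, 𝔟, r, u, ?_, ?_, h𝔟, fun X => ?_⟩
  · obtain ⟨i, _⟩ := hex 1 one_ne_zero
    exact i.pos
  · obtain ⟨k, _⟩ := hu 1
    exact k.pos
  have hfin : {K : SF | K ∈ Quad F ∧ dabs K ≤ X}.Finite :=
    (finite_dabs X).subset fun K hK => ⟨hK.1.1, hK.2⟩
  have hfib : ∀ K : SF, K ∈ Quad F → Nat.card (Fib F 𝔟 u K) = Units.torsionOrder F :=
    fun K hK => card_fib F 𝔟 u hex hun hu hK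
  have hpos : 0 < Units.torsionOrder F := Nat.pos_of_ne_zero (NeZero.ne _)
  have hfibfin : ∀ K : SF, K ∈ Quad F → Finite (Fib F 𝔟 u K) := fun K hK =>
    Nat.finite_of_card_ne_zero (by rw [hfib K hK]; exact hpos.ne')
  let Q : Type := {K : SF // K ∈ Quad F ∧ dabs K ≤ X}
  have : Finite Q := hfin.to_subtype
  let _ : Fintype Q := Fintype.ofFinite Q
  have hF : ∀ K : Q, Finite (Fib F 𝔟 u K.1) := fun K => hfibfin K.1 K.2.1
  let A : Fin h → Fin r → Type := fun i k => {α : 𝓞 F //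
        SqF (𝔟 i) α ∧ InCone F α ∧ ∃ K ∈ Quad F, dabs K ≤ X ∧ Rt F K ((u k : 𝓞 F) * α)}
  let g : (Σ K : Q, Fib F 𝔟 u K.1) → (Σ i, Σ k, A i k) := fun p =>
    ⟨p.2.1.1, p.2.1.2.1, p.2.1.2.2, p.2.2.1, p.2.2.2.1, p.1.1, p.1.2.1, p.1.2.2, p.2.2.2.2⟩
  have hg : Function.Bijective g := by
    constructor
    · rintro ⟨⟨K, hK, hKX⟩, ⟨⟨i, k, α⟩, h1, h2, h3⟩⟩ ⟨⟨K', hK', hKX'⟩, ⟨⟨i', k', α'⟩, h1', h2', h3'⟩⟩ he
      simp only [g, Sigma.mk.injEq] at he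
      obtain ⟨rfl, he⟩ := he
      have he := eq_of_heq he
      simp only [Sigma.mk.injEq] at he
      obtain ⟨rfl, he⟩ := he
      have he := congrArg Subtype.val (eq_of_heq he)
      simp only at he
      subst he
      obtain rfl := rt_unique hK hK' h3 h3'
      rfl
    · rintro ⟨i, k, α, h1, h2, K, hK, hKX, h3⟩
      exact ⟨⟨⟨K, hK, hKX⟩, ⟨(i, k, α), h1, h2, h3⟩⟩, rfl⟩
  have : Finite (Σ i, Σ k, A i k) := Finite.of_surjective g hg.2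
  have : ∀ i k, Finite (A i k) := fun i k => Finite.of_injective
    (fun a => (⟨i, k, a⟩ : Σ i, Σ k, A i k)) (by
      intro a b hab
      simp only [Sigma.mk.injEq, heq_eq_eq, true_and] at hab
      exact hab)
  have h1 : Nat.card (Σ K : Q, Fib F 𝔟 u K.1) = Nat.card (Σ i, Σ k, A i k) :=
    Nat.card_eq_of_bijective g hg
  rw [Nat.card_sigma, Nat.card_sigma] at h1
  simp only [Nat.card_sigma] at h1
  have h2 : ∑ K : Q, Nat.card (Fib F 𝔟 u K.1) = Units.torsionOrder F * qcount F X := by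
    rw [Finset.sum_congr rfl (fun K _ => hfib K.1 K.2.1)]
    rw [Finset.sum_const, smul_eq_mul, mul_comm]
    congr 1
    rw [qcount, ← Nat.card_coe_set_eq, Finset.card_univ, ← Nat.card_eq_fintype_card]
    rfl
  rw [← h2, h1]

end QTow
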