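import Pool.Agent.Lib.MP_44a56e_nt.Defs2
import Pool.Agent.Lib.MP_44a56e_nt.SFBasic
import Pool.Agent.Lib.MP_44a56e_nt.ParamB

/-! # MP_44a56e_nt, module BadAlg: quadratic extensions with more than two automorphisms.

PROOF of `bad_subset`. `E` = the set of the fields `F ⊔ F'`, `F'` a subfield of `ℂ` isomorphic to `F`
(`iso_finite`). Let `K ∈ Bad F`, `σ` from `exists_conj`. As `1 ≠ σ` are two automorphisms and the number
of automorphisms is not two (and finite), there is `τ : K ≃ₐ[ℚ] K`, `τ ≠ 1`, `τ ≠ σ`.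
Case 1: `τ` maps `F` into `F`. Then it restricts to `θ : F ≃ₐ[ℚ] F` (bijective by dimension:
`AlgHom`, `FiniteDimensional` injective endomorphism; `Algebra.IsAlgebraic.algEquivEquivAlgHom` or
`AlgEquiv.ofBijective`). `θ ≠ 1`, otherwise `τ ∈ {1, σ}` by the last clause of `exists_conj`. Take
`s ∈ K \ F` with `s² = α ∈ F` (`exists_sqrt_mem`); `t = τ s ∈ K`, `t² = θ α ∈ F`, `t ∉ F` (`τ` is
injective and maps `F` onto `F`). `ratio_mem`: `t = γ s`, `γ ∈ F`, so `θ α = γ² α`.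
Case 2: otherwise `F' = ` the image of `F` under `τ` (`F' ≤ K`, `F' ≃ F`, as an intermediate field of
`ℂ / ℚ`: `AlgHom.fieldRange` of the composition `F → K → K → ℂ`), `F' ≰ F`. `F < F ⊔ F' ≤ K` and
`[K : F] = 2` is prime, so `K = F ⊔ F' ∈ E`. -/

open NumberField Module

namespace QTow

private theorem badalg_case1 {F K : SF} [NumberField F] (h : K ∈ Quad F) (τ : K ≃ₐ[ℚ] K)
    (hne : ¬ ∀ x : K, (x : ℂ) ∈ F → τ x = x)
    (hF : ∀ x : K, (x : ℂ) ∈ F → ((τ x : K) : ℂ) ∈ F) :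
    ∃ θ : F ≃ₐ[ℚ] F, θ ≠ 1 ∧ ∃ (s : ℂ) (α γ : F), s ∈ K ∧ s ∉ F ∧ s ^ 2 = (α : ℂ) ∧
      θ α = α * γ ^ 2 := by
  let i : F →ₐ[ℚ] K := IntermediateField.inclusion h.2.1
  have hi : ∀ x : F, ((i x : K) : ℂ) = (x : ℂ) := fun x => rfl
  let g : F →ₐ[ℚ] ℂ := K.val.comp ((τ : K →ₐ[ℚ] K).comp i)
  have hg : ∀ x : F, g x = ((τ (i x) : K) : ℂ) := fun x => rfl
  have hgF : ∀ x : F, g x ∈ F.toSubalgebra := fun x => by
    rw [hg]
    exact hF (i x) (by rw [hi]; exact x.2)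
  let θ0 : F →ₐ[ℚ] F := g.codRestrict F.toSubalgebra hgF
  have hθ0 : ∀ x : F, ((θ0 x : F) : ℂ) = ((τ (i x) : K) : ℂ) := fun x => rfl
  let θ : F ≃ₐ[ℚ] F := AlgEquiv.ofBijective θ0 (Algebra.IsAlgebraic.algHom_bijective θ0)
  have hθ : ∀ x : F, ((θ x : F) : ℂ) = ((τ (i x) : K) : ℂ) := fun x => rfl
  refine ⟨θ, ?_, ?_⟩
  · intro h1
    apply hne
    intro x hx
    have h2 := hθ ⟨(x : ℂ), hx⟩
    rw [h1, AlgEquiv.one_apply] at h2
    have h3 : i ⟨(x : ℂ), hx⟩ = x := Subtype.ext rfl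
    rw [h3] at h2
    exact Subtype.ext h2.symm
  · obtain ⟨s, hs, hsF, hs2⟩ := exists_sqrt_mem h
    have ht2 : ((τ ⟨s, hs⟩ : K) : ℂ) ^ 2 = ((θ ⟨s ^ 2, hs2⟩ : F) : ℂ) := by
      have h1 : (τ ⟨s, hs⟩ : K) ^ 2 = τ (i ⟨s ^ 2, hs2⟩) := by
        rw [← map_pow]
        congr 1
      rw [hθ, ← h1]
      rfl
    have htF : ((τ ⟨s, hs⟩ : K) : ℂ) ∉ F := by
      intro hmem
      obtain ⟨y, hy⟩ := θ.surjective ⟨_, hmem⟩
      have h1 := hθ y
      rw [hy] at h1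
      have h2 : τ ⟨s, hs⟩ = τ (i y) := Subtype.ext h1
      have h3 := τ.injective h2
      apply hsF
      have h4 : s = (y : ℂ) := congrArg (fun x : K => (x : ℂ)) h3
      rw [h4]
      exact y.2
    obtain ⟨l, hl⟩ := ratio_mem h hs hsF hs2 (τ ⟨s, hs⟩ : K).2 htF (by rw [ht2]; exact (θ _).2)
    refine ⟨s, ⟨s ^ 2, hs2⟩, l, hs, hsF, rfl, ?_⟩
    apply Subtype.ext
    rw [← ht2, hl]
    push_cast
    ring

private theorem badalg_case2 {F K : SF} [NumberField F] (h : K ∈ Quad F) (τ : K ≃ₐ[ℚ] K)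
    (x : K) (hx : (x : ℂ) ∈ F) (hF : ((τ x : K) : ℂ) ∉ F) :
    ∃ L : SF, Nonempty (F ≃ₐ[ℚ] L) ∧ K = F ⊔ L := by
  have : FiniteDimensional ℚ K := h.1
  let i : F →ₐ[ℚ] K := IntermediateField.inclusion h.2.1
  let g : F →ₐ[ℚ] ℂ := K.val.comp ((τ : K →ₐ[ℚ] K).comp i)
  have hg : ∀ x : F, g x = ((τ (i x) : K) : ℂ) := fun x => rfl
  have hgK : g.fieldRange ≤ K := by
    rintro _ ⟨y, rfl⟩
    exact (τ (i y)).2
  refine ⟨g.fieldRange, ⟨AlgEquiv.ofInjectiveField g⟩, ?_⟩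
  have hle : F ⊔ g.fieldRange ≤ K := sup_le h.2.1 hgK
  have : FiniteDimensional ℚ (F ⊔ g.fieldRange : SF) :=
    FiniteDimensional.of_injective (IntermediateField.inclusion hle).toLinearMap
      (IntermediateField.inclusion_injective hle)
  have hne : F ≠ F ⊔ g.fieldRange := by
    intro he
    apply hF
    rw [he]
    apply (le_sup_right : g.fieldRange ≤ F ⊔ g.fieldRange)
    refine ⟨⟨(x : ℂ), hx⟩, ?_⟩
    rfl
  have h1 : finrank ℚ F ∣ finrank ℚ (F ⊔ g.fieldRange : SF) :=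
    IntermediateField.finrank_dvd_of_le_right le_sup_left
  have h2 : finrank ℚ (F ⊔ g.fieldRange : SF) ∣ finrank ℚ K :=
    IntermediateField.finrank_dvd_of_le_right hle
  have h3 : finrank ℚ F ≠ finrank ℚ (F ⊔ g.fieldRange : SF) := by
    intro he
    exact hne (IntermediateField.eq_of_le_of_finrank_eq le_sup_left he)
  have h4 : finrank ℚ K = 2 * finrank ℚ F := h.2.2
  have h5 : 0 < finrank ℚ F := finrank_pos
  symm
  apply IntermediateField.eq_of_le_of_finrank_eq hle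
  obtain ⟨k, hk⟩ := h1
  rw [hk, h4] at h2
  rw [hk] at h3
  rw [hk, h4, mul_comm 2]
  have h6 : k ∣ 2 := by
    have : finrank ℚ F * k ∣ finrank ℚ F * 2 := by rw [mul_comm _ 2]; exact h2
    exact Nat.dvd_of_mul_dvd_mul_left h5 this
  rcases (Nat.dvd_prime Nat.prime_two).1 h6 with rfl | rfl
  · simp at h3
  · rfl

theorem bad_subset (F : SF) [NumberField F] : ∃ E : Set SF, E.Finite ∧ ∀ K ∈ Bad F, K ∈ E ∨
    ∃ θ : F ≃ₐ[ℚ] F, θ ≠ 1 ∧ ∃ (s : ℂ) (α γ : F), s ∈ K ∧ s ∉ F ∧ s ^ 2 = (α : ℂ) ∧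
      θ α = α * γ ^ 2 := by
  refine ⟨(fun L : SF => F ⊔ L) '' {L : SF | Nonempty (F ≃ₐ[ℚ] L)}, (iso_finite F).image _, ?_⟩
  rintro K ⟨h, hcard⟩
  obtain ⟨σ, hσ1, -, -, hσ⟩ := exists_conj h
  obtain ⟨τ, hτ1, hτσ⟩ : ∃ τ : K ≃ₐ[ℚ] K, τ ≠ 1 ∧ τ ≠ σ := by
    by_contra hcon
    apply hcard
    rw [Nat.card_eq_two_iff]
    refine ⟨1, σ, hσ1.symm, ?_⟩
    ext τ
    simp only [Set.mem_insert_iff, Set.mem_singleton_iff, Set.mem_univ, iff_true]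
    by_contra h2
    push Not at h2
    exact hcon ⟨τ, h2.1, h2.2⟩
  by_cases hF : ∀ x : K, (x : ℂ) ∈ F → ((τ x : K) : ℂ) ∈ F
  · right
    refine badalg_case1 h τ (fun hx => ?_) hF
    rcases hσ τ hx with h1 | h1
    · exact hτ1 h1
    · exact hτσ h1
  · left
    push Not at hF
    obtain ⟨x, hx, hxF⟩ := hF
    obtain ⟨L, hL, hK⟩ := badalg_case2 h τ x hx hxF
    exact ⟨L, hL, hK.symm⟩

end QTow
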