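import Pool.Agent.Lib.MP_44a56e_nt.Defs2

/-! # MP_44a56e_nt, module Coset: points of a coset of a lattice in a cone.

Comparison of the coset with the lattice: if exactly one of `ℓ`, `ℓ + v` lies in the dilated set
then `ℓ` is close to the dilated frontier, and there are few such lattice points. -/

open MeasureTheory Filter Topology Module Bornology Pointwise

namespace QTow

private theorem coset_seg {E : Type*} [NormedAddCommGroup E] [NormedSpace ℝ E] (U : Set E)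
    (x v : E) (h : x ∈ U ∧ x + v ∉ U ∨ x ∉ U ∧ x + v ∈ U) :
    ∃ z ∈ frontier U, dist x z ≤ ‖v‖ := by
  by_contra hcon
  push Not at hcon
  have hS : IsPreconnected (segment ℝ x (x + v)) := (convex_segment x (x + v)).isPreconnected
  have hsub : segment ℝ x (x + v) ⊆ interior U ∪ interior Uᶜ := by
    rw [← compl_frontier_eq_union_interior]
    intro z hz hzf
    refine absurd (hcon z hzf) (not_lt.2 ?_)
    rw [segment_eq_image'] at hz
    obtain ⟨θ, hθ, rfl⟩ := hz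
    change dist x (x + θ • (x + v - x)) ≤ ‖v‖
    rw [add_sub_cancel_left, dist_self_add_right, norm_smul, Real.norm_of_nonneg hθ.1]
    exact mul_le_of_le_one_left (norm_nonneg _) hθ.2
  have hdis : interior U ∩ interior Uᶜ = ∅ :=
    Set.disjoint_iff_inter_eq_empty.1
      (disjoint_compl_right.mono interior_subset interior_subset)
  have hx : x ∈ segment ℝ x (x + v) := left_mem_segment ℝ x (x + v)
  have hy : x + v ∈ segment ℝ x (x + v) := right_mem_segment ℝ x (x + v)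
  have hin : ∀ y ∈ segment ℝ x (x + v), y ∈ U → y ∈ interior U := by
    intro y hy hU
    rcases hsub hy with h | h
    · exact h
    · exact absurd hU (interior_subset h)
  have hout : ∀ y ∈ segment ℝ x (x + v), y ∉ U → y ∈ interior Uᶜ := by
    intro y hy hU
    rcases hsub hy with h | h
    · exact absurd (interior_subset h) hU
    · exact h
  have key : (segment ℝ x (x + v) ∩ (interior U ∩ interior Uᶜ)).Nonempty := by
    refine hS _ _ isOpen_interior isOpen_interior hsub ?_ ?_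
    · rcases h with h | h
      · exact ⟨x, hx, hin x hx h.1⟩
      · exact ⟨x + v, hy, hin _ hy h.2⟩
    · rcases h with h | h
      · exact ⟨x + v, hy, hout _ hy h.2⟩
      · exact ⟨x, hx, hout x hx h.1⟩
  rw [hdis, Set.inter_empty] at key
  exact Set.not_nonempty_empty key

private theorem coset_scale {E : Type*} [NormedAddCommGroup E] [NormedSpace ℝ E]
    {X : Set E} {F : E → ℝ} {d : ℕ}
    (hX : ∀ ⦃x⦄ ⦃r : ℝ⦄, x ∈ X → 0 < r → r • x ∈ X)
    (h₁ : ∀ x ⦃r : ℝ⦄, 0 ≤ r → F (r • x) = r ^ d * (F x)) {t : ℝ} (ht : 0 < t) (x : E) :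
    t⁻¹ • x ∈ {x | x ∈ X ∧ F x ≤ 1} ↔ x ∈ X ∧ F x ≤ t ^ d := by
  rw [Set.mem_ofPred_eq, h₁ _ (inv_pos.2 ht).le, inv_pow, inv_mul_le_iff₀ (pow_pos ht _), mul_one]
  refine and_congr_left fun _ => ⟨fun h => ?_, fun h => hX h (inv_pos.2 ht)⟩
  have h2 := hX h ht
  rwa [smul_inv_smul₀ ht.ne'] at h2

private theorem coset_finite {E : Type*} [NormedAddCommGroup E] [InnerProductSpace ℝ E]
    [FiniteDimensional ℝ E] (L : Submodule ℤ E) [DiscreteTopology L] {s : Set E}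
    (hs : IsBounded s) : (s ∩ (L : Set E)).Finite := by
  refine Metric.finite_isBounded_inter_isClosed DiscreteTopology.isDiscrete hs ?_
  have h : IsClosed (L.toAddSubgroup : Set E) := AddSubgroup.isClosed_of_discrete
  exact h

/-- Lattice points close to the frontier of a dilated set. -/
private theorem coset_near {E : Type*} [NormedAddCommGroup E] [NormedSpace ℝ E] {Φ : Set E}
    {R r : ℝ} (hR : ∀ z ∈ Φ, ‖z‖ ≤ R) (v ℓ : E) {t : ℝ} {n : ℕ} (ht1 : 1 ≤ t)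
    (ht : (R + 2 * ‖v‖) / r < t) (hr : 0 < r) (hn : t ≤ n) (hn' : (n : ℝ) < t + 1)
    (h : ∃ z ∈ Φ, dist (t⁻¹ • ℓ) z ≤ ‖t⁻¹ • v‖) :
    (n : ℝ)⁻¹ • ℓ ∈ Metric.thickening r Φ := by
  obtain ⟨z, hz, hd⟩ := h
  have ht0 : 0 < t := by linarith
  have hn0 : (0 : ℝ) < n := by linarith
  rw [norm_smul, Real.norm_of_nonneg (inv_pos.2 ht0).le] at hd
  have hv := norm_nonneg v
  rw [Metric.mem_thickening_iff]
  refine ⟨z, hz, ?_⟩
  have hz' : ‖z‖ ≤ R := hR z hz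
  have h1 : ‖t⁻¹ • ℓ‖ ≤ R + t⁻¹ * ‖v‖ := by
    calc ‖t⁻¹ • ℓ‖ = ‖(t⁻¹ • ℓ - z) + z‖ := by rw [sub_add_cancel]
      _ ≤ ‖t⁻¹ • ℓ - z‖ + ‖z‖ := norm_add_le _ _
      _ ≤ t⁻¹ * ‖v‖ + R := by
          rw [← dist_eq_norm]
          exact add_le_add hd hz'
      _ = R + t⁻¹ * ‖v‖ := add_comm _ _
  have h2 : dist ((n : ℝ)⁻¹ • ℓ) (t⁻¹ • ℓ) ≤ t⁻¹ * (R + t⁻¹ * ‖v‖) := by
    have e : (n : ℝ)⁻¹ • ℓ - t⁻¹ • ℓ = (t / n - 1) • (t⁻¹ • ℓ) := by
      rw [smul_smul, ← sub_smul]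
      congr 1
      field_simp
    rw [dist_eq_norm, e, norm_smul]
    refine mul_le_mul ?_ h1 (norm_nonneg _) (inv_pos.2 ht0).le
    rw [Real.norm_eq_abs, abs_sub_comm, abs_of_nonneg]
    · rw [sub_le_iff_le_add, ← sub_le_iff_le_add', le_div_iff₀ hn0]
      have h3 : t⁻¹ * t = 1 := inv_mul_cancel₀ ht0.ne'
      have h4 : 0 < t⁻¹ := inv_pos.2 ht0
      have h5 : t⁻¹ * (n - t) ≥ 0 := mul_nonneg h4.le (by linarith)
      nlinarith
    · rw [sub_nonneg, div_le_one hn0]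
      exact hn
  have h3 : t⁻¹ ≤ 1 := inv_le_one_of_one_le₀ ht1
  have h4 : 0 < t⁻¹ := inv_pos.2 ht0
  calc dist ((n : ℝ)⁻¹ • ℓ) z ≤ dist ((n : ℝ)⁻¹ • ℓ) (t⁻¹ • ℓ) + dist (t⁻¹ • ℓ) z :=
        dist_triangle _ _ _
    _ ≤ t⁻¹ * (R + t⁻¹ * ‖v‖) + t⁻¹ * ‖v‖ := add_le_add h2 hd
    _ ≤ t⁻¹ * (R + 2 * ‖v‖) := by
        have h5 : t⁻¹ * ‖v‖ ≤ ‖v‖ := mul_le_of_le_one_left hv h3
        nlinarith
    _ < r := by
        rw [div_lt_iff₀ hr] at ht
        rw [inv_mul_lt_iff₀ ht0]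
        linarith

private theorem coset_bdd {E : Type*} [NormedAddCommGroup E] [NormedSpace ℝ E] {s : Set E}
    (hs : IsBounded s) {a : ℝ} (ha : a ≠ 0) (w : E) : IsBounded {x | a • (x + w) ∈ s} := by
  obtain ⟨R, hR⟩ := isBounded_iff_forall_norm_le.1 hs
  refine isBounded_iff_forall_norm_le.2 ⟨‖a⁻¹‖ * R + ‖w‖, fun x hx => ?_⟩
  have e : x = a⁻¹ • (a • (x + w)) - w := by
    rw [smul_smul, inv_mul_cancel₀ ha, one_smul, add_sub_cancel_right]
  calc ‖x‖ = ‖a⁻¹ • (a • (x + w)) - w‖ := by rw [← e]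
    _ ≤ ‖a⁻¹ • (a • (x + w))‖ + ‖w‖ := norm_sub_le _ _
    _ ≤ ‖a⁻¹‖ * R + ‖w‖ := by
        rw [norm_smul]
        exact add_le_add (mul_le_mul_of_nonneg_left (hR _ hx) (norm_nonneg _)) le_rfl

theorem tendsto_card_coset {E : Type*} [NormedAddCommGroup E] [InnerProductSpace ℝ E]
    [FiniteDimensional ℝ E] [MeasurableSpace E] [BorelSpace E] [Nontrivial E]
    (L : Submodule ℤ E) [DiscreteTopology L] [IsZLattice ℝ L] {X : Set E} {F : E → ℝ}
    (hX : ∀ ⦃x⦄ ⦃r : ℝ⦄, x ∈ X → 0 < r → r • x ∈ X)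
    (h₁ : ∀ x ⦃r : ℝ⦄, 0 ≤ r → F (r • x) = r ^ finrank ℝ E * (F x))
    (h₂ : IsBounded {x ∈ X | F x ≤ 1}) (h₃ : MeasurableSet {x ∈ X | F x ≤ 1})
    (h₄ : volume (frontier {x ∈ X | F x ≤ 1}) = 0) (v : E) :
    Tendsto (fun c : ℝ => (Nat.card {x : E // x ∈ X ∧ F x ≤ c ∧ x - v ∈ L} : ℝ) / c)
      atTop (𝓝 (volume.real {x ∈ X | F x ≤ 1} / ZLattice.covolume L)) := by
  set s : Set E := {x | x ∈ X ∧ F x ≤ 1} with hs
  set Φ : Set E := frontier s with hΦ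
  have hd : 0 < finrank ℝ E := finrank_pos
  set d := finrank ℝ E with hdd
  have h0 := ZLattice.covolume.tendsto_card_le_div' L hX h₁ h₂ h₃ h₄
  have hcov : 0 < ZLattice.covolume L := ZLattice.covolume_pos L volume
  suffices hdiff : Tendsto (fun c : ℝ =>
      (Nat.card {x : E // x ∈ X ∧ F x ≤ c ∧ x - v ∈ L} : ℝ) / c -
        (Nat.card ({x ∈ X | F x ≤ c} ∩ L : Set E) : ℝ) / c) atTop (𝓝 0) by
    have h5 := hdiff.add h0
    rw [zero_add] at h5
    refine h5.congr fun c => ?_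
    ring
  rw [Metric.tendsto_nhds]
  intro ε hε
  have hΦb : IsBounded Φ := h₂.closure.subset frontier_subset_closure
  obtain ⟨R, hR⟩ := isBounded_iff_forall_norm_le.1 hΦb
  have hth : Tendsto (fun r => volume (Metric.thickening r Φ)) (𝓝[>] 0) (𝓝 (volume Φ)) :=
    tendsto_measure_thickening_of_isClosed
      ⟨1, one_pos, (hΦb.thickening).measure_lt_top.ne⟩ isClosed_frontier
  rw [h₄] at hth
  have hη : (0 : ENNReal) < ENNReal.ofReal (ε / 2 ^ (d + 1) * ZLattice.covolume L) := by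
    rw [ENNReal.ofReal_pos]
    positivity
  have hev := hth.eventually (gt_mem_nhds hη)
  rw [Filter.Eventually, mem_nhdsGT_iff_exists_Ioo_subset] at hev
  obtain ⟨u, hu, hsub⟩ := hev
  obtain ⟨r, hr, hrf⟩ := exists_null_frontier_thickening (volume : Measure E) Φ
    (show (0 : ℝ) < u from hu)
  have hr0 : 0 < r := hr.1
  have hWb : IsBounded (Metric.thickening r Φ) := hΦb.thickening
  have hWv : volume.real (Metric.thickening r Φ) / ZLattice.covolume L < ε / 2 ^ (d + 1) := by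
    rw [div_lt_iff₀ hcov]
    exact ENNReal.toReal_lt_of_lt_ofReal (hsub hr)
  have hW := ZLattice.covolume.tendsto_card_div_pow' L hWb
    Metric.isOpen_thickening.measurableSet hrf
  have hWe := hW.eventually (gt_mem_nhds hWv)
  have htt : Tendsto (fun c : ℝ => c ^ ((d : ℝ)⁻¹)) atTop atTop :=
    tendsto_rpow_atTop (inv_pos.2 (Nat.cast_pos.2 hd))
  have hnn : Tendsto (fun c : ℝ => ⌈c ^ ((d : ℝ)⁻¹)⌉₊) atTop atTop :=
    tendsto_nat_ceil_atTop.comp htt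
  filter_upwards [hnn.eventually hWe, htt.eventually_ge_atTop 1,
    htt.eventually_gt_atTop ((R + 2 * ‖v‖) / r), eventually_gt_atTop 0] with c hc1 hc2 hc3 hc
  set t : ℝ := c ^ ((d : ℝ)⁻¹) with ht
  have ht0 : 0 < t := by linarith
  have htd : t ^ d = c := Real.rpow_inv_natCast_pow hc.le hd.ne'
  set n : ℕ := ⌈t⌉₊ with hn
  have hn1 : t ≤ n := Nat.le_ceil t
  have hn2 : (n : ℝ) < t + 1 := Nat.ceil_lt_add_one ht0.le
  have hn0 : (0 : ℝ) < n := by linarith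
  set A : Set E := {ℓ | ℓ ∈ L ∧ t⁻¹ • (ℓ + v) ∈ s} with hA
  set B : Set E := {ℓ | ℓ ∈ L ∧ t⁻¹ • ℓ ∈ s} with hB
  set M : Set E := {ℓ | ℓ ∈ L ∧ (n : ℝ)⁻¹ • ℓ ∈ Metric.thickening r Φ} with hM
  have hAf : A.Finite := (coset_finite L (coset_bdd h₂ (inv_pos.2 ht0).ne' v)).subset
    fun x hx => ⟨hx.2, hx.1⟩
  have hBf : B.Finite := (coset_finite L (coset_bdd h₂ (inv_pos.2 ht0).ne' 0)).subset
    fun x hx => ⟨by
      change t⁻¹ • (x + 0) ∈ s
      rw [add_zero]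
      exact hx.2, hx.1⟩
  have hMf : M.Finite := (coset_finite L (coset_bdd hWb (inv_pos.2 hn0).ne' 0)).subset
    fun x hx => ⟨by
      change (n : ℝ)⁻¹ • (x + 0) ∈ Metric.thickening r Φ
      rw [add_zero]
      exact hx.2, hx.1⟩
  have hAB : A ⊆ B ∪ M := by
    intro ℓ hℓ
    by_cases h : t⁻¹ • ℓ ∈ s
    · exact Or.inl ⟨hℓ.1, h⟩
    · right
      refine ⟨hℓ.1, coset_near hR v ℓ hc2 hc3 hr0 hn1 hn2 ?_⟩
      refine coset_seg s (t⁻¹ • ℓ) (t⁻¹ • v) (Or.inr ⟨h, ?_⟩)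
      rw [← smul_add]
      exact hℓ.2
  have hBA : B ⊆ A ∪ M := by
    intro ℓ hℓ
    by_cases h : t⁻¹ • (ℓ + v) ∈ s
    · exact Or.inl ⟨hℓ.1, h⟩
    · right
      refine ⟨hℓ.1, coset_near hR v ℓ hc2 hc3 hr0 hn1 hn2 ?_⟩
      refine coset_seg s (t⁻¹ • ℓ) (t⁻¹ • v) (Or.inl ⟨hℓ.2, ?_⟩)
      rw [← smul_add]
      exact h
  have c1 : A.ncard ≤ B.ncard + M.ncard :=
    (Set.ncard_le_ncard hAB (hBf.union hMf)).trans (Set.ncard_union_le _ _)
  have c2 : B.ncard ≤ A.ncard + M.ncard :=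
    (Set.ncard_le_ncard hBA (hAf.union hMf)).trans (Set.ncard_union_le _ _)
  have eA : Nat.card {x : E // x ∈ X ∧ F x ≤ c ∧ x - v ∈ L} = A.ncard := by
    have e : {x : E | x ∈ X ∧ F x ≤ c ∧ x - v ∈ L} = (fun x => x + v) '' A := by
      ext x
      constructor
      · rintro ⟨h1, h2, h3⟩
        refine ⟨x - v, ⟨h3, ?_⟩, sub_add_cancel x v⟩
        rw [sub_add_cancel, coset_scale hX h₁ ht0, htd]
        exact ⟨h1, h2⟩
      · rintro ⟨y, ⟨h1, h2⟩, rfl⟩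
        rw [coset_scale hX h₁ ht0, htd] at h2
        refine ⟨h2.1, h2.2, ?_⟩
        rw [add_sub_cancel_right]
        exact h1
    calc Nat.card {x : E // x ∈ X ∧ F x ≤ c ∧ x - v ∈ L} =
        Set.ncard {x : E | x ∈ X ∧ F x ≤ c ∧ x - v ∈ L} := rfl
      _ = A.ncard := by rw [e, Set.ncard_image_of_injective _ (add_left_injective v)]
  have eB : Nat.card ({x ∈ X | F x ≤ c} ∩ L : Set E) = B.ncard := by
    have e : ({x ∈ X | F x ≤ c} ∩ L : Set E) = B := by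
      ext x
      constructor
      · rintro ⟨h1, h2⟩
        refine ⟨h2, ?_⟩
        rw [coset_scale hX h₁ ht0, htd]
        exact h1
      · rintro ⟨h1, h2⟩
        rw [coset_scale hX h₁ ht0, htd] at h2
        exact ⟨h2, h1⟩
    rw [e]
    rfl
  have eM : Nat.card (Metric.thickening r Φ ∩ (n : ℝ)⁻¹ • (L : Set E) : Set E) = M.ncard := by
    have e : (Metric.thickening r Φ ∩ (n : ℝ)⁻¹ • (L : Set E) : Set E) =
        (fun x => (n : ℝ)⁻¹ • x) '' M := by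
      ext x
      constructor
      · rintro ⟨h1, y, hy, rfl⟩
        exact ⟨y, ⟨hy, h1⟩, rfl⟩
      · rintro ⟨y, ⟨h1, h2⟩, rfl⟩
        exact ⟨h2, y, h1, rfl⟩
    rw [e]
    exact Set.ncard_image_of_injective _ (smul_right_injective E (inv_pos.2 hn0).ne')
  rw [eA, eB, Real.dist_eq, sub_zero, ← sub_div, abs_div, abs_of_pos hc]
  have h6 : (M.ncard : ℝ) / (n : ℝ) ^ d < ε / 2 ^ (d + 1) := by
    rw [← eM]
    exact hc1
  have h7 : |(A.ncard : ℝ) - B.ncard| ≤ M.ncard := by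
    rw [abs_le]
    have c1' : (A.ncard : ℝ) ≤ B.ncard + M.ncard := by exact_mod_cast c1
    have c2' : (B.ncard : ℝ) ≤ A.ncard + M.ncard := by exact_mod_cast c2
    constructor <;> linarith
  have h8 : (n : ℝ) ^ d ≤ 2 ^ d * c := by
    rw [← htd, ← mul_pow]
    exact pow_le_pow_left₀ hn0.le (by linarith) d
  rw [div_lt_iff₀ (pow_pos hn0 d)] at h6
  rw [div_lt_iff₀ hc]
  calc |(A.ncard : ℝ) - B.ncard| ≤ M.ncard := h7
    _ < ε / 2 ^ (d + 1) * (n : ℝ) ^ d := h6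
    _ ≤ ε / 2 ^ (d + 1) * (2 ^ d * c) := mul_le_mul_of_nonneg_left h8 (by positivity)
    _ = ε / 2 * c := by
        rw [pow_succ]
        field_simp
    _ ≤ ε * c := by nlinarith

end QTow
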