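import Pool.Agent.Lib.MP_44a56e_nt.Defs2
import Pool.Agent.Lib.MP_44a56e_nt.Coset
import Pool.Agent.Lib.MP_44a56e_nt.ConeU

/-! # MP_44a56e_nt, module Cone: integers of a number field in the fundamental cone. -/

open NumberField Module Filter Topology

namespace QTow

section coset

open InfinitePlace mixedEmbedding euclidean fundamentalCone Submodule NumberField.Units Ideal
open scoped nonZeroDivisors Real

private theorem nrm_eq_norm (F : Type) [Field F] [NumberField F] (α : 𝓞 F) :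
    mixedEmbedding.norm (mixedEmbedding F (α : F)) = nrm F α := by
  rw [mixedEmbedding.norm_eq_norm, nrm, ← Algebra.coe_norm_int]
  push_cast
  rfl

open scoped Classical in
private theorem mem_coset (F : Type) [Field F] [NumberField F] (J : (Ideal (𝓞 F))⁰)
    (t : 𝓞 F) (Z : ℝ) (α : 𝓞 F) (h : α - t ∈ (J : Ideal (𝓞 F)) ∧ InCone F α ∧ nrm F α ≤ Z) :
    (toMixed F).symm (mixedEmbedding F (α : F)) ∈ (toMixed F) ⁻¹' fundamentalCone F ∧
      mixedEmbedding.norm (toMixed F ((toMixed F).symm (mixedEmbedding F (α : F)))) ≤ Z ∧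
      (toMixed F).symm (mixedEmbedding F (α : F)) - (toMixed F).symm (mixedEmbedding F (t : F)) ∈
        (ZLattice.comap ℝ (mixedEmbedding.idealLattice F ((FractionalIdeal.mk0 F) J))
          (toMixed F).toLinearMap) := by
  refine ⟨?_, ?_, ?_⟩
  · have h := h.2.1
    rw [Set.mem_preimage, ContinuousLinearEquiv.apply_symm_apply]
    exact h
  · rw [ContinuousLinearEquiv.apply_symm_apply, nrm_eq_norm]
    exact h.2.2
  · rw [← map_sub, ← map_sub]
    change (toMixed F) _ ∈ (mixedEmbedding.idealLattice F ((FractionalIdeal.mk0 F) J))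
    rw [ContinuousLinearEquiv.apply_symm_apply, mem_idealLattice]
    refine ⟨((α - t : 𝓞 F) : F), ?_, by push_cast; rfl⟩
    rw [FractionalIdeal.coe_mk0]
    exact ⟨α - t, h.1, rfl⟩

open scoped Classical in
private theorem coset_card (F : Type) [Field F] [NumberField F] (J : (Ideal (𝓞 F))⁰)
    (t : 𝓞 F) (Z : ℝ) :
    Nat.card {x : euclidean.mixedSpace F // x ∈ (toMixed F) ⁻¹' fundamentalCone F ∧
      mixedEmbedding.norm (toMixed F x) ≤ Z ∧
      x - (toMixed F).symm (mixedEmbedding F (t : F)) ∈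
        (ZLattice.comap ℝ (mixedEmbedding.idealLattice F ((FractionalIdeal.mk0 F) J))
          (toMixed F).toLinearMap)} =
    Nat.card {α : 𝓞 F // α - t ∈ (J : Ideal (𝓞 F)) ∧ InCone F α ∧ nrm F α ≤ Z} := by
  symm
  refine Nat.card_congr (Equiv.ofBijective
    (fun α : {α : 𝓞 F // α - t ∈ (J : Ideal (𝓞 F)) ∧ InCone F α ∧ nrm F α ≤ Z} =>
      (⟨(toMixed F).symm (mixedEmbedding F (α.1 : F)), mem_coset F J t Z α.1 α.2⟩ :
        {x : euclidean.mixedSpace F // x ∈ (toMixed F) ⁻¹' fundamentalCone F ∧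
      mixedEmbedding.norm (toMixed F x) ≤ Z ∧
      x - (toMixed F).symm (mixedEmbedding F (t : F)) ∈
        (ZLattice.comap ℝ (mixedEmbedding.idealLattice F ((FractionalIdeal.mk0 F) J))
          (toMixed F).toLinearMap)})) ⟨?_, ?_⟩)
  · intro α β h
    have h1 := congrArg Subtype.val h
    simp only at h1
    have h2 := (toMixed F).symm.injective h1
    have h3 := mixedEmbedding_injective F h2
    exact Subtype.ext (RingOfIntegers.ext h3)
  · rintro ⟨x, hx1, hx2, hx3⟩
    have hx4 : (toMixed F) (x - (toMixed F).symm (mixedEmbedding F (t : F))) ∈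
      (mixedEmbedding.idealLattice F ((FractionalIdeal.mk0 F) J)) := hx3
    rw [map_sub, ContinuousLinearEquiv.apply_symm_apply, mem_idealLattice] at hx4
    obtain ⟨y, hy, hy2⟩ := hx4
    rw [FractionalIdeal.coe_mk0] at hy
    obtain ⟨y', hy', rfl⟩ := hy
    have h5 : (toMixed F) x = mixedEmbedding F ((y' + t : 𝓞 F) : F) := by
      push_cast
      rw [map_add]
      have : mixedEmbedding F ((algebraMap (𝓞 F) F) y') = (toMixed F) x - mixedEmbedding F (t : F) :=
        hy2
      rw [this, sub_add_cancel]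
    have h6 : x = (toMixed F).symm (mixedEmbedding F ((y' + t : 𝓞 F) : F)) := by
      rw [← h5, ContinuousLinearEquiv.symm_apply_apply]
    refine ⟨⟨y' + t, by simpa using hy', ?_, ?_⟩, Subtype.ext h6.symm⟩
    · unfold InCone
      rw [← h5]
      exact hx1
    · rw [← nrm_eq_norm, ← h5]
      exact hx2

theorem cone_coset (F : Type) [Field F] [NumberField F] (I : Ideal (𝓞 F)) (hI : I ≠ ⊥)
    (t : 𝓞 F) :
    Tendsto (fun Z : ℝ => (Nat.card {α : 𝓞 F // α - t ∈ I ∧ InCone F α ∧ nrm F α ≤ Z} : ℝ) / Z)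
      atTop (𝓝 (kap F / (Ideal.absNorm I : ℝ))) := by
  classical
  have h₁ : ∀ s : ℝ,
    {x | x ∈ toMixed F ⁻¹' fundamentalCone F ∧ mixedEmbedding.norm (toMixed F x) ≤ s} =
      toMixed F ⁻¹' {x | x ∈ fundamentalCone F ∧ mixedEmbedding.norm x ≤ s} := fun _ ↦ rfl
  have h₂ : {x | x ∈ fundamentalCone F ∧ mixedEmbedding.norm x ≤ 1} = normLeOne F := by ext; simp
  let J : (Ideal (𝓞 F))⁰ := ⟨I, mem_nonZeroDivisors_of_ne_zero hI⟩
  have h₃ : (absNorm J.1 : ℝ) ≠ 0 := (Nat.cast_ne_zero.mpr (absNorm_ne_zero_of_nonZeroDivisors J))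
  have key := tendsto_card_coset (ZLattice.comap ℝ (mixedEmbedding.idealLattice F (FractionalIdeal.mk0 F J))
      (toMixed F).toLinearMap) (X := (toMixed F) ⁻¹' (fundamentalCone F))
      (F := fun x ↦ mixedEmbedding.norm (toMixed F x)) ?_ ?_ ?_ ?_ ?_
      ((toMixed F).symm (mixedEmbedding F (t : F)))
  · have hlim : MeasureTheory.volume.real {x | x ∈ (toMixed F) ⁻¹' (fundamentalCone F) ∧
        mixedEmbedding.norm (toMixed F x) ≤ 1} / ZLattice.covolume (ZLattice.comap ℝ
          (mixedEmbedding.idealLattice F (FractionalIdeal.mk0 F J)) (toMixed F).toLinearMap) =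
        kap F / (Ideal.absNorm I : ℝ) := by
      rw [h₁, h₂, MeasureTheory.measureReal_def, (volumePreserving_toMixed F).measure_preimage
        (measurableSet_normLeOne F).nullMeasurableSet, volume_normLeOne, ZLattice.covolume_comap
        _ _ _ (volumePreserving_toMixed F), covolume_idealLattice, ENNReal.toReal_mul,
        ENNReal.toReal_mul, ENNReal.toReal_pow, ENNReal.toReal_pow, ENNReal.toReal_ofNat,
        ENNReal.coe_toReal, NNReal.coe_real_pi, ENNReal.toReal_ofReal (regulator_pos F).le,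
        FractionalIdeal.coe_mk0, FractionalIdeal.coeIdeal_absNorm, Rat.cast_natCast, kap]
      have h5 : (absNorm (J : Ideal (𝓞 F)) : ℝ) = absNorm I := rfl
      rw [h5]
      have h6 : (absNorm I : ℝ) ≠ 0 := h₃
      have h7 : Real.sqrt |((discr F : ℤ) : ℝ)| ≠ 0 := by
        rw [Real.sqrt_ne_zero']
        exact abs_pos.2 (Int.cast_ne_zero.2 (discr_ne_zero F))
      push_cast
      rw [mul_pow]
      field_simp
      rw [mul_assoc, ← mul_pow]
      norm_num
    rw [hlim] at key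
    refine key.congr fun Z => ?_
    rw [coset_card F J t Z]
  · intro x r hx hr
    rwa [Set.mem_preimage, map_smul, smul_mem_iff_mem hr.ne']
  · intro x r hr
    rw [map_smul, mixedEmbedding.norm_smul, euclidean.finrank, abs_of_nonneg hr]
  · exact ((toMixed F).antilipschitz.isBounded_preimage (isBounded_normLeOne F))
  · exact (toMixed F).continuous.measurable (measurableSet_normLeOne F)
  · rw [h₁, ← (toMixed F).coe_toHomeomorph, ← Homeomorph.preimage_frontier,
      (toMixed F).coe_toHomeomorph, (volumePreserving_toMixed F).measure_preimage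
      measurableSet_frontier.nullMeasurableSet, h₂, volume_frontier_normLeOne]

end coset

theorem kap_pos (F : Type) [Field F] [NumberField F] : 0 < kap F := by
  unfold kap
  have h1 := Units.regulator_pos F
  have h2 : 0 < Real.sqrt |((discr F : ℤ) : ℝ)| :=
    Real.sqrt_pos.2 (abs_pos.2 (Int.cast_ne_zero.2 (discr_ne_zero F)))
  have h3 := Real.pi_pos
  positivity

theorem cone_finite (F : Type) [Field F] [NumberField F] (Z : ℝ) :
    {α : 𝓞 F | InCone F α ∧ nrm F α ≤ Z}.Finite := by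
  classical
  have h1 : {J : Ideal (𝓞 F) | Ideal.absNorm J ≤ ⌊Z⌋₊}.Finite :=
    Ideal.finite_setOfPred_absNorm_le _
  have h2 : ∀ J : Ideal (𝓞 F), {α : 𝓞 F | InCone F α ∧ Ideal.span {α} = J}.Finite := by
    intro J
    rcases Set.eq_empty_or_nonempty {α : 𝓞 F | InCone F α ∧ Ideal.span {α} = J} with h | h
    · rw [h]
      exact Set.finite_empty
    · obtain ⟨α₀, h0, h0'⟩ := h
      have hfin : (Set.range fun u : Units.torsion F => (((u : (𝓞 F)ˣ) : 𝓞 F) * α₀)).Finite :=
        Set.finite_range _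
      refine hfin.subset ?_
      rintro α ⟨hα, hα'⟩
      rw [← h0', Ideal.span_singleton_eq_span_singleton] at hα'
      obtain ⟨u, hu⟩ := hα'.symm
      have h3 : (u : 𝓞 F) * α₀ = α := by rw [mul_comm]; exact hu
      have h4 : u ∈ Units.torsion F := by
        rw [← inCone_unit_iff F h0 u, h3]
        exact hα
      exact ⟨⟨u, h4⟩, h3⟩
  refine (h1.biUnion fun J _ => h2 J).subset ?_
  rintro α ⟨hα, hn⟩
  rw [Set.mem_iUnion₂]
  refine ⟨Ideal.span {α}, ?_, hα, rfl⟩
  rw [nrm_eq_absNorm] at hn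
  exact Nat.le_floor hn

theorem cone_per (F : Type) [Field F] [NumberField F] (I : Ideal (𝓞 F)) (hI : I ≠ ⊥)
    (P : Set (𝓞 F)) (hP : Per I P) :
    Tendsto (fun Z : ℝ => (Nat.card {α : 𝓞 F // α ∈ P ∧ InCone F α ∧ nrm F α ≤ Z} : ℝ) / Z)
      atTop (𝓝 (kap F * dens I P)) := by
  classical
  have hfinq : Finite (𝓞 F ⧸ I) := Ideal.finiteQuotientOfFreeOfNeBot I hI
  have := Fintype.ofFinite (𝓞 F ⧸ I)
  set T : Finset (𝓞 F ⧸ I) := (Set.toFinite (Ideal.Quotient.mk I '' P)).toFinset with hT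
  have hTmem : ∀ q, q ∈ T ↔ ∃ α ∈ P, Ideal.Quotient.mk I α = q := by
    intro q
    rw [hT, Set.Finite.mem_toFinset]
    exact Iff.rfl
  have hlim : Tendsto (fun Z : ℝ => ∑ q ∈ T, (Nat.card {α : 𝓞 F // α - Quotient.out q ∈ I ∧
      InCone F α ∧ nrm F α ≤ Z} : ℝ) / Z) atTop (𝓝 (∑ _q ∈ T, kap F / (Ideal.absNorm I : ℝ))) :=
    tendsto_finsetSum _ fun q _ => cone_coset F I hI _
  have hval : (∑ _q ∈ T, kap F / (Ideal.absNorm I : ℝ)) = kap F * dens I P := by
    rw [Finset.sum_const, nsmul_eq_mul, dens, Set.ncard_eq_toFinset_card _ (Set.toFinite _)]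
    ring
  rw [hval] at hlim
  refine hlim.congr fun Z => ?_
  rw [← Finset.sum_div]
  congr 1
  have hfin : ∀ (q : 𝓞 F ⧸ I), {α : 𝓞 F | α - Quotient.out q ∈ I ∧ InCone F α ∧
      nrm F α ≤ Z}.Finite := fun q => (cone_finite F Z).subset fun α h => h.2
  have hfin' : {α : 𝓞 F | α ∈ P ∧ InCone F α ∧ nrm F α ≤ Z}.Finite :=
    (cone_finite F Z).subset fun α h => h.2
  have h1 : ∀ q ∈ T, Nat.card {α : 𝓞 F // α - Quotient.out q ∈ I ∧
      InCone F α ∧ nrm F α ≤ Z} =
        (hfin'.toFinset.filter fun α => Ideal.Quotient.mk I α = q).card := by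
    intro q hq
    have : Nat.card {α : 𝓞 F // α - Quotient.out q ∈ I ∧ InCone F α ∧ nrm F α ≤ Z} =
        Set.ncard {α : 𝓞 F | α - Quotient.out q ∈ I ∧ InCone F α ∧ nrm F α ≤ Z} := rfl
    rw [this, Set.ncard_eq_toFinset_card _ (hfin q)]
    congr 1
    ext α
    rw [Set.Finite.mem_toFinset, Finset.mem_filter, Set.Finite.mem_toFinset]
    have h2 : α - Quotient.out q ∈ I ↔ Ideal.Quotient.mk I α = q := by
      rw [← Ideal.Quotient.eq, Ideal.Quotient.mk_out]
    constructor
    · rintro ⟨h3, h4, h5⟩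
      refine ⟨⟨?_, h4, h5⟩, h2.1 h3⟩
      obtain ⟨β, hβ, hβq⟩ := (hTmem q).1 hq
      rw [← h2.1 h3, Ideal.Quotient.eq] at hβq
      exact (hP _ _ hβq).1 hβ
    · rintro ⟨⟨_, h4, h5⟩, h6⟩
      exact ⟨h2.2 h6, h4, h5⟩
  have h2 : Nat.card {α : 𝓞 F // α ∈ P ∧ InCone F α ∧ nrm F α ≤ Z} = hfin'.toFinset.card := by
    have : Nat.card {α : 𝓞 F // α ∈ P ∧ InCone F α ∧ nrm F α ≤ Z} =
        Set.ncard {α : 𝓞 F | α ∈ P ∧ InCone F α ∧ nrm F α ≤ Z} := rfl
    rw [this, Set.ncard_eq_toFinset_card _ hfin']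
  rw [h2, Finset.card_eq_sum_card_fiberwise (f := fun α => Ideal.Quotient.mk I α) (t := T) ?_]
  · push_cast
    refine Finset.sum_congr rfl fun q hq => ?_
    rw [h1 q hq]
  · intro α hα
    have h3 := (Set.Finite.mem_toFinset hfin').1 hα
    exact (hTmem _).2 ⟨α, h3.1, rfl⟩

end QTow
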