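import Pool.Agent.Lib.MP_44a56e_nt.Defs2
import Pool.Agent.Lib.MP_44a56e_nt.ConeU
import Pool.Agent.Lib.MP_44a56e_nt.Cone

/-! # MP_44a56e_nt, module SieveA: upper bounds for the sieve.

PROOF of `ideals_le`. Mathlib `NumberField.Ideal.tendsto_norm_le_div_atTop₀`: the number `A z` of
nonzero ideals of norm at most `z` satisfies `A z / z → c`; so `A z ≤ (c+1) z` for `z ≥ z₀`; for
`1 ≤ z ≤ z₀`, `A z ≤ A z₀ ≤ A z₀ * z`; for `z < 1`, `A z = 0` (norms of nonzero ideals are `≥ 1`).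
`cone_ideal_le`: for `α ∈ J`, `α ≠ 0`: `J ∣ span {α}`, `span {α} = J * J'`, `J' ≠ ⊥`,
`absNorm J' = nrm α / absNorm J ≤ Z / absNorm J`. The map `α ↦ J'` has fibres of size at most
`torsionOrder F`: if `span {α} = span {α'}` then `α' = u α` with a unit `u`, and `u ∈ torsion F` by
`inCone_unit_iff`. So the number is at most `torsionOrder F * C * Z / absNorm J` (`cone_finite` for
the finiteness).
`summable_prime`: by partial summation from `ideals_le`, or: every nonzero prime `P` contains a rational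
prime `p`, `absNorm P ≥ p`, at most `finrank ℚ F` primes `P` contain a given `p`
(`Ideal.ncard_primesOver...`); dyadic blocks: `∑_{2^j ≤ absNorm P < 2^{j+1}} (absNorm P)^{-2} ≤
C 2^{j+1} 4^{-j}`. -/

open NumberField Module Filter Topology

namespace QTow

private lemma sieveA_one_le (F : Type) [Field F] [NumberField F] {J : Ideal (𝓞 F)} (h : J ≠ ⊥) :
    (1 : ℝ) ≤ (Ideal.absNorm J : ℝ) := by
  have h1 : Ideal.absNorm J ≠ 0 := by
    rw [Ne, Ideal.absNorm_eq_zero_iff]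
    exact h
  exact_mod_cast Nat.one_le_iff_ne_zero.2 h1

private lemma sieveA_fin (F : Type) [Field F] [NumberField F] (z : ℝ) :
    {J : Ideal (𝓞 F) | (Ideal.absNorm J : ℝ) ≤ z}.Finite := by
  refine (Ideal.finite_setOfPred_absNorm_le ⌊z⌋₊).subset fun J hJ => ?_
  exact Nat.le_floor hJ

theorem ideals_le (F : Type) [Field F] [NumberField F] : ∃ C : ℝ, 0 < C ∧ ∀ z : ℝ, 0 < z →
    {J : Ideal (𝓞 F) | J ≠ ⊥ ∧ (Ideal.absNorm J : ℝ) ≤ z}.Finite ∧
      (Set.ncard {J : Ideal (𝓞 F) | J ≠ ⊥ ∧ (Ideal.absNorm J : ℝ) ≤ z} : ℝ) ≤ C * z := by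
  have h1 := NumberField.Ideal.tendsto_norm_le_div_atTop F
  obtain ⟨c, hc⟩ : ∃ c : ℝ, Tendsto (fun s : ℝ ↦
      (Nat.card {I : Ideal (𝓞 F) // (Ideal.absNorm I : ℝ) ≤ s} : ℝ) / s) atTop (𝓝 c) := ⟨_, h1⟩
  have h2 := hc.eventually_lt_const (lt_add_one c)
  obtain ⟨z0, hz0⟩ := (h2.and (eventually_ge_atTop (1 : ℝ))).exists_forall_of_atTop
  have hfin : ∀ z : ℝ, {J : Ideal (𝓞 F) | J ≠ ⊥ ∧ (Ideal.absNorm J : ℝ) ≤ z}.Finite := fun z =>
    (sieveA_fin F z).subset fun J hJ => hJ.2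
  have hle : ∀ z : ℝ, (Set.ncard {J : Ideal (𝓞 F) | J ≠ ⊥ ∧ (Ideal.absNorm J : ℝ) ≤ z} : ℝ) ≤
      (Nat.card {I : Ideal (𝓞 F) // (Ideal.absNorm I : ℝ) ≤ z} : ℝ) := by
    intro z
    have h3 : (Nat.card {I : Ideal (𝓞 F) // (Ideal.absNorm I : ℝ) ≤ z}) =
        Set.ncard {I : Ideal (𝓞 F) | (Ideal.absNorm I : ℝ) ≤ z} := rfl
    have hsub : {J : Ideal (𝓞 F) | J ≠ ⊥ ∧ (Ideal.absNorm J : ℝ) ≤ z} ⊆
        {I : Ideal (𝓞 F) | (Ideal.absNorm I : ℝ) ≤ z} := fun J hJ => hJ.2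
    rw [h3]
    exact_mod_cast Set.ncard_le_ncard hsub (sieveA_fin F z)
  set A : ℝ := (Nat.card {I : Ideal (𝓞 F) // (Ideal.absNorm I : ℝ) ≤ z0} : ℝ) with hA
  have hA0 : 0 ≤ A := Nat.cast_nonneg _
  refine ⟨max (c + 1) A + 1, by positivity, fun z hz => ⟨hfin z, ?_⟩⟩
  rcases lt_or_ge z 1 with h3 | h3
  · have h4 : {J : Ideal (𝓞 F) | J ≠ ⊥ ∧ (Ideal.absNorm J : ℝ) ≤ z} = ∅ := by
      rw [Set.eq_empty_iff_forall_notMem]
      rintro J ⟨hJ, hJz⟩
      linarith [sieveA_one_le F hJ]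
    rw [h4, Set.ncard_empty]
    have : 0 ≤ max (c + 1) A := le_trans hA0 (le_max_right _ _)
    push_cast
    positivity
  rcases le_or_gt z0 z with h4 | h4
  · have h5 := (hz0 z h4).1
    rw [div_lt_iff₀ hz] at h5
    calc _ ≤ _ := hle z
      _ ≤ (c + 1) * z := h5.le
      _ ≤ (max (c + 1) A + 1) * z := by
        apply mul_le_mul_of_nonneg_right _ hz.le
        linarith [le_max_left (c + 1) A]
  · have h5 : (Set.ncard {J : Ideal (𝓞 F) | J ≠ ⊥ ∧ (Ideal.absNorm J : ℝ) ≤ z} : ℝ) ≤ A := by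
      refine le_trans ?_ (hle z0)
      have hsub : {J : Ideal (𝓞 F) | J ≠ ⊥ ∧ (Ideal.absNorm J : ℝ) ≤ z} ⊆
          {J : Ideal (𝓞 F) | J ≠ ⊥ ∧ (Ideal.absNorm J : ℝ) ≤ z0} :=
        fun J hJ => ⟨hJ.1, hJ.2.trans h4.le⟩
      exact_mod_cast Set.ncard_le_ncard hsub (hfin z0)
    calc _ ≤ A := h5
      _ ≤ (max (c + 1) A + 1) * 1 := by linarith [le_max_right (c + 1) A]
      _ ≤ (max (c + 1) A + 1) * z := by
        apply mul_le_mul_of_nonneg_left h3
        have : 0 ≤ max (c + 1) A := le_trans hA0 (le_max_right _ _)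
        linarith

theorem cone_ideal_le (F : Type) [Field F] [NumberField F] : ∃ C : ℝ, 0 < C ∧
    ∀ J : Ideal (𝓞 F), J ≠ ⊥ → ∀ Z : ℝ, 0 < Z →
      (Nat.card {α : 𝓞 F // α ∈ J ∧ InCone F α ∧ nrm F α ≤ Z} : ℝ) ≤
        C * Z / (Ideal.absNorm J : ℝ) := by
  classical
  obtain ⟨C, hC, hCz⟩ := ideals_le F
  refine ⟨(Units.torsionOrder F + 1) * C, by positivity, fun J hJ Z hZ => ?_⟩
  have hNJ := sieveA_one_le F hJ
  have hNJ0 : (0 : ℝ) < Ideal.absNorm J := by linarith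
  have hfA : {α : 𝓞 F | α ∈ J ∧ InCone F α ∧ nrm F α ≤ Z}.Finite :=
    (cone_finite F Z).subset fun α hα => hα.2
  obtain ⟨hfT, hT⟩ := hCz (Z / Ideal.absNorm J) (by positivity)
  have hex : ∀ α : 𝓞 F, ∃ J' : Ideal (𝓞 F), α ∈ J → Ideal.span {α} = J * J' := by
    intro α
    by_cases h : α ∈ J
    · have h1 : J ∣ Ideal.span {α} := by
        rw [Ideal.dvd_iff_le, Ideal.span_singleton_le_iff_mem]
        exact h
      obtain ⟨J', hJ'⟩ := h1
      exact ⟨J', fun _ => hJ'⟩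
    · exact ⟨⊥, fun h' => absurd h' h⟩
  choose f hf using hex
  have hmaps : ∀ α ∈ hfA.toFinset, f α ∈ hfT.toFinset := by
    intro α hα
    rw [Set.Finite.mem_toFinset] at hα ⊢
    obtain ⟨h1, h2, h3⟩ := hα
    have h4 := hf α h1
    constructor
    · intro h5
      rw [h5, Ideal.mul_bot, Ideal.span_singleton_eq_bot] at h4
      exact ne_zero_of_inCone F h2 h4
    · rw [le_div_iff₀ hNJ0, ← Nat.cast_mul, mul_comm (Ideal.absNorm (f α)), ← map_mul, ← h4,
        ← nrm_eq_absNorm]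
      exact h3
  have hfib : ∀ J' ∈ hfA.toFinset.image f,
      (hfA.toFinset.filter (fun α => f α = J')).card ≤ Units.torsionOrder F := by
    intro J' hJ'
    rw [Finset.mem_image] at hJ'
    obtain ⟨α₀, hα₀, h1⟩ := hJ'
    rw [Set.Finite.mem_toFinset] at hα₀
    obtain ⟨h2, h3, -⟩ := hα₀
    have h0 := ne_zero_of_inCone F h3
    rw [← card_units_inCone F h0]
    have hpos : 0 < Nat.card {u : (𝓞 F)ˣ // InCone F ((u : 𝓞 F) * α₀)} := by
      rw [card_units_inCone F h0]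
      exact Units.torsionOrder_pos F
    have : Finite {u : (𝓞 F)ˣ // InCone F ((u : 𝓞 F) * α₀)} :=
      (Nat.card_pos_iff.1 hpos).2
    have : Fintype {u : (𝓞 F)ˣ // InCone F ((u : 𝓞 F) * α₀)} := Fintype.ofFinite _
    rw [Nat.card_eq_fintype_card, ← Finset.card_univ]
    refine Finset.card_le_card_of_surjOn
      (fun u : {u : (𝓞 F)ˣ // InCone F ((u : 𝓞 F) * α₀)} => ((u : (𝓞 F)ˣ) : 𝓞 F) * α₀) ?_
    intro α hα
    rw [Finset.mem_coe, Finset.mem_filter, Set.Finite.mem_toFinset] at hα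
    obtain ⟨⟨h4, h5, -⟩, h6⟩ := hα
    have h7 : Ideal.span {α₀} = Ideal.span {α} := by
      rw [hf α₀ h2, hf α h4, h1, h6]
    rw [Ideal.span_singleton_eq_span_singleton] at h7
    obtain ⟨u, hu⟩ := h7
    refine ⟨⟨u, ?_⟩, Finset.mem_coe.2 (Finset.mem_univ _), ?_⟩
    · rw [mul_comm, hu]
      exact h5
    · change (u : 𝓞 F) * α₀ = α
      rw [mul_comm, hu]
  have h1 := Finset.card_le_mul_card_image hfA.toFinset _ hfib
  have h2 : (hfA.toFinset.image f).card ≤ hfT.toFinset.card :=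
    Finset.card_le_card fun x hx => by
      rw [Finset.mem_image] at hx
      obtain ⟨α, hα, rfl⟩ := hx
      exact hmaps α hα
  have h3 : Nat.card {α : 𝓞 F // α ∈ J ∧ InCone F α ∧ nrm F α ≤ Z} = hfA.toFinset.card := by
    rw [← Set.ncard_eq_toFinset_card _ hfA]
    rfl
  have h4 : (hfT.toFinset.card : ℝ) ≤ C * (Z / Ideal.absNorm J) := by
    rw [← Set.ncard_eq_toFinset_card _ hfT]
    exact hT
  rw [h3]
  calc (hfA.toFinset.card : ℝ) ≤ ((Units.torsionOrder F * (hfA.toFinset.image f).card : ℕ) : ℝ) := by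
        exact_mod_cast h1
    _ ≤ (Units.torsionOrder F : ℝ) * hfT.toFinset.card := by
        push_cast
        exact mul_le_mul_of_nonneg_left (by exact_mod_cast h2) (Nat.cast_nonneg _)
    _ ≤ (Units.torsionOrder F + 1 : ℝ) * (C * (Z / Ideal.absNorm J)) := by
        apply mul_le_mul (by linarith) h4 (Nat.cast_nonneg _) (by positivity)
    _ = _ := by ring

theorem summable_prime (F : Type) [Field F] [NumberField F] :
    Summable fun P : {P : Ideal (𝓞 F) // P.IsPrime ∧ P ≠ ⊥} =>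
      1 / ((Ideal.absNorm P.1 : ℝ)) ^ 2 := by
  classical
  obtain ⟨C, hC, hCz⟩ := ideals_le F
  refine summable_of_sum_le (c := 4 * C) (fun P => by positivity) fun s => ?_
  let g : {P : Ideal (𝓞 F) // P.IsPrime ∧ P ≠ ⊥} → ℕ := fun P => Nat.log 2 (Ideal.absNorm P.1)
  have h1 : ∀ P ∈ s, 1 / ((Ideal.absNorm P.1 : ℝ)) ^ 2 ≤ (1 / 4 : ℝ) ^ g P := by
    intro P hP
    have h2 : (0 : ℝ) < 2 ^ g P := by positivity
    have h3 : (2 : ℝ) ^ g P ≤ Ideal.absNorm P.1 := by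
      have h4 : Ideal.absNorm P.1 ≠ 0 := by
        rw [Ne, Ideal.absNorm_eq_zero_iff]
        exact P.2.2
      exact_mod_cast Nat.pow_log_le_self 2 h4
    rw [one_div_pow, show (4 : ℝ) = 2 ^ 2 by norm_num, ← pow_mul, mul_comm 2, pow_mul]
    exact one_div_le_one_div_of_le (by positivity) (pow_le_pow_left₀ h2.le h3 2)
  have h5 : ∀ j ∈ s.image g, (∑ P ∈ s.filter (fun P => g P = j), (1 / 4 : ℝ) ^ g P) ≤
      2 * C * (1 / 2) ^ j := by
    intro j hj
    have h6 : (∑ P ∈ s.filter (fun P => g P = j), (1 / 4 : ℝ) ^ g P) =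
        ((s.filter (fun P => g P = j)).card : ℝ) * (1 / 4) ^ j := by
      rw [Finset.sum_congr rfl (g := fun _ => (1 / 4 : ℝ) ^ j), Finset.sum_const, nsmul_eq_mul]
      intro P hP
      rw [(Finset.mem_filter.1 hP).2]
    rw [h6]
    obtain ⟨hf, hn⟩ := hCz (2 ^ (j + 1)) (by positivity)
    have h7 : ((s.filter (fun P => g P = j)).card : ℝ) ≤ C * 2 ^ (j + 1) := by
      refine le_trans ?_ hn
      rw [Set.ncard_eq_toFinset_card _ hf]
      have h8 : (s.filter (fun P => g P = j)).card ≤ hf.toFinset.card := by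
        refine Finset.card_le_card_of_injOn (fun P => P.1) ?_ ?_
        · intro P hP
          rw [Finset.mem_coe, Finset.mem_filter] at hP
          rw [Finset.mem_coe, Set.Finite.mem_toFinset]
          refine ⟨P.2.2, ?_⟩
          have h9 := Nat.lt_pow_succ_log_self (b := 2) (by norm_num) (Ideal.absNorm P.1)
          have h10 : Nat.log 2 (Ideal.absNorm P.1) = j := hP.2
          rw [h10] at h9
          exact_mod_cast h9.le
        · intro P _ Q _ h
          exact Subtype.ext h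
      exact_mod_cast h8
    calc ((s.filter (fun P => g P = j)).card : ℝ) * (1 / 4) ^ j
        ≤ (C * 2 ^ (j + 1)) * (1 / 4) ^ j := mul_le_mul_of_nonneg_right h7 (by positivity)
      _ = 2 * C * (2 ^ j * (1 / 4) ^ j) := by ring
      _ = 2 * C * (1 / 2) ^ j := by rw [← mul_pow]; norm_num
  calc ∑ P ∈ s, 1 / ((Ideal.absNorm P.1 : ℝ)) ^ 2 ≤ ∑ P ∈ s, (1 / 4 : ℝ) ^ g P :=
        Finset.sum_le_sum h1
    _ = ∑ j ∈ s.image g, ∑ P ∈ s.filter (fun P => g P = j), (1 / 4 : ℝ) ^ g P := by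
        rw [Finset.sum_fiberwise_of_maps_to (fun P hP => Finset.mem_image_of_mem g hP)]
    _ ≤ ∑ j ∈ s.image g, 2 * C * (1 / 2) ^ j := Finset.sum_le_sum h5
    _ = 2 * C * ∑ j ∈ s.image g, (1 / 2 : ℝ) ^ j := by rw [Finset.mul_sum]
    _ ≤ 2 * C * 2 := by
        apply mul_le_mul_of_nonneg_left _ (by positivity)
        have h9 := summable_geometric_two.sum_le_tsum (s.image g) (fun j _ => by positivity)
        rw [tsum_geometric_two] at h9
        exact h9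
    _ = 4 * C := by ring

end QTow
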