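import Pool.Agent.Lib.MP_44a56e_nt.BadDefs
import Pool.Agent.Lib.MP_44a56e_nt.SieveA

/-! # MP_44a56e_nt, module BadPr: primes invariant under an automorphism.

PROOF of `inv_prime`. `θ ≠ 1` moves some `x ∈ 𝓞 F` (`F` is generated by `𝓞 F`): `δ = θ x - x ∈ 𝓞 F`,
`δ ≠ 0`. Let `P` be a nonzero prime with `Inv θ P`, `δ ∉ P`. `θ` induces a ring endomorphism of the
finite field `𝓞 F ⧸ P`. If `absNorm P = p` were a prime number then every element of `𝓞 F ⧸ P` is the
image of an integer, so the endomorphism is the identity and `θ x - x ∈ P`, contradiction. So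
`absNorm P = p^f` with `f ≥ 2`, `p` the characteristic. Only finitely many primes contain `δ`: they
form the exceptional set.
PROOF of `summable_inv`. `P ↦ p` the prime number in `P`: at most `m = finrank ℚ F` nonzero primes
contain a given `p` (or at most `(absNorm (span {p}))`-many divisors, bounded: `∏ P ∣ span {p}`, so
`2^(number) ≤ ∏ absNorm P ≤ p^m` gives only `m log p / log 2`, which is also enough). The sum of
`(absNorm P)^(-3/4)` over the finite exceptional set is finite and over the others it is at most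
`∑_p m p^(-3/2)`. Alternatively use `summable_prime`-like dyadic arguments. -/

open NumberField Module

namespace QTow

/-- Summability from a linear bound for the counting function. -/
theorem summable_of_count {ι : Type} (N : ι → ℕ) (hN : ∀ i, 1 ≤ N i) (C : ℝ)
    (h : ∀ (u : Finset ι) (n : ℕ), 1 ≤ n → (∀ i ∈ u, N i ≤ n) → (u.card : ℝ) ≤ C * n)
    (s : ℝ) (hs : 1 < s) : Summable fun i => (N i : ℝ) ^ (-s) := by
  classical
  have hr0 : (0 : ℝ) < 2 ^ (1 - s) := Real.rpow_pos_of_pos two_pos _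
  have hr1 : (2 : ℝ) ^ (1 - s) < 1 := Real.rpow_lt_one_of_one_lt_of_neg one_lt_two (by linarith)
  have hgeo : Summable fun b : ℕ => (2 * |C|) * ((2 : ℝ) ^ (1 - s)) ^ b :=
    (summable_geometric_of_lt_one hr0.le hr1).mul_left _
  apply summable_of_sum_le (c := ∑' b : ℕ, (2 * |C|) * ((2 : ℝ) ^ (1 - s)) ^ b)
  · intro i
    positivity
  · intro u
    set g : ι → ℕ := fun i => Nat.log 2 (N i) with hg
    set f : ℕ → ℝ := fun j => ((2 : ℝ) ^ j) ^ (-s) with hf
    have h1 : ∑ i ∈ u, (N i : ℝ) ^ (-s) ≤ ∑ i ∈ u, f (g i) := by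
      apply Finset.sum_le_sum
      intro i _
      simp only [hf, hg]
      apply Real.rpow_le_rpow_of_nonpos (by positivity)
      · have := Nat.pow_log_le_self 2 (x := N i) (by have := hN i; omega)
        exact_mod_cast this
      · linarith
    refine h1.trans ?_
    rw [Finset.sum_comp f g]
    have h2 : ∀ b ∈ u.image g, (u.filter (fun a => g a = b)).card • f b ≤
        (2 * |C|) * ((2 : ℝ) ^ (1 - s)) ^ b := by
      intro b _
      have h3 := h (u.filter (fun a => g a = b)) (2 ^ (b + 1)) (Nat.one_le_two_pow) (by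
        intro i hi
        rw [Finset.mem_filter] at hi
        have h4 : N i < 2 ^ (Nat.log 2 (N i) + 1) := Nat.lt_pow_succ_log_self one_lt_two _
        have h5 : Nat.log 2 (N i) = b := hi.2
        rw [h5] at h4
        exact h4.le)
      rw [nsmul_eq_mul]
      have hfb : 0 ≤ f b := by simp only [hf]; positivity
      calc ((u.filter (fun a => g a = b)).card : ℝ) * f b ≤ (C * ((2 ^ (b + 1) : ℕ) : ℝ)) * f b :=
            mul_le_mul_of_nonneg_right h3 hfb
        _ ≤ (|C| * ((2 ^ (b + 1) : ℕ) : ℝ)) * f b := by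
            apply mul_le_mul_of_nonneg_right _ hfb
            exact mul_le_mul_of_nonneg_right (le_abs_self C) (by positivity)
        _ = (2 * |C|) * ((2 : ℝ) ^ (1 - s)) ^ b := by
            simp only [hf]
            push_cast
            have e1 : ((2 : ℝ) ^ (1 - s)) ^ b = (2 : ℝ) ^ b * ((2 : ℝ) ^ b) ^ (-s) := by
              rw [← Real.rpow_natCast, ← Real.rpow_mul two_pos.le, ← Real.rpow_natCast (2 : ℝ) b,
                ← Real.rpow_mul two_pos.le, ← Real.rpow_add two_pos]
              congr 1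
              ring
            rw [e1]
            ring
    refine (Finset.sum_le_sum h2).trans ?_
    exact hgeo.sum_le_tsum _ fun b _ => by positivity

theorem inv_prime (F : Type) [Field F] [NumberField F] (θ : F ≃ₐ[ℚ] F) (hθ : θ ≠ 1) :
    {P : Ideal (𝓞 F) | P.IsPrime ∧ P ≠ ⊥ ∧ Inv θ P ∧
      ¬ ∃ p f : ℕ, p.Prime ∧ 2 ≤ f ∧ Ideal.absNorm P = p ^ f}.Finite := by
  have hx : ∃ x : 𝓞 F, θ (x : F) ≠ (x : F) := by
    by_contra hcon
    push Not at hcon
    apply hθ
    ext z
    obtain ⟨a, b, hb, rfl⟩ := IsFractionRing.div_surjective (A := 𝓞 F) z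
    rw [map_div₀]
    have h1 : θ (algebraMap (𝓞 F) F a) = algebraMap (𝓞 F) F a := hcon a
    have h2 : θ (algebraMap (𝓞 F) F b) = algebraMap (𝓞 F) F b := hcon b
    rw [h1, h2]
    rfl
  obtain ⟨x, hx⟩ := hx
  have hint : IsIntegral ℤ (θ (x : F)) := map_isIntegral_int θ x.2
  set y : 𝓞 F := ⟨θ (x : F), hint⟩ with hy
  have hy' : (y : F) = θ (x : F) := rfl
  set δ : 𝓞 F := y - x with hδ
  have hδ0 : δ ≠ 0 := by
    intro h
    apply hx
    rw [hδ, sub_eq_zero] at h
    rw [← hy', h]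
  have hspan : Ideal.span {δ} ≠ (⊥ : Ideal (𝓞 F)) := by
    rwa [Ne, Ideal.span_singleton_eq_bot]
  apply (Ideal.finite_setOfPred_absNorm_le (S := 𝓞 F) (Ideal.absNorm (Ideal.span {δ}))).subset
  rintro P ⟨hP, hP0, hinv, hex⟩
  have hmem : δ ∈ P := by
    by_contra hnot
    apply hex
    have hmax : P.IsMaximal := hP.isMaximal hP0
    have : Finite (𝓞 F ⧸ P) := Ideal.finiteQuotientOfFreeOfNeBot P hP0
    let _ : Field (𝓞 F ⧸ P) := Ideal.Quotient.field P
    let _ : Fintype (𝓞 F ⧸ P) := Fintype.ofFinite _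
    obtain ⟨n, hp, hcard⟩ := FiniteField.card (𝓞 F ⧸ P) (ringChar (𝓞 F ⧸ P))
    set p := ringChar (𝓞 F ⧸ P)
    have hnorm : Ideal.absNorm P = p ^ (n : ℕ) := by
      rw [Ideal.absNorm_apply, Submodule.cardQuot_apply, ← hcard, Nat.card_eq_fintype_card]
    by_cases hn : 2 ≤ (n : ℕ)
    · exact ⟨p, n, hp, hn, hnorm⟩
    · exfalso
      apply hnot
      have hn1 : (n : ℕ) = 1 := by have := n.pos; omega
      have : Fact p.Prime := ⟨hp⟩
      have hc : Nat.card (𝓞 F ⧸ P) = p := by
        rw [Nat.card_eq_fintype_card, hcard, hn1, pow_one]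
      have hz := zmultiples_eq_top_of_prime_card hc (g := (1 : 𝓞 F ⧸ P)) one_ne_zero
      have hxm : Ideal.Quotient.mk P x ∈ AddSubgroup.zmultiples (1 : 𝓞 F ⧸ P) := by
        rw [hz]; trivial
      obtain ⟨a, ha⟩ := AddSubgroup.mem_zmultiples_iff.mp hxm
      have h1 : x - (a : 𝓞 F) ∈ P := by
        rw [← Ideal.Quotient.eq_zero_iff_mem, map_sub, ← ha, map_intCast]
        simp
      have h2 : y - (a : 𝓞 F) ∈ P := by
        apply hinv (x - (a : 𝓞 F)) _ _ h1
        have e2 : algebraMap (𝓞 F) F y = θ (algebraMap (𝓞 F) F x) := hy'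
        have e3 : algebraMap (𝓞 F) F (y - (a : 𝓞 F)) = θ (algebraMap (𝓞 F) F (x - (a : 𝓞 F))) := by
          rw [map_sub, map_sub, map_sub, map_intCast, map_intCast, e2]
        exact e3
      have h3 := P.sub_mem h2 h1
      have e : y - (a : 𝓞 F) - (x - (a : 𝓞 F)) = δ := by rw [hδ]; ring
      rwa [e] at h3
  have hdvd : P ∣ Ideal.span {δ} := by
    rw [Ideal.dvd_iff_le, Ideal.span_singleton_le_iff_mem]
    exact hmem
  obtain ⟨J, hJ⟩ := hdvd
  have h4 : Ideal.absNorm (Ideal.span {δ}) = Ideal.absNorm P * Ideal.absNorm J := by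
    rw [hJ, map_mul]
  have h5 : Ideal.absNorm (Ideal.span {δ}) ≠ 0 := by
    rwa [Ne, Ideal.absNorm_eq_zero_iff]
  exact Nat.le_of_dvd (Nat.pos_of_ne_zero h5) ⟨_, h4⟩

/-- At most `[F : ℚ]` primes lie over a prime number. -/
theorem prime_fibre (F : Type) [Field F] [NumberField F] (p : ℕ) (hp : p.Prime)
    (s : Finset (Ideal (𝓞 F)))
    (hs : ∀ P ∈ s, P.IsPrime ∧ P ≠ ⊥ ∧ p ∣ Ideal.absNorm P ∧ (p : 𝓞 F) ∈ P) :
    s.card ≤ finrank ℚ F := by
  have h1 : ∏ P ∈ s, P ∣ Ideal.span {(p : 𝓞 F)} := by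
    apply Finset.prod_primes_dvd
    · intro P hP
      exact Ideal.prime_of_isPrime (hs P hP).2.1 (hs P hP).1
    · intro P hP
      rw [Ideal.dvd_iff_le, Ideal.span_singleton_le_iff_mem]
      exact (hs P hP).2.2.2
  obtain ⟨J, hJ⟩ := h1
  have h2 : Ideal.absNorm (Ideal.span {(p : 𝓞 F)}) = p ^ finrank ℚ F := by
    rw [Ideal.absNorm_span_singleton]
    have e : (p : 𝓞 F) = algebraMap ℤ (𝓞 F) (p : ℤ) := by simp
    rw [e, Algebra.norm_algebraMap, RingOfIntegers.rank, Int.natAbs_pow, Int.natAbs_natCast]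
  have h3 : p ^ finrank ℚ F = (∏ P ∈ s, Ideal.absNorm P) * Ideal.absNorm J := by
    rw [← h2, hJ, map_mul, map_prod]
  have h4 : ∏ P ∈ s, Ideal.absNorm P ≤ p ^ finrank ℚ F :=
    Nat.le_of_dvd (pow_pos hp.pos _) ⟨_, h3⟩
  have h5 : p ^ s.card ≤ ∏ P ∈ s, Ideal.absNorm P := by
    rw [← Finset.prod_const]
    apply Finset.prod_le_prod'
    intro P hP
    refine Nat.le_of_dvd (Nat.pos_of_ne_zero ?_) (hs P hP).2.2.1
    rw [Ne, Ideal.absNorm_eq_zero_iff]
    exact (hs P hP).2.1
  exact (Nat.pow_le_pow_iff_right hp.one_lt).mp (h5.trans h4)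

theorem summable_inv (F : Type) [Field F] [NumberField F] (θ : F ≃ₐ[ℚ] F) (hθ : θ ≠ 1) :
    Summable fun P : {P : Ideal (𝓞 F) // P.IsPrime ∧ P ≠ ⊥ ∧ Inv θ P} =>
      (Ideal.absNorm P.1 : ℝ) ^ (-(3 / 4) : ℝ) := by
  classical
  set E : Set {P : Ideal (𝓞 F) // P.IsPrime ∧ P ≠ ⊥ ∧ Inv θ P} :=
    {P | ¬ ∃ p f : ℕ, p.Prime ∧ 2 ≤ f ∧ Ideal.absNorm P.1 = p ^ f} with hE
  have hEf : E.Finite := by
    have h1 := (inv_prime F θ hθ).preimage (f := Subtype.val
      (p := fun P : Ideal (𝓞 F) => P.IsPrime ∧ P ≠ ⊥ ∧ Inv θ P)) Subtype.val_injective.injOn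
    refine h1.subset ?_
    intro P hP
    exact ⟨P.2.1, P.2.2.1, P.2.2.2, hP⟩
  rw [← summable_subtype_and_compl (s := E)]
  constructor
  · have : Finite E := hEf.to_subtype
    have : Fintype E := Fintype.ofFinite _
    exact (hasSum_fintype _).summable
  · have hP : ∀ P : ↥(Eᶜ), ∃ p f : ℕ, p.Prime ∧ 2 ≤ f ∧ Ideal.absNorm P.1.1 = p ^ f := by
      intro P
      have := P.2
      simpa [hE] using this
    choose p f hp hf hn using hP
    have hsum := summable_of_count (ι := ↥(Eᶜ)) p (fun P => (hp P).one_lt.le) (finrank ℚ F) (by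
      intro u n hn1 hu
      have h1 := Finset.card_eq_sum_card_fiberwise (s := u) (f := p) (t := Finset.Icc 1 n) (by
        intro P hPu
        rw [Finset.mem_coe, Finset.mem_Icc]
        exact ⟨(hp P).one_lt.le, hu P hPu⟩)
      have h2 : ∀ q ∈ Finset.Icc 1 n, (u.filter (fun P => p P = q)).card ≤ finrank ℚ F := by
        intro q _
        by_cases hq : q.Prime
        · have h3 := prime_fibre F q hq ((u.filter (fun P => p P = q)).map
            ⟨fun P => P.1.1, fun P Q h => Subtype.ext (Subtype.ext h)⟩) (by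
              intro I hI
              rw [Finset.mem_map] at hI
              obtain ⟨P, hPm, rfl⟩ := hI
              rw [Finset.mem_filter] at hPm
              have hfp : f P ≠ 0 := by have := hf P; omega
              refine ⟨P.1.2.1, P.1.2.2.1, ?_, ?_⟩
              · show q ∣ Ideal.absNorm P.1.1
                rw [hn P, hPm.2]
                exact dvd_pow_self _ hfp
              · show (q : 𝓞 F) ∈ P.1.1
                have h4 := Ideal.absNorm_mem P.1.1
                rw [hn P, hPm.2] at h4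
                push_cast at h4
                have := P.1.2.1
                exact this.mem_of_pow_mem _ h4)
          rwa [Finset.card_map] at h3
        · have : u.filter (fun P => p P = q) = ∅ := by
            rw [Finset.filter_eq_empty_iff]
            intro P _ h
            exact hq (h ▸ hp P)
          rw [this]
          simp
      have h5 : u.card ≤ n * finrank ℚ F := by
        rw [h1]
        refine (Finset.sum_le_card_nsmul _ _ _ h2).trans (le_of_eq ?_)
        rw [Nat.card_Icc, smul_eq_mul]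
        rfl
      have h6 : (u.card : ℝ) ≤ ((n * finrank ℚ F : ℕ) : ℝ) := by exact_mod_cast h5
      push_cast at h6
      linarith) (3 / 2) (by norm_num)
    refine Summable.of_nonneg_of_le (fun P => by positivity) (fun P => ?_) hsum
    rw [hn P]
    have hp1 : (1 : ℝ) ≤ p P := by exact_mod_cast (hp P).one_lt.le
    have h7 : ((p P : ℝ) ^ (2 : ℕ)) ≤ ((p P ^ f P : ℕ) : ℝ) := by
      push_cast
      exact pow_le_pow_right₀ hp1 (hf P)
    have h8 : ((p P : ℝ) ^ (2 : ℕ)) ^ (-(3 / 4) : ℝ) = (p P : ℝ) ^ (-(3 / 2) : ℝ) := by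
      rw [← Real.rpow_natCast, ← Real.rpow_mul (by positivity)]
      norm_num
    rw [← h8]
    exact Real.rpow_le_rpow_of_nonpos (by positivity) h7 (by norm_num)

/-- The same with the exponent `3/2` for all primes (from `ideals_le`, dyadic blocks:
`∑_{2^j ≤ absNorm P < 2^(j+1)} (absNorm P)^(-3/2) ≤ C 2^(j+1) 2^(-3j/2)`). -/
theorem summable_three_half (F : Type) [Field F] [NumberField F] :
    Summable fun P : {P : Ideal (𝓞 F) // P.IsPrime ∧ P ≠ ⊥} =>
      (Ideal.absNorm P.1 : ℝ) ^ (-(3 / 2) : ℝ) := by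
  obtain ⟨C, hC, h⟩ := ideals_le F
  apply summable_of_count (fun P : {P : Ideal (𝓞 F) // P.IsPrime ∧ P ≠ ⊥} => Ideal.absNorm P.1)
    ?_ C ?_ (3 / 2) (by norm_num)
  · intro P
    have : Ideal.absNorm P.1 ≠ 0 := by
      rw [Ne, Ideal.absNorm_eq_zero_iff]
      exact P.2.2
    omega
  · intro u n hn hu
    obtain ⟨h1, h2⟩ := h n (by exact_mod_cast hn)
    refine le_trans ?_ h2
    have h3 : (u.map (Function.Embedding.subtype _) : Set (Ideal (𝓞 F))) ⊆
        {J : Ideal (𝓞 F) | J ≠ ⊥ ∧ (Ideal.absNorm J : ℝ) ≤ n} := by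
      intro J hJ
      rw [Finset.mem_coe, Finset.mem_map] at hJ
      obtain ⟨P, hP, rfl⟩ := hJ
      exact ⟨P.2.2, by exact_mod_cast hu P hP⟩
    have h4 := Set.ncard_le_ncard h3 h1
    rw [Set.ncard_coe_finset, Finset.card_map] at h4
    exact_mod_cast h4

end QTow
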