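import Pool.Agent.Lib.MP_44a56e_nt.BadDefs
import Pool.Agent.Lib.MP_44a56e_nt.BadPr

/-! # MP_44a56e_nt, module BadId: counting squarefree invariant ideals.

PROOF of `invariant_count`. Claim: the number is at most `C Z^(3/4)` for `Z ≥ 1`.
A squarefree (so nonzero) ideal `I` is the product of the finite set `S(I)` of the primes containing it,
`absNorm I = ∏_{P ∈ S(I)} absNorm P`; if `Inv θ I` then `P ↦ θ P` maps `S(I)` into itself (hence
bijectively): `θ P = {θ x | x ∈ P}` is a prime ideal, `I ≤ P` implies `I ⊇ θ I`; more precisely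
`θ I ≤ I` gives `θ I = I` (equal norms, or `θ` has finite order), so `I = θ I ≤ θ P`. `absNorm (θ P) =
absNorm P`. So `S(I)` is a union of orbits of `⟨θ⟩` on the nonzero primes. Weight of an orbit `O`:
`N(O) = ∏_{P ∈ O} absNorm P`. `∑_O N(O)^(-3/4) < ∞`: the orbits with one element are the primes with
`Inv θ P` (`summable_inv`); if `O` has at least two elements, `N(O) ≥ (absNorm P)²` for a chosen `P ∈ O`
(all elements have the same norm) and `N(O)^(-3/4) ≤ (absNorm P)^(-3/2)` (`summable_three_half`, different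
orbits have different chosen elements). Let `𝒪` be the finite set of orbits with `N(O) ≤ Z`
(`ideals_le`). `I` is determined by the set `A ⊆ 𝒪` of orbits in `S(I)`, `∏_{O ∈ A} N(O) =
absNorm I ≤ Z`. So the number is at most `∑_{A ⊆ 𝒪} Z^(3/4) ∏_{O ∈ A} N(O)^(-3/4) = Z^(3/4) ∏_{O ∈ 𝒪}
(1 + N(O)^(-3/4)) ≤ Z^(3/4) exp(∑_O N(O)^(-3/4))` (`Finset.prod_one_add`, `Real.add_one_le_exp`).
Simplification if orbits are unpleasant: split `I = I₁ I₂`, `I₁` = product of the `P ∈ S(I)` with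
`Inv θ P`, and for `I₂` choose from each orbit one prime. -/

open NumberField Module Filter Topology

namespace QTow

section badid

variable {F : Type} [Field F] [NumberField F] (θ : F ≃ₐ[ℚ] F)

/-- The automorphism of the ring of integers. -/
noncomputable def psi : 𝓞 F ≃+* 𝓞 F := RingOfIntegers.mapRingEquiv (θ : F ≃+* F)

theorem psi_coe (x : 𝓞 F) : ((psi θ x : 𝓞 F) : F) = θ (x : F) := rfl

/-- The action on ideals. -/
noncomputable def Psi : Equiv.Perm (Ideal (𝓞 F)) where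
  toFun I := Ideal.comap (psi θ).symm I
  invFun I := Ideal.comap (psi θ) I
  left_inv I := by
    ext x
    simp only [Ideal.mem_comap]
    rw [RingEquiv.symm_apply_apply]
  right_inv I := by
    ext x
    simp only [Ideal.mem_comap]
    rw [RingEquiv.apply_symm_apply]

theorem mem_Psi (I : Ideal (𝓞 F)) (x : 𝓞 F) : x ∈ Psi θ I ↔ (psi θ).symm x ∈ I := Iff.rfl

theorem Psi_mono {I J : Ideal (𝓞 F)} (h : I ≤ J) : Psi θ I ≤ Psi θ J := fun x hx => by
  rw [mem_Psi] at hx ⊢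
  exact h hx

theorem Psi_symm_mono {I J : Ideal (𝓞 F)} (h : I ≤ J) : (Psi θ).symm I ≤ (Psi θ).symm J :=
  fun _ hx => h hx

theorem Psi_prime (P : Ideal (𝓞 F)) (hP : P.IsPrime) : (Psi θ P).IsPrime :=
  Ideal.comap_isPrime ((psi θ).symm : 𝓞 F →+* 𝓞 F) P

theorem Psi_symm_prime (P : Ideal (𝓞 F)) (hP : P.IsPrime) : ((Psi θ).symm P).IsPrime :=
  Ideal.comap_isPrime ((psi θ) : 𝓞 F →+* 𝓞 F) P

theorem absNorm_Psi (I : Ideal (𝓞 F)) : Ideal.absNorm (Psi θ I) = Ideal.absNorm I := by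
  rw [Ideal.absNorm_apply, Ideal.absNorm_apply, Submodule.cardQuot_apply,
    Submodule.cardQuot_apply]
  have h : Psi θ I = I.map ((psi θ : 𝓞 F ≃+* 𝓞 F) : 𝓞 F →+* 𝓞 F) :=
    (Ideal.map_comap_of_equiv (psi θ)).symm
  exact (Nat.card_congr (Ideal.quotientEquiv I (Psi θ I) (psi θ) h).toEquiv).symm

theorem Psi_eq_of_inv (I : Ideal (𝓞 F)) (hI : I ≠ ⊥) (h : Inv θ I) : Psi θ I = I := by
  have hle : Psi θ I ≤ I := by
    intro z hz
    rw [mem_Psi] at hz
    refine h ((psi θ).symm z) z ?_ hz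
    have h1 : psi θ ((psi θ).symm z) = z := RingEquiv.apply_symm_apply _ _
    rw [← psi_coe, h1]
  rw [← Ideal.dvd_iff_le] at hle
  obtain ⟨J, hJ⟩ := hle
  have h1 : Ideal.absNorm I = Ideal.absNorm I * Ideal.absNorm J := by
    rw [← map_mul, ← hJ, absNorm_Psi]
  have h2 : Ideal.absNorm I ≠ 0 := by rwa [Ne, Ideal.absNorm_eq_zero_iff]
  have h3 : Ideal.absNorm J = 1 := by
    have : Ideal.absNorm I * 1 = Ideal.absNorm I * Ideal.absNorm J := by rw [mul_one]; exact h1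
    exact (Nat.eq_of_mul_eq_mul_left (Nat.pos_of_ne_zero h2) this).symm
  rw [Ideal.absNorm_eq_one_iff] at h3
  rw [hJ, h3, Ideal.mul_top]

theorem inv_of_Psi_eq (I : Ideal (𝓞 F)) (h : Psi θ I = I) : Inv θ I := by
  intro x y hxy hx
  rw [← h, mem_Psi]
  have h1 : y = psi θ x := by
    apply RingOfIntegers.ext
    rw [hxy, psi_coe]
  rw [h1, RingEquiv.symm_apply_apply]
  exact hx

/-- The chosen representative of the orbit of `P`. -/
noncomputable def rep (P : Ideal (𝓞 F)) : Ideal (𝓞 F) :=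
  (Quotient.mk (Equiv.Perm.SameCycle.setoid (Psi θ)) P).out

theorem rep_same (P : Ideal (𝓞 F)) : (Psi θ).SameCycle (rep θ P) P :=
  Quotient.mk_out (s := Equiv.Perm.SameCycle.setoid (Psi θ)) P

theorem rep_congr {P Q : Ideal (𝓞 F)} (h : (Psi θ).SameCycle P Q) : rep θ P = rep θ Q := by
  unfold rep
  congr 1
  exact Quotient.sound (s := Equiv.Perm.SameCycle.setoid (Psi θ)) h

/-- The set of primes containing an ideal. -/
noncomputable def SI (I : Ideal (𝓞 F)) : Finset (Ideal (𝓞 F)) := by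
  classical
  exact (UniqueFactorizationMonoid.normalizedFactors I).toFinset

theorem mem_SI {I : Ideal (𝓞 F)} (hI : I ≠ ⊥) (P : Ideal (𝓞 F)) :
    P ∈ SI I ↔ P.IsPrime ∧ I ≤ P := by
  classical
  unfold SI
  rw [Multiset.mem_toFinset, Ideal.mem_normalizedFactors_iff hI]

theorem ne_bot_of_mem_SI {I : Ideal (𝓞 F)} (hI : I ≠ ⊥) {P : Ideal (𝓞 F)} (h : P ∈ SI I) :
    P ≠ ⊥ := by
  rintro rfl
  exact hI (le_bot_iff.mp ((mem_SI hI _).mp h).2)

theorem sqfree_ne_bot {F : Type} [Field F] {I : Ideal (𝓞 F)} (h : SqFree I) : I ≠ ⊥ := by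
  rintro rfl
  have : (⊥ : Ideal (𝓞 F)).IsPrime := Ideal.isPrime_bot
  exact h ⊥ this bot_le

theorem SI_prod_dvd {I : Ideal (𝓞 F)} (hI : I ≠ ⊥) : ∏ P ∈ SI I, P ∣ I := by
  apply Finset.prod_primes_dvd
  · intro P hP
    exact Ideal.prime_of_isPrime (ne_bot_of_mem_SI hI hP) ((mem_SI hI _).mp hP).1
  · intro P hP
    rw [Ideal.dvd_iff_le]
    exact ((mem_SI hI _).mp hP).2

theorem eq_prod_SI {I : Ideal (𝓞 F)} (h : SqFree I) : I = ∏ P ∈ SI I, P := by
  have hI := sqfree_ne_bot h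
  obtain ⟨K, hK⟩ := SI_prod_dvd hI
  by_cases hKt : K = ⊤
  · rw [hKt, Ideal.mul_top] at hK
    exact hK
  · exfalso
    obtain ⟨P, hP, hKP⟩ := Ideal.exists_le_maximal K hKt
    have hIP : I ≤ P := by
      have : I ≤ K := by
        have h5 : (∏ P ∈ SI I, P) * K ≤ K := Ideal.mul_le_right
        rwa [← hK] at h5
      exact this.trans hKP
    have hmem : P ∈ SI I := (mem_SI hI P).mpr ⟨hP.isPrime, hIP⟩
    apply h P hP.isPrime
    rw [← Ideal.dvd_iff_le, hK, pow_two]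
    exact mul_dvd_mul (Finset.dvd_prod_of_mem _ hmem) (Ideal.dvd_iff_le.mpr hKP)

theorem mem_SI_iff_same {I : Ideal (𝓞 F)} (hI : I ≠ ⊥) (h : Inv θ I) {P Q : Ideal (𝓞 F)}
    (hPQ : (Psi θ).SameCycle P Q) (hP : P ∈ SI I) : Q ∈ SI I := by
  have hΨ := Psi_eq_of_inv θ I hI h
  have hΨ' : (Psi θ).symm I = I := by
    rw [Equiv.symm_apply_eq]; exact hΨ.symm
  have h1 : ∀ P ∈ SI I, Psi θ P ∈ SI I := by
    intro P hP
    rw [mem_SI hI] at hP ⊢
    refine ⟨Psi_prime θ P hP.1, ?_⟩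
    rw [← hΨ]
    exact Psi_mono θ hP.2
  have h2 : ∀ P ∈ SI I, (Psi θ).symm P ∈ SI I := by
    intro P hP
    rw [mem_SI hI] at hP ⊢
    refine ⟨Psi_symm_prime θ P hP.1, ?_⟩
    rw [← hΨ']
    exact Psi_symm_mono θ hP.2
  obtain ⟨i, rfl⟩ := hPQ
  induction i using Int.induction_on with
  | zero => simpa using hP
  | succ i ih =>
    rw [add_comm, zpow_add, zpow_one, Equiv.Perm.mul_apply]
    exact h1 _ ih
  | pred i ih =>
    have e : (-(i : ℤ) - 1) = -1 + -(i : ℤ) := by ring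
    rw [e, zpow_add, zpow_neg_one, Equiv.Perm.mul_apply, Equiv.Perm.inv_def]
    exact h2 _ ih

open Classical in
/-- The weight of a representative. -/
noncomputable def wgt (P : Ideal (𝓞 F)) : ℕ :=
  if Inv θ P then Ideal.absNorm P else Ideal.absNorm P ^ 2

/-- The set of representatives. -/
noncomputable def TI (I : Ideal (𝓞 F)) : Finset (Ideal (𝓞 F)) := by
  classical
  exact (SI I).image (rep θ)

theorem TI_subset {I : Ideal (𝓞 F)} (hI : I ≠ ⊥) (h : Inv θ I) : TI θ I ⊆ SI I := by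
  classical
  intro t ht
  unfold TI at ht
  rw [Finset.mem_image] at ht
  obtain ⟨P, hP, rfl⟩ := ht
  exact mem_SI_iff_same θ hI h (rep_same θ P).symm hP

theorem mem_SI_iff_rep {I : Ideal (𝓞 F)} (hI : I ≠ ⊥) (h : Inv θ I) (P : Ideal (𝓞 F)) :
    P ∈ SI I ↔ rep θ P ∈ TI θ I := by
  classical
  constructor
  · intro hP
    unfold TI
    exact Finset.mem_image_of_mem _ hP
  · intro hP
    exact mem_SI_iff_same θ hI h (rep_same θ P) (TI_subset θ hI h hP)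

theorem TI_inj {I J : Ideal (𝓞 F)} (hI : SqFree I) (hJ : SqFree J) (hI' : Inv θ I)
    (hJ' : Inv θ J) (h : TI θ I = TI θ J) : I = J := by
  have h1 : SI I = SI J := by
    ext P
    rw [mem_SI_iff_rep θ (sqfree_ne_bot hI) hI', mem_SI_iff_rep θ (sqfree_ne_bot hJ) hJ', h]
  rw [eq_prod_SI hI, eq_prod_SI hJ, h1]

theorem absNorm_pos {P : Ideal (𝓞 F)} (h : P ≠ ⊥) : 0 < Ideal.absNorm P :=
  Nat.pos_of_ne_zero (by rwa [Ne, Ideal.absNorm_eq_zero_iff])

theorem TI_prod_le {I : Ideal (𝓞 F)} (hI : I ≠ ⊥) (h : Inv θ I) :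
    ∏ t ∈ TI θ I, wgt θ t ≤ Ideal.absNorm I := by
  classical
  have h1 : ∏ P ∈ SI I, Ideal.absNorm P ≤ Ideal.absNorm I := by
    obtain ⟨K, hK⟩ := SI_prod_dvd hI
    have : Ideal.absNorm I = (∏ P ∈ SI I, Ideal.absNorm P) * Ideal.absNorm K := by
      conv_lhs => rw [hK]
      rw [map_mul, map_prod]
    exact Nat.le_of_dvd (absNorm_pos hI) ⟨_, this⟩
  refine le_trans ?_ h1
  have h2 : ∀ P ∈ SI I, rep θ P ∈ TI θ I := fun P hP => (mem_SI_iff_rep θ hI h P).mp hP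
  rw [← Finset.prod_fiberwise_of_maps_to h2 (fun P => Ideal.absNorm P)]
  apply Finset.prod_le_prod'
  intro t ht
  have htS := TI_subset θ hI h ht
  have htrep : rep θ t = t := by
    unfold TI at ht
    rw [Finset.mem_image] at ht
    obtain ⟨P, _, rfl⟩ := ht
    exact rep_congr θ (rep_same θ P)
  have hmem : t ∈ (SI I).filter (fun P => rep θ P = t) := by
    rw [Finset.mem_filter]
    exact ⟨htS, htrep⟩
  have hpos : ∀ P ∈ (SI I).filter (fun P => rep θ P = t), 1 ≤ Ideal.absNorm P := by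
    intro P hP
    rw [Finset.mem_filter] at hP
    exact absNorm_pos (ne_bot_of_mem_SI hI hP.1)
  unfold wgt
  split_ifs with hinv
  · exact Finset.single_le_prod' (f := fun P => Ideal.absNorm P) hpos hmem
  · have hne : Psi θ t ≠ t := fun hh => hinv (inv_of_Psi_eq θ t hh)
    have hsame : (Psi θ).SameCycle t (Psi θ t) := ⟨1, by rw [zpow_one]⟩
    have hmem2 : Psi θ t ∈ (SI I).filter (fun P => rep θ P = t) := by
      rw [Finset.mem_filter]
      refine ⟨mem_SI_iff_same θ hI h hsame htS, ?_⟩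
      rw [← rep_congr θ hsame, htrep]
    have h3 : ({t, Psi θ t} : Finset (Ideal (𝓞 F))) ⊆ (SI I).filter (fun P => rep θ P = t) := by
      intro x hx
      rw [Finset.mem_insert, Finset.mem_singleton] at hx
      rcases hx with rfl | rfl
      · exact hmem
      · exact hmem2
    have h4 := Finset.prod_le_prod_of_subset_of_one_le' (f := fun P => Ideal.absNorm P) h3
      (fun P hP _ => hpos P hP)
    rw [Finset.prod_pair hne.symm, absNorm_Psi, ← pow_two] at h4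
    exact h4

/-- The sum of the weights is bounded. -/
theorem wgt_sum (hθ : θ ≠ 1) : ∃ W : ℝ, ∀ U : Finset (Ideal (𝓞 F)),
    (∀ P ∈ U, P.IsPrime ∧ P ≠ ⊥) → ∑ P ∈ U, (wgt θ P : ℝ) ^ (-(3 / 4) : ℝ) ≤ W := by
  classical
  have s1 := summable_inv F θ hθ
  have s2 := summable_three_half F
  refine ⟨(∑' P : {P : Ideal (𝓞 F) // P.IsPrime ∧ P ≠ ⊥ ∧ Inv θ P},
      (Ideal.absNorm P.1 : ℝ) ^ (-(3 / 4) : ℝ)) +
    ∑' P : {P : Ideal (𝓞 F) // P.IsPrime ∧ P ≠ ⊥}, (Ideal.absNorm P.1 : ℝ) ^ (-(3 / 2) : ℝ), ?_⟩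
  intro U hU
  rw [← Finset.sum_filter_add_sum_filter_not U (fun P => Inv θ P)]
  apply add_le_add
  · have h1 := s1.sum_le_tsum
      (U.subtype (fun P : Ideal (𝓞 F) => P.IsPrime ∧ P ≠ ⊥ ∧ Inv θ P))
      (fun P _ => by positivity)
    refine le_trans (le_of_eq ?_) h1
    rw [Finset.sum_subtype_eq_sum_filter (f := fun P : Ideal (𝓞 F) =>
      (Ideal.absNorm P : ℝ) ^ (-(3 / 4) : ℝ))]
    have h2 : U.filter (fun P => P.IsPrime ∧ P ≠ ⊥ ∧ Inv θ P) = U.filter (fun P => Inv θ P) := by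
      ext P
      simp only [Finset.mem_filter]
      constructor
      · rintro ⟨h3, _, _, h4⟩
        exact ⟨h3, h4⟩
      · rintro ⟨h3, h4⟩
        exact ⟨h3, (hU P h3).1, (hU P h3).2, h4⟩
    rw [h2]
    refine Finset.sum_congr rfl fun P hP => ?_
    rw [Finset.mem_filter] at hP
    rw [wgt, if_pos hP.2]
  · have h1 := s2.sum_le_tsum
      ((U.filter (fun P => ¬ Inv θ P)).subtype (fun P : Ideal (𝓞 F) => P.IsPrime ∧ P ≠ ⊥))
      (fun P _ => by positivity)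
    refine le_trans (le_of_eq ?_) h1
    rw [Finset.sum_subtype_eq_sum_filter (f := fun P : Ideal (𝓞 F) =>
      (Ideal.absNorm P : ℝ) ^ (-(3 / 2) : ℝ))]
    have h2 : (U.filter (fun P => ¬ Inv θ P)).filter (fun P => P.IsPrime ∧ P ≠ ⊥) =
        U.filter (fun P => ¬ Inv θ P) := by
      ext P
      simp only [Finset.mem_filter]
      constructor
      · rintro ⟨⟨h3, h4⟩, _⟩
        exact ⟨h3, h4⟩
      · rintro ⟨h3, h4⟩
        exact ⟨⟨h3, h4⟩, (hU P h3).1, (hU P h3).2⟩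
    rw [h2]
    refine Finset.sum_congr rfl fun P hP => ?_
    rw [Finset.mem_filter] at hP
    rw [wgt, if_neg hP.2]
    push_cast
    rw [← Real.rpow_natCast, ← Real.rpow_mul (by positivity)]
    norm_num

theorem wgt_pos {P : Ideal (𝓞 F)} (h : P ≠ ⊥) : 0 < wgt θ P := by
  unfold wgt
  split_ifs
  · exact absNorm_pos h
  · exact pow_pos (absNorm_pos h) 2

/-- The count. -/
theorem invariant_bound (hθ : θ ≠ 1) : ∃ C : ℝ, ∀ Z : ℝ, 1 ≤ Z →
    (Set.ncard {I : Ideal (𝓞 F) | SqFree I ∧ Inv θ I ∧ (Ideal.absNorm I : ℝ) ≤ Z} : ℝ) ≤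
      C * Z ^ (3 / 4 : ℝ) := by
  classical
  obtain ⟨W, hW⟩ := wgt_sum θ hθ
  refine ⟨Real.exp W, ?_⟩
  intro Z hZ
  have hZ0 : 0 ≤ Z := by linarith
  -- the finite set of primes
  have hfin : {P : Ideal (𝓞 F) | (P.IsPrime ∧ P ≠ ⊥) ∧ Ideal.absNorm P ≤ ⌊Z⌋₊}.Finite :=
    (Ideal.finite_setOfPred_absNorm_le (S := 𝓞 F) ⌊Z⌋₊).subset fun P hP => hP.2
  set U := hfin.toFinset with hU
  have hUm : ∀ P, P ∈ U ↔ (P.IsPrime ∧ P ≠ ⊥) ∧ Ideal.absNorm P ≤ ⌊Z⌋₊ := by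
    intro P
    rw [hU, Set.Finite.mem_toFinset]
    rfl
  have hUw : ∀ T ∈ U.powerset, 0 < ∏ t ∈ T, wgt θ t := by
    intro T hT
    rw [Finset.mem_powerset] at hT
    exact Finset.prod_pos fun t ht => wgt_pos θ ((hUm t).mp (hT ht)).1.2
  set V := U.powerset.filter (fun T => ((∏ t ∈ T, wgt θ t : ℕ) : ℝ) ≤ Z) with hV
  have h1 : (Set.ncard {I : Ideal (𝓞 F) | SqFree I ∧ Inv θ I ∧ (Ideal.absNorm I : ℝ) ≤ Z}) ≤
      V.card := by
    rw [← Set.ncard_coe_finset V]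
    apply Set.ncard_le_ncard_of_injOn (fun I => TI θ I)
    · rintro I ⟨hI1, hI2, hI3⟩
      have hI := sqfree_ne_bot hI1
      rw [Finset.mem_coe, hV, Finset.mem_filter, Finset.mem_powerset]
      constructor
      · intro t ht
        have ht' := TI_subset θ hI hI2 ht
        rw [hUm]
        refine ⟨⟨((mem_SI hI t).mp ht').1, ne_bot_of_mem_SI hI ht'⟩, ?_⟩
        have hdvd : t ∣ I := Ideal.dvd_iff_le.mpr ((mem_SI hI t).mp ht').2
        obtain ⟨K, hK⟩ := hdvd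
        have h2 : Ideal.absNorm t ≤ Ideal.absNorm I := by
          refine Nat.le_of_dvd (absNorm_pos hI) ⟨Ideal.absNorm K, ?_⟩
          conv_lhs => rw [hK]
          rw [map_mul]
        exact h2.trans (Nat.le_floor hI3)
      · have h2 := TI_prod_le θ hI hI2
        have h3 : ((∏ t ∈ TI θ I, wgt θ t : ℕ) : ℝ) ≤ (Ideal.absNorm I : ℝ) := by exact_mod_cast h2
        exact h3.trans hI3
    · rintro I ⟨hI1, hI2, _⟩ J ⟨hJ1, hJ2, _⟩ hIJ
      exact TI_inj θ hI1 hJ1 hI2 hJ2 hIJ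
  have h2 : (V.card : ℝ) ≤ ∑ T ∈ U.powerset,
      Z ^ (3 / 4 : ℝ) * ∏ t ∈ T, (wgt θ t : ℝ) ^ (-(3 / 4) : ℝ) := by
    have h3 : (V.card : ℝ) = ∑ T ∈ V, (1 : ℝ) := by simp
    rw [h3]
    have h4 : ∑ T ∈ V, (1 : ℝ) ≤ ∑ T ∈ V,
        Z ^ (3 / 4 : ℝ) * ∏ t ∈ T, (wgt θ t : ℝ) ^ (-(3 / 4) : ℝ) := by
      apply Finset.sum_le_sum
      intro T hT
      rw [hV, Finset.mem_filter] at hT
      have hpos : (0 : ℝ) < ((∏ t ∈ T, wgt θ t : ℕ) : ℝ) := by exact_mod_cast hUw T hT.1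
      have h5 : ∏ t ∈ T, (wgt θ t : ℝ) ^ (-(3 / 4) : ℝ) =
          ((∏ t ∈ T, wgt θ t : ℕ) : ℝ) ^ (-(3 / 4) : ℝ) := by
        push_cast
        exact Real.finsetProd_rpow T (fun t => (wgt θ t : ℝ)) (fun t _ => by positivity) _
      rw [h5]
      have h6 : (((∏ t ∈ T, wgt θ t : ℕ) : ℝ)) ^ (3 / 4 : ℝ) ≤ Z ^ (3 / 4 : ℝ) :=
        Real.rpow_le_rpow hpos.le hT.2 (by norm_num)
      rw [Real.rpow_neg hpos.le, ← div_eq_mul_inv, le_div_iff₀ (by positivity), one_mul]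
      exact h6
    refine h4.trans (Finset.sum_le_sum_of_subset_of_nonneg (Finset.filter_subset _ _) ?_)
    intro T _ _
    positivity
  have h3 : ∑ T ∈ U.powerset, Z ^ (3 / 4 : ℝ) * ∏ t ∈ T, (wgt θ t : ℝ) ^ (-(3 / 4) : ℝ) =
      Z ^ (3 / 4 : ℝ) * ∏ t ∈ U, (1 + (wgt θ t : ℝ) ^ (-(3 / 4) : ℝ)) := by
    rw [← Finset.mul_sum, Finset.prod_one_add]
  have h4 : ∏ t ∈ U, (1 + (wgt θ t : ℝ) ^ (-(3 / 4) : ℝ)) ≤ Real.exp W := by
    have h5 : ∏ t ∈ U, (1 + (wgt θ t : ℝ) ^ (-(3 / 4) : ℝ)) ≤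
        ∏ t ∈ U, Real.exp ((wgt θ t : ℝ) ^ (-(3 / 4) : ℝ)) := by
      apply Finset.prod_le_prod
      · intro t _
        positivity
      · intro t _
        have := Real.add_one_le_exp ((wgt θ t : ℝ) ^ (-(3 / 4) : ℝ))
        linarith
    rw [← Real.exp_sum] at h5
    refine h5.trans (Real.exp_le_exp.mpr (hW U fun P hP => ((hUm P).mp hP).1))
  calc (Set.ncard {I : Ideal (𝓞 F) | SqFree I ∧ Inv θ I ∧ (Ideal.absNorm I : ℝ) ≤ Z} : ℝ) ≤
        (V.card : ℝ) := by exact_mod_cast h1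
    _ ≤ Z ^ (3 / 4 : ℝ) * ∏ t ∈ U, (1 + (wgt θ t : ℝ) ^ (-(3 / 4) : ℝ)) := by
        rw [← h3]; exact h2
    _ ≤ Z ^ (3 / 4 : ℝ) * Real.exp W := mul_le_mul_of_nonneg_left h4 (by positivity)
    _ = Real.exp W * Z ^ (3 / 4 : ℝ) := mul_comm _ _

end badid

theorem invariant_count (F : Type) [Field F] [NumberField F] (θ : F ≃ₐ[ℚ] F) (hθ : θ ≠ 1) :
    Tendsto (fun Z : ℝ => (Set.ncard {I : Ideal (𝓞 F) | SqFree I ∧ Inv θ I ∧
      (Ideal.absNorm I : ℝ) ≤ Z} : ℝ) / Z) atTop (𝓝 0) := by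
  obtain ⟨C, hC⟩ := invariant_bound θ hθ
  have h1 : Tendsto (fun Z : ℝ => C * Z ^ (-(1 / 4) : ℝ)) atTop (𝓝 0) := by
    have := (tendsto_rpow_neg_atTop (y := (1 / 4 : ℝ)) (by norm_num)).const_mul C
    simpa using this
  refine squeeze_zero' ?_ ?_ h1
  · filter_upwards [eventually_ge_atTop 1] with Z hZ
    positivity
  · filter_upwards [eventually_ge_atTop 1] with Z hZ
    have hZ0 : 0 < Z := by linarith
    rw [div_le_iff₀ hZ0]
    refine (hC Z hZ).trans (le_of_eq ?_)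
    rw [mul_assoc]
    congr 1
    nth_rewrite 3 [← Real.rpow_one Z]
    rw [← Real.rpow_add hZ0]
    norm_num

end QTow
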