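import Pool.Agent.Lib.MP_44a56e_nt.Defs2

/-! # MP_44a56e_nt, module DiscA: the discriminant of the lattice `𝓞 F ⊕ 𝔠 s`.

PROOF of `discr_index`. `m = finrank ℚ F`, `finrank ℚ K = 2 m`. `b` a `ℤ`-basis of `𝓞 F`
(`RingOfIntegers.basis F` or `Module.Free.chooseBasis`), `d` a `ℤ`-basis of `𝔠` (same rank,
`Ideal.selfBasis`/`Ideal.finrank_eq_finrank`). `v = (b, d s)` is a family of `2 m` elements of `K`, linearly
independent over `ℚ` (`{1, s}` is a basis of `K` over `F`) and a `ℤ`-basis of `L` (by `hL`, `hint`).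
(1) Trace matrix over `ℚ`: `Tr_{K/ℚ} = Tr_{F/ℚ} ∘ Tr_{K/F}`, `Tr_{K/F}(x) = 2x` for `x ∈ F`,
`Tr_{K/F}(y s) = 0`, `Tr_{K/F}(y y' s²) = 2 a y y'`. So `Algebra.discr ℚ v` is the product of
`det (2 Tr(b_i b_j)) = 2^m discr F` and `det (2 Tr(a d_i d_j)) = 2^m N(a) det (Tr(d_i d_j))
= 2^m N(a) (absNorm 𝔠)² discr F` (the matrix `(Tr(a d_i d_j))` is `(Tr(d_i d_j))` times the matrix of
multiplication by `a` in the `ℚ`-basis `d` of `F`, determinant `Algebra.norm ℚ a`;
`d = b * (integer matrix of determinant ± absNorm 𝔠)`, `Ideal.natAbs_det_basis_change`).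
(2) `v` is obtained from a `ℤ`-basis of `𝓞 K` by an integer matrix `A` with `|det A| = L.index`
(Smith normal form; Mathlib `LinearAlgebra/FreeModule/Int`, `Basis.SmithNormalForm...index`, or
`Submodule.natAbs_det_equiv`, `Int.natAbs_det...`), so `Algebra.discr ℚ v = (det A)² discr K`
(`Algebra.discr_of_matrix_vecMul`). -/

open NumberField Module

namespace QTow

section
variable {F K : Type} [Field F] [NumberField F] [Field K] [NumberField K] [Algebra F K]

/-- linear independence of `1, s` -/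
private lemma discA_li {s : K} (hs : s ∉ Set.range (algebraMap F K)) {x y : F}
    (h : algebraMap F K x + algebraMap F K y * s = 0) : x = 0 ∧ y = 0 := by
  have hy : y = 0 := by
    by_contra hy
    apply hs
    refine ⟨- x / y, ?_⟩
    have hy' : algebraMap F K y ≠ 0 := by
      rw [Ne, map_eq_zero]
      exact hy
    rw [map_div₀, map_neg, div_eq_iff hy']
    linear_combination (-1 : K) * h
  subst hy
  refine ⟨?_, rfl⟩
  rw [map_zero, zero_mul, add_zero, map_eq_zero] at h
  exact h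

private lemma discA_trace_s (h2 : finrank F K = 2) {s : K}
    (hs : s ∉ Set.range (algebraMap F K)) {a : F} (ha : algebraMap F K a = s ^ 2) :
    Algebra.trace F K s = 0 := by
  have hli : LinearIndependent F ![(1 : K), s] := by
    rw [LinearIndependent.pair_iff]
    intro x y hxy
    apply discA_li hs
    rw [Algebra.smul_def, Algebra.smul_def, mul_one] at hxy
    exact hxy
  let b := basisOfLinearIndependentOfCardEqFinrank hli (by rw [Fintype.card_fin, h2])
  have hb0 : b 0 = 1 := by simp [b]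
  have hb1 : b 1 = s := by simp [b]
  rw [Algebra.trace_eq_matrix_trace b, Matrix.trace_fin_two, Algebra.leftMulMatrix_eq_repr_mul,
    Algebra.leftMulMatrix_eq_repr_mul, hb0, hb1, mul_one]
  have e1 : b.repr s 0 = 0 := by
    nth_rewrite 1 [← hb1]
    rw [Basis.repr_self]
    simp
  have e2 : b.repr (s * s) 1 = 0 := by
    have : s * s = a • b 0 := by rw [hb0, Algebra.smul_def, mul_one, ha, pow_two]
    rw [this, map_smul, Basis.repr_self]
    simp
  rw [e1, e2, add_zero]

variable [IsScalarTower ℚ F K]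

private lemma discA_tr1 (h2 : finrank F K = 2) (x : F) :
    Algebra.trace ℚ K (algebraMap F K x) = 2 * Algebra.trace ℚ F x := by
  rw [← Algebra.trace_trace (S := F), Algebra.trace_algebraMap, h2, map_nsmul, nsmul_eq_mul]
  norm_num

private lemma discA_tr2 (h2 : finrank F K = 2) {s : K}
    (hs : s ∉ Set.range (algebraMap F K)) {a : F} (ha : algebraMap F K a = s ^ 2) (y : F) :
    Algebra.trace ℚ K (algebraMap F K y * s) = 0 := by
  rw [← Algebra.trace_trace (S := F), ← Algebra.smul_def, map_smul, discA_trace_s h2 hs ha,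
    smul_zero, map_zero]

end

private lemma discA_mulBasis {F : Type} [Field F] [NumberField F] {ι : Type} [Fintype ι]
    [DecidableEq ι] (b : Basis ι ℚ F) (a : F) :
    (Matrix.of fun i j => Algebra.trace ℚ F (a * (b i * b j))).det =
      Algebra.norm ℚ a * Algebra.discr ℚ b := by
  have h : (Matrix.of fun i j => Algebra.trace ℚ F (a * (b i * b j))) =
      (Algebra.leftMulMatrix b a).transpose * Algebra.traceMatrix ℚ b := by
    ext i j
    rw [Matrix.of_apply, Matrix.mul_apply]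
    simp_rw [Matrix.transpose_apply, Algebra.leftMulMatrix_eq_repr_mul, Algebra.traceMatrix_apply,
      Algebra.traceForm_apply, ← smul_eq_mul (a := b.repr (a * b i) _), ← map_smul, ← map_sum,
      ← smul_mul_assoc, ← Finset.sum_mul, b.sum_repr, mul_assoc]
  rw [h, Matrix.det_mul, Matrix.det_transpose, ← Algebra.norm_eq_matrix_det, Algebra.discr_def]

private lemma discA_change {F : Type} [Field F] [NumberField F] {ι : Type} [Fintype ι]
    [DecidableEq ι] (b : ι → F) (a : F) (P : Matrix ι ι ℚ) (d : ι → F)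
    (hd : ∀ j, d j = ∑ k, P k j • b k) :
    (Matrix.of fun i j => Algebra.trace ℚ F (a * (d i * d j))) =
      P.transpose * (Matrix.of fun i j => Algebra.trace ℚ F (a * (b i * b j))) * P := by
  ext i j
  rw [Matrix.of_apply, Matrix.mul_apply]
  simp_rw [Matrix.mul_apply, Matrix.transpose_apply, Matrix.of_apply, hd]
  simp_rw [Finset.sum_mul_sum, Finset.mul_sum, map_sum, Finset.sum_mul]
  rw [Finset.sum_comm]
  refine Finset.sum_congr rfl fun k _ => Finset.sum_congr rfl fun l _ => ?_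
  rw [smul_mul_smul_comm, mul_smul_comm, map_smul, smul_eq_mul]
  ring

private lemma discA_cast {K : Type} [Field K] [NumberField K] {κ : Type} [Fintype κ]
    [DecidableEq κ] (w : κ → 𝓞 K) : ((Algebra.discr ℤ w : ℤ) : ℚ) =
      (Matrix.of fun i j => Algebra.trace ℚ K ((w i : K) * (w j : K))).det := by
  rw [Algebra.discr_def, ← eq_intCast (Int.castRingHom ℚ), RingHom.map_det]
  congr 1
  ext i j
  rw [RingHom.mapMatrix_apply, Matrix.map_apply, Algebra.traceMatrix_apply,
    Algebra.traceForm_apply, eq_intCast, Algebra.coe_trace_int, Matrix.of_apply]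
  rfl

/-- `|det| ^ 2 * discr` for a subgroup with a basis of full rank -/
private lemma discA_index {K : Type} [Field K] [NumberField K] (L : AddSubgroup (𝓞 K))
    {κ : Type} [Fintype κ] [DecidableEq κ] (bL : Basis κ ℤ L)
    (hc : Fintype.card κ = finrank ℚ K) :
    |((discr K : ℤ) : ℝ)| * (L.index : ℝ) ^ 2 =
      |((Algebra.discr ℤ (fun i => (bL i : 𝓞 K)) : ℤ) : ℝ)| := by
  have hcard : Fintype.card (Free.ChooseBasisIndex ℤ (𝓞 K)) = Fintype.card κ := by
    rw [hc, ← RingOfIntegers.rank K, finrank_eq_card_chooseBasisIndex]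
  let e := Fintype.equivOfCardEq hcard
  let b := (RingOfIntegers.basis K).reindex e
  rw [AddSubgroup.index_eq_natAbs_det b L bL, Nat.cast_natAbs, ← NumberField.discr_eq_discr K b]
  have h1 := Algebra.discr_of_matrix_vecMul (A := ℤ) (fun i => b i)
    (b.toMatrix (fun i => (bL i : 𝓞 K)))
  rw [b.toMatrix_map_vecMul] at h1
  rw [h1, Basis.det_apply]
  push_cast
  rw [abs_mul, sq_abs, abs_pow, sq_abs]
  ring

theorem discr_index (F K : Type) [Field F] [NumberField F] [Field K] [NumberField K]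
    [Algebra F K] (h2 : finrank F K = 2) (s : K) (hs : s ∉ Set.range (algebraMap F K)) (a : F)
    (ha : algebraMap F K a = s ^ 2) (𝔠 : Ideal (𝓞 F)) (h𝔠 : 𝔠 ≠ ⊥)
    (hint : ∀ y ∈ 𝔠, IsIntegral ℤ (algebraMap F K (y : F) * s))
    (L : AddSubgroup (𝓞 K)) (hL : ∀ z : 𝓞 K, z ∈ L ↔ ∃ x : 𝓞 F, ∃ y ∈ 𝔠,
      (z : K) = algebraMap F K (x : F) + algebraMap F K (y : F) * s) :
    |((discr K : ℤ) : ℝ)| * (L.index : ℝ) ^ 2 =
      4 ^ (finrank ℚ F) * |((discr F : ℤ) : ℝ)| ^ 2 * |((Algebra.norm ℚ a : ℚ) : ℝ)| *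
        (Ideal.absNorm 𝔠 : ℝ) ^ 2 := by
  classical
  -- the integer `x + y s`
  have hx : ∀ x : 𝓞 F, IsIntegral ℤ (algebraMap F K (x : F)) := fun x =>
    (RingOfIntegers.isIntegral_coe x).algebraMap
  let g : 𝓞 F × 𝔠 → 𝓞 K := fun p => ⟨algebraMap F K (p.1 : F) +
    algebraMap F K ((p.2 : 𝓞 F) : F) * s, (hx p.1).add (hint p.2 p.2.2)⟩
  have hg : ∀ p, ((g p : 𝓞 K) : K) = algebraMap F K (p.1 : F) +
    algebraMap F K ((p.2 : 𝓞 F) : F) * s := fun p => rfl
  have hgL : ∀ p, g p ∈ L := fun p => (hL _).2 ⟨p.1, p.2, p.2.2, hg p⟩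
  let f0 : (𝓞 F × 𝔠) →+ L :=
    { toFun := fun p => ⟨g p, hgL p⟩
      map_zero' := by
        apply Subtype.ext
        apply RingOfIntegers.ext
        rw [hg]
        simp
      map_add' := by
        intro p q
        have e : ((g (p + q) : 𝓞 K) : K) = (g p : K) + (g q : K) := by
          rw [hg, hg, hg]
          simp only [Prod.fst_add, Prod.snd_add, map_add, Submodule.coe_add]
          ring
        apply Subtype.ext
        apply RingOfIntegers.ext
        rw [e]
        push_cast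
        rfl }
  have hf0 : Function.Bijective f0 := by
    constructor
    · rw [injective_iff_map_eq_zero]
      intro p hp
      have h0 : g p = 0 := congrArg Subtype.val hp
      have h1 : ((g p : 𝓞 K) : K) = 0 := by
        rw [h0]
        simp
      rw [hg] at h1
      obtain ⟨h3, h4⟩ := discA_li hs h1
      apply Prod.ext
      · apply RingOfIntegers.ext
        simpa using h3
      · apply Subtype.ext
        apply RingOfIntegers.ext
        simpa using h4
    · rintro ⟨z, hz⟩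
      obtain ⟨x, y, hy, h3⟩ := (hL z).1 hz
      refine ⟨(x, ⟨y, hy⟩), ?_⟩
      apply Subtype.ext
      apply RingOfIntegers.ext
      exact h3.symm
  let f : (𝓞 F × 𝔠) ≃ₗ[ℤ] L := (AddEquiv.ofBijective f0 hf0).toIntLinearEquiv
  let bF := RingOfIntegers.basis F
  let bc := Ideal.selfBasis bF 𝔠 h𝔠
  let bL := (bF.prod bc).map f
  have hcard : Fintype.card (Free.ChooseBasisIndex ℤ (𝓞 F)) = finrank ℚ F := by
    rw [← RingOfIntegers.rank F, finrank_eq_card_chooseBasisIndex]
  have hc : Fintype.card (Free.ChooseBasisIndex ℤ (𝓞 F) ⊕ Free.ChooseBasisIndex ℤ (𝓞 F)) =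
      finrank ℚ K := by
    rw [Fintype.card_sum, hcard, ← finrank_mul_finrank ℚ F K, h2]
    ring
  rw [discA_index L bL hc]
  let w : Free.ChooseBasisIndex ℤ (𝓞 F) ⊕ Free.ChooseBasisIndex ℤ (𝓞 F) → 𝓞 K :=
    fun i => g ((bF.prod bc) i)
  have hbw : (fun i => (bL i : 𝓞 K)) = w := rfl
  rw [hbw]
  have hw1 : ∀ i, ((w (Sum.inl i) : 𝓞 K) : K) = algebraMap F K ((bF i : 𝓞 F) : F) := by
    intro i
    change ((g ((bF.prod bc) (Sum.inl i)) : 𝓞 K) : K) = _
    rw [hg]
    simp
  have hw2 : ∀ j, ((w (Sum.inr j) : 𝓞 K) : K) =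
      algebraMap F K (((bc j : 𝔠) : 𝓞 F) : F) * s := by
    intro i
    change ((g ((bF.prod bc) (Sum.inr i)) : 𝓞 K) : K) = _
    rw [hg]
    simp
  obtain ⟨dP, hdP⟩ : ∃ x : ℤ, x = (bF.toMatrix (fun j => ((bc j : 𝔠) : 𝓞 F))).det := ⟨_, rfl⟩
  have hdisc : ((Algebra.discr ℤ w : ℤ) : ℚ) =
      (2 ^ (finrank ℚ F) * (discr F : ℚ)) * (2 ^ (finrank ℚ F) * (Algebra.norm ℚ a *
        (dP : ℚ) ^ 2 * (discr F : ℚ))) := by
    have h3 : (Matrix.of fun i j => Algebra.trace ℚ K ((w i : K) * (w j : K))) =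
        (Matrix.fromBlocks
          ((2 : ℚ) • Algebra.traceMatrix ℚ (integralBasis F)) 0 0
          ((2 : ℚ) • (Matrix.of fun i j => Algebra.trace ℚ F (a *
            ((((bc i : 𝔠) : 𝓞 F) : F) * (((bc j : 𝔠) : 𝓞 F) : F)))))) := by
      ext i j
      rw [Matrix.of_apply]
      rcases i with i | i <;> rcases j with j | j
      · rw [hw1, hw1, ← map_mul, discA_tr1 h2]
        simp only [Matrix.fromBlocks_apply₁₁, Matrix.smul_apply, smul_eq_mul,
          Algebra.traceMatrix_apply, Algebra.traceForm_apply, integralBasis_apply]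
        rfl
      · rw [hw1, hw2, ← mul_assoc, ← map_mul, discA_tr2 h2 hs ha]
        rfl
      · rw [hw1, hw2, mul_right_comm, ← map_mul, discA_tr2 h2 hs ha]
        rfl
      · rw [hw2, hw2, mul_mul_mul_comm, ← map_mul, ← pow_two s, ← ha, ← map_mul, discA_tr1 h2,
          mul_comm _ a]
        rfl
    rw [discA_cast, h3, Matrix.det_fromBlocks_zero₂₁, Matrix.det_smul, Matrix.det_smul, hcard,
      ← Algebra.discr_def, ← coe_discr]
    congr 2
    rw [discA_change (integralBasis F) a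
      ((bF.toMatrix (fun j => ((bc j : 𝔠) : 𝓞 F))).map (Int.cast : ℤ → ℚ)), Matrix.det_mul,
      Matrix.det_mul, Matrix.det_transpose, discA_mulBasis, ← coe_discr]
    · have h4 : ((bF.toMatrix (fun j => ((bc j : 𝔠) : 𝓞 F))).map (Int.cast : ℤ → ℚ)).det =
          (dP : ℚ) := by
        rw [hdP, ← eq_intCast (Int.castRingHom ℚ) (bF.toMatrix _).det, RingHom.map_det]
        rfl
      rw [h4]
      ring
    · intro j
      have h7 := congrArg (algebraMap (𝓞 F) F) (bF.sum_repr ((bc j : 𝔠) : 𝓞 F))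
      rw [map_sum] at h7
      refine h7.symm.trans (Finset.sum_congr rfl fun k _ => ?_)
      rw [Matrix.map_apply, Basis.toMatrix_apply, integralBasis_apply, zsmul_eq_mul, map_mul,
        map_intCast, Algebra.smul_def, eq_ratCast]
      push_cast
      rfl
  have h5 : ((Algebra.discr ℤ w : ℤ) : ℝ) = (((Algebra.discr ℤ w : ℤ) : ℚ) : ℝ) := by
    rw [Rat.cast_intCast]
  have h6 : (Ideal.absNorm 𝔠 : ℝ) = |(dP : ℝ)| := by
    rw [← Ideal.natAbs_det_basis_change bF 𝔠 bc, Nat.cast_natAbs, Basis.det_apply, Int.cast_abs,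
      hdP]
    rfl
  rw [h5, hdisc, h6]
  simp only [Rat.cast_mul, Rat.cast_pow, Rat.cast_intCast, Rat.cast_ofNat]
  rw [abs_mul, abs_mul, abs_mul, abs_mul, abs_mul, abs_pow, abs_pow, abs_two, sq_abs,
    show (4 : ℝ) = 2 * 2 by norm_num, mul_pow]
  ring

end QTow
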