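import Pool.Agent.Lib.MP_44a56e_nt.Defs2

/-! # MP_44a56e_nt, module DiscB: the integers of a quadratic extension.

PROOF of `sqf_mem`: the ideal form. `span {α} = 𝔞 𝔟²` with `𝔞` not contained in any `P²`, `P` prime
(`Ideal.dvd_iff_le`, `SqF`). Let `y ∈ F` with `α y² ∈ c² 𝓞 F`. To show: `y ∈ 𝔠`. As fractional ideals
`𝔞 𝔟² (y)² ≤ 𝔟² 𝔠²`, so `𝔞 ((y) 𝔠⁻¹)² ≤ 1`; if `(y) 𝔠⁻¹ = A B⁻¹` with coprime integral ideals `A, B`
then `𝔞 A² ≤ B²`, so `B² ∣ 𝔞`, so `B` has no prime factor, `B = ⊤`, `(y) ≤ 𝔠`. (Or with the valuations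
`count`: `v_P(𝔞) + 2 (v_P(y) - v_P(𝔠)) ≥ 0` and `v_P(𝔞) ≤ 1`; or: write `y = u/w`; or with the
`HeightOneSpectrum` valuations.) Then `y` is in `𝓞 F` and in `𝔠`.
PROOF of `int_iff`. `(→)` `z = u + v s` with `u, v ∈ F` (`{1, s}` is a basis). The trace `x = 2u` and the
norm `n = u² - α v²` of `z` over `F` are integral (`z` and its conjugate `u - v s` are roots of the same
polynomial; `Algebra.isIntegral_trace`, `isIntegral_norm`), so `α (2v)² = x² - 4 n ∈ 𝓞 F`; with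
`y = 2 v c`: `α y² = c² (x² - 4n)`, `y ∈ 𝔠` by `sqf_mem`, and `c² x² - α y² = 4 c² n`.
`(←)` `z` is a root of `Z² - x Z + n`, `n = (c² x² - α y²)/(4 c²) ∈ 𝓞 F`, so `z` is integral over `𝓞 F`,
hence over `ℤ`. -/

open NumberField Module

namespace QTow

private theorem discb_sqfree {F : Type} [Field F] [NumberField F] {𝔟 𝔞 : Ideal (𝓞 F)} {α : 𝓞 F}
    (hα : SqF 𝔟 α) (h𝔞 : Ideal.span {α} = 𝔟 ^ 2 * 𝔞) : Squarefree 𝔞 := by
  intro x hx
  by_contra hxu
  rw [Ideal.isUnit_iff] at hxu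
  obtain ⟨P, hP, hxP⟩ := Ideal.exists_le_maximal x hxu
  refine hα.2 P hP.isPrime ?_
  have h1 : Ideal.span {α} ≤ P ^ 2 * 𝔟 ^ 2 := by
    rw [h𝔞, mul_comm]
    refine Ideal.mul_mono ?_ le_rfl
    calc 𝔞 ≤ x * x := Ideal.dvd_iff_le.1 hx
      _ ≤ P * P := Ideal.mul_mono hxP hxP
      _ = P ^ 2 := (sq P).symm
  exact h1 (Ideal.mem_span_singleton_self α)

private theorem discb_dvd {F : Type} [Field F] [NumberField F] {𝔞 d u : Ideal (𝓞 F)}
    (h𝔞 : Squarefree 𝔞) (hd : d ≠ 0) (h : d ^ 2 ∣ 𝔞 * u ^ 2) : d ∣ u := by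
  obtain ⟨d', u', g, hrel, hd', hu'⟩ := UniqueFactorizationMonoid.exists_reduced_factors d hd u
  have hg : g ≠ 0 := by
    rintro rfl
    rw [zero_mul] at hd'
    exact hd hd'.symm
  have h1 : g ^ 2 * d' ^ 2 ∣ g ^ 2 * (𝔞 * u' ^ 2) := by
    have e1 : g ^ 2 * d' ^ 2 = d ^ 2 := by rw [← hd']; ring
    have e2 : g ^ 2 * (𝔞 * u' ^ 2) = 𝔞 * u ^ 2 := by rw [← hu']; ring
    rw [e1, e2]
    exact h
  have h2 : d' ^ 2 ∣ 𝔞 * u' ^ 2 := (mul_dvd_mul_iff_left (pow_ne_zero 2 hg)).1 h1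
  have h3 : d' ^ 2 ∣ 𝔞 := (hrel.pow).dvd_of_dvd_mul_right h2
  have h4 : IsUnit d' := h𝔞 d' (by rw [← sq]; exact h3)
  rw [← hd', ← hu']
  exact mul_dvd_mul_left g (h4.dvd)

theorem sqf_mem (F : Type) [Field F] [NumberField F] (𝔟 𝔠 : Ideal (𝓞 F)) (c : 𝓞 F) (hc : c ≠ 0)
    (hbc : 𝔟 * 𝔠 = Ideal.span {c}) (α : 𝓞 F) (hα : SqF 𝔟 α) (y : F) (n : 𝓞 F)
    (h : (α : F) * y ^ 2 = (c : F) ^ 2 * (n : F)) : ∃ y' ∈ 𝔠, (y' : F) = y := by
  obtain ⟨𝔞, h𝔞⟩ : 𝔟 ^ 2 ∣ Ideal.span {α} := by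
    rw [Ideal.dvd_iff_le, Ideal.span_singleton_le_iff_mem]
    exact hα.1
  have hsq := discb_sqfree hα h𝔞
  have hc0 : Ideal.span {c} ≠ 0 := by
    rw [Ideal.zero_eq_bot, Ne, Ideal.span_singleton_eq_bot]
    exact hc
  have h𝔟 : 𝔟 ≠ 0 := by
    rintro rfl
    rw [zero_mul] at hbc
    exact hc0 hbc.symm
  have h𝔠 : 𝔠 ≠ 0 := by
    rintro rfl
    rw [mul_zero] at hbc
    exact hc0 hbc.symm
  obtain ⟨u, w, hw, huw⟩ := IsFractionRing.div_surjective (A := 𝓞 F) y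
  have hw0 : w ≠ 0 := nonZeroDivisors.ne_zero hw
  have hwF : (algebraMap (𝓞 F) F w) ≠ 0 := by
    rw [Ne, FaithfulSMul.algebraMap_eq_zero_iff]
    exact hw0
  have h1 : α * u ^ 2 = c ^ 2 * n * w ^ 2 := by
    apply FaithfulSMul.algebraMap_injective (𝓞 F) F
    simp only [map_mul, map_pow]
    have h2 : (α : F) * y ^ 2 = (c : F) ^ 2 * (n : F) := h
    rw [← huw, div_pow] at h2
    change (algebraMap (𝓞 F) F α) * _ = (algebraMap (𝓞 F) F c) ^ 2 * algebraMap (𝓞 F) F n at h2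
    field_simp at h2
    rw [h2]
    ring
  have h3 : (𝔠 * Ideal.span {w}) ^ 2 ∣ 𝔞 * (Ideal.span {u}) ^ 2 := by
    have h4 : Ideal.span {α} * Ideal.span {u} ^ 2 =
        Ideal.span {c} ^ 2 * Ideal.span {n} * Ideal.span {w} ^ 2 := by
      simp only [Ideal.span_singleton_pow, Ideal.span_singleton_mul_span_singleton]
      rw [h1]
    rw [h𝔞, ← hbc] at h4
    refine ⟨Ideal.span {n}, ?_⟩
    have h5 : 𝔟 ^ 2 * (𝔞 * Ideal.span {u} ^ 2) =
        𝔟 ^ 2 * ((𝔠 * Ideal.span {w}) ^ 2 * Ideal.span {n}) := by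
      rw [← mul_assoc, h4]
      ring
    exact mul_left_cancel₀ (pow_ne_zero 2 h𝔟) h5
  have hd : 𝔠 * Ideal.span {w} ≠ 0 := by
    refine mul_ne_zero h𝔠 ?_
    rw [Ideal.zero_eq_bot, Ne, Ideal.span_singleton_eq_bot]
    exact hw0
  have h6 := discb_dvd hsq hd h3
  rw [Ideal.dvd_iff_le, Ideal.span_singleton_le_iff_mem, Ideal.mem_mul_span_singleton] at h6
  obtain ⟨y', hy', hy⟩ := h6
  refine ⟨y', hy', ?_⟩
  change algebraMap (𝓞 F) F y' = y
  rw [← huw, ← hy, map_mul, mul_div_assoc, div_self hwF, mul_one]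

section discbint

variable {F K : Type} [Field F] [NumberField F] [Field K] [NumberField K] [Algebra F K]

private theorem discb_basis (h2 : finrank F K = 2) (s : K)
    (hs : s ∉ Set.range (algebraMap F K)) : ∃ b : Basis (Fin 2) F K, b 0 = 1 ∧ b 1 = s := by
  have hli : LinearIndependent F ![(1 : K), s] := by
    rw [LinearIndependent.pair_iff]
    intro p q hpq
    have hq : q = 0 := by
      by_contra hq
      refine hs ⟨-(p / q), ?_⟩
      rw [Algebra.smul_def, Algebra.smul_def, mul_one] at hpq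
      have hq' : algebraMap F K q ≠ 0 := by rwa [Ne, FaithfulSMul.algebraMap_eq_zero_iff]
      rw [map_neg, map_div₀]
      field_simp
      linear_combination -hpq
    refine ⟨?_, hq⟩
    rw [hq, zero_smul, add_zero, Algebra.smul_def, mul_one] at hpq
    rwa [FaithfulSMul.algebraMap_eq_zero_iff] at hpq
  have : Nonempty (Fin 2) := ⟨0⟩
  refine ⟨basisOfLinearIndependentOfCardEqFinrank hli (by rw [h2]; rfl), ?_, ?_⟩
  · simp
  · simp

private theorem discb_trnorm {b : Basis (Fin 2) F K} {s : K} (hb0 : b 0 = 1) (hb1 : b 1 = s)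
    {a : F} (hs2 : s ^ 2 = algebraMap F K a) (u v : F) :
    Algebra.trace F K (algebraMap F K u + algebraMap F K v * s) = 2 * u ∧
      Algebra.norm F (algebraMap F K u + algebraMap F K v * s) = u ^ 2 - a * v ^ 2 := by
  obtain ⟨z, hz⟩ : ∃ z, z = algebraMap F K u + algebraMap F K v * s := ⟨_, rfl⟩
  have e0 : z * b 0 = u • b 0 + v • b 1 := by
    rw [hb0, hb1, hz, Algebra.smul_def, Algebra.smul_def]
    ring
  have e1 : z * b 1 = (v * a) • b 0 + u • b 1 := by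
    rw [hb0, hb1, hz, Algebra.smul_def, Algebra.smul_def, map_mul, ← hs2]
    ring
  have m00 : Algebra.leftMulMatrix b z 0 0 = u := by
    rw [Algebra.leftMulMatrix_eq_repr_mul, e0]
    simp
  have m10 : Algebra.leftMulMatrix b z 1 0 = v := by
    rw [Algebra.leftMulMatrix_eq_repr_mul, e0]
    simp
  have m01 : Algebra.leftMulMatrix b z 0 1 = v * a := by
    rw [Algebra.leftMulMatrix_eq_repr_mul, e1]
    simp
  have m11 : Algebra.leftMulMatrix b z 1 1 = u := by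
    rw [Algebra.leftMulMatrix_eq_repr_mul, e1]
    simp
  rw [← hz]
  constructor
  · rw [Algebra.trace_eq_matrix_trace b, Matrix.trace_fin_two, m00, m11]
    ring
  · rw [Algebra.norm_eq_matrix_det b, Matrix.det_fin_two, m00, m11, m01, m10]
    ring

omit [NumberField K] in
private theorem discb_root {z : K} {x n : K} (hx : IsIntegral ℤ x) (hn : IsIntegral ℤ n)
    (h : z ^ 2 - x * z + n = 0) : IsIntegral ℤ z := by
  obtain ⟨x', hx'⟩ : ∃ x' : integralClosure ℤ K, (x' : K) = x := ⟨⟨x, hx⟩, rfl⟩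
  obtain ⟨n', hn'⟩ : ∃ n' : integralClosure ℤ K, (n' : K) = n := ⟨⟨n, hn⟩, rfl⟩
  have h1 : IsIntegral (integralClosure ℤ K) z := by
    refine ⟨Polynomial.X ^ 2 - Polynomial.C x' * Polynomial.X + Polynomial.C n', ?_, ?_⟩
    · monicity!
    · simp only [Polynomial.eval₂_add, Polynomial.eval₂_sub, Polynomial.eval₂_mul,
        Polynomial.eval₂_pow, Polynomial.eval₂_X, Polynomial.eval₂_C]
      have e1 : algebraMap (integralClosure ℤ K) K x' = x := hx'
      have e2 : algebraMap (integralClosure ℤ K) K n' = n := hn'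
      rw [e1, e2]
      exact h
  exact isIntegral_trans z h1

end discbint

theorem int_iff (F K : Type) [Field F] [NumberField F] [Field K] [NumberField K]
    [Algebra F K] (h2 : finrank F K = 2) (𝔟 𝔠 : Ideal (𝓞 F)) (c : 𝓞 F) (hc : c ≠ 0)
    (hbc : 𝔟 * 𝔠 = Ideal.span {c}) (α : 𝓞 F) (hα : SqF 𝔟 α) (s : K)
    (hs : s ∉ Set.range (algebraMap F K)) (hs2 : s ^ 2 = algebraMap F K (α : F)) (z : K) :
    IsIntegral ℤ z ↔ ∃ x : 𝓞 F, ∃ y ∈ 𝔠,
      2 * z = algebraMap F K (x : F) + algebraMap F K (y : F) * (s / algebraMap F K (c : F)) ∧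
      c ^ 2 * x ^ 2 - α * y ^ 2 ∈ Ideal.span {4 * c ^ 2} := by
  have hcF : (c : F) ≠ 0 := by
    have h1 : algebraMap (𝓞 F) F c ≠ 0 := by
      rw [Ne, FaithfulSMul.algebraMap_eq_zero_iff]
      exact hc
    exact h1
  have hcK : algebraMap F K (c : F) ≠ 0 := by
    rwa [Ne, FaithfulSMul.algebraMap_eq_zero_iff]
  constructor
  · intro hz
    obtain ⟨b, hb0, hb1⟩ := discb_basis h2 s hs
    obtain ⟨u, v, huv⟩ : ∃ u v : F, z = algebraMap F K u + algebraMap F K v * s := by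
      refine ⟨b.repr z 0, b.repr z 1, ?_⟩
      have h1 := b.sum_repr z
      rw [Fin.sum_univ_two, hb0, hb1, Algebra.smul_def, Algebra.smul_def, mul_one] at h1
      exact h1.symm
    obtain ⟨htr, hno⟩ := discb_trnorm hb0 hb1 hs2 u v
    rw [← huv] at htr hno
    have hx : IsIntegral ℤ (2 * u) := by
      rw [← htr]
      exact Algebra.isIntegral_trace hz
    have hn : IsIntegral ℤ (u ^ 2 - (α : F) * v ^ 2) := by
      rw [← hno]
      exact Algebra.isIntegral_norm F hz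
    obtain ⟨x, hxe⟩ : ∃ x : 𝓞 F, (x : F) = 2 * u := ⟨⟨2 * u, hx⟩, rfl⟩
    obtain ⟨n, hne⟩ : ∃ n : 𝓞 F, (n : F) = u ^ 2 - (α : F) * v ^ 2 := ⟨⟨_, hn⟩, rfl⟩
    have hcast : (((x ^ 2 - 4 * n : 𝓞 F)) : F) = (x : F) ^ 2 - 4 * (n : F) := by
      change algebraMap (𝓞 F) F (x ^ 2 - 4 * n) = algebraMap (𝓞 F) F x ^ 2 -
        4 * algebraMap (𝓞 F) F n
      simp only [map_sub, map_mul, map_pow, map_ofNat]
    obtain ⟨y, hy, hye⟩ := sqf_mem F 𝔟 𝔠 c hc hbc α hα (2 * v * (c : F)) (x ^ 2 - 4 * n) (by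
      rw [hcast, hxe, hne]
      ring)
    refine ⟨x, y, hy, ?_, ?_⟩
    · rw [hxe, hye, huv, map_mul, map_mul, map_mul]
      field_simp
      simp only [map_ofNat]
      ring
    · rw [Ideal.mem_span_singleton]
      refine ⟨n, ?_⟩
      have h3 : (c : F) ^ 2 * (x : F) ^ 2 - (α : F) * (y : F) ^ 2 =
          4 * (c : F) ^ 2 * (n : F) := by
        rw [hxe, hye, hne]
        ring
      apply FaithfulSMul.algebraMap_injective (𝓞 F) F
      simp only [map_sub, map_mul, map_pow, map_ofNat]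
      exact h3
  · rintro ⟨x, y, hy, hxy, hmem⟩
    rw [Ideal.mem_span_singleton] at hmem
    obtain ⟨n, hn⟩ := hmem
    have hn' : (c : F) ^ 2 * (x : F) ^ 2 - (α : F) * (y : F) ^ 2 = 4 * (c : F) ^ 2 * (n : F) := by
      have h3 := congrArg (algebraMap (𝓞 F) F) hn
      simp only [map_sub, map_mul, map_pow, map_ofNat] at h3
      exact h3
    have hnK := congrArg (algebraMap F K) hn'
    simp only [map_sub, map_mul, map_pow, map_ofNat] at hnK
    rw [← hs2] at hnK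
    refine discb_root (x := algebraMap F K (x : F)) (n := algebraMap F K (n : F)) ?_ ?_ ?_
    · exact (RingOfIntegers.isIntegral_coe x).map (IsScalarTower.toAlgHom ℤ F K)
    · exact (RingOfIntegers.isIntegral_coe n).map (IsScalarTower.toAlgHom ℤ F K)
    · have h4 : (2 * z - algebraMap F K (x : F)) * algebraMap F K (c : F) =
          algebraMap F K (y : F) * s := by
        rw [hxy]
        field_simp
        ring
      have h5 : 4 * algebraMap F K (c : F) ^ 2 *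
          (z ^ 2 - algebraMap F K (x : F) * z + algebraMap F K (n : F)) = 0 := by
        have h6 : ((2 * z - algebraMap F K (x : F)) * algebraMap F K (c : F)) ^ 2 =
            (algebraMap F K (y : F) * s) ^ 2 := by rw [h4]
        linear_combination h6 - hnK
      have h7 : (4 * algebraMap F K (c : F) ^ 2) ≠ 0 := mul_ne_zero (by norm_num) (pow_ne_zero 2 hcK)
      exact (mul_eq_zero.1 h5).resolve_left h7

end QTow
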