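import Pool.Agent.Lib.MP_44a56e_nt.Defs2
import Pool.Agent.Lib.MP_44a56e_nt.DiscA
import Pool.Agent.Lib.MP_44a56e_nt.DiscB
import Pool.Agent.Lib.MP_44a56e_nt.SFBasic

/-! # MP_44a56e_nt, module DiscC: the discriminant formula.

PROOF of `disc_formula`. Choose `c ∈ 𝔟`, `c ≠ 0`, and `𝔠` with `𝔟 𝔠 = span {c}`. Let `M = 𝓞 F × 𝔠`
(additive group), `Q = M / 2 M` (finite, as `M` is finitely generated; `2 M` = range of `x ↦ x + x`), and
`j α = Nat.card` of the image in `Q` of `{(x, y) | c² x² - α y² ∈ span {4 c²}}`. `0 < j α` (contains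
`(0, 0)`). If `α - α' ∈ span {4} * 𝔟²` and `y ∈ 𝔠` then `(α - α') y² ∈ span {4} 𝔟² 𝔠² = span {4 c²}`,
so the two sets are the same.
Formula: `s' = s / c`, `a = α / c²`, `s'² = a`. Let `φ : 𝓞 K → Q` send `z` to the class of the pair
`(x, y)` of `int_iff` (unique: `{1, s'}` is a basis over `F`; additive). Its range is the set counted by
`j α`: given `(x, y)` with the condition, `z = (x + y s')/2` is integral by `int_iff`; its kernel is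
`L = {z | z = x' + y' s', x' ∈ 𝓞 F, y' ∈ 𝔠}` (`(x, y) = 2 (x', y')`). So `L.index = j α`
(`AddSubgroup.index_ker`). `discr_index` with `s'`, `a`, `𝔠` (`hint`: `y s'` has square
`α y²/c² ∈ 𝔟² 𝔠²/c² ⊆ 𝓞 F`, so it is integral): `|discr K| j² = 4^m |discr F|² |N(α)|/N(c)² *
(absNorm 𝔠)²` and `absNorm 𝔟 * absNorm 𝔠 = |N(c)|`. -/

open NumberField Module

namespace QTow

section discc

variable {F : Type} [Field F] [NumberField F]

/-- the pairs with the congruence condition -/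
private def disccS (𝔠 : Ideal (𝓞 F)) (c α : 𝓞 F) : Set (𝓞 F × 𝔠) :=
  {m | c ^ 2 * m.1 ^ 2 - α * (m.2 : 𝓞 F) ^ 2 ∈ Ideal.span {4 * c ^ 2}}

/-- twice the pairs -/
private def discc2 (𝔠 : Ideal (𝓞 F)) : AddSubgroup (𝓞 F × 𝔠) :=
  (AddMonoidHom.range (nsmulAddMonoidHom (α := 𝓞 F × 𝔠) 2))

omit [NumberField F] in
private theorem discc_mem2 (𝔠 : Ideal (𝓞 F)) (m : 𝓞 F × 𝔠) :
    m ∈ discc2 𝔠 ↔ ∃ m', m = m' + m' := by
  unfold discc2
  constructor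
  · rintro ⟨m', rfl⟩
    exact ⟨m', by simp [two_nsmul]⟩
  · rintro ⟨m', rfl⟩
    exact ⟨m', by simp [two_nsmul]⟩

private theorem discc_finite (𝔠 : Ideal (𝓞 F)) : Finite ((𝓞 F × 𝔠) ⧸ discc2 𝔠) := by
  have h1 : Module.Finite ℤ 𝔠 := inferInstance
  have h2 : Module.Finite ℤ (𝓞 F × 𝔠) := inferInstance
  have h3 : AddGroup.FG ((𝓞 F × 𝔠) ⧸ discc2 𝔠) := by
    have h4 : AddGroup.FG (𝓞 F × 𝔠) := Module.Finite.iff_addGroup_fg.1 h2
    infer_instance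
  refine AddCommGroup.finite_of_fg_isAddTorsion _ ?_
  intro q
  rw [isOfFinAddOrder_iff_nsmul_eq_zero]
  refine ⟨2, by norm_num, ?_⟩
  obtain ⟨m, rfl⟩ := QuotientAddGroup.mk'_surjective (discc2 𝔠) q
  rw [← map_nsmul]
  refine (QuotientAddGroup.eq_zero_iff _).2 ?_
  rw [discc_mem2]
  exact ⟨m, two_nsmul m⟩

private noncomputable def disccj (𝔠 : Ideal (𝓞 F)) (c α : 𝓞 F) : ℕ :=
  Nat.card (QuotientAddGroup.mk' (discc2 𝔠) '' disccS 𝔠 c α)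

private theorem discc_pos (𝔠 : Ideal (𝓞 F)) (c α : 𝓞 F) : 0 < disccj 𝔠 c α := by
  have h1 := discc_finite 𝔠
  have h2 : (QuotientAddGroup.mk' (discc2 𝔠) '' disccS 𝔠 c α).Nonempty := by
    refine ⟨_, (0 : 𝓞 F × 𝔠), ?_, rfl⟩
    change c ^ 2 * (0 : 𝓞 F) ^ 2 - α * ((0 : 𝔠) : 𝓞 F) ^ 2 ∈ Ideal.span {4 * c ^ 2}
    simp
  have h3 := h2.to_subtype
  exact Nat.card_pos

omit [NumberField F] in
private theorem discc_inv {𝔟 𝔠 : Ideal (𝓞 F)} {c α α' : 𝓞 F} (hbc : 𝔟 * 𝔠 = Ideal.span {c})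
    (h : α - α' ∈ Ideal.span {4} * 𝔟 ^ 2) : disccS 𝔠 c α = disccS 𝔠 c α' := by
  have key : ∀ y ∈ 𝔠, (α - α') * y ^ 2 ∈ Ideal.span {4 * c ^ 2} := by
    intro y hy
    have h1 : (α - α') * y ^ 2 ∈ (Ideal.span {4} * 𝔟 ^ 2) * 𝔠 ^ 2 :=
      Ideal.mul_mem_mul h (Ideal.pow_mem_pow hy 2)
    have h2 : (Ideal.span {(4 : 𝓞 F)} * 𝔟 ^ 2) * 𝔠 ^ 2 = Ideal.span {4 * c ^ 2} := by
      have h3 : (Ideal.span {(4 : 𝓞 F)} * 𝔟 ^ 2) * 𝔠 ^ 2 = Ideal.span {4} * (𝔟 * 𝔠) ^ 2 := by ring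
      rw [h3, hbc, Ideal.span_singleton_pow, Ideal.span_singleton_mul_span_singleton]
    rwa [h2] at h1
  ext m
  have h4 := key _ m.2.2
  change c ^ 2 * m.1 ^ 2 - α * (m.2 : 𝓞 F) ^ 2 ∈ Ideal.span {4 * c ^ 2} ↔
    c ^ 2 * m.1 ^ 2 - α' * (m.2 : 𝓞 F) ^ 2 ∈ Ideal.span {4 * c ^ 2}
  have e : c ^ 2 * m.1 ^ 2 - α' * (m.2 : 𝓞 F) ^ 2 =
      (c ^ 2 * m.1 ^ 2 - α * (m.2 : 𝓞 F) ^ 2) + (α - α') * (m.2 : 𝓞 F) ^ 2 := by ring
  rw [e]
  exact (Ideal.add_mem_iff_left _ h4).symm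

variable {K : Type} [Field K] [NumberField K] [Algebra F K]

omit [NumberField F] [NumberField K] in
/-- uniqueness of the coordinates -/
private theorem discc_uniq {s' : K} (hs' : s' ∉ Set.range (algebraMap F K)) {x y x' y' : F}
    (h : algebraMap F K x + algebraMap F K y * s' = algebraMap F K x' + algebraMap F K y' * s') :
    x = x' ∧ y = y' := by
  have h1 : algebraMap F K (y - y') * s' = algebraMap F K (x' - x) := by
    rw [map_sub, map_sub]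
    linear_combination h
  by_cases hy : y - y' = 0
  · have hyy : y = y' := sub_eq_zero.1 hy
    refine ⟨?_, hyy⟩
    rw [hy, map_zero, zero_mul] at h1
    have h2 : x' - x = 0 := by
      apply FaithfulSMul.algebraMap_injective F K
      rw [← h1, map_zero]
    exact (sub_eq_zero.1 h2).symm
  · exfalso
    apply hs'
    refine ⟨(x' - x) / (y - y'), ?_⟩
    have h3 : algebraMap F K (y - y') ≠ 0 := by rwa [Ne, FaithfulSMul.algebraMap_eq_zero_iff]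
    rw [map_div₀, ← h1]
    field_simp

private theorem discc_main (h2 : finrank F K = 2) (𝔟 𝔠 : Ideal (𝓞 F)) (c : 𝓞 F) (hc : c ≠ 0)
    (hbc : 𝔟 * 𝔠 = Ideal.span {c}) (α : 𝓞 F) (hα : SqF 𝔟 α) (s : K)
    (hs : s ∉ Set.range (algebraMap F K)) (hs2 : s ^ 2 = algebraMap F K (α : F)) :
    |((discr K : ℤ) : ℝ)| * (Ideal.absNorm 𝔟 : ℝ) ^ 2 * (disccj 𝔠 c α : ℝ) ^ 2 =
      4 ^ (finrank ℚ F) * |((discr F : ℤ) : ℝ)| ^ 2 * nrm F α := by
  classical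
  have hcF : (c : F) ≠ 0 := by
    have h1 : algebraMap (𝓞 F) F c ≠ 0 := by
      rw [Ne, FaithfulSMul.algebraMap_eq_zero_iff]
      exact hc
    exact h1
  have hcK : algebraMap F K (c : F) ≠ 0 := by
    rwa [Ne, FaithfulSMul.algebraMap_eq_zero_iff]
  obtain ⟨s', hs'd⟩ : ∃ s', s' = s / algebraMap F K (c : F) := ⟨_, rfl⟩
  have hs' : s' ∉ Set.range (algebraMap F K) := by
    rintro ⟨t, ht⟩
    refine hs ⟨t * (c : F), ?_⟩
    rw [map_mul, ht, hs'd]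
    field_simp
  obtain ⟨a, had⟩ : ∃ a : F, a = (α : F) / (c : F) ^ 2 := ⟨_, rfl⟩
  have ha : algebraMap F K a = s' ^ 2 := by
    rw [had, hs'd, div_pow, hs2, map_div₀, map_pow]
  have hc0 : Ideal.span {c} ≠ 0 := by
    rw [Ideal.zero_eq_bot, Ne, Ideal.span_singleton_eq_bot]
    exact hc
  have h𝔠 : 𝔠 ≠ ⊥ := by
    rintro rfl
    rw [Ideal.mul_bot] at hbc
    exact hc0 hbc.symm
  have h𝔟 : 𝔟 ≠ ⊥ := by
    rintro rfl
    rw [Ideal.bot_mul] at hbc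
    exact hc0 hbc.symm
  have hint : ∀ y ∈ 𝔠, IsIntegral ℤ (algebraMap F K (y : F) * s') := by
    intro y hy
    have h3 : α * y ^ 2 ∈ Ideal.span {c ^ 2} := by
      have h4 : α * y ^ 2 ∈ 𝔟 ^ 2 * 𝔠 ^ 2 := Ideal.mul_mem_mul hα.1 (Ideal.pow_mem_pow hy 2)
      rwa [← mul_pow, hbc, Ideal.span_singleton_pow] at h4
    obtain ⟨t, ht⟩ := Ideal.mem_span_singleton.1 h3
    have ht' : (α : F) * (y : F) ^ 2 = (c : F) ^ 2 * (t : F) := by
      have h5 := congrArg (algebraMap (𝓞 F) F) ht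
      simp only [map_mul, map_pow] at h5
      exact h5
    have htK := congrArg (algebraMap F K) ht'
    simp only [map_mul, map_pow] at htK
    rw [← hs2] at htK
    have h6 : (algebraMap F K (y : F) * s') ^ 2 = algebraMap F K (t : F) := by
      rw [hs'd]
      have h7 : (algebraMap F K (y : F) * (s / algebraMap F K (c : F))) ^ 2 =
          (s ^ 2 * algebraMap F K (y : F) ^ 2) / algebraMap F K (c : F) ^ 2 := by
        field_simp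
      rw [h7, htK]
      field_simp
    refine IsIntegral.of_pow (n := 2) (by norm_num) ?_
    rw [h6]
    exact (RingOfIntegers.isIntegral_coe t).map (IsScalarTower.toAlgHom ℤ F K)
  have hiff := int_iff F K h2 𝔟 𝔠 c hc hbc α hα s hs hs2
  rw [← hs'd] at hiff
  -- the coordinates of an integer
  have hex : ∀ z : 𝓞 K, ∃ m : 𝓞 F × 𝔠, 2 * (z : K) = algebraMap F K (m.1 : F) +
      algebraMap F K ((m.2 : 𝓞 F) : F) * s' ∧ m ∈ disccS 𝔠 c α := by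
    intro z
    obtain ⟨x, y, hy, h3, h4⟩ := (hiff (z : K)).1 (RingOfIntegers.isIntegral_coe z)
    exact ⟨(x, ⟨y, hy⟩), h3, h4⟩
  choose ψ hψ hψS using hex
  have hinj : ∀ m m' : 𝓞 F × 𝔠, algebraMap F K (m.1 : F) +
      algebraMap F K ((m.2 : 𝓞 F) : F) * s' = algebraMap F K (m'.1 : F) +
      algebraMap F K ((m'.2 : 𝓞 F) : F) * s' → m = m' := by
    intro m m' h3
    obtain ⟨h4, h5⟩ := discc_uniq hs' h3
    exact Prod.ext (RingOfIntegers.coe_injective h4)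
      (Subtype.ext (RingOfIntegers.coe_injective h5))
  have hψadd : ∀ z w : 𝓞 K, ψ (z + w) = ψ z + ψ w := by
    intro z w
    apply hinj
    rw [← hψ (z + w)]
    have e1 : ((z + w : 𝓞 K) : K) = (z : K) + (w : K) := rfl
    have e2 : (((ψ z + ψ w).1 : 𝓞 F) : F) = ((ψ z).1 : F) + ((ψ w).1 : F) := rfl
    have e3 : ((((ψ z + ψ w).2 : 𝔠) : 𝓞 F) : F) = (((ψ z).2 : 𝓞 F) : F) + (((ψ w).2 : 𝓞 F) : F) :=
      rfl
    rw [e1, e2, e3, map_add, map_add, mul_add, hψ z, hψ w]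
    ring
  let ψ' : 𝓞 K →+ 𝓞 F × 𝔠 := AddMonoidHom.mk' ψ hψadd
  let φ : 𝓞 K →+ (𝓞 F × 𝔠) ⧸ discc2 𝔠 := (QuotientAddGroup.mk' (discc2 𝔠)).comp ψ'
  have hrange : Set.range φ = QuotientAddGroup.mk' (discc2 𝔠) '' disccS 𝔠 c α := by
    ext q
    constructor
    · rintro ⟨z, rfl⟩
      exact ⟨ψ z, hψS z, rfl⟩
    · rintro ⟨m, hm, rfl⟩
      have h3 : IsIntegral ℤ ((algebraMap F K (m.1 : F) +
          algebraMap F K ((m.2 : 𝓞 F) : F) * s') / 2) := by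
        rw [hiff]
        refine ⟨m.1, m.2, m.2.2, ?_, hm⟩
        ring
      obtain ⟨z, hz⟩ : ∃ z : 𝓞 K, (z : K) = (algebraMap F K (m.1 : F) +
          algebraMap F K ((m.2 : 𝓞 F) : F) * s') / 2 := ⟨⟨_, h3⟩, rfl⟩
      refine ⟨z, ?_⟩
      have h4 : ψ z = m := by
        apply hinj
        rw [← hψ z, hz]
        ring
      change QuotientAddGroup.mk' (discc2 𝔠) (ψ z) = _
      rw [h4]
  have hindex : (φ.ker.index : ℝ) = (disccj 𝔠 c α : ℝ) := by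
    have h3 : φ.ker.index = Nat.card φ.range := AddSubgroup.index_ker φ
    have h4 : Nat.card φ.range = disccj 𝔠 c α := by
      unfold disccj
      rw [← hrange]
      rfl
    rw [h3, h4]
  have hL : ∀ z : 𝓞 K, z ∈ φ.ker ↔ ∃ x : 𝓞 F, ∃ y ∈ 𝔠,
      (z : K) = algebraMap F K (x : F) + algebraMap F K (y : F) * s' := by
    intro z
    rw [AddMonoidHom.mem_ker]
    change QuotientAddGroup.mk' (discc2 𝔠) (ψ z) = 0 ↔ _
    have h3 : QuotientAddGroup.mk' (discc2 𝔠) (ψ z) = 0 ↔ ψ z ∈ discc2 𝔠 :=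
      QuotientAddGroup.eq_zero_iff _
    rw [h3, discc_mem2]
    constructor
    · rintro ⟨m, hm⟩
      refine ⟨m.1, m.2, m.2.2, ?_⟩
      have h4 := hψ z
      rw [hm] at h4
      have e2 : (((m + m).1 : 𝓞 F) : F) = (m.1 : F) + (m.1 : F) := rfl
      have e3 : ((((m + m).2 : 𝔠) : 𝓞 F) : F) = ((m.2 : 𝓞 F) : F) + ((m.2 : 𝓞 F) : F) := rfl
      rw [e2, e3, map_add, map_add] at h4
      have h5 : (2 : K) ≠ 0 := two_ne_zero
      apply mul_left_cancel₀ h5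
      rw [h4]
      ring
    · rintro ⟨x, y, hy, hz⟩
      refine ⟨(x, ⟨y, hy⟩), ?_⟩
      apply hinj
      rw [← hψ z, hz]
      have e2 : ((((x, (⟨y, hy⟩ : 𝔠)) + (x, (⟨y, hy⟩ : 𝔠)) : 𝓞 F × 𝔠).1 : 𝓞 F) : F) =
        (x : F) + (x : F) := rfl
      have e3 : (((((x, (⟨y, hy⟩ : 𝔠)) + (x, (⟨y, hy⟩ : 𝔠)) : 𝓞 F × 𝔠).2 : 𝔠) : 𝓞 F) : F) =
        (y : F) + (y : F) := rfl
      rw [e2, e3, map_add, map_add]
      ring
  have hd := discr_index F K h2 s' hs' a ha 𝔠 h𝔠 hint φ.ker hL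
  rw [hindex] at hd
  -- norms
  have hnorm : |((Algebra.norm ℚ a : ℚ) : ℝ)| * (Ideal.absNorm 𝔠 : ℝ) ^ 2 *
      (Ideal.absNorm 𝔟 : ℝ) ^ 2 = nrm F α := by
    have h3 : (Algebra.norm ℚ a : ℚ) = Algebra.norm ℚ (α : F) / (Algebra.norm ℚ (c : F)) ^ 2 := by
      have h10 : Algebra.norm ℚ (c : F) ≠ 0 := Algebra.norm_ne_zero_iff.2 hcF
      have h11 : a * (c : F) ^ 2 = (α : F) := by
        rw [had]
        field_simp
      rw [← h11, map_mul, map_pow]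
      field_simp
    have h4 : (Algebra.norm ℚ (α : F) : ℚ) = ((Algebra.norm ℤ α : ℤ) : ℚ) :=
      (Algebra.coe_norm_int α).symm
    have h5 : (Algebra.norm ℚ (c : F) : ℚ) = ((Algebra.norm ℤ c : ℤ) : ℚ) :=
      (Algebra.coe_norm_int c).symm
    have h6 : (Ideal.absNorm 𝔟 : ℝ) * (Ideal.absNorm 𝔠 : ℝ) = |((Algebra.norm ℤ c : ℤ) : ℝ)| := by
      rw [← Nat.cast_mul, ← map_mul, hbc, Ideal.absNorm_span_singleton, Nat.cast_natAbs,
        Int.cast_abs]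
    have h7 : |((Algebra.norm ℤ c : ℤ) : ℝ)| ≠ 0 := by
      rw [← h6]
      refine mul_ne_zero ?_ ?_
      · rw [Nat.cast_ne_zero, Ne, Ideal.absNorm_eq_zero_iff]
        exact h𝔟
      · rw [Nat.cast_ne_zero, Ne, Ideal.absNorm_eq_zero_iff]
        exact h𝔠
    rw [h3, h4, h5]
    have h8 : |((((Algebra.norm ℤ α : ℤ) : ℚ) / ((Algebra.norm ℤ c : ℤ) : ℚ) ^ 2 : ℚ) : ℝ)| =
        nrm F α / |((Algebra.norm ℤ c : ℤ) : ℝ)| ^ 2 := by
      unfold nrm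
      push_cast
      rw [abs_div, abs_pow]
    rw [h8]
    have h9 : nrm F α / |((Algebra.norm ℤ c : ℤ) : ℝ)| ^ 2 * (Ideal.absNorm 𝔠 : ℝ) ^ 2 *
        (Ideal.absNorm 𝔟 : ℝ) ^ 2 = nrm F α / |((Algebra.norm ℤ c : ℤ) : ℝ)| ^ 2 *
        ((Ideal.absNorm 𝔟 : ℝ) * (Ideal.absNorm 𝔠 : ℝ)) ^ 2 := by ring
    rw [h9, h6]
    field_simp
  rw [← hnorm]
  linear_combination (Ideal.absNorm 𝔟 : ℝ) ^ 2 * hd

end discc

theorem disc_formula (F : Type) [Field F] [NumberField F] (𝔟 : Ideal (𝓞 F)) (h𝔟 : 𝔟 ≠ ⊥) :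
    ∃ j : 𝓞 F → ℕ, (∀ α, 0 < j α) ∧
      (∀ α α', α - α' ∈ Ideal.span {4} * 𝔟 ^ 2 → j α = j α') ∧
      ∀ (K : Type) [Field K] [NumberField K] [Algebra F K], finrank F K = 2 →
        ∀ (s : K) (α : 𝓞 F), s ∉ Set.range (algebraMap F K) → s ^ 2 = algebraMap F K (α : F) →
          SqF 𝔟 α → |((discr K : ℤ) : ℝ)| * (Ideal.absNorm 𝔟 : ℝ) ^ 2 * (j α : ℝ) ^ 2 =
            4 ^ (finrank ℚ F) * |((discr F : ℤ) : ℝ)| ^ 2 * nrm F α := by
  obtain ⟨c, hcb, hc⟩ := Submodule.exists_mem_ne_zero_of_ne_bot h𝔟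
  obtain ⟨𝔠, hbc⟩ : 𝔟 ∣ Ideal.span {c} := by
    rw [Ideal.dvd_iff_le, Ideal.span_singleton_le_iff_mem]
    exact hcb
  refine ⟨disccj 𝔠 c, discc_pos 𝔠 c, fun α α' h => ?_, ?_⟩
  · unfold disccj
    rw [discc_inv hbc.symm h]
  · intro K _ _ _ h2 s α hs hs2 hα
    exact discc_main h2 𝔟 𝔠 c hc hbc.symm α hα s hs hs2

/-- The same for subfields of `ℂ`. PROOF: `disc_formula` with the algebra structure of the
inclusion (`finrank_quad`, `dabs_eq`). -/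
theorem disc_formula_SF (F : SF) [NumberField F] (𝔟 : Ideal (𝓞 F)) (h𝔟 : 𝔟 ≠ ⊥) :
    ∃ j : 𝓞 F → ℕ, (∀ α, 0 < j α) ∧
      (∀ α α', α - α' ∈ Ideal.span {4} * 𝔟 ^ 2 → j α = j α') ∧
      ∀ K ∈ Quad F, ∀ (s : ℂ) (α : 𝓞 F), s ∈ K → s ∉ F → s ^ 2 = ((α : F) : ℂ) →
          SqF 𝔟 α → dabs K * (Ideal.absNorm 𝔟 : ℝ) ^ 2 * (j α : ℝ) ^ 2 =
            4 ^ (deg F) * dabs F ^ 2 * nrm F α := by
  obtain ⟨j, hj, hinv, hmain⟩ := disc_formula F 𝔟 h𝔟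
  refine ⟨j, hj, hinv, ?_⟩
  intro K hK s α hsK hsF hs2 hα
  have hKn : NumberField K := quad_numberField hK
  let _ := (IntermediateField.inclusion hK.2.1).toAlgebra
  have h1 := hmain K (finrank_quad hK) ⟨s, hsK⟩ α (by
    rintro ⟨t, ht⟩
    apply hsF
    have h2 : ((algebraMap F K t : K) : ℂ) = s := congrArg Subtype.val ht
    rw [← h2]
    exact t.2) (Subtype.ext hs2) hα
  rw [dabs_eq K, dabs_eq F]
  exact h1

end QTow
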