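import Pool.Agent.Lib.MP_44a56e_nt.BadDefs
import Pool.Agent.Lib.MP_44a56e_nt.SFBasic
import Pool.Agent.Lib.MP_44a56e_nt.ConeU
import Pool.Agent.Lib.MP_44a56e_nt.DiscC
import Pool.Agent.Lib.MP_44a56e_nt.ParamB

/-! # MP_44a56e_nt, module BadMap: the squarefree ideal of a quadratic extension.

PROOF of `exists_ideal`. `h, 𝔟` from `exists_reps`, `r, u` from `exists_units`. For `K ∈ Quad F` choose
`t ∈ K \ F` and `i`, `α` with `t² = α ∈ 𝓞 F`, `SqF (𝔟 i) α` (`exists_sqrt_mem`, first part of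
`exists_reps`, `t = l s`), and `𝔞 K` with `SqFree (𝔞 K)`, `𝔞 K * 𝔟 i ^ 2 = span {α}`
(`exists_sqf_ideal`).
Norm: `dabs K (absNorm 𝔟)² j² = 4^m D² nrm α`, `nrm α = absNorm (𝔞 K) (absNorm 𝔟)²`
(`nrm_eq_absNorm`), so `absNorm (𝔞 K) = dabs K j²/(4^m D²) ≤ C dabs K`, where `C` bounds `j_i(α)²`
for all `i` (periodic modulo a nonzero ideal, finite quotient: finitely many values).
Fibres: if `𝔞 K = I` then `span {α} = I * 𝔟 i ^ 2`: for a fixed `i` fix one such `α₁` (if any), then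
`α = η α₁`, `η` a unit, and the class of `η` modulo squares determines `K`: if `α = η α₁`,
`α' = η' α₁`, `η u_k = v²`, `η' u_k = v'²` then `(t/v)² = (t'/v')²` so `t' / v' = ± t / v` and
`eq_of_mem`. So at most `h r` fields `K`.
Invariance: `s ∈ K \ F`, `s² = β`, `θ β = β γ²`. By `ratio_mem` `t = l s`, so `α = l² β`,
`θ α = θ(l)² β γ² = α γ'²`, `γ' = θ(l) γ / l ≠ 0`. Claim `Inv θ (𝔞 K)`: write `θ_*` for the ring
automorphism of `𝓞 F` and its action on ideals; `θ_* (𝔞 K) (θ_* 𝔟)² = span {θ α}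
= span {α} γ'² = 𝔞 K (γ' 𝔟)²` (multiply by a denominator `ν²` of `γ' = μ/ν`); both `θ_* (𝔞 K)` and
`𝔞 K` are squarefree, so they are equal (uniqueness of the squarefree part: `𝔞 A² = 𝔞' B²` with `𝔞, 𝔞'`
squarefree and `A, B` nonzero implies `𝔞 = 𝔞'`). -/

open NumberField Module

namespace QTow

section badmap

variable {R : Type} [CommRing R] [IsDedekindDomain R]

omit [IsDedekindDomain R] in
private theorem badmap_top {𝔞 A : Ideal R} (h : SqFree 𝔞) (hA : A ^ 2 ∣ 𝔞) : A = ⊤ := by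
  by_contra hne
  obtain ⟨P, hP, hAP⟩ := Ideal.exists_le_maximal A hne
  exact h P hP.isPrime ((Ideal.le_of_dvd hA).trans (Ideal.pow_right_mono hAP 2))

private theorem badmap_eq {𝔞 𝔞' A B : Ideal R} (h : SqFree 𝔞) (h' : SqFree 𝔞') (hA : A ≠ ⊥)
    (he : 𝔞' * A ^ 2 = 𝔞 * B ^ 2) : A = B := by
  have hG : A ⊔ B ≠ ⊥ := fun h0 => hA (le_bot_iff.1 (le_sup_left.trans h0.le))
  obtain ⟨A1, hA1⟩ := Ideal.dvd_iff_le.2 (le_sup_left : A ≤ A ⊔ B)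
  obtain ⟨B1, hB1⟩ := Ideal.dvd_iff_le.2 (le_sup_right : B ≤ A ⊔ B)
  set G := A ⊔ B with hGdef
  have h1 : G * (A1 ⊔ B1) = G * 1 := by
    rw [Ideal.mul_sup, ← hA1, ← hB1, mul_one]
  have h2 : A1 ⊔ B1 = 1 := mul_left_cancel₀ hG h1
  have h3 : IsCoprime A1 B1 := by
    rw [Ideal.isCoprime_iff_sup_eq, h2, Ideal.one_eq_top]
  have h4 : IsCoprime (A1 ^ 2) (B1 ^ 2) := h3.pow
  have h5 : 𝔞' * A1 ^ 2 = 𝔞 * B1 ^ 2 := by
    have : G ^ 2 * (𝔞' * A1 ^ 2) = G ^ 2 * (𝔞 * B1 ^ 2) := by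
      calc G ^ 2 * (𝔞' * A1 ^ 2) = 𝔞' * (G * A1) ^ 2 := by ring
        _ = 𝔞 * (G * B1) ^ 2 := by rw [← hA1, ← hB1, he]
        _ = G ^ 2 * (𝔞 * B1 ^ 2) := by ring
    exact mul_left_cancel₀ (pow_ne_zero 2 hG) this
  have h6 : A1 = ⊤ := badmap_top h
    (h4.dvd_of_dvd_mul_right (by rw [← h5]; exact Dvd.intro_left _ rfl))
  have h7 : B1 = ⊤ := badmap_top h'
    (h4.symm.dvd_of_dvd_mul_right (by rw [h5]; exact Dvd.intro_left _ rfl))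
  rw [hA1, hB1, h6, h7]

private theorem badmap_part {𝔞 𝔞' A B : Ideal R} (h : SqFree 𝔞) (h' : SqFree 𝔞') (hA : A ≠ ⊥)
    (he : 𝔞' * A ^ 2 = 𝔞 * B ^ 2) : 𝔞' = 𝔞 := by
  have h1 := badmap_eq h h' hA he
  rw [← h1] at he
  exact mul_right_cancel₀ (pow_ne_zero 2 hA) he

omit [IsDedekindDomain R] in
private theorem badmap_map (e : R ≃+* R) {𝔞 : Ideal R} (h : SqFree 𝔞) :
    SqFree (𝔞.map (e : R →+* R)) := by
  intro P hP hle
  have hP' : (P.map (e.symm : R →+* R)).IsPrime := Ideal.map_isPrime_of_equiv e.symm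
  refine h _ hP' ?_
  have h1 := Ideal.map_mono (f := (e.symm : R →+* R)) hle
  rwa [Ideal.map_of_equiv, Ideal.map_pow] at h1

end badmap

/-- invariance of the squarefree part -/
private theorem badmap_inv (F : Type) [Field F] [NumberField F] (θ : F ≃ₐ[ℚ] F)
    (𝔟 𝔞 : Ideal (𝓞 F)) (h𝔟 : 𝔟 ≠ ⊥) (α : 𝓞 F) (h𝔞 : SqFree 𝔞)
    (he : 𝔞 * 𝔟 ^ 2 = Ideal.span {α}) (γ : F) (hθ : θ (α : F) = (α : F) * γ ^ 2) : Inv θ 𝔞 := by
  obtain ⟨e, hed⟩ : ∃ e : 𝓞 F ≃+* 𝓞 F, e = RingOfIntegers.mapRingEquiv (θ : F ≃+* F) := ⟨_, rfl⟩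
  have hev : ∀ x : 𝓞 F, ((e x : 𝓞 F) : F) = θ (x : F) := by
    intro x
    rw [hed]
    rfl
  obtain ⟨μ, ν, hν', hμν⟩ := IsFractionRing.div_surjective (𝓞 F) γ
  have hν : ν ≠ 0 := nonZeroDivisors.ne_zero hν'
  have hνF : algebraMap (𝓞 F) F ν ≠ 0 := by
    rw [Ne, FaithfulSMul.algebraMap_eq_zero_iff]
    exact hν
  have h1 : e α * ν ^ 2 = α * μ ^ 2 := by
    apply FaithfulSMul.algebraMap_injective (𝓞 F) F
    simp only [map_mul, map_pow]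
    have h2 : algebraMap (𝓞 F) F (e α) = algebraMap (𝓞 F) F α * γ ^ 2 := by
      have h3 := hev α
      rw [hθ] at h3
      exact h3
    rw [h2, ← hμν]
    field_simp
  have h2 : 𝔞.map (e : 𝓞 F →+* 𝓞 F) * (𝔟.map (e : 𝓞 F →+* 𝓞 F)) ^ 2 = Ideal.span {e α} := by
    rw [← Ideal.map_pow, ← Ideal.map_mul, he, Ideal.map_span, Set.image_singleton]
    rfl
  have h3 : 𝔞.map (e : 𝓞 F →+* 𝓞 F) * (Ideal.span {ν} * 𝔟.map (e : 𝓞 F →+* 𝓞 F)) ^ 2 =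
      𝔞 * (Ideal.span {μ} * 𝔟) ^ 2 := by
    calc 𝔞.map (e : 𝓞 F →+* 𝓞 F) * (Ideal.span {ν} * 𝔟.map (e : 𝓞 F →+* 𝓞 F)) ^ 2
        = (𝔞.map (e : 𝓞 F →+* 𝓞 F) * (𝔟.map (e : 𝓞 F →+* 𝓞 F)) ^ 2) * Ideal.span {ν} ^ 2 := by ring
      _ = (𝔞 * 𝔟 ^ 2) * Ideal.span {μ} ^ 2 := by
          rw [h2, he, Ideal.span_singleton_pow, Ideal.span_singleton_pow,
            Ideal.span_singleton_mul_span_singleton, Ideal.span_singleton_mul_span_singleton, h1]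
      _ = 𝔞 * (Ideal.span {μ} * 𝔟) ^ 2 := by ring
  have h𝔟' : 𝔟.map (e : 𝓞 F →+* 𝓞 F) ≠ ⊥ := by
    intro h0
    apply h𝔟
    have h4 := Ideal.map_of_equiv (I := 𝔟) e
    rw [h0, Ideal.map_bot] at h4
    exact h4.symm
  have h5 : 𝔞.map (e : 𝓞 F →+* 𝓞 F) = 𝔞 := by
    refine badmap_part h𝔞 (badmap_map e h𝔞) ?_ h3
    refine mul_ne_zero ?_ h𝔟'
    rw [Ideal.zero_eq_bot, Ne, Ideal.span_singleton_eq_bot]
    exact hν
  intro x y hxy hx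
  have h6 : y = e x := by
    apply RingOfIntegers.coe_injective
    have h7 := hev x
    exact hxy.trans h7.symm
  rw [h6, ← h5]
  exact Ideal.mem_map_of_mem (e : 𝓞 F →+* 𝓞 F) hx

/-- boundedness of the index -/
private theorem badmap_bdd (F : Type) [Field F] [NumberField F] (I : Ideal (𝓞 F)) (hI : I ≠ ⊥)
    (j : 𝓞 F → ℕ) (hj : ∀ α α', α - α' ∈ I → j α = j α') : ∃ J : ℕ, ∀ α, j α ≤ J := by
  have hfin : Finite (𝓞 F ⧸ I) := Ideal.finiteQuotientOfFreeOfNeBot I hI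
  have hmk : ∀ α, j (Quotient.out (Ideal.Quotient.mk I α)) = j α := by
    intro α
    apply hj
    rw [← Ideal.Quotient.eq]
    exact Ideal.Quotient.mk_out _
  obtain ⟨J, hJ⟩ := (Set.finite_range fun q : 𝓞 F ⧸ I => j (Quotient.out q)).bddAbove
  refine ⟨J, fun α => ?_⟩
  rw [← hmk α]
  exact hJ ⟨_, rfl⟩

theorem exists_ideal (F : SF) [NumberField F] : ∃ (C : ℝ) (n : ℕ) (𝔞 : SF → Ideal (𝓞 F)),
    0 < C ∧ (∀ K ∈ Quad F, SqFree (𝔞 K) ∧ (Ideal.absNorm (𝔞 K) : ℝ) ≤ C * dabs K) ∧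
    (∀ I : Ideal (𝓞 F), {K | K ∈ Quad F ∧ 𝔞 K = I}.Finite ∧
      Set.ncard {K | K ∈ Quad F ∧ 𝔞 K = I} ≤ n) ∧
    ∀ K ∈ Quad F, ∀ (θ : F ≃ₐ[ℚ] F) (s : ℂ) (β γ : F), s ∈ K → s ∉ F → s ^ 2 = (β : ℂ) →
      θ β = β * γ ^ 2 → Inv θ (𝔞 K) := by
  classical
  obtain ⟨h, 𝔟, h𝔟, hex, -⟩ := exists_reps F
  obtain ⟨r, u, hu⟩ := exists_units F
  have hcoe : ∀ x y : F, ((x * y : F) : ℂ) = (x : ℂ) * (y : ℂ) := fun _ _ => rfl
  have hh : Nonempty (Fin h) := by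
    obtain ⟨i, _⟩ := hex 1 one_ne_zero
    exact ⟨i⟩
  -- choices
  have hch : ∀ K : SF, ∃ (i : Fin h) (t : ℂ) (α : 𝓞 F) (𝔞 : Ideal (𝓞 F)), K ∈ Quad F →
      t ∈ K ∧ t ∉ F ∧ t ^ 2 = ((α : F) : ℂ) ∧ SqF (𝔟 i) α ∧ SqFree 𝔞 ∧
        𝔞 * 𝔟 i ^ 2 = Ideal.span {α} := by
    intro K
    by_cases hK : K ∈ Quad F
    · obtain ⟨s, hsK, hsF, hs2⟩ := exists_sqrt_mem hK
      have hs0 : s ≠ 0 := fun h0 => hsF (by rw [h0]; exact zero_mem F)
      have hβ0 : (⟨s ^ 2, hs2⟩ : F) ≠ 0 := by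
        intro h0
        exact hs0 ((pow_eq_zero_iff two_ne_zero).1 (congrArg Subtype.val h0))
      obtain ⟨i, α, l, hl, hα, hαl⟩ := hex ⟨s ^ 2, hs2⟩ hβ0
      obtain ⟨𝔞, h1, h2⟩ := exists_sqf_ideal F (𝔟 i) (h𝔟 i) α hα
      have hl0 : (l : ℂ) ≠ 0 := by
        intro h0
        exact hl (Subtype.ext h0)
      refine ⟨i, (l : ℂ) * s, α, 𝔞, fun _ => ⟨?_, ?_, ?_, hα, h1, h2⟩⟩
      · exact mul_mem (hK.2.1 l.2) hsK
      · intro h3
        apply hsF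
        have h4 : s = (l : ℂ)⁻¹ * ((l : ℂ) * s) := by field_simp
        rw [h4]
        exact mul_mem (inv_mem l.2) h3
      · rw [hαl, mul_pow]
        rfl
    · exact ⟨Classical.arbitrary _, 0, 0, ⊥, fun h => absurd h hK⟩
  choose i t α 𝔞 hmain using hch
  -- the discriminant formulas
  have hdf : ∀ k : Fin h, ∃ (j : 𝓞 F → ℕ) (J : ℕ), (∀ a, j a ≤ J) ∧
      ∀ K ∈ Quad F, ∀ (s : ℂ) (a : 𝓞 F), s ∈ K → s ∉ F → s ^ 2 = ((a : F) : ℂ) →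
          SqF (𝔟 k) a → dabs K * (Ideal.absNorm (𝔟 k) : ℝ) ^ 2 * (j a : ℝ) ^ 2 =
            4 ^ (deg F) * dabs F ^ 2 * nrm F a := by
    intro k
    obtain ⟨j, _, hinv, hform⟩ := disc_formula_SF F (𝔟 k) (h𝔟 k)
    obtain ⟨J, hJ⟩ := badmap_bdd F (Ideal.span {4} * 𝔟 k ^ 2) (by
      refine mul_ne_zero ?_ (pow_ne_zero 2 (h𝔟 k))
      rw [Ideal.zero_eq_bot, Ne, Ideal.span_singleton_eq_bot]
      norm_num) j hinv
    exact ⟨j, J, hJ, hform⟩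
  choose j J hJ hform using hdf
  obtain ⟨B, hB⟩ : ∃ B : ℕ, ∀ k, J k ≤ B := by
    obtain ⟨B, hB⟩ := (Set.finite_range J).bddAbove
    exact ⟨B, fun k => hB ⟨k, rfl⟩⟩
  refine ⟨(B : ℝ) ^ 2 + 1, h * r, 𝔞, by positivity, ?_, ?_, ?_⟩
  · -- norm bound
    intro K hK
    obtain ⟨htK, htF, ht2, hα, hsf, he⟩ := hmain K hK
    refine ⟨hsf, ?_⟩
    have h1 := hform (i K) K hK (t K) (α K) htK htF ht2 hα
    have h2 : nrm F (α K) = (Ideal.absNorm (𝔞 K) : ℝ) * (Ideal.absNorm (𝔟 (i K)) : ℝ) ^ 2 := by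
      rw [nrm_eq_absNorm, ← he, map_mul, map_pow]
      push_cast
      ring
    rw [h2] at h1
    have hN : (0 : ℝ) < (Ideal.absNorm (𝔟 (i K)) : ℝ) ^ 2 := by
      have h3 : Ideal.absNorm (𝔟 (i K)) ≠ 0 := by
        rw [Ne, Ideal.absNorm_eq_zero_iff]
        exact h𝔟 _
      positivity
    have h3 : dabs K * (j (i K) (α K) : ℝ) ^ 2 =
        4 ^ (deg F) * dabs F ^ 2 * (Ideal.absNorm (𝔞 K) : ℝ) := by
      have h4 : (Ideal.absNorm (𝔟 (i K)) : ℝ) ^ 2 * (dabs K * (j (i K) (α K) : ℝ) ^ 2) =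
          (Ideal.absNorm (𝔟 (i K)) : ℝ) ^ 2 *
            (4 ^ (deg F) * dabs F ^ 2 * (Ideal.absNorm (𝔞 K) : ℝ)) := by
        linear_combination h1
      exact mul_left_cancel₀ hN.ne' h4
    have hKn : NumberField K := quad_numberField hK
    have hD : 1 ≤ dabs F := one_le_dabs F
    have hDK : 1 ≤ dabs K := one_le_dabs K
    have hjB : (j (i K) (α K) : ℝ) ≤ (B : ℝ) := by
      exact_mod_cast (hJ (i K) (α K)).trans (hB _)
    have hj0 : (0 : ℝ) ≤ (j (i K) (α K) : ℝ) := Nat.cast_nonneg _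
    have h5 : (1 : ℝ) ≤ 4 ^ (deg F) * dabs F ^ 2 := by
      have h6 : (1 : ℝ) ≤ 4 ^ (deg F) := one_le_pow₀ (by norm_num)
      have h7 : (1 : ℝ) ≤ dabs F ^ 2 := one_le_pow₀ hD
      nlinarith
    have h8 : (0 : ℝ) ≤ (Ideal.absNorm (𝔞 K) : ℝ) := Nat.cast_nonneg _
    have h9 : (j (i K) (α K) : ℝ) ^ 2 ≤ (B : ℝ) ^ 2 := pow_le_pow_left₀ hj0 hjB 2
    have h10 : (Ideal.absNorm (𝔞 K) : ℝ) ≤
        4 ^ (deg F) * dabs F ^ 2 * (Ideal.absNorm (𝔞 K) : ℝ) := by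
      nlinarith
    have h11 : dabs K * (j (i K) (α K) : ℝ) ^ 2 ≤ dabs K * (B : ℝ) ^ 2 :=
      mul_le_mul_of_nonneg_left h9 (by linarith)
    nlinarith
  · -- the fibres
    intro I
    obtain ⟨S, hS⟩ : ∃ S : Set SF, S = {K | K ∈ Quad F ∧ 𝔞 K = I} := ⟨_, rfl⟩
    have hmS : ∀ K, K ∈ S ↔ K ∈ Quad F ∧ 𝔞 K = I := fun K => by rw [hS]; rfl
    rw [← hS]
    -- representatives of the fibres over an index
    have hrep : ∀ k : Fin h, ∃ K₁ : SF, (∃ K ∈ S, i K = k) → K₁ ∈ S ∧ i K₁ = k := by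
      intro k
      by_cases hk : ∃ K ∈ S, i K = k
      · obtain ⟨K₁, h1, h2⟩ := hk
        exact ⟨K₁, fun _ => ⟨h1, h2⟩⟩
      · exact ⟨⊥, fun h => absurd h hk⟩
    choose R hR using hrep
    have hunit : ∀ K : SF, ∃ (η : (𝓞 F)ˣ) (k : Fin r) (v : (𝓞 F)ˣ), K ∈ S →
        α K = α (R (i K)) * (η : 𝓞 F) ∧ η * u k = v ^ 2 := by
      intro K
      by_cases hK : K ∈ S
      · obtain ⟨hK1, hK2⟩ := hR (i K) ⟨K, hK, rfl⟩
        obtain ⟨_, _, _, _, _, he⟩ := hmain K ((hmS K).1 hK).1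
        obtain ⟨_, _, _, _, _, he'⟩ := hmain (R (i K)) ((hmS _).1 hK1).1
        rw [((hmS K).1 hK).2] at he
        rw [((hmS _).1 hK1).2, hK2, he] at he'
        obtain ⟨η, hη⟩ := Ideal.span_singleton_eq_span_singleton.1 he'.symm
        obtain ⟨k, ⟨v, hv⟩, _⟩ := hu η
        exact ⟨η, k, v, fun _ => ⟨hη.symm, hv⟩⟩
      · obtain ⟨k, _⟩ := hu 1
        exact ⟨1, k, 1, fun h => absurd h hK⟩
    choose η k v hkv using hunit
    have hinj : Set.InjOn (fun K => (i K, k K)) S := by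
      intro K hK K' hK' hEq
      rw [Prod.mk.injEq] at hEq
      obtain ⟨e1, e2⟩ := hEq
      obtain ⟨h1, h2⟩ := hkv K hK
      obtain ⟨h1', h2'⟩ := hkv K' hK'
      obtain ⟨htK, htF, ht2, -, -, -⟩ := hmain K ((hmS K).1 hK).1
      obtain ⟨htK', htF', ht2', -, -, -⟩ := hmain K' ((hmS K').1 hK').1
      rw [← e1] at h1'
      rw [← e2] at h2'
      -- `α K * v' ^ 2 = α K' * v ^ 2`
      have h3 : α K * (v K' : 𝓞 F) ^ 2 = α K' * (v K : 𝓞 F) ^ 2 := by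
        have e3 : ((v K : 𝓞 F)) ^ 2 = (η K : 𝓞 F) * (u (k K) : 𝓞 F) := by
          rw [← Units.val_pow_eq_pow_val, ← h2, Units.val_mul]
        have e4 : ((v K' : 𝓞 F)) ^ 2 = (η K' : 𝓞 F) * (u (k K) : 𝓞 F) := by
          rw [← Units.val_pow_eq_pow_val, ← h2', Units.val_mul]
        rw [e3, e4, h1, h1']
        ring
      have h4 : (t K * (((v K' : 𝓞 F) : F) : ℂ)) ^ 2 = (t K' * (((v K : 𝓞 F) : F) : ℂ)) ^ 2 := by
        have h5 : ((α K : F)) * ((v K' : 𝓞 F) : F) ^ 2 = ((α K' : F)) * ((v K : 𝓞 F) : F) ^ 2 := by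
          have h6 := congrArg (algebraMap (𝓞 F) F) h3
          simp only [map_mul, map_pow] at h6
          exact h6
        have h7 := congrArg (fun x : F => (x : ℂ)) h5
        rw [mul_pow, mul_pow, ht2, ht2']
        exact h7
      have hvne : (((v K' : 𝓞 F) : F) : ℂ) ≠ 0 := by
        intro h0
        have h5 : ((v K' : 𝓞 F) : F) = 0 := Subtype.ext h0
        have h6 : (v K' : 𝓞 F) = 0 := by
          apply RingOfIntegers.coe_injective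
          exact h5
        exact (v K').ne_zero h6
      have hmem : t K * (((v K' : 𝓞 F) : F) : ℂ) ∈ K' := by
        have h8 : t K' * (((v K : 𝓞 F) : F) : ℂ) ∈ K' :=
          mul_mem htK' (((hmS K').1 hK').1.2.1 ((v K : 𝓞 F) : F).2)
        rcases sq_eq_sq_iff_eq_or_eq_neg.1 h4 with h5 | h5
        · rw [h5]; exact h8
        · rw [h5]; exact neg_mem h8
      have hmem2 : t K ∈ K' := by
        have h9 : t K = (t K * (((v K' : 𝓞 F) : F) : ℂ)) * ((((v K' : 𝓞 F) : F) : ℂ))⁻¹ := by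
          field_simp
        rw [h9]
        exact mul_mem hmem (inv_mem (((hmS K').1 hK').1.2.1 ((v K' : 𝓞 F) : F).2))
      exact eq_of_mem ((hmS K).1 hK).1 ((hmS K').1 hK').1 htK hmem2 htF
    have hfin : S.Finite :=
      Set.Finite.of_injOn (f := fun K => (i K, k K)) (t := Set.univ) (fun _ _ => Set.mem_univ _)
        hinj Set.finite_univ
    refine ⟨hfin, ?_⟩
    have h1 := Set.ncard_le_ncard_of_injOn (fun K => (i K, k K)) (t := Set.univ)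
      (fun _ _ => Set.mem_univ _) hinj Set.finite_univ
    rw [Set.ncard_univ, Nat.card_prod, Nat.card_fin, Nat.card_fin] at h1
    exact h1
  · -- invariance
    intro K hK θ s β γ hsK hsF hs2 hθ
    obtain ⟨htK, htF, ht2, hα, hsf, he⟩ := hmain K hK
    obtain ⟨l, hl⟩ := ratio_mem hK hsK hsF (by rw [hs2]; exact β.2) htK htF
      (by rw [ht2]; exact (α K : F).2)
    have hαl : (α K : F) = l ^ 2 * β := by
      apply Subtype.ext
      have h1 : ((α K : F) : ℂ) = (l : ℂ) ^ 2 * (β : ℂ) := by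
        rw [← ht2, hl, mul_pow, hs2]
      exact h1
    have hα0 : α K ≠ 0 := by
      intro h0
      exact hα.2 ⊥ Ideal.isPrime_bot (by rw [h0]; exact zero_mem _)
    have hl0 : l ≠ 0 := by
      intro h0
      rw [h0, zero_pow two_ne_zero, zero_mul] at hαl
      exact hα0 (RingOfIntegers.coe_injective hαl)
    refine badmap_inv F θ (𝔟 (i K)) (𝔞 K) (h𝔟 _) (α K) hsf he (θ l * γ / l) ?_
    rw [hαl, map_mul, map_pow, hθ]
    field_simp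

end QTow
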