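import Pool.Agent.Lib.MP_44a56e_nt.Defs2
import Pool.Agent.Lib.MP_44a56e_nt.SFBasic
import Pool.Agent.Lib.MP_44a56e_nt.SieveA
import Pool.Agent.Lib.MP_44a56e_nt.BadAlg
import Pool.Agent.Lib.MP_44a56e_nt.BadId
import Pool.Agent.Lib.MP_44a56e_nt.BadMap

/-! # MP_44a56e_nt, module BadCount: few quadratic extensions have more than two automorphisms. -/

open NumberField Module Filter Topology

namespace QTow

private theorem sqFree_ne_bot {R : Type} [CommRing R] [IsDomain R] {I : Ideal R} (h : SqFree I) :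
    I ≠ ⊥ := by
  rintro rfl
  exact h ⊥ Ideal.isPrime_bot bot_le

private theorem inv_finite (F : Type) [Field F] [NumberField F] (θ : F ≃ₐ[ℚ] F) (Z : ℝ)
    (hZ : 0 < Z) : {I : Ideal (𝓞 F) | SqFree I ∧ Inv θ I ∧ (Ideal.absNorm I : ℝ) ≤ Z}.Finite := by
  obtain ⟨C, -, h⟩ := ideals_le F
  exact ((h Z hZ).1).subset fun I hI => ⟨sqFree_ne_bot hI.1, hI.2.2⟩

theorem bad_limit (F : SF) [NumberField F] :
    Tendsto (fun X : ℝ => (Set.ncard {K | K ∈ Bad F ∧ dabs K ≤ X} : ℝ) / X) atTop (𝓝 0) := by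
  classical
  obtain ⟨E, hE, hbad⟩ := bad_subset F
  obtain ⟨C, n, 𝔞, hC, h1, h2, h3⟩ := exists_ideal F
  have hfin : Finite (F ≃ₐ[ℚ] F) := inferInstance
  have : Fintype (F ≃ₐ[ℚ] F) := Fintype.ofFinite _
  set Θ : Finset (F ≃ₐ[ℚ] F) := Finset.univ.filter (fun θ => θ ≠ 1) with hΘ
  -- the bound for one automorphism
  have hone : ∀ (θ : F ≃ₐ[ℚ] F) (X : ℝ), 0 < X →
      {K | K ∈ Quad F ∧ dabs K ≤ X ∧ Inv θ (𝔞 K)}.Finite ∧
      Set.ncard {K | K ∈ Quad F ∧ dabs K ≤ X ∧ Inv θ (𝔞 K)} ≤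
        n * Set.ncard {I : Ideal (𝓞 F) | SqFree I ∧ Inv θ I ∧
          (Ideal.absNorm I : ℝ) ≤ C * X} := by
    intro θ X hX
    have hf1 : {K | K ∈ Quad F ∧ dabs K ≤ X ∧ Inv θ (𝔞 K)}.Finite :=
      (finite_dabs X).subset fun K hK => ⟨hK.1.1, hK.2.1⟩
    have hf2 := inv_finite F θ (C * X) (by positivity)
    refine ⟨hf1, ?_⟩
    rw [Set.ncard_eq_toFinset_card _ hf1, Set.ncard_eq_toFinset_card _ hf2]
    have h4 : hf1.toFinset.card ≤ n * (hf1.toFinset.image 𝔞).card := by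
      refine Finset.card_le_mul_card_image _ _ fun I _ => ?_
      have h5 := (h2 I).2
      rw [Set.ncard_eq_toFinset_card _ (h2 I).1] at h5
      refine le_trans (Finset.card_le_card ?_) h5
      intro K hK
      rw [Finset.mem_filter, Set.Finite.mem_toFinset] at hK
      rw [Set.Finite.mem_toFinset]
      exact ⟨hK.1.1, hK.2⟩
    refine le_trans h4 (Nat.mul_le_mul_left _ (Finset.card_le_card ?_))
    intro I hI
    rw [Finset.mem_image] at hI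
    obtain ⟨K, hK, rfl⟩ := hI
    rw [Set.Finite.mem_toFinset] at hK ⊢
    obtain ⟨hK1, hK2, hK3⟩ := hK
    refine ⟨(h1 K hK1).1, hK3, le_trans (h1 K hK1).2 ?_⟩
    gcongr
  have hbound : ∀ X : ℝ, 0 < X → (Set.ncard {K | K ∈ Bad F ∧ dabs K ≤ X} : ℝ) ≤
      (E.ncard : ℝ) + ∑ θ ∈ Θ, (n : ℝ) * (Set.ncard {I : Ideal (𝓞 F) | SqFree I ∧ Inv θ I ∧
          (Ideal.absNorm I : ℝ) ≤ C * X} : ℝ) := by
    intro X hX
    have hsub : {K | K ∈ Bad F ∧ dabs K ≤ X} ⊆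
        E ∪ ⋃ θ ∈ Θ, {K | K ∈ Quad F ∧ dabs K ≤ X ∧ Inv θ (𝔞 K)} := by
      rintro K ⟨hK, hd⟩
      rcases hbad K hK with h | ⟨θ, hθ, s, α, γ, hs, hsF, hs2, hα⟩
      · exact Or.inl h
      · refine Or.inr ?_
        rw [Set.mem_iUnion₂]
        refine ⟨θ, ?_, hK.1, hd, h3 K hK.1 θ s α γ hs hsF hs2 hα⟩
        rw [hΘ, Finset.mem_filter]
        exact ⟨Finset.mem_univ _, hθ⟩
    have hfU : (⋃ θ ∈ Θ, {K | K ∈ Quad F ∧ dabs K ≤ X ∧ Inv θ (𝔞 K)}).Finite :=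
      Set.Finite.biUnion (Finset.finite_toSet Θ) fun θ _ => (hone θ X hX).1
    have h6 := Set.ncard_le_ncard hsub (hE.union hfU)
    have h7 := Set.ncard_union_le E (⋃ θ ∈ Θ, {K | K ∈ Quad F ∧ dabs K ≤ X ∧ Inv θ (𝔞 K)})
    have h8 : Set.ncard (⋃ θ ∈ Θ, {K | K ∈ Quad F ∧ dabs K ≤ X ∧ Inv θ (𝔞 K)}) ≤
        ∑ θ ∈ Θ, Set.ncard {K | K ∈ Quad F ∧ dabs K ≤ X ∧ Inv θ (𝔞 K)} := by
      have h9 : ∀ T : Finset (F ≃ₐ[ℚ] F),
          Set.ncard (⋃ θ ∈ T, {K | K ∈ Quad F ∧ dabs K ≤ X ∧ Inv θ (𝔞 K)}) ≤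
            ∑ θ ∈ T, Set.ncard {K | K ∈ Quad F ∧ dabs K ≤ X ∧ Inv θ (𝔞 K)} := by
        intro T
        induction T using Finset.induction_on with
        | empty => simp
        | insert a T ha ih =>
          rw [Finset.set_biUnion_insert, Finset.sum_insert ha]
          exact le_trans (Set.ncard_union_le _ _) (Nat.add_le_add_left ih _)
      exact h9 Θ
    have h10 : Set.ncard {K | K ∈ Bad F ∧ dabs K ≤ X} ≤ E.ncard + ∑ θ ∈ Θ,
        n * Set.ncard {I : Ideal (𝓞 F) | SqFree I ∧ Inv θ I ∧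
          (Ideal.absNorm I : ℝ) ≤ C * X} :=
      le_trans h6 (le_trans h7 (Nat.add_le_add_left
        (le_trans h8 (Finset.sum_le_sum fun θ _ => (hone θ X hX).2)) _))
    exact_mod_cast h10
  have hlim : Tendsto (fun X : ℝ => (E.ncard : ℝ) / X + ∑ θ ∈ Θ, (n : ℝ) * C *
      ((Set.ncard {I : Ideal (𝓞 F) | SqFree I ∧ Inv θ I ∧
          (Ideal.absNorm I : ℝ) ≤ C * X} : ℝ) / (C * X))) atTop
      (𝓝 (0 + ∑ _θ ∈ Θ, (n : ℝ) * C * 0)) := by
    refine Tendsto.add (tendsto_const_nhds.div_atTop tendsto_id) ?_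
    refine tendsto_finsetSum _ fun θ hθ => ?_
    rw [hΘ, Finset.mem_filter] at hθ
    refine Tendsto.const_mul _ ?_
    exact (invariant_count F θ hθ.2).comp (tendsto_id.const_mul_atTop hC)
  have hz : (0 + ∑ _θ ∈ Θ, (n : ℝ) * C * 0) = 0 := by simp
  rw [hz] at hlim
  refine squeeze_zero' ?_ ?_ hlim
  · filter_upwards [eventually_gt_atTop 0] with X hX
    positivity
  · filter_upwards [eventually_gt_atTop 0] with X hX
    refine le_trans (div_le_div_of_nonneg_right (hbound X hX) hX.le) ?_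
    rw [add_div, Finset.sum_div]
    refine add_le_add le_rfl (Finset.sum_le_sum fun θ _ => ?_)
    apply le_of_eq
    field_simp

end QTow
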