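import Pool.Agent.Lib.MP_44a56e_nt.Defs2

/-! # MP_44a56e_nt: invariant ideals (definition). -/

open NumberField Module

namespace QTow

/-- The ideal `I` is mapped into itself by the automorphism `θ`. -/
def Inv {F : Type} [Field F] [NumberField F] (θ : F ≃ₐ[ℚ] F) (I : Ideal (𝓞 F)) : Prop :=
  ∀ x y : 𝓞 F, (y : F) = θ (x : F) → x ∈ I → y ∈ I

end QTow
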