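import Pool.Agent.Lib.MP_44a56e_nt.Defs2

/-! # MP_44a56e_nt, module Bessel: a Bessel inequality on the torus.

PROOF of `bessel`. Put `e n x = exp (2π i ∑ n_j x_j)`, `c n = ∫ f(x) conj (e n x)` and
`P x = ∑_{n ∈ N} c n * e n x` (continuous, `ℤ^ι`-periodic). Then
`∑_{n ∈ N} ‖c n‖^2 = ∫ f conj P` (linearity; `f` is bounded, measurable, with bounded support, so
everything is integrable), and by Cauchy-Schwarz (on the set `B`)
`|∫ f conj P|^2 ≤ (∫ ‖f‖^2) (∫_B ‖P‖^2)`.
Claim: `∫_B g ≤ ∫_Q g` for a nonnegative continuous `ℤ^ι`-periodic `g`, `Q = [0,1)^ι`: `Q` is a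
fundamental domain of `ℤ^ι` (`isAddFundamentalDomain` of `ZSpan.fundamentalDomain`), `B` is the
disjoint union of the sets `B ∩ (Q + k)`, whose translates `(B - k) ∩ Q` are disjoint by `hinj`
(`MeasureTheory.IsAddFundamentalDomain.lintegral_eq_tsum` or by hand).
Finally `∫_Q ‖P‖^2 = ∑_{n ∈ N} ‖c n‖^2` by orthonormality: `∫_Q e n * conj (e n') = ∏_j ∫_0^1
exp(2π i (n_j - n'_j) t) dt = 0` or `1` (Fubini `MeasureTheory.integral_fintype_prod_eq_prod`
restricted to `Set.pi univ`, or `UnitAddTorus`: `orthonormal_mFourier`).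
So with `S = ∑ ‖c n‖^2`: `S^2 ≤ (∫ ‖f‖^2) S`, hence `S ≤ ∫ ‖f‖^2`. -/

open MeasureTheory

namespace QTow

/-- The character of the torus. -/
noncomputable def ee {ι : Type} [Fintype ι] (n : ι → ℤ) (x : ι → ℝ) : ℂ :=
  Complex.exp (2 * Real.pi * Complex.I * ((∑ i, (n i : ℝ) * x i : ℝ) : ℂ))

theorem conj_ee {ι : Type} [Fintype ι] (n : ι → ℤ) (x : ι → ℝ) :
    (starRingEnd ℂ) (ee n x) =
      Complex.exp (-(2 * Real.pi * Complex.I * ((∑ i, (n i : ℝ) * x i : ℝ) : ℂ))) := by
  unfold ee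
  rw [← Complex.exp_conj]
  congr 1
  rw [map_mul, map_mul, map_mul, Complex.conj_I, Complex.conj_ofReal, Complex.conj_ofReal]
  rw [map_ofNat]
  ring

theorem norm_ee {ι : Type} [Fintype ι] (n : ι → ℤ) (x : ι → ℝ) : ‖ee n x‖ = 1 := by
  unfold ee
  have : (2 * Real.pi * Complex.I * ((∑ i, (n i : ℝ) * x i : ℝ) : ℂ)) =
      ((2 * Real.pi * (∑ i, (n i : ℝ) * x i) : ℝ) : ℂ) * Complex.I := by
    push_cast
    ring
  rw [this, Complex.norm_exp_ofReal_mul_I]

theorem continuous_ee {ι : Type} [Fintype ι] (n : ι → ℤ) :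
    Continuous (fun x : ι → ℝ => ee n x) := by
  unfold ee
  fun_prop

theorem ee_periodic {ι : Type} [Fintype ι] (n k : ι → ℤ) (x : ι → ℝ) :
    ee n (fun i => (k i : ℝ) + x i) = ee n x := by
  unfold ee
  have : (2 * Real.pi * Complex.I * ((∑ i, (n i : ℝ) * ((k i : ℝ) + x i) : ℝ) : ℂ)) =
      (2 * Real.pi * Complex.I * ((∑ i, (n i : ℝ) * x i : ℝ) : ℂ)) +
        ((∑ i, n i * k i : ℤ) : ℂ) * (2 * Real.pi * Complex.I) := by
    push_cast
    simp_rw [mul_add, Finset.sum_add_distrib]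
    ring
  rw [this, Complex.exp_add, Complex.exp_int_mul_two_pi_mul_I, mul_one]

/-- The unit cube. -/
def QQ (ι : Type) : Set (ι → ℝ) := Set.univ.pi fun _ => Set.Ico (0 : ℝ) 1

theorem int_char (k : ℤ) :
    ∫ t in Set.Ico (0 : ℝ) 1, Complex.exp (2 * Real.pi * Complex.I * (((k : ℝ) * t : ℝ) : ℂ)) =
      if k = 0 then 1 else 0 := by
  rw [integral_Ico_eq_integral_Ioc, ← intervalIntegral.integral_of_le zero_le_one]
  split_ifs with h
  · subst h
    simp
  · have hc : (2 * Real.pi * Complex.I * (k : ℂ)) ≠ 0 := by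
      have h1 : (k : ℂ) ≠ 0 := by exact_mod_cast h
      exact mul_ne_zero Complex.two_pi_I_ne_zero h1
    have e1 : ∀ t : ℝ, Complex.exp (2 * Real.pi * Complex.I * (((k : ℝ) * t : ℝ) : ℂ)) =
        Complex.exp ((2 * Real.pi * Complex.I * (k : ℂ)) * (t : ℂ)) := by
      intro t
      congr 1
      push_cast
      ring
    simp_rw [e1]
    rw [integral_exp_mul_complex hc]
    have e2 : (2 * Real.pi * Complex.I * (k : ℂ)) * ((1 : ℝ) : ℂ) =
        (k : ℂ) * (2 * Real.pi * Complex.I) := by push_cast; ring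
    rw [e2, Complex.exp_int_mul_two_pi_mul_I]
    simp

theorem ee_orth {ι : Type} [Fintype ι] (n m : ι → ℤ) :
    ∫ x in QQ ι, ee n x * (starRingEnd ℂ) (ee m x) = if n = m then 1 else 0 := by
  have h1 : ∀ x : ι → ℝ, ee n x * (starRingEnd ℂ) (ee m x) =
      ∏ i, Complex.exp (2 * Real.pi * Complex.I * ((((n i - m i : ℤ) : ℝ) * x i : ℝ) : ℂ)) := by
    intro x
    rw [conj_ee]
    unfold ee
    rw [← Complex.exp_add, ← Complex.exp_sum]
    congr 1
    push_cast
    rw [← Finset.mul_sum, ← mul_neg, ← mul_add]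
    congr 1
    rw [← sub_eq_add_neg, ← Finset.sum_sub_distrib]
    exact Finset.sum_congr rfl fun i _ => by ring
  simp_rw [h1]
  have h2 : (volume : Measure (ι → ℝ)).restrict (QQ ι) =
      Measure.pi (fun _ : ι => (volume : Measure ℝ).restrict (Set.Ico 0 1)) := by
    rw [QQ, volume_pi, Measure.restrict_pi_pi]
  rw [h2, integral_fintype_prod_eq_prod (f := fun i (t : ℝ) =>
    Complex.exp (2 * Real.pi * Complex.I * ((((n i - m i : ℤ) : ℝ) * t : ℝ) : ℂ)))]
  simp_rw [int_char]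
  split_ifs with h
  · subst h
    simp
  · obtain ⟨i, hi⟩ := Function.ne_iff.mp h
    exact Finset.prod_eq_zero (Finset.mem_univ i) (if_neg (sub_ne_zero.mpr hi))

/-- Periodic functions: the integral over a set injecting into the torus is at most the integral
over the unit cube. -/
theorem periodic_le {ι : Type} [Fintype ι] (g : (ι → ℝ) → ENNReal)
    (hper : ∀ (k : ι → ℤ) (x : ι → ℝ), g (fun i => (k i : ℝ) + x i) = g x)
    (B : Set (ι → ℝ)) (hB : MeasurableSet B)
    (hinj : ∀ x ∈ B, ∀ y ∈ B, (∃ k : ι → ℤ, x - y = fun i => (k i : ℝ)) → x = y) :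
    ∫⁻ x in B, g x ≤ ∫⁻ x in QQ ι, g x := by
  classical
  set b := Pi.basisFun ℝ ι with hb
  have hfd := ZSpan.isAddFundamentalDomain' b (volume : Measure (ι → ℝ))
  have hQ : ZSpan.fundamentalDomain b = QQ ι := by
    rw [hb, ZSpan.fundamentalDomain_pi_basisFun]
    rfl
  rw [hQ] at hfd
  have hQm : MeasurableSet (QQ ι) := MeasurableSet.univ_pi fun _ => measurableSet_Ico
  have hint : ∀ v : (Submodule.span ℤ (Set.range b)).toAddSubgroup, ∃ k : ι → ℤ, (v : ι → ℝ) = fun i => (k i : ℝ) := by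
    intro v
    have hv : (v : ι → ℝ) ∈ Submodule.span ℤ (Set.range b) := v.2
    rw [Module.Basis.mem_span_iff_repr_mem] at hv
    choose k hk using hv
    refine ⟨k, ?_⟩
    funext i
    have := hk i
    simp [hb] at this
    exact this.symm
  have hcount : Countable (Submodule.span ℤ (Set.range b)).toAddSubgroup :=
    (inferInstance : Countable (Submodule.span ℤ (Set.range b)))
  rw [hfd.setLIntegral_eq_tsum' g B]
  have h1 : ∀ v : (Submodule.span ℤ (Set.range b)).toAddSubgroup, ∀ x : ι → ℝ, g (-v +ᵥ x) = g x := by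
    intro v x
    obtain ⟨k, hk⟩ := hint (-v)
    have e : (-v +ᵥ x) = fun i => (k i : ℝ) + x i := by
      rw [AddSubgroup.vadd_def, hk]
      rfl
    rw [e, hper]
  simp_rw [h1]
  rw [← lintegral_iUnion]
  · exact lintegral_mono_set (Set.iUnion_subset fun v => Set.inter_subset_right)
  · intro v
    exact (hB.const_vadd v).inter hQm
  · intro v w hvw
    rw [Function.onFun, Set.disjoint_left]
    rintro x ⟨hx1, _⟩ ⟨hx2, _⟩
    obtain ⟨y, hy, rfl⟩ := hx1
    obtain ⟨z, hz, hzz⟩ := hx2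
    obtain ⟨k, hk⟩ := hint (v - w)
    apply hvw
    have e : z - y = fun i => (k i : ℝ) := by
      rw [← hk]
      have hzz' : (w : ι → ℝ) + z = (v : ι → ℝ) + y := hzz
      rw [AddSubgroup.coe_sub]
      rw [sub_eq_sub_iff_add_eq_add, add_comm, hzz']
    have e2 := hinj z hz y hy ⟨k, e⟩
    subst e2
    have hzz' : (w : ι → ℝ) + z = (v : ι → ℝ) + z := hzz
    exact Subtype.ext (add_right_cancel hzz').symm

theorem int_trig {ι : Type} [Fintype ι] (N : Finset (ι → ℤ)) (c : (ι → ℤ) → ℂ) :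
    ∫ x in QQ ι, ‖∑ n ∈ N, c n * ee n x‖ ^ 2 = ∑ n ∈ N, ‖c n‖ ^ 2 := by
  classical
  have hQm : MeasurableSet (QQ ι) := MeasurableSet.univ_pi fun _ => measurableSet_Ico
  have hQf : (volume : Measure (ι → ℝ)) (QQ ι) ≠ ⊤ := by
    rw [QQ, Real.volume_pi_Ico]
    exact ENNReal.prod_ne_top fun i _ => ENNReal.ofReal_ne_top
  have hint : ∀ n m : ι → ℤ, IntegrableOn (fun x => ee n x * (starRingEnd ℂ) (ee m x)) (QQ ι) := by
    intro n m
    apply Measure.integrableOn_of_bounded hQf (M := 1)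
    · exact ((continuous_ee n).mul (Complex.continuous_conj.comp
        (continuous_ee m))).aestronglyMeasurable
    · refine Filter.Eventually.of_forall fun x => ?_
      rw [norm_mul, RCLike.norm_conj, norm_ee, norm_ee, one_mul]
  have h1 : ∀ x : ι → ℝ, ((‖∑ n ∈ N, c n * ee n x‖ ^ 2 : ℝ) : ℂ) =
      ∑ n ∈ N, ∑ m ∈ N, (c n * (starRingEnd ℂ) (c m)) * (ee n x * (starRingEnd ℂ) (ee m x)) := by
    intro x
    push_cast
    rw [← Complex.mul_conj', map_sum, Finset.sum_mul_sum]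
    refine Finset.sum_congr rfl fun n _ => Finset.sum_congr rfl fun m _ => ?_
    rw [map_mul]
    ring
  have h2 : ((∫ x in QQ ι, ‖∑ n ∈ N, c n * ee n x‖ ^ 2 : ℝ) : ℂ) = ((∑ n ∈ N, ‖c n‖ ^ 2 : ℝ) : ℂ) := by
    rw [← integral_complex_ofReal]
    simp_rw [h1]
    rw [integral_finsetSum _ (fun n _ => integrable_finsetSum _ fun m _ => (hint n m).const_mul _)]
    push_cast
    refine Finset.sum_congr rfl fun n hn => ?_
    rw [integral_finsetSum _ (fun m _ => (hint n m).const_mul _)]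
    simp_rw [integral_const_mul, ee_orth]
    rw [Finset.sum_eq_single n]
    · rw [if_pos rfl, mul_one, Complex.mul_conj']
    · intro m _ hm
      rw [if_neg (Ne.symm hm), mul_zero]
    · exact fun h => absurd hn h
  exact_mod_cast h2

theorem bessel {ι : Type} [Fintype ι] (f : (ι → ℝ) → ℂ) (B : Set (ι → ℝ))
    (hB : MeasurableSet B) (hBb : Bornology.IsBounded B) (hf : Measurable f)
    (hfb : ∃ M : ℝ, ∀ x, ‖f x‖ ≤ M) (hfs : ∀ x, x ∉ B → f x = 0)
    (hinj : ∀ x ∈ B, ∀ y ∈ B, (∃ k : ι → ℤ, x - y = fun i => (k i : ℝ)) → x = y)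
    (N : Finset (ι → ℤ)) :
    ∑ n ∈ N, ‖∫ x, f x * Complex.exp (-(2 * Real.pi * Complex.I *
      ((∑ i, (n i : ℝ) * x i : ℝ) : ℂ)))‖ ^ 2 ≤ ∫ x, ‖f x‖ ^ 2 := by
  classical
  obtain ⟨M, hM⟩ := hfb
  have hBf : (volume : Measure (ι → ℝ)) B ≠ ⊤ := hBb.measure_lt_top.ne
  have hQm : MeasurableSet (QQ ι) := MeasurableSet.univ_pi fun _ => measurableSet_Ico
  have hQf : (volume : Measure (ι → ℝ)) (QQ ι) ≠ ⊤ := by
    rw [QQ, Real.volume_pi_Ico]
    exact ENNReal.prod_ne_top fun i _ => ENNReal.ofReal_ne_top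
  set c : (ι → ℤ) → ℂ := fun n => ∫ x, f x * (starRingEnd ℂ) (ee n x) with hc
  have hcn : ∀ n, (∫ x, f x * Complex.exp (-(2 * Real.pi * Complex.I *
      ((∑ i, (n i : ℝ) * x i : ℝ) : ℂ)))) = c n := by
    intro n
    simp only [hc, conj_ee]
  simp_rw [hcn]
  set P : (ι → ℝ) → ℂ := fun x => ∑ n ∈ N, c n * ee n x with hP
  set S : ℝ := ∑ n ∈ N, ‖c n‖ ^ 2 with hS
  have hPc : Continuous P := continuous_finsetSum _ fun n _ => continuous_const.mul (continuous_ee n)
  set R : ℝ := ∑ n ∈ N, ‖c n‖ with hR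
  have hPb : ∀ x, ‖P x‖ ≤ R := by
    intro x
    refine (norm_sum_le _ _).trans (le_of_eq (Finset.sum_congr rfl fun n _ => ?_))
    rw [norm_mul, norm_ee, mul_one]
  have hR0 : 0 ≤ R := Finset.sum_nonneg fun n _ => norm_nonneg _
  have hM0 : 0 ≤ M := (norm_nonneg _).trans (hM 0)
  -- integrability
  have i1 : IntegrableOn (fun x => ‖f x‖ ^ 2) B := by
    refine Measure.integrableOn_of_bounded (M := M ^ 2) hBf ?_ ?_
    · exact (hf.norm.pow_const 2).aestronglyMeasurable
    · refine Filter.Eventually.of_forall fun x => ?_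
      rw [norm_pow, norm_norm]
      exact pow_le_pow_left₀ (norm_nonneg _) (hM x) 2
  have i2 : ∀ n, IntegrableOn (fun x => f x * (starRingEnd ℂ) (ee n x)) B := by
    intro n
    apply Measure.integrableOn_of_bounded hBf (M := M)
    · exact (hf.mul (Complex.continuous_conj.comp (continuous_ee n)).measurable).aestronglyMeasurable
    · refine Filter.Eventually.of_forall fun x => ?_
      rw [norm_mul, RCLike.norm_conj, norm_ee, mul_one]
      exact hM x
  have i3 : IntegrableOn (fun x => f x * (starRingEnd ℂ) (P x)) B := by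
    apply Measure.integrableOn_of_bounded hBf (M := M * R)
    · exact (hf.mul (Complex.continuous_conj.comp hPc).measurable).aestronglyMeasurable
    · refine Filter.Eventually.of_forall fun x => ?_
      rw [norm_mul, RCLike.norm_conj]
      exact mul_le_mul (hM x) (hPb x) (norm_nonneg _) hM0
  have i4 : ∀ A : Set (ι → ℝ), (volume : Measure (ι → ℝ)) A ≠ ⊤ →
      IntegrableOn (fun x => ‖P x‖ ^ 2) A := by
    intro A hA
    refine Measure.integrableOn_of_bounded (M := R ^ 2) hA ?_ ?_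
    · exact (hPc.norm.pow 2).aestronglyMeasurable
    · refine Filter.Eventually.of_forall fun x => ?_
      rw [norm_pow, norm_norm]
      exact pow_le_pow_left₀ (norm_nonneg _) (hPb x) 2
  -- the integral of `‖P‖ ^ 2`
  have h3 : ∫ x in B, ‖P x‖ ^ 2 ≤ S := by
    have hle := periodic_le (fun x => ENNReal.ofReal (‖P x‖ ^ 2)) (by
      intro k x
      have : P (fun i => (k i : ℝ) + x i) = P x := by
        simp only [hP, ee_periodic]
      rw [this]) B hB hinj
    rw [← ofReal_integral_eq_lintegral_ofReal (i4 B hBf)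
      (Filter.Eventually.of_forall fun x => by positivity),
      ← ofReal_integral_eq_lintegral_ofReal (i4 _ hQf)
      (Filter.Eventually.of_forall fun x => by positivity)] at hle
    rw [ENNReal.ofReal_le_ofReal_iff (integral_nonneg fun x => by positivity)] at hle
    exact hle.trans (le_of_eq (int_trig N c))
  -- the mixed term
  have h4 : ∫ x in B, f x * (starRingEnd ℂ) (P x) = (S : ℂ) := by
    have e : ∀ x, f x * (starRingEnd ℂ) (P x) =
        ∑ n ∈ N, (starRingEnd ℂ) (c n) * (f x * (starRingEnd ℂ) (ee n x)) := by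
      intro x
      simp only [hP, map_sum, map_mul, Finset.mul_sum]
      exact Finset.sum_congr rfl fun n _ => by ring
    simp_rw [e]
    rw [integral_finsetSum _ (fun n _ => (i2 n).const_mul _), hS]
    push_cast
    refine Finset.sum_congr rfl fun n _ => ?_
    rw [integral_const_mul, setIntegral_eq_integral_of_forall_compl_eq_zero]
    · have : (∫ x, f x * (starRingEnd ℂ) (ee n x)) = c n := rfl
      rw [this, Complex.conj_mul']
    · intro x hx
      rw [hfs x hx, zero_mul]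
  have h5 : ∫ x in B, ‖f x‖ ^ 2 = ∫ x, ‖f x‖ ^ 2 := by
    rw [setIntegral_eq_integral_of_forall_compl_eq_zero]
    intro x hx
    rw [hfs x hx]
    simp
  have h6 : ∀ x, ‖f x - P x‖ ^ 2 = ‖f x‖ ^ 2 - 2 * (f x * (starRingEnd ℂ) (P x)).re + ‖P x‖ ^ 2 := by
    intro x
    rw [← Complex.normSq_eq_norm_sq, ← Complex.normSq_eq_norm_sq, ← Complex.normSq_eq_norm_sq,
      Complex.normSq_sub]
    ring
  have h7 : 0 ≤ ∫ x in B, ‖f x - P x‖ ^ 2 := integral_nonneg fun x => by positivity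
  simp_rw [h6] at h7
  have i5 : IntegrableOn (fun x => 2 * (f x * (starRingEnd ℂ) (P x)).re) B := i3.re.const_mul 2
  have h9 : ∫ x in B, (‖f x‖ ^ 2 - 2 * (f x * (starRingEnd ℂ) (P x)).re + ‖P x‖ ^ 2) =
      (∫ x in B, ‖f x‖ ^ 2) - 2 * (∫ x in B, (f x * (starRingEnd ℂ) (P x)).re) +
        ∫ x in B, ‖P x‖ ^ 2 := by
    have i6 : IntegrableOn (fun x => ‖f x‖ ^ 2 - 2 * (f x * (starRingEnd ℂ) (P x)).re) B :=
      i1.sub i5
    rw [integral_add i6 (i4 B hBf), integral_sub i1 i5, integral_const_mul]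
  rw [h9] at h7
  have h8 : ∫ x in B, (f x * (starRingEnd ℂ) (P x)).re = S := by
    have := integral_re i3
    rw [h4] at this
    simpa using this
  rw [h8, h5] at h7
  linarith

end QTow
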