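import Pool.Agent.Lib.MP_44a56e_nt.Defs2

/-! # MP_44a56e_nt, module BoxInt: the Fourier transform of a truncated exponential.

PROOFS. `box_sq`: `∫_{-b}^{b} e^{-2ay} dy = sinh(2ab)/a`. `box_fourier`:
`∫_{-b}^{b} e^{-(a+2πix)y} dy = 2 sinh((a+2πix)b)/(a+2πix)` and
`|sinh(u+iv)|^2 = sinh(u)^2 + sin(v)^2 ≥ sinh(u)^2` (`Complex.sinh_add`,...), `|a+2πix|^2 = a^2 +
4π^2x^2`. `boxes_*`: Fubini for products (`MeasureTheory.integral_fintype_prod_eq_prod`). -/

open MeasureTheory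

namespace QTow

/-- The truncated exponential. -/
noncomputable def bx (a b y : ℝ) : ℝ := if |y| < b then Real.exp (-(a * y)) else 0

/-- The integral of a function cut off outside `(-b, b)` is an interval integral. -/
theorem boxInt_cut {E : Type} [NormedAddCommGroup E] [NormedSpace ℝ E] (b : ℝ) (hb : 0 < b)
    (g h : ℝ → E) (hg : ∀ y, |y| < b → g y = h y) (hg0 : ∀ y, ¬ |y| < b → g y = 0) :
    ∫ y, g y = ∫ y in (-b)..b, h y := by
  have h1 : g = Set.indicator (Set.Ioo (-b) b) h := by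
    funext y
    by_cases hy : |y| < b
    · rw [Set.indicator_of_mem (by rw [Set.mem_Ioo]; exact abs_lt.mp hy), hg y hy]
    · rw [Set.indicator_of_notMem (by rw [Set.mem_Ioo]; exact fun hh => hy (abs_lt.mpr hh)),
        hg0 y hy]
  rw [h1, integral_indicator measurableSet_Ioo, intervalIntegral.integral_of_le (by linarith),
    integral_Ioc_eq_integral_Ioo]

theorem box_sq (a b : ℝ) (ha : 0 < a) (hb : 0 < b) :
    ∫ y, bx a b y ^ 2 = Real.sinh (2 * a * b) / a := by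
  rw [boxInt_cut b hb (fun y => bx a b y ^ 2) (fun y => Real.exp ((-(2 * a)) * y))]
  · have hne : (-(2 * a)) ≠ 0 := ne_of_lt (by linarith)
    rw [intervalIntegral.integral_comp_mul_left (fun y => Real.exp y) hne, integral_exp,
      Real.sinh_eq, smul_eq_mul]
    have e1 : -(2 * a) * b = -(2 * a * b) := by ring
    have e2 : -(2 * a) * -b = 2 * a * b := by ring
    rw [e1, e2]
    field_simp
    ring
  · intro y hy
    simp only [bx, if_pos hy]
    rw [← Real.exp_nat_mul]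
    congr 1
    push_cast
    ring
  · intro y hy
    simp only [bx, if_neg hy]
    norm_num

theorem normSq_sinh_ge (z : ℂ) : Real.sinh z.re ^ 2 ≤ ‖Complex.sinh z‖ ^ 2 := by
  have h1 : Complex.sinh z = ((Real.sinh z.re * Real.cos z.im : ℝ) : ℂ) +
      ((Real.cosh z.re * Real.sin z.im : ℝ) : ℂ) * Complex.I := by
    conv_lhs => rw [← Complex.re_add_im z]
    rw [Complex.sinh_add, Complex.sinh_mul_I, Complex.cosh_mul_I]
    push_cast
    ring
  have h2 : ‖Complex.sinh z‖ ^ 2 = (Real.sinh z.re * Real.cos z.im) ^ 2 +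
      (Real.cosh z.re * Real.sin z.im) ^ 2 := by
    rw [h1, ← Complex.normSq_eq_norm_sq, Complex.normSq_add_mul_I]
  rw [h2]
  have h3 := Real.cosh_sq z.re
  have h4 := Real.sin_sq_add_cos_sq z.im
  have h5 : (Real.sinh z.re * Real.cos z.im) ^ 2 + (Real.cosh z.re * Real.sin z.im) ^ 2 =
      Real.sinh z.re ^ 2 * (Real.sin z.im ^ 2 + Real.cos z.im ^ 2) + Real.sin z.im ^ 2 := by
    rw [mul_pow, mul_pow, h3]
    ring
  rw [h5, h4]
  nlinarith [sq_nonneg (Real.sin z.im)]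

theorem box_fourier (a b x : ℝ) (ha : 0 < a) (hb : 0 < b) :
    4 * Real.sinh (a * b) ^ 2 / (a ^ 2 + 4 * Real.pi ^ 2 * x ^ 2) ≤
      ‖∫ y, (bx a b y : ℂ) * Complex.exp (-(2 * Real.pi * Complex.I * ((x * y : ℝ) : ℂ)))‖ ^ 2 := by
  set c : ℂ := ⟨a, 2 * Real.pi * x⟩ with hc
  have hc' : c = (a : ℂ) + 2 * Real.pi * x * Complex.I := by
    rw [Complex.ext_iff]
    simp [hc]
  have hc0 : c ≠ 0 := by
    intro h
    have := congrArg Complex.re h
    simp [hc] at this
    linarith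
  have hcn : ‖c‖ ^ 2 = a ^ 2 + 4 * Real.pi ^ 2 * x ^ 2 := by
    rw [← Complex.normSq_eq_norm_sq, hc, Complex.normSq_mk]
    ring
  rw [boxInt_cut b hb _ (fun y : ℝ => Complex.exp ((-c) * (y : ℂ)))]
  · rw [integral_exp_mul_complex (neg_ne_zero.mpr hc0)]
    have e1 : (Complex.exp (-c * (b : ℂ)) - Complex.exp (-c * ((-b : ℝ) : ℂ))) / (-c) =
        2 * Complex.sinh (c * b) / c := by
      rw [Complex.sinh]
      have e2 : -c * (b : ℂ) = -(c * b) := by ring
      have e3 : -c * ((-b : ℝ) : ℂ) = c * b := by push_cast; ring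
      rw [e2, e3]
      field_simp
      ring
    rw [e1, norm_div, norm_mul, div_pow, mul_pow, hcn, Complex.norm_two]
    have h4 := normSq_sinh_ge (c * b)
    have h5 : (c * (b : ℂ)).re = a * b := by
      simp [hc]
    rw [h5] at h4
    have h6 : 0 < a ^ 2 + 4 * Real.pi ^ 2 * x ^ 2 := by positivity
    rw [div_le_div_iff_of_pos_right h6]
    linarith
  · intro y hy
    simp only [bx, if_pos hy]
    rw [Complex.ofReal_exp, ← Complex.exp_add]
    congr 1
    rw [hc']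
    push_cast
    ring
  · intro y hy
    simp only [bx, if_neg hy]
    simp

theorem boxes_sq {ι : Type} [Fintype ι] (a b : ι → ℝ) (ha : ∀ j, 0 < a j) (hb : ∀ j, 0 < b j) :
    ∫ y : ι → ℝ, ‖((∏ j, bx (a j) (b j) (y j) : ℝ) : ℂ)‖ ^ 2 =
      ∏ j, Real.sinh (2 * a j * b j) / a j := by
  have h1 : ∀ y : ι → ℝ, ‖((∏ j, bx (a j) (b j) (y j) : ℝ) : ℂ)‖ ^ 2 =
      ∏ j, (bx (a j) (b j) (y j)) ^ 2 := by
    intro y
    rw [Complex.norm_real, Real.norm_eq_abs, sq_abs, Finset.prod_pow]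
  simp_rw [h1]
  rw [integral_fintype_prod_volume_eq_prod (f := fun j (t : ℝ) => bx (a j) (b j) t ^ 2)]
  exact Finset.prod_congr rfl fun j _ => box_sq (a j) (b j) (ha j) (hb j)

theorem boxes_fourier {ι : Type} [Fintype ι] (a b x : ι → ℝ) (ha : ∀ j, 0 < a j)
    (hb : ∀ j, 0 < b j) :
    ∏ j, 4 * Real.sinh (a j * b j) ^ 2 / (a j ^ 2 + 4 * Real.pi ^ 2 * x j ^ 2) ≤
      ‖∫ y : ι → ℝ, ((∏ j, bx (a j) (b j) (y j) : ℝ) : ℂ) *
        Complex.exp (-(2 * Real.pi * Complex.I * ((∑ j, x j * y j : ℝ) : ℂ)))‖ ^ 2 := by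
  have h1 : ∀ y : ι → ℝ, ((∏ j, bx (a j) (b j) (y j) : ℝ) : ℂ) *
        Complex.exp (-(2 * Real.pi * Complex.I * ((∑ j, x j * y j : ℝ) : ℂ))) =
      ∏ j, ((bx (a j) (b j) (y j) : ℂ) *
        Complex.exp (-(2 * Real.pi * Complex.I * ((x j * y j : ℝ) : ℂ)))) := by
    intro y
    rw [Finset.prod_mul_distrib, ← Complex.exp_sum, Complex.ofReal_prod]
    congr 2
    rw [Complex.ofReal_sum, Finset.mul_sum, Finset.sum_neg_distrib]
  simp_rw [h1]
  rw [integral_fintype_prod_volume_eq_prod (f := fun j (t : ℝ) => ((bx (a j) (b j) t : ℂ) *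
        Complex.exp (-(2 * Real.pi * Complex.I * ((x j * t : ℝ) : ℂ))))), norm_prod,
    ← Finset.prod_pow]
  apply Finset.prod_le_prod
  · intro j _
    have := ha j
    positivity
  · intro j _
    exact box_fourier (a j) (b j) (x j) (ha j) (hb j)

end QTow
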