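import Pool.Agent.Lib.MP_44a56e_nt.Defs2
import Pool.Agent.Lib.MP_44a56e_nt.Bessel
import Pool.Agent.Lib.MP_44a56e_nt.BoxInt

/-! # MP_44a56e_nt, module BoxCount: counting lattice points whose dual lattice avoids a box.

PROOF of `box_count`. `A = (Mᵀ)⁻¹`. Apply `bessel` to `f θ = ∏_j bx (a j) (b j) ((A θ) j)` and
`B = {θ | ∀ j, |(A θ) j| < b j}` (open and bounded since `A` is invertible, `θ = Mᵀ (A θ)`); `hinj`:
if `θ - θ' = k` is integral then `|(A k) j| < 2 b j` for all `j`, so `k = 0` by `hbox`. Change of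
variables `y = A θ`, `θ = Mᵀ y`, `∑ n_i θ_i = ∑_j (M n)_j y_j`:
`∫ f(θ) e(-n·θ) dθ = |det M| ∫ ∏ bx(y_j) e(-(M n)·y) dy` and `∫ ‖f‖^2 dθ = |det M| ∫ ∏ bx^2 dy`
(`MeasureTheory.Measure.addHaar...`, `Real.map_matrix_volume_pi_eq_smul_volume_pi`,
`integral_image_eq_integral_abs_det_fderiv_smul`, or `integral_comp_...` for linear maps). So
`∑_{n ∈ N} |det M|^2 ∏_j 4 sinh(a_j b_j)^2/(a_j^2 + 4π^2 (M n)_j^2) ≤ |det M| ∏_j sinh(2 a_j b_j)/a_j`
by `boxes_fourier`, `boxes_sq`; each summand is at least `|det M|^2 ∏_j 4 sinh(a_j b_j)^2 / W`;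
`sinh(2u) = 2 sinh u cosh u`. -/

open MeasureTheory Matrix

namespace QTow

private theorem bc_cov {ι : Type} [Fintype ι] [DecidableEq ι] {E : Type} [NormedAddCommGroup E]
    [NormedSpace ℝ E] (A : Matrix ι ι ℝ) (hA : A.det ≠ 0) (g : (ι → ℝ) → E)
    (hg : StronglyMeasurable g) :
    ∫ θ, g (A.mulVec θ) = |(A.det)⁻¹| • ∫ y, g y := by
  have h1 := Real.map_matrix_volume_pi_eq_smul_volume_pi hA
  have hm : Measurable (Matrix.toLin' A) := (LinearMap.continuous_on_pi _).measurable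
  have h2 : ∫ y, g y ∂(Measure.map (Matrix.toLin' A) volume) = ∫ θ, g (Matrix.toLin' A θ) :=
    integral_map hm.aemeasurable hg.aestronglyMeasurable
  rw [h1, integral_smul_measure, ENNReal.toReal_ofReal (abs_nonneg _)] at h2
  simp only [Matrix.toLin'_apply] at h2
  exact h2.symm

private theorem bc_bx_meas (a b : ℝ) : Measurable (bx a b) := by
  unfold bx
  exact Measurable.ite (measurableSet_lt measurable_id.abs measurable_const)
    (Real.measurable_exp.comp (measurable_id.const_mul a).neg) measurable_const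

private theorem bc_bx_le {a b : ℝ} (ha : 0 < a) (y : ℝ) : |bx a b y| ≤ Real.exp (a * b) := by
  unfold bx
  split_ifs with h
  · rw [abs_of_pos (Real.exp_pos _)]
    apply Real.exp_le_exp.2
    have h1 := neg_abs_le y
    nlinarith
  · rw [abs_zero]
    exact (Real.exp_pos _).le

private theorem bc_coth {a b : ℝ} (ha : 0 < a) (hb : 0 < b) :
    Real.sinh (2 * a * b) / a / (4 * Real.sinh (a * b) ^ 2) = coth (a * b) / (2 * a) := by
  have h1 : 0 < Real.sinh (a * b) := Real.sinh_pos_iff.2 (mul_pos ha hb)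
  unfold coth
  rw [show 2 * a * b = 2 * (a * b) by ring, Real.sinh_two_mul]
  field_simp
  ring

theorem box_count {ι : Type} [Fintype ι] [DecidableEq ι] (M : Matrix ι ι ℝ) (hM : M.det ≠ 0)
    (a b : ι → ℝ) (ha : ∀ j, 0 < a j) (hb : ∀ j, 0 < b j)
    (hbox : ∀ k : ι → ℤ, k ≠ 0 → ∃ j, 2 * b j ≤ |(Mᵀ)⁻¹.mulVec (fun i => (k i : ℝ)) j|)
    (N : Finset (ι → ℤ)) (W : ℝ) (hW0 : 0 ≤ W)
    (hW : ∀ n ∈ N, ∏ j, (a j ^ 2 + 4 * Real.pi ^ 2 * M.mulVec (fun i => (n i : ℝ)) j ^ 2) ≤ W) :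
    (N.card : ℝ) ≤ |M.det|⁻¹ * W * ∏ j, (coth (a j * b j) / (2 * a j)) := by
  classical
  set A : Matrix ι ι ℝ := (Mᵀ)⁻¹ with hA
  have hMt : IsUnit (Mᵀ).det := by
    rw [Matrix.det_transpose]
    exact isUnit_iff_ne_zero.2 hM
  have hMA : Mᵀ * A = 1 := Matrix.mul_nonsing_inv _ hMt
  have hAdet : A.det = (M.det)⁻¹ := by
    rw [hA, Matrix.det_nonsing_inv, Matrix.det_transpose, Ring.inverse_eq_inv']
  have hAdet0 : A.det ≠ 0 := by
    rw [hAdet]
    exact inv_ne_zero hM
  have hback : ∀ θ : ι → ℝ, (Mᵀ).mulVec (A.mulVec θ) = θ := by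
    intro θ
    rw [Matrix.mulVec_mulVec, hMA, Matrix.one_mulVec]
  have hdot : ∀ (n : ι → ℝ) (θ : ι → ℝ),
      ∑ j, M.mulVec n j * A.mulVec θ j = ∑ i, n i * θ i := by
    intro n θ
    have h1 : ∑ j, M.mulVec n j * A.mulVec θ j = (M.mulVec n) ⬝ᵥ (A.mulVec θ) := rfl
    have h2 : ∑ i, n i * θ i = n ⬝ᵥ θ := rfl
    have h3 := Matrix.dotProduct_mulVec n (Mᵀ) (A.mulVec θ)
    rw [Matrix.vecMul_transpose, hback θ] at h3
    rw [h1, h2]
    exact h3.symm
  have hcont : Continuous fun θ : ι → ℝ => A.mulVec θ := by fun_prop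
  let g : (ι → ℝ) → ℂ := fun y => ((∏ j, bx (a j) (b j) (y j) : ℝ) : ℂ)
  have hgm : Measurable g :=
    Complex.measurable_ofReal.comp (Finset.measurable_prod _ fun j _ =>
      (bc_bx_meas (a j) (b j)).comp (measurable_pi_apply j))
  have hbessel := bessel (fun θ => g (A.mulVec θ)) {θ | ∀ j, |A.mulVec θ j| < b j} ?_ ?_ ?_ ?_ ?_ ?_ N
  · -- main computation
    have hdetM : 0 < |M.det| := abs_pos.2 hM
    have hcov2 : ∫ θ, ‖g (A.mulVec θ)‖ ^ 2 =
        |M.det| * ∏ j, Real.sinh (2 * a j * b j) / a j := by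
      have h1 := bc_cov A hAdet0 (fun y => ‖g y‖ ^ 2)
        (hgm.norm.pow_const 2).stronglyMeasurable
      rw [h1, hAdet, inv_inv, smul_eq_mul, boxes_sq a b ha hb]
    have hcov1 : ∀ n : ι → ℤ, ∫ θ, g (A.mulVec θ) * Complex.exp (-(2 * Real.pi * Complex.I *
        ((∑ i, (n i : ℝ) * θ i : ℝ) : ℂ))) = |M.det| • ∫ y, g y *
        Complex.exp (-(2 * Real.pi * Complex.I *
        ((∑ j, M.mulVec (fun i => (n i : ℝ)) j * y j : ℝ) : ℂ))) := by
      intro n
      have hm : Measurable fun y : ι → ℝ => g y * Complex.exp (-(2 * Real.pi * Complex.I *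
        ((∑ j, M.mulVec (fun i => (n i : ℝ)) j * y j : ℝ) : ℂ))) := by
        apply hgm.mul
        apply Continuous.measurable
        fun_prop
      have h1 := bc_cov A hAdet0 _ hm.stronglyMeasurable
      rw [hAdet, inv_inv] at h1
      rw [← h1]
      refine integral_congr_ae (Filter.Eventually.of_forall fun θ => ?_)
      simp only
      rw [hdot (fun i => (n i : ℝ)) θ]
    rw [hcov2] at hbessel
    have hpos : ∀ n : ι → ℤ, 0 < ∏ j, (a j ^ 2 + 4 * Real.pi ^ 2 *
        M.mulVec (fun i => (n i : ℝ)) j ^ 2) := by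
      intro n
      apply Finset.prod_pos
      intro j _
      have := ha j
      positivity
    have hSpos : 0 < ∏ j, (4 * Real.sinh (a j * b j) ^ 2) := by
      apply Finset.prod_pos
      intro j _
      have := Real.sinh_pos_iff.2 (mul_pos (ha j) (hb j))
      positivity
    rcases N.eq_empty_or_nonempty with hN | ⟨n0, hn0⟩
    · rw [hN, Finset.card_empty, Nat.cast_zero]
      apply mul_nonneg (mul_nonneg (inv_nonneg.2 hdetM.le) hW0)
      apply Finset.prod_nonneg
      intro j _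
      have h1 := Real.sinh_pos_iff.2 (mul_pos (ha j) (hb j))
      have h2 := Real.cosh_pos (a j * b j)
      have h3 := ha j
      unfold coth
      positivity
    have hWpos : 0 < W := lt_of_lt_of_le (hpos n0) (hW n0 hn0)
    have hlow : ∀ n ∈ N, |M.det| ^ 2 * ((∏ j, (4 * Real.sinh (a j * b j) ^ 2)) / W) ≤
        ‖∫ θ, g (A.mulVec θ) * Complex.exp (-(2 * Real.pi * Complex.I *
        ((∑ i, (n i : ℝ) * θ i : ℝ) : ℂ)))‖ ^ 2 := by
      intro n hn
      rw [hcov1 n, norm_smul, Real.norm_eq_abs, abs_abs, mul_pow]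
      apply mul_le_mul_of_nonneg_left _ (by positivity)
      refine le_trans ?_ (boxes_fourier a b (M.mulVec fun i => (n i : ℝ)) ha hb)
      rw [Finset.prod_div_distrib]
      exact div_le_div_of_nonneg_left hSpos.le (hpos n) (hW n hn)
    have hsum := Finset.card_nsmul_le_sum N _ _ hlow
    rw [nsmul_eq_mul] at hsum
    have hall := hsum.trans hbessel
    have hprod : ∏ j, (coth (a j * b j) / (2 * a j)) =
        (∏ j, Real.sinh (2 * a j * b j) / a j) / ∏ j, (4 * Real.sinh (a j * b j) ^ 2) := by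
      rw [← Finset.prod_div_distrib]
      apply Finset.prod_congr rfl
      intro j _
      exact (bc_coth (ha j) (hb j)).symm
    rw [hprod]
    have hne : ∏ j, (4 * Real.sinh (a j * b j) ^ 2) ≠ 0 := hSpos.ne'
    rw [mul_div_assoc', le_div_iff₀ hSpos]
    have e1 : (N.card : ℝ) * (|M.det| ^ 2 * ((∏ j, (4 * Real.sinh (a j * b j) ^ 2)) / W)) =
        ((N.card : ℝ) * ∏ j, (4 * Real.sinh (a j * b j) ^ 2)) * (|M.det| ^ 2 / W) := by ring
    rw [e1] at hall
    have e2 : |M.det|⁻¹ * W * ∏ j, Real.sinh (2 * a j * b j) / a j =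
        (|M.det| * ∏ j, Real.sinh (2 * a j * b j) / a j) * (W / |M.det| ^ 2) := by
      field_simp
    rw [e2]
    calc (N.card : ℝ) * ∏ j, (4 * Real.sinh (a j * b j) ^ 2)
        = ((N.card : ℝ) * ∏ j, (4 * Real.sinh (a j * b j) ^ 2)) * (|M.det| ^ 2 / W) *
          (W / |M.det| ^ 2) := by
          field_simp
      _ ≤ _ := mul_le_mul_of_nonneg_right hall (by positivity)
  · -- measurability of the box
    have h1 : {θ : ι → ℝ | ∀ j, |A.mulVec θ j| < b j} = ⋂ j, {θ | |A.mulVec θ j| < b j} := by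
      ext θ
      simp
    rw [h1]
    refine MeasurableSet.iInter fun j => ?_
    exact measurableSet_lt ((measurable_pi_apply j).comp hcont.measurable).abs measurable_const
  · -- boundedness
    have hK : IsCompact (Set.pi Set.univ fun j : ι => Set.Icc (-b j) (b j)) :=
      isCompact_univ_pi fun j => isCompact_Icc
    have hcont' : Continuous fun y : ι → ℝ => (Mᵀ).mulVec y := by fun_prop
    refine (hK.image hcont').isBounded.subset ?_
    intro θ hθ
    refine ⟨A.mulVec θ, ?_, hback θ⟩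
    rw [Set.mem_univ_pi]
    intro j
    have := hθ j
    rw [abs_lt] at this
    exact ⟨this.1.le, this.2.le⟩
  · exact hgm.comp hcont.measurable
  · refine ⟨∏ j, Real.exp (a j * b j), fun θ => ?_⟩
    simp only [g]
    rw [Complex.norm_real, Real.norm_eq_abs, Finset.abs_prod]
    exact Finset.prod_le_prod (fun j _ => abs_nonneg _) fun j _ => bc_bx_le (ha j) _
  · intro θ hθ
    rw [Set.mem_setOf_eq] at hθ
    push Not at hθ
    obtain ⟨j, hj⟩ := hθ
    simp only [g]
    rw [Finset.prod_eq_zero (Finset.mem_univ j), Complex.ofReal_zero]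
    unfold bx
    rw [if_neg (not_lt.2 hj)]
  · intro x hx y hy hk
    obtain ⟨k, hk⟩ := hk
    by_contra hne
    have hk0 : k ≠ 0 := by
      rintro rfl
      apply hne
      rw [← sub_eq_zero, hk]
      funext i
      simp
    obtain ⟨j, hj⟩ := hbox k hk0
    have h1 : (Mᵀ)⁻¹.mulVec (fun i => (k i : ℝ)) j = A.mulVec x j - A.mulVec y j := by
      rw [← hk, ← hA, Matrix.mulVec_sub]
      rfl
    rw [h1] at hj
    have h2 := abs_sub (A.mulVec x j) (A.mulVec y j)
    have h3 := hx j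
    have h4 := hy j
    linarith

end QTow
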