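import Pool.Agent.Lib.MP_44a56e_nt.Defs2

/-! # MP_44a56e_nt, module Coord: real coordinates of the ring of integers.

PROOF of `exists_coord`. Index `ι = mixedEmbedding.index F = {real w} ⊕ ({complex w} × Fin 2)`,
`b` a `ℤ`-basis of `𝓞 F` reindexed by `ι` (`Module.finrank`, `card_add_two_mul_card_eq_rank`;
`mixedEmbedding.index` has `finrank ℚ F` elements, `indexEquiv`), `e n = ∑ n_i b_i`,
`c_j(x)` = the real coordinates of `mixedEmbedding F x` (`stdBasis`): value at a real place, real
and imaginary part at a complex place. `D` = diagonal matrix with `1` (real) and `2, -2` (complex),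
`κ j = 1` (real), `√2` (complex). Then `Tr(x y) = c(x)ᵀ D c(y)` for `x, y ∈ F`
(`Algebra.trace_eq_sum_embeddings`, pairs of conjugate embeddings). `M j i = D_jj c_j(b_i)`, i.e.
`(M n)_j = D_jj c_j(e n)`. (1) `discr F = det(Tr(b_i b_j)) = det(Cᵀ D C) = det(C)^2 (-4)^{r2}`, so
`|det M| = 4^{r2} |det C| = 2^{r2} √|discr F| = (∏ κ) √|discr F|` (`∏ κ = (√2)^{2 r2} = 2^{r2}`).
(2) for a complex place `w` with `α_w = u + iv`: `(2a²+16π²u²)(2a²+16π²v²) =
4 (a²+8π²u²)(a²+8π²v²) ≤ 4 (a²+4π²(u²+v²))²` (AM-GM) and the two embeddings over `w` have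
`‖σ α‖² = u²+v²`; real places: equality.
(3) Let `k ≠ 0`, `y = (Mᵀ)⁻¹ k`. The trace form is nondegenerate: there is `ξ ∈ F` with
`Tr(ξ b_i) = k_i`, and `k = Mᵀ c(ξ)`, so `y = c(ξ)`, `ξ ≠ 0`. The matrix `Tr(ξ b_i b_j)` is integral
(`b_i b_j` is an integral combination of the `b_l`), its determinant is `N(ξ) * discr F ≠ 0`, so
`|N(ξ)| ≥ 1/|discr F|`. If `|y_j| < 1/(κ_j R)` for all `j`, `R = |discr F|^{1/m}`, then
`|ξ_w| < 1/R` at the real places and `|ξ_w|² < 1/(2R²) + 1/(2R²) = 1/R²` at the complex ones, so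
`|N(ξ)| = ∏_w ... < R^{-m} = 1/|discr F|`, contradiction. -/

open NumberField Matrix Module

namespace QTow

section coord

open NumberField.InfinitePlace NumberField.mixedEmbedding

open scoped Classical in
private theorem co_card (F : Type) [Field F] [NumberField F] :
    Fintype.card (index F) = finrank ℚ F := by
  rw [Fintype.card_congr (indexEquiv F), Embeddings.card]

variable {F : Type} [Field F] [NumberField F]

/-- the real coordinates -/
private noncomputable def cH : index F → (F →+ ℝ)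
  | Sum.inl w => Complex.reAddGroupHom.comp (w.1.embedding : F →+* ℂ).toAddMonoidHom
  | Sum.inr (w, i) =>
    if i = 0 then Complex.reAddGroupHom.comp (w.1.embedding : F →+* ℂ).toAddMonoidHom
    else Complex.imAddGroupHom.comp (w.1.embedding : F →+* ℂ).toAddMonoidHom

private noncomputable def dd : index F → ℝ
  | Sum.inl _ => 1
  | Sum.inr (_, i) => if i = 0 then 2 else -2

private noncomputable def kk : index F → ℝ
  | Sum.inl _ => 1
  | Sum.inr _ => Real.sqrt 2

private theorem cH_l (w : {w : InfinitePlace F // IsReal w}) (x : F) :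
    cH (Sum.inl w) x = (w.1.embedding x).re := rfl

private theorem cH_r0 (w : {w : InfinitePlace F // IsComplex w}) (x : F) :
    cH (Sum.inr (w, 0)) x = (w.1.embedding x).re := rfl

private theorem cH_r1 (w : {w : InfinitePlace F // IsComplex w}) (x : F) :
    cH (Sum.inr (w, 1)) x = (w.1.embedding x).im := rfl

private theorem dd_l (w : {w : InfinitePlace F // IsReal w}) :
    dd (F := F) (Sum.inl w) = 1 := rfl

private theorem dd_r0 (w : {w : InfinitePlace F // IsComplex w}) :
    dd (F := F) (Sum.inr (w, 0)) = 2 := rfl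

private theorem dd_r1 (w : {w : InfinitePlace F // IsComplex w}) :
    dd (F := F) (Sum.inr (w, 1)) = -2 := rfl

private theorem kk_l (w : {w : InfinitePlace F // IsReal w}) :
    kk (F := F) (Sum.inl w) = 1 := rfl

private theorem kk_r (w : {w : InfinitePlace F // IsComplex w}) (i : Fin 2) :
    kk (F := F) (Sum.inr (w, i)) = Real.sqrt 2 := rfl

private theorem kk_pos (j : index F) : 0 < kk j := by
  rcases j with w | ⟨w, i⟩
  · rw [kk_l]
    exact one_pos
  · rw [kk_r]
    exact Real.sqrt_pos.2 two_pos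

private theorem kk_sq (j : index F) : kk j ^ 2 = |dd j| := by
  rcases j with w | ⟨w, i⟩
  · rw [kk_l, dd_l]
    norm_num
  · rw [kk_r, Real.sq_sqrt (by norm_num)]
    fin_cases i
    · show (2 : ℝ) = |2|
      norm_num
    · show (2 : ℝ) = |-2|
      norm_num

private theorem real_im (w : {w : InfinitePlace F // IsReal w}) (x : F) :
    (w.1.embedding x).im = 0 := by
  have h1 : ComplexEmbedding.IsReal w.1.embedding := isReal_iff.1 w.2
  have h2 := ComplexEmbedding.IsReal.coe_embedding_apply h1 x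
  rw [← h2, Complex.ofReal_im]

open scoped Classical in
private theorem co_prod {M : Type} [CommMonoid M] (f : index F → M) :
    ∏ j, f j = (∏ w : {w : InfinitePlace F // IsReal w}, f (Sum.inl w)) *
      ∏ w : {w : InfinitePlace F // IsComplex w}, (f (Sum.inr (w, 0)) * f (Sum.inr (w, 1))) := by
  rw [Fintype.prod_sum_type, Fintype.prod_prod_type]
  congr 1
  exact Finset.prod_congr rfl fun w _ => by rw [Fin.prod_univ_two]

open scoped Classical in
private theorem co_sum {M : Type} [AddCommMonoid M] (f : index F → M) :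
    ∑ j, f j = (∑ w : {w : InfinitePlace F // IsReal w}, f (Sum.inl w)) +
      ∑ w : {w : InfinitePlace F // IsComplex w}, (f (Sum.inr (w, 0)) + f (Sum.inr (w, 1))) := by
  rw [Fintype.sum_sum_type, Fintype.sum_prod_type]
  congr 1
  exact Finset.sum_congr rfl fun w _ => by rw [Fin.sum_univ_two]

open scoped Classical in
/-- the trace form in the real coordinates -/
private theorem co_trace (x y : F) :
    ((Algebra.trace ℚ F (x * y) : ℚ) : ℝ) = ∑ j, dd j * cH j x * cH j y := by
  have h1 : ((Algebra.trace ℚ F (x * y) : ℚ) : ℂ) = ∑ σ : F →+* ℂ, σ x * σ y := by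
    have h2 := trace_eq_sum_embeddings ℂ (K := ℚ) (L := F) (x := x * y)
    rw [← Fintype.sum_equiv (RingHom.equivRatAlgHom F ℂ) (fun f => f x * f y)
      (fun φ => φ (x * y)) fun _ => by
        rw [RingHom.equivRatAlgHom_apply, ← map_mul]
        rfl] at h2
    rw [← h2]
    rfl
  have h3 : ((Algebra.trace ℚ F (x * y) : ℚ) : ℝ) = (((Algebra.trace ℚ F (x * y) : ℚ) : ℂ)).re := by
    rw [Complex.ratCast_re]
  rw [h3, h1, ← Equiv.sum_comp (indexEquiv F), co_sum, co_sum, Complex.add_re, Complex.re_sum,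
    Complex.re_sum]
  congr 1
  · refine Finset.sum_congr rfl fun w _ => ?_
    rw [indexEquiv_apply_isReal, dd_l, cH_l, cH_l, Complex.mul_re, real_im, real_im]
    ring
  · refine Finset.sum_congr rfl fun w _ => ?_
    rw [indexEquiv_apply_isComplex_fst, indexEquiv_apply_isComplex_snd, dd_r0, dd_r1, cH_r0, cH_r0,
      cH_r1, cH_r1, ComplexEmbedding.conjugate_coe_eq, ComplexEmbedding.conjugate_coe_eq,
      Complex.add_re, Complex.mul_re, Complex.mul_re, Complex.conj_re, Complex.conj_re,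
      Complex.conj_im, Complex.conj_im]
    ring

private theorem norm_real (w : {w : InfinitePlace F // IsReal w}) (x : F) :
    ‖w.1.embedding x‖ ^ 2 = cH (Sum.inl w) x ^ 2 := by
  rw [Complex.sq_norm, Complex.normSq_apply, real_im, cH_l]
  ring

private theorem norm_cx (w : {w : InfinitePlace F // IsComplex w}) (x : F) :
    ‖w.1.embedding x‖ ^ 2 = cH (Sum.inr (w, 0)) x ^ 2 + cH (Sum.inr (w, 1)) x ^ 2 := by
  rw [Complex.sq_norm, Complex.normSq_apply, cH_r0, cH_r1]
  ring

private theorem norm_cj (φ : F →+* ℂ) (x : F) : ‖ComplexEmbedding.conjugate φ x‖ = ‖φ x‖ := by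
  rw [ComplexEmbedding.conjugate_coe_eq, RCLike.norm_conj]

/-- the elementary inequality at a complex place -/
private theorem co_ineq (a u v : ℝ) :
    ((Real.sqrt 2 * a) ^ 2 + 4 * Real.pi ^ 2 * (2 * u) ^ 2) *
      ((Real.sqrt 2 * a) ^ 2 + 4 * Real.pi ^ 2 * (-2 * v) ^ 2) ≤
    (2 * (a ^ 2 + 4 * Real.pi ^ 2 * (u ^ 2 + v ^ 2))) *
      (2 * (a ^ 2 + 4 * Real.pi ^ 2 * (u ^ 2 + v ^ 2))) := by
  have h2 : Real.sqrt 2 ^ 2 = 2 := Real.sq_sqrt (by norm_num)
  rw [mul_pow, h2]
  nlinarith [sq_nonneg (Real.pi ^ 2 * (u ^ 2 - v ^ 2))]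

end coord

theorem exists_coord (F : Type) [Field F] [NumberField F] :
    ∃ (ι : Type) (_ : Fintype ι) (_ : DecidableEq ι) (M : Matrix ι ι ℝ) (e : (ι → ℤ) ≃+ 𝓞 F)
      (κ : ι → ℝ), Fintype.card ι = finrank ℚ F ∧ (∀ j, 0 < κ j) ∧
      |M.det| = (∏ j, κ j) * Real.sqrt |((discr F : ℤ) : ℝ)| ∧
      (∀ (n : ι → ℤ) (a : ℝ), ∏ j, ((κ j * a) ^ 2 + 4 * Real.pi ^ 2 *
        M.mulVec (fun i => (n i : ℝ)) j ^ 2) ≤
          (∏ j, κ j ^ 2) * ∏ σ : F →+* ℂ, (a ^ 2 + 4 * Real.pi ^ 2 * ‖σ (e n : F)‖ ^ 2)) ∧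
      (∀ k : ι → ℤ, k ≠ 0 → ∃ j,
        1 / (κ j * |((discr F : ℤ) : ℝ)| ^ ((1 : ℝ) / (finrank ℚ F : ℝ))) ≤
          |(Mᵀ)⁻¹.mulVec (fun i => (k i : ℝ)) j|) := by
  classical
  -- bases
  have hcard : Fintype.card (Free.ChooseBasisIndex ℤ (𝓞 F)) =
      Fintype.card (mixedEmbedding.index F) := by
    rw [co_card, ← RingOfIntegers.rank, finrank_eq_card_chooseBasisIndex]
  let r : Free.ChooseBasisIndex ℤ (𝓞 F) ≃ mixedEmbedding.index F := Fintype.equivOfCardEq hcard
  let b : Basis (mixedEmbedding.index F) ℤ (𝓞 F) := (RingOfIntegers.basis F).reindex r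
  let bF : Basis (mixedEmbedding.index F) ℚ F := (integralBasis F).reindex r
  have hbF : ∀ i, bF i = ((b i : 𝓞 F) : F) := by
    intro i
    show (integralBasis F).reindex r i = (((RingOfIntegers.basis F).reindex r i : 𝓞 F) : F)
    rw [Basis.reindex_apply, Basis.reindex_apply, integralBasis_apply]
  let C : Matrix (mixedEmbedding.index F) (mixedEmbedding.index F) ℝ :=
    Matrix.of fun j i => cH j ((b i : 𝓞 F) : F)
  let M : Matrix (mixedEmbedding.index F) (mixedEmbedding.index F) ℝ := Matrix.diagonal dd * C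
  let e : (mixedEmbedding.index F → ℤ) ≃+ 𝓞 F := b.equivFun.symm.toAddEquiv
  have hM : ∀ j i, M j i = dd j * cH j ((b i : 𝓞 F) : F) := by
    intro j i
    exact Matrix.diagonal_mul dd C j i
  have hdd : ∀ j : mixedEmbedding.index F, dd j ≠ 0 := by
    intro j h
    have h1 := kk_sq j
    rw [h, abs_zero] at h1
    exact (pow_pos (kk_pos j) 2).ne' h1
  -- the discriminant
  have hdisc : (((discr F : ℤ) : ℝ)) = C.det ^ 2 * ∏ j : mixedEmbedding.index F, dd j := by
    have h1 : Algebra.discr ℤ b = discr F := discr_eq_discr F b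
    rw [← h1, Algebra.discr_def]
    have h2 : (((Algebra.traceMatrix ℤ b).det : ℤ) : ℝ) =
        ((Algebra.traceMatrix ℤ b).map (Int.castRingHom ℝ)).det := by
      rw [← RingHom.mapMatrix_apply, ← RingHom.map_det]
      rfl
    have h3 : (Algebra.traceMatrix ℤ b).map (Int.castRingHom ℝ) =
        Cᵀ * (Matrix.diagonal dd * C) := by
      ext i j
      rw [Matrix.map_apply, Algebra.traceMatrix_apply, Algebra.traceForm_apply, Matrix.mul_apply]
      have h4 : ((Algebra.trace ℤ (𝓞 F) (b i * b j) : ℤ) : ℝ) =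
          ((Algebra.trace ℚ F (((b i : 𝓞 F) : F) * ((b j : 𝓞 F) : F)) : ℚ) : ℝ) := by
        have h5 := Algebra.coe_trace_int (b i * b j)
        have h6 : ((b i * b j : 𝓞 F) : F) = ((b i : 𝓞 F) : F) * ((b j : 𝓞 F) : F) := rfl
        rw [h6] at h5
        rw [← h5, Rat.cast_intCast]
      show ((Algebra.trace ℤ (𝓞 F) (b i * b j) : ℤ) : ℝ) = _
      rw [h4, co_trace]
      refine Finset.sum_congr rfl fun l _ => ?_
      rw [Matrix.transpose_apply, Matrix.diagonal_mul]
      show _ = cH l ((b i : 𝓞 F) : F) * (dd l * cH l ((b j : 𝓞 F) : F))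
      ring
    rw [h2, h3, Matrix.det_mul, Matrix.det_mul, Matrix.det_transpose, Matrix.det_diagonal]
    ring
  have hdne : ((discr F : ℤ) : ℝ) ≠ 0 := by
    exact_mod_cast discr_ne_zero F
  have hMdet : M.det = (∏ j : mixedEmbedding.index F, dd j) * C.det := by
    show (Matrix.diagonal dd * C).det = _
    rw [Matrix.det_mul, Matrix.det_diagonal]
  have hMne : M.det ≠ 0 := by
    intro h
    rw [hMdet] at h
    rcases mul_eq_zero.1 h with h | h
    · exact (Finset.prod_ne_zero_iff.2 fun j _ => hdd j) h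
    · apply hdne
      rw [hdisc, h]
      ring
  have he : ∀ n : mixedEmbedding.index F → ℤ, ((e n : 𝓞 F) : F) =
      ∑ i, n i • ((b i : 𝓞 F) : F) := by
    intro n
    have h1 : e n = ∑ i, n i • b i := b.equivFun_symm_apply n
    rw [h1]
    change algebraMap (𝓞 F) F (∑ i, n i • b i) = _
    rw [map_sum]
    exact Finset.sum_congr rfl fun i _ => map_zsmul _ _ _
  have hMn : ∀ (n : mixedEmbedding.index F → ℤ) (j : mixedEmbedding.index F),
      M.mulVec (fun i => (n i : ℝ)) j = dd j * cH j ((e n : 𝓞 F) : F) := by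
    intro n j
    rw [he, map_sum, Finset.mul_sum]
    show ∑ i, M j i * (n i : ℝ) = _
    refine Finset.sum_congr rfl fun i _ => ?_
    rw [hM, map_zsmul, zsmul_eq_mul]
    ring
  refine ⟨mixedEmbedding.index F, inferInstance, inferInstance, M, e, kk, co_card F, kk_pos, ?_, ?_,
    ?_⟩
  · -- (1) the determinant
    have h1 : (∏ j : mixedEmbedding.index F, kk j) ^ 2 = |∏ j : mixedEmbedding.index F, dd j| := by
      rw [← Finset.prod_pow, Finset.abs_prod]
      exact Finset.prod_congr rfl fun j _ => kk_sq j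
    have h2 : 0 ≤ (∏ j : mixedEmbedding.index F, kk j) * Real.sqrt |((discr F : ℤ) : ℝ)| :=
      mul_nonneg (Finset.prod_nonneg fun j _ => (kk_pos j).le) (Real.sqrt_nonneg _)
    rw [← sq_eq_sq₀ (abs_nonneg _) h2, mul_pow, Real.sq_sqrt (abs_nonneg _), h1, hMdet, hdisc,
      abs_mul, abs_mul, abs_pow, mul_pow]
    ring
  · -- (2) the product
    intro n a
    have h1 : ∏ σ : F →+* ℂ, (a ^ 2 + 4 * Real.pi ^ 2 * ‖σ ((e n : 𝓞 F) : F)‖ ^ 2) =
        ∏ j, (a ^ 2 + 4 * Real.pi ^ 2 *
          ‖mixedEmbedding.indexEquiv F j ((e n : 𝓞 F) : F)‖ ^ 2) :=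
      (Equiv.prod_comp (mixedEmbedding.indexEquiv F)
        (fun σ : F →+* ℂ => a ^ 2 + 4 * Real.pi ^ 2 * ‖σ ((e n : 𝓞 F) : F)‖ ^ 2)).symm
    rw [h1, ← Finset.prod_mul_distrib, co_prod, co_prod]
    have hr : ∀ w : {w : InfinitePlace F // InfinitePlace.IsReal w},
        (kk (Sum.inl w) * a) ^ 2 + 4 * Real.pi ^ 2 *
          M.mulVec (fun i => (n i : ℝ)) (Sum.inl w) ^ 2 =
        kk (Sum.inl w) ^ 2 * (a ^ 2 + 4 * Real.pi ^ 2 *
          ‖mixedEmbedding.indexEquiv F (Sum.inl w) ((e n : 𝓞 F) : F)‖ ^ 2) := by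
      intro w
      rw [hMn, mixedEmbedding.indexEquiv_apply_isReal, norm_real, kk_l, dd_l]
      ring
    rw [Finset.prod_congr rfl fun w _ => hr w]
    apply mul_le_mul_of_nonneg_left
    · refine Finset.prod_le_prod (fun w _ => by positivity) fun w _ => ?_
      rw [hMn, hMn, mixedEmbedding.indexEquiv_apply_isComplex_fst,
        mixedEmbedding.indexEquiv_apply_isComplex_snd, norm_cj, norm_cx, kk_r, kk_r, dd_r0, dd_r1]
      have h2 := co_ineq a (cH (Sum.inr (w, 0)) ((e n : 𝓞 F) : F))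
        (cH (Sum.inr (w, 1)) ((e n : 𝓞 F) : F))
      have h3 : Real.sqrt 2 ^ 2 = 2 := Real.sq_sqrt (by norm_num)
      rw [h3]
      exact h2
    · exact Finset.prod_nonneg fun w _ => by positivity
  · -- (3) the dual lattice
    intro k hk
    -- the element `ξ`
    let TQ : Matrix (mixedEmbedding.index F) (mixedEmbedding.index F) ℚ :=
      Matrix.of fun i j => Algebra.trace ℚ F (bF i * bF j)
    have hTQdet : TQ.det = ((discr F : ℤ) : ℚ) := by
      have h1 : Algebra.discr ℤ b = discr F := discr_eq_discr F b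
      rw [← h1, Algebra.discr_def]
      have h2 : (((Algebra.traceMatrix ℤ b).det : ℤ) : ℚ) =
          ((Algebra.traceMatrix ℤ b).map (Int.castRingHom ℚ)).det := by
        rw [← RingHom.mapMatrix_apply, ← RingHom.map_det]
        rfl
      rw [h2]
      congr 1
      ext i j
      rw [Matrix.map_apply, Algebra.traceMatrix_apply, Algebra.traceForm_apply]
      show Algebra.trace ℚ F (bF i * bF j) = ((Algebra.trace ℤ (𝓞 F) (b i * b j) : ℤ) : ℚ)
      rw [hbF, hbF, Algebra.coe_trace_int]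
      rfl
    have hTQne : TQ.det ≠ 0 := by
      rw [hTQdet]
      exact_mod_cast discr_ne_zero F
    let a : mixedEmbedding.index F → ℚ := TQ⁻¹.mulVec (fun i => (k i : ℚ))
    have ha : TQ.mulVec a = fun i => (k i : ℚ) := by
      show TQ.mulVec (TQ⁻¹.mulVec _) = _
      rw [Matrix.mulVec_mulVec, Matrix.mul_nonsing_inv _ (isUnit_iff_ne_zero.2 hTQne),
        Matrix.one_mulVec]
    obtain ⟨ξ, hξ⟩ : ∃ ξ : F, ξ = ∑ i, a i • bF i := ⟨_, rfl⟩
    have hξk : ∀ i, Algebra.trace ℚ F (bF i * ξ) = (k i : ℚ) := by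
      intro i
      have h1 := congrFun ha i
      rw [← h1, hξ, Finset.mul_sum, map_sum]
      show _ = ∑ j, TQ i j * a j
      refine Finset.sum_congr rfl fun j _ => ?_
      rw [mul_smul_comm, map_smul, smul_eq_mul, mul_comm]
      rfl
    have hξ0 : ξ ≠ 0 := by
      intro h
      apply hk
      funext i
      have h1 := hξk i
      rw [h, mul_zero, map_zero] at h1
      exact_mod_cast h1.symm
    -- coordinates of `ξ`
    have hcξ : (Mᵀ)⁻¹.mulVec (fun i => (k i : ℝ)) = fun j => cH j ξ := by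
      have h1 : Mᵀ.mulVec (fun j => cH j ξ) = fun i => (k i : ℝ) := by
        funext i
        show ∑ j, M j i * cH j ξ = _
        have h2 := co_trace ((b i : 𝓞 F) : F) ξ
        rw [← hbF, hξk] at h2
        have h3 : ((k i : ℝ)) = (((k i : ℤ) : ℚ) : ℝ) := by push_cast; rfl
        rw [h3, h2, hbF]
        exact Finset.sum_congr rfl fun j _ => by rw [hM]
      have h4 : IsUnit (Mᵀ).det := by
        rw [Matrix.det_transpose]
        exact isUnit_iff_ne_zero.2 hMne
      rw [← h1, Matrix.mulVec_mulVec, Matrix.nonsing_inv_mul _ h4, Matrix.one_mulVec]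
    -- the norm of `ξ`
    have hN : 1 / |((discr F : ℤ) : ℝ)| ≤ ∏ σ : F →+* ℂ, ‖σ ξ‖ := by
      let SZ : Matrix (mixedEmbedding.index F) (mixedEmbedding.index F) ℤ :=
        Matrix.of fun i j => ∑ l, b.repr (b i * b j) l * k l
      let L : Matrix (mixedEmbedding.index F) (mixedEmbedding.index F) ℚ :=
        Algebra.leftMulMatrix bF ξ
      have hL : ∀ l j, L l j = bF.repr (ξ * bF j) l := fun l j =>
        Algebra.leftMulMatrix_eq_repr_mul bF ξ l j
      have h1 : SZ.map (Int.castRingHom ℚ) = TQ * L := by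
        ext i j
        rw [Matrix.map_apply, Matrix.mul_apply]
        have h2 : ∑ l, TQ i l * L l j = Algebra.trace ℚ F (bF i * (ξ * bF j)) := by
          have h3 : ξ * bF j = ∑ l, L l j • bF l := by
            have h4 := bF.sum_repr (ξ * bF j)
            rw [← h4]
            refine Finset.sum_congr rfl fun l _ => ?_
            rw [hL]
          rw [h3, Finset.mul_sum, map_sum]
          refine Finset.sum_congr rfl fun l _ => ?_
          rw [mul_smul_comm, map_smul, smul_eq_mul, mul_comm]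
          rfl
        rw [h2]
        have h5 : bF i * (ξ * bF j) = ∑ l, ((b.repr (b i * b j) l : ℤ) : ℚ) • (bF l * ξ) := by
          have h6 : bF i * bF j = ∑ l, ((b.repr (b i * b j) l : ℤ) : ℚ) • bF l := by
            have h7 := congrArg (fun z : 𝓞 F => (z : F)) (b.sum_repr (b i * b j))
            simp only [map_sum, map_mul, map_zsmul] at h7
            rw [hbF, hbF, ← h7]
            refine Finset.sum_congr rfl fun l _ => ?_
            rw [hbF, Int.cast_smul_eq_zsmul]
          have h8 : bF i * (ξ * bF j) = (bF i * bF j) * ξ := by ring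
          rw [h8, h6, Finset.sum_mul]
          exact Finset.sum_congr rfl fun l _ => smul_mul_assoc _ _ _
        rw [h5, map_sum]
        show ((∑ l, b.repr (b i * b j) l * k l : ℤ) : ℚ) = _
        rw [Int.cast_sum]
        refine Finset.sum_congr rfl fun l _ => ?_
        rw [map_smul, hξk, smul_eq_mul, Int.cast_mul]
      have h9 : ((SZ.det : ℤ) : ℚ) = ((discr F : ℤ) : ℚ) * Algebra.norm ℚ ξ := by
        have h10 : ((SZ.det : ℤ) : ℚ) = (SZ.map (Int.castRingHom ℚ)).det := by
          rw [← RingHom.mapMatrix_apply, ← RingHom.map_det]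
          rfl
        rw [h10, h1, Matrix.det_mul, hTQdet, Algebra.norm_eq_matrix_det bF]
      have h11 : SZ.det ≠ 0 := by
        intro h
        rw [h, Int.cast_zero] at h9
        rcases mul_eq_zero.1 h9.symm with h | h
        · exact discr_ne_zero F (by exact_mod_cast h)
        · exact hξ0 (Algebra.norm_eq_zero_iff.1 h)
      have h12 : (1 : ℝ) ≤ |((SZ.det : ℤ) : ℝ)| := by
        have : 1 ≤ |SZ.det| := Int.one_le_abs h11
        exact_mod_cast this
      have h13 : ((SZ.det : ℤ) : ℝ) = ((discr F : ℤ) : ℝ) * ((Algebra.norm ℚ ξ : ℚ) : ℝ) := by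
        have h20 := congrArg (fun q : ℚ => (q : ℝ)) h9
        simp only [Rat.cast_mul, Rat.cast_intCast] at h20
        exact h20
      have h14 : |((Algebra.norm ℚ ξ : ℚ) : ℝ)| = ∏ σ : F →+* ℂ, ‖σ ξ‖ := by
        have h15 := congrArg (fun z : ℂ => ‖z‖) (Algebra.norm_eq_prod_embeddings ℚ ℂ ξ)
        simp only [norm_prod] at h15
        rw [← Fintype.prod_equiv (RingHom.equivRatAlgHom F ℂ) (fun f => ‖f ξ‖)
          (fun φ => ‖φ ξ‖) fun _ => by simp [RingHom.equivRatAlgHom_apply]] at h15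
        rw [← h15]
        show _ = ‖((Algebra.norm ℚ ξ : ℚ) : ℂ)‖
        rw [Complex.norm_ratCast]
      rw [h13, abs_mul, h14] at h12
      rwa [div_le_iff₀' (abs_pos.2 hdne)]
    by_contra hcon
    push Not at hcon
    rw [hcξ] at hcon
    have hm : 0 < finrank ℚ F := finrank_pos
    have hdpos : 0 < |((discr F : ℤ) : ℝ)| := abs_pos.2 hdne
    obtain ⟨R, hR⟩ : ∃ R : ℝ, R = |((discr F : ℤ) : ℝ)| ^ ((1 : ℝ) / (finrank ℚ F : ℝ)) :=
      ⟨_, rfl⟩
    have hR0 : 0 < R := by
      rw [hR]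
      exact Real.rpow_pos_of_pos hdpos _
    have hRm : R ^ (finrank ℚ F) = |((discr F : ℤ) : ℝ)| := by
      rw [hR, ← Real.rpow_natCast, ← Real.rpow_mul hdpos.le, one_div,
        inv_mul_cancel₀ (by exact_mod_cast hm.ne'), Real.rpow_one]
    rw [← hR] at hcon
    have hsm : ∀ j, ‖mixedEmbedding.indexEquiv F j ξ‖ < 1 / R := by
      intro j
      rw [← pow_lt_pow_iff_left₀ (norm_nonneg _) (by positivity) two_ne_zero]
      have hkey : ∀ j, cH j ξ ^ 2 < (1 / (kk j * R)) ^ 2 := by
        intro j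
        rw [← sq_abs (cH j ξ)]
        exact pow_lt_pow_left₀ (hcon j) (abs_nonneg _) two_ne_zero
      rcases j with w | ⟨w, i⟩
      · rw [mixedEmbedding.indexEquiv_apply_isReal, norm_real]
        have h1 := hkey (Sum.inl w)
        rwa [kk_l, one_mul] at h1
      · have h3 : ‖mixedEmbedding.indexEquiv F (Sum.inr (w, i)) ξ‖ = ‖w.1.embedding ξ‖ := by
          fin_cases i
          · rfl
          · exact norm_cj _ _
        rw [h3, norm_cx]
        have h4 := hkey (Sum.inr (w, 0))
        have h5 := hkey (Sum.inr (w, 1))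
        rw [kk_r] at h4 h5
        have h6 : (1 / (Real.sqrt 2 * R)) ^ 2 = (1 / R) ^ 2 / 2 := by
          rw [div_pow, mul_pow, Real.sq_sqrt (by norm_num), div_pow, one_pow]
          field_simp
        rw [h6] at h4 h5
        linarith
    have hprod : ∏ σ : F →+* ℂ, ‖σ ξ‖ < 1 / |((discr F : ℤ) : ℝ)| := by
      rw [← Equiv.prod_comp (mixedEmbedding.indexEquiv F) (fun σ : F →+* ℂ => ‖σ ξ‖)]
      have hne : (Finset.univ : Finset (mixedEmbedding.index F)).Nonempty := by
        rw [← Finset.card_pos, Finset.card_univ, co_card]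
        exact hm
      calc ∏ j, ‖mixedEmbedding.indexEquiv F j ξ‖ < ∏ _j : mixedEmbedding.index F, (1 / R) :=
            Finset.prod_lt_prod_of_nonempty (fun j _ => norm_pos_iff.2
              ((map_ne_zero (mixedEmbedding.indexEquiv F j)).2 hξ0)) (fun j _ => hsm j) hne
        _ = 1 / |((discr F : ℤ) : ℝ)| := by
            rw [Finset.prod_const, Finset.card_univ, co_card, div_pow, one_pow, hRm]
    exact absurd hN (not_le.2 hprod)

end QTow
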