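import Pool.Agent.Lib.MP_44a56e_nt.Defs2

/-! # MP_44a56e_nt, module Hermite: Minkowski's bound for the minimum of a positive form.

PROOF of `hermite`. Write `G = Aᵀ A` with `A` a real invertible matrix, so
`x ⬝ G x = ‖A x‖^2` (euclidean norm) and `det G = (det A)^2`. Put
`r^2 = gam m * (det G)^(1/m)`. The set `S = {x : Fin m → ℝ | x ⬝ G x ≤ r^2}` is convex, symmetric
and compact, of volume `2^m`. Apply
`MeasureTheory.exists_ne_zero_mem_lattice_of_measure_mul_two_pow_le_measure` to the lattice `ℤ^m`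
(fundamental domain `ZSpan.fundamentalDomain (Pi.basisFun ℝ _)` of volume `1`). -/

open Matrix

namespace QTow

private theorem hm_sqrt {m : ℕ} (G : Matrix (Fin m) (Fin m) ℝ) (hG : G.PosDef) :
    ∃ A : Matrix (Fin m) (Fin m) ℝ, Aᵀ * A = G := by
  open scoped MatrixOrder in
  obtain ⟨X, hX, -, h⟩ := CFC.exists_sqrt_of_isSelfAdjoint_of_quasispectrumRestricts
    hG.isHermitian.isSelfAdjoint (QuasispectrumRestricts.nnreal_of_nonneg hG.posSemidef.nonneg)
  refine ⟨X, ?_⟩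
  have h1 : Xᵀ = X := by
    have h2 : star X = X := hX.star_eq
    rw [Matrix.star_eq_conjTranspose, Matrix.conjTranspose_eq_transpose_of_trivial] at h2
    exact h2
  rw [h1]
  simpa [sq] using h

private theorem hm_r {m : ℕ} (hm : 0 < m) (d : ℝ) (hd : 0 < d) :
    ∃ r : ℝ, 0 ≤ r ∧ r ^ 2 = gam m * (d ^ 2) ^ ((1 : ℝ) / m) ∧
      d⁻¹ * (r ^ m * ((2 * Real.Gamma (1 / 2 + 1)) ^ m / Real.Gamma ((m : ℝ) / 2 + 1))) = 2 ^ m := by
  have hm' : m ≠ 0 := hm.ne'
  have hΓ : 0 < Real.Gamma ((m : ℝ) / 2 + 1) := Real.Gamma_pos_of_pos (by positivity)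
  have hpi : 0 < Real.sqrt Real.pi := Real.sqrt_pos.2 Real.pi_pos
  have hΓ2 : Real.Gamma (1 / 2 + 1) = Real.sqrt Real.pi / 2 := by
    rw [Real.Gamma_add_one (by norm_num), Real.Gamma_one_half_eq]; ring
  refine ⟨2 / Real.sqrt Real.pi * Real.Gamma ((m : ℝ) / 2 + 1) ^ ((m : ℝ)⁻¹) * d ^ ((m : ℝ)⁻¹),
    by positivity, ?_, ?_⟩
  · rw [mul_pow, mul_pow, div_pow, Real.sq_sqrt Real.pi_pos.le, gam]
    have h1 : (Real.Gamma ((m : ℝ) / 2 + 1) ^ ((m : ℝ)⁻¹)) ^ 2 =
        Real.Gamma ((m : ℝ) / 2 + 1) ^ ((2 : ℝ) / m) := by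
      rw [← Real.rpow_natCast, ← Real.rpow_mul hΓ.le]
      congr 1; push_cast; ring
    have h2 : (d ^ ((m : ℝ)⁻¹)) ^ 2 = (d ^ 2) ^ ((1 : ℝ) / m) := by
      rw [← Real.rpow_natCast, ← Real.rpow_natCast d 2, ← Real.rpow_mul hd.le,
        ← Real.rpow_mul hd.le]
      congr 1; push_cast; ring
    rw [h1, h2]; norm_num
  · rw [mul_pow, mul_pow, Real.rpow_inv_natCast_pow hΓ.le hm', Real.rpow_inv_natCast_pow hd.le hm',
      hΓ2, div_pow, mul_pow, div_pow]
    field_simp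

theorem hermite {m : ℕ} (hm : 0 < m) (G : Matrix (Fin m) (Fin m) ℝ) (hG : G.PosDef) :
    ∃ n : Fin m → ℤ, n ≠ 0 ∧
      (fun i => (n i : ℝ)) ⬝ᵥ G.mulVec (fun i => (n i : ℝ)) ≤
        gam m * G.det ^ ((1 : ℝ) / m) := by
  obtain ⟨A, hA⟩ := hm_sqrt G hG
  have hdet : G.det = A.det ^ 2 := by rw [← hA, Matrix.det_mul, Matrix.det_transpose, sq]
  have hdA : A.det ≠ 0 := by
    intro h0
    have h1 := hG.det_pos
    rw [hdet, h0] at h1
    norm_num at h1
  obtain ⟨r, hr0, hr2, hrm⟩ := hm_r hm |A.det| (abs_pos.2 hdA)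
  rw [sq_abs, ← hdet] at hr2
  have : Nonempty (Fin m) := ⟨⟨0, hm⟩⟩
  have hf : LinearMap.det (Matrix.toLin' A) ≠ 0 := by rwa [LinearMap.det_toLin']
  let Φ : (Fin m → ℝ) ≃L[ℝ] EuclideanSpace ℝ (Fin m) :=
    ((Matrix.toLin' A).equivOfDetNeZero hf).toContinuousLinearEquiv.trans
      (EuclideanSpace.equiv (Fin m) ℝ).symm
  have hΦ : ∀ x i, Φ x i = (A.mulVec x) i := fun x i => rfl
  have hnorm : ∀ x, ‖Φ x‖ ^ 2 = x ⬝ᵥ G.mulVec x := by
    intro x
    rw [EuclideanSpace.norm_sq_eq, ← hA, ← Matrix.mulVec_mulVec, Matrix.dotProduct_mulVec,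
      Matrix.vecMul_transpose]
    simp only [dotProduct, hΦ, Real.norm_eq_abs, sq_abs]
    exact Finset.sum_congr rfl fun i _ => sq _
  have hvol : MeasureTheory.volume (Φ ⁻¹' Metric.closedBall 0 r) = 2 ^ m := by
    have hset : Φ ⁻¹' Metric.closedBall 0 r = (Matrix.toLin' A) ⁻¹'
        {y : Fin m → ℝ | (∑ i, |y i| ^ (2 : ℝ)) ^ ((1 : ℝ) / 2) ≤ r} := by
      ext x
      simp only [Set.mem_preimage, mem_closedBall_zero_iff, Set.mem_ofPred_eq]
      rw [EuclideanSpace.norm_eq, Real.sqrt_eq_rpow]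
      have h3 : (∑ i, ‖Φ x i‖ ^ 2) = ∑ i, |(Matrix.toLin' A) x i| ^ (2 : ℝ) := by
        refine Finset.sum_congr rfl fun i _ => ?_
        rw [hΦ, Real.norm_eq_abs, Matrix.toLin'_apply, ← Real.rpow_natCast]
        norm_num
      rw [h3]
    have hv := MeasureTheory.volume_sum_rpow_le (ι := Fin m) (p := 2) (by norm_num) r
    rw [hset, MeasureTheory.Measure.addHaar_preimage_linearMap _ hf, hv,
      LinearMap.det_toLin', Fintype.card_fin,
      ← ENNReal.ofReal_pow hr0, ← ENNReal.ofReal_mul (by positivity),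
      ← ENNReal.ofReal_mul (by positivity), abs_inv, hrm]
    rw [ENNReal.ofReal_pow (by norm_num)]
    norm_num
  have hfund := ZSpan.isAddFundamentalDomain' (Pi.basisFun ℝ (Fin m)) MeasureTheory.volume
  have i1 : DiscreteTopology (Submodule.span ℤ (Set.range (Pi.basisFun ℝ (Fin m)))).toAddSubgroup :=
    inferInstanceAs (DiscreteTopology (Submodule.span ℤ (Set.range (Pi.basisFun ℝ (Fin m)))))
  have i2 : Countable (Submodule.span ℤ (Set.range (Pi.basisFun ℝ (Fin m)))).toAddSubgroup :=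
    inferInstanceAs (Countable (Submodule.span ℤ (Set.range (Pi.basisFun ℝ (Fin m)))))
  obtain ⟨x, hx0, hxS⟩ :=
    MeasureTheory.exists_ne_zero_mem_lattice_of_measure_mul_two_pow_le_measure
      (s := Φ ⁻¹' Metric.closedBall 0 r) hfund
      (by
        intro x hx
        simp only [Set.mem_preimage, mem_closedBall_zero_iff, map_neg, norm_neg] at hx ⊢
        exact hx)
      ((convex_closedBall (0 : EuclideanSpace ℝ (Fin m)) r).linear_preimage Φ.toLinearMap)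
      (Φ.toHomeomorph.isCompact_preimage.2 (isCompact_closedBall _ _))
      (by
        have h1 : (Matrix.of (Pi.basisFun ℝ (Fin m)) : Matrix (Fin m) (Fin m) ℝ) = 1 := by
          ext i j
          simp [Matrix.one_apply, Pi.single_apply, eq_comm]
        rw [hvol, ZSpan.volume_fundamentalDomain, h1]
        simp)
  have hmem : ∃ n : Fin m → ℤ, (fun i => (n i : ℝ)) = (x : Fin m → ℝ) := by
    have h1 := ((Pi.basisFun ℝ (Fin m)).mem_span_iff_repr_mem ℤ (x : Fin m → ℝ)).1 x.2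
    choose n hn using h1
    exact ⟨n, funext fun i => by simpa using hn i⟩
  obtain ⟨n, hn⟩ := hmem
  refine ⟨n, ?_, ?_⟩
  · intro h0
    apply hx0
    apply Subtype.ext
    rw [← hn, h0]
    ext i
    simp
  · rw [hn, ← hnorm, ← hr2]
    have h1 : ‖Φ (x : Fin m → ℝ)‖ ≤ r := by
      simpa only [Set.mem_preimage, mem_closedBall_zero_iff] using hxS
    exact pow_le_pow_left₀ (norm_nonneg _) h1 2

end QTow
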