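import Pool.Agent.Lib.MP_44a56e_nt.Defs2
import Pool.Agent.Lib.MP_44a56e_nt.Hermite
import Pool.Agent.Lib.MP_44a56e_nt.SFBasic

/-! # MP_44a56e_nt, module CubicA: small generators of cubic fields.

PROOF of `cubic_gram`. `1` is part of a `ℤ`-basis `(1, b₀, b₁)` of `𝓞 F` (the quotient `𝓞 F / ℤ` is
torsion free; or Smith normal form). `β i = 3 b i - Tr (b i)`, of trace `0`. `G i j = ∑ σ,
conj (σ (β i)) σ (β j)` is real (the terms of `σ` and `conj ∘ σ` are conjugate). The `3 × 3` matrix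
`(σ 1, σ β₀, σ β₁)_σ =: N` satisfies: `Nᴴ N` is block diagonal with blocks `(3)` and `G` (traces zero), so
`3 det G = |det N|² = |discr (1, β₀, β₁)| = 81 |discr F|` (matrix of the family in the basis
`(1, b₀, b₁)` has determinant `9`; `Algebra.discr_eq_det_embeddingsMatrixReindex_pow_two`). So `det G = 27 |discr F| > 0`
and `G` is positive definite (`x ⬝ G x = ∑ ‖σ(∑ x_i β_i)‖² ` and `det ≠ 0`).
PROOF of `cubic_poly`. `hermite` with `m = 2`: `n ≠ 0` with `Q := n ⬝ G n ≤ gam 2 * (27 D)^(1/2)`,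
`gam 2 = 4/π`. `β = n₀ β₀ + n₁ β₁`: integral, trace `0`, `β ∉ ℚ` (a rational number of trace `0` is `0`,
and `β₀, β₁` are linearly independent), so `F = ℚ(β)` (the degree `3` is prime). Its
characteristic (= minimal) polynomial is `X³ + p X + q` with integers `p = ∑ of products of two
conjugates = -(1/2) ∑ (σβ)²`, `q = - ∏ σβ`: `|p| ≤ Q/2`, `|q| ≤ Q^(3/2)`. -/

open NumberField Module

namespace QTow

private theorem exists_basis (F : Type) [Field F] [NumberField F] (h3 : finrank ℚ F = 3) :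
    ∃ b : Basis (Fin 3) ℤ (𝓞 F), b 0 = 1 := by
  let v : Fin 1 → 𝓞 F := fun _ => 1
  have hv : LinearIndependent ℤ v := LinearIndependent.of_subsingleton (i := 0) one_ne_zero
  let W : Submodule ℤ (𝓞 F) := Submodule.span ℤ (Set.range v)
  let bW : Basis (Fin 1) ℤ W := Basis.span hv
  have hWr : Set.range v = {1} := by simp [v]
  have hW : ∀ x : 𝓞 F, x ∈ W ↔ ∃ a : ℤ, (a : 𝓞 F) = x := by
    intro x
    simp only [W, hWr, Submodule.mem_span_singleton, zsmul_eq_mul, mul_one]
  have htf : Module.IsTorsionFree ℤ (𝓞 F ⧸ W) := by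
    refine Module.IsTorsionFree.of_smul_eq_zero fun r m h => ?_
    obtain ⟨x, rfl⟩ := Submodule.Quotient.mk_surjective W m
    rw [← Submodule.Quotient.mk_smul, Submodule.Quotient.mk_eq_zero, hW] at h
    obtain ⟨a, ha⟩ := h
    by_cases hr : r = 0
    · exact Or.inl hr
    right
    rw [Submodule.Quotient.mk_eq_zero, hW]
    have h1 : (a : F) = (r : F) * (x : F) := by
      have := congrArg (algebraMap (𝓞 F) F) ha
      simpa using this
    have hrF : (r : F) ≠ 0 := by exact_mod_cast hr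
    have h2 : (x : F) = algebraMap ℚ F ((a : ℚ) / (r : ℚ)) := by
      rw [map_div₀]
      simp only [map_intCast]
      field_simp
      linear_combination -h1
    have h3 : IsIntegral ℤ ((a : ℚ) / (r : ℚ)) := by
      rw [← isIntegral_algebraMap_iff (algebraMap ℚ F).injective, ← h2]
      exact x.2
    obtain ⟨c, hc⟩ := IsIntegrallyClosed.isIntegral_iff.1 h3
    refine ⟨c, ?_⟩
    apply RingOfIntegers.coe_injective
    refine Eq.trans ?_ h2.symm
    rw [← hc]
    simp
  have hfree : Module.Free ℤ (𝓞 F ⧸ W) := inferInstance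
  let bQ := Module.finBasis ℤ (𝓞 F ⧸ W)
  let b := Module.Basis.sumQuot bW bQ
  have hcard : Fintype.card (Fin 1 ⊕ Fin (finrank ℤ (𝓞 F ⧸ W))) = 3 := by
    rw [← Module.finrank_eq_card_basis b, RingOfIntegers.rank, h3]
  have hn : finrank ℤ (𝓞 F ⧸ W) = 2 := by
    simp only [Fintype.card_sum, Fintype.card_fin] at hcard
    omega
  let e : Fin 1 ⊕ Fin (finrank ℤ (𝓞 F ⧸ W)) ≃ Fin 3 :=
    finSumFinEquiv.trans (finCongr (by rw [hn]))
  refine ⟨b.reindex e, ?_⟩
  rw [Basis.reindex_apply]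
  have : e.symm 0 = Sum.inl 0 := by
    rw [Equiv.symm_apply_eq]
    rfl
  rw [this]
  simp only [b, Module.Basis.sumQuot_inl]
  exact congrArg Subtype.val (Basis.span_apply hv 0)

theorem cubic_gram (F : Type) [Field F] [NumberField F] (h3 : finrank ℚ F = 3) :
    ∃ (β : Fin 2 → 𝓞 F) (G : Matrix (Fin 2) (Fin 2) ℝ), G.PosDef ∧
      G.det = 27 * |((discr F : ℤ) : ℝ)| ∧ (∀ i, Algebra.trace ℚ F (β i : F) = 0) ∧
      ∀ n : Fin 2 → ℤ, n ≠ 0 → (∑ k, (n k : F) * (β k : F)) ≠ 0 ∧
        ∑ σ : F →+* ℂ, ‖σ (∑ k, (n k : F) * (β k : F))‖ ^ 2 =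
          (fun i => (n i : ℝ)) ⬝ᵥ G.mulVec (fun i => (n i : ℝ)) := by
  obtain ⟨b, hb⟩ := exists_basis F h3
  let t : Fin 3 → ℤ := fun i => Algebra.trace ℤ (𝓞 F) (b i)
  have ht : ∀ i, Algebra.trace ℚ F (b i : F) = (t i : ℚ) := by
    intro i
    exact Algebra.trace_localization ℤ (nonZeroDivisors ℤ) (b i)
  let β : Fin 2 → 𝓞 F := fun i => 3 * b i.succ - (t i.succ : 𝓞 F)
  have hβF : ∀ i, ((β i : 𝓞 F) : F) = 3 * (b i.succ : F) - (t i.succ : F) := by
    intro i
    change algebraMap (𝓞 F) F (3 * b i.succ - (t i.succ : 𝓞 F)) = _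
    rw [map_sub, map_mul, map_intCast, map_ofNat]
  have hβ : ∀ i, Algebra.trace ℚ F (β i : F) = 0 := by
    intro i
    have h1 : ((β i : 𝓞 F) : F) = (3 : ℚ) • (b i.succ : F) - algebraMap ℚ F (t i.succ : ℚ) := by
      rw [hβF, Algebra.smul_def]
      simp
    rw [h1, map_sub, map_smul, ht, Algebra.trace_algebraMap, h3]
    simp
  have he : Nonempty (Fin 3 ≃ (F →+* ℂ)) := by
    refine ⟨Fintype.equivOfCardEq ?_⟩
    rw [NumberField.Embeddings.card, h3, Fintype.card_fin]
  obtain ⟨e⟩ := he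
  -- the family
  let c : Fin 3 → F := ![1, (β 0 : F), (β 1 : F)]
  let N : Matrix (Fin 3) (Fin 3) ℂ := Matrix.of fun k i => e k (c i)
  have hdisc : Algebra.discr ℚ c = 81 * ((discr F : ℤ) : ℚ) := by
    have h1 : Algebra.discr ℚ (fun i => (b i : F)) = ((discr F : ℤ) : ℚ) := by
      have h2 := Algebra.discr_localizationLocalization ℤ (nonZeroDivisors ℤ) F b (Rₘ := ℚ)
      rw [discr_eq_discr] at h2
      refine Eq.trans ?_ h2
      congr 1
      funext i
      rw [Basis.localizationLocalization_apply]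
    let P : Matrix (Fin 3) (Fin 3) ℚ := !![1, -(t 1 : ℚ), -(t 2 : ℚ); 0, 3, 0; 0, 0, 3]
    have h3' : c = Matrix.vecMul (fun i => (b i : F)) (P.map (algebraMap ℚ F)) := by
      have hb' : (algebraMap (𝓞 F) F) (b 0) = 1 := by rw [hb, map_one]
      funext j
      fin_cases j
      · simp [c, P, Matrix.vecMul, dotProduct, Fin.sum_univ_three, hb']
      · simp [c, P, Matrix.vecMul, dotProduct, Fin.sum_univ_three, hb', hβF]
        ring
      · simp [c, P, Matrix.vecMul, dotProduct, Fin.sum_univ_three, hb', hβF]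
        ring
    rw [h3', Algebra.discr_of_matrix_vecMul, h1]
    have hP : P.det = 9 := by
      simp [P, Matrix.det_fin_three]
      norm_num
    rw [hP]
    norm_num
  have hdet : N.det ^ 2 = 81 * ((discr F : ℤ) : ℂ) := by
    have h1 := Algebra.discr_eq_det_embeddingsMatrixReindex_pow_two ℚ ℂ c
      (e.trans (RingHom.equivRatAlgHom F ℂ))
    rw [hdisc] at h1
    have h2 : Algebra.embeddingsMatrixReindex ℚ ℂ c (e.trans (RingHom.equivRatAlgHom F ℂ)) =
        N.transpose := by
      ext i j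
      simp [Algebra.embeddingsMatrixReindex, Algebra.embeddingsMatrix, N]
    rw [h2, Matrix.det_transpose] at h1
    rw [← h1]
    simp
  have hD : discr F ≠ 0 := discr_ne_zero F
  have hdet0 : N.det ≠ 0 := by
    intro h0
    rw [h0] at hdet
    apply hD
    have : (81 : ℂ) * ((discr F : ℤ) : ℂ) = 0 := by rw [← hdet]; ring
    have h4 := (mul_eq_zero.1 this).resolve_left (by norm_num)
    exact_mod_cast h4
  -- the complex Gram matrix
  let H : F → F → ℂ := fun x y => ∑ σ : F →+* ℂ, (starRingEnd ℂ) (σ x) * σ y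
  have hHre : ∀ x y, H x y = ((H x y).re : ℂ) := by
    intro x y
    rw [eq_comm, ← Complex.conj_eq_iff_re]
    simp only [H, map_sum, map_mul, Complex.conj_conj]
    let φ : (F →+* ℂ) ≃ (F →+* ℂ) :=
      Function.Involutive.toPerm (fun σ => ComplexEmbedding.conjugate σ)
        (ComplexEmbedding.involutive_conjugate F)
    rw [← Equiv.sum_comp φ]
    refine Finset.sum_congr rfl fun σ _ => ?_
    have hφ : ∀ z, (φ σ) z = (starRingEnd ℂ) (σ z) := fun z => rfl
    simp only [hφ, Complex.conj_conj]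
  have hHsymm : ∀ x y, (H y x).re = (H x y).re := by
    intro x y
    have : H y x = (starRingEnd ℂ) (H x y) := by
      simp only [H, map_sum, map_mul, Complex.conj_conj]
      refine Finset.sum_congr rfl fun σ _ => mul_comm _ _
    rw [this, Complex.conj_re]
  have hNH : ∀ i j, (N.conjTranspose * N) i j = H (c i) (c j) := by
    intro i j
    simp only [Matrix.mul_apply, Matrix.conjTranspose_apply, N, Matrix.of_apply, H]
    rw [← Equiv.sum_comp e]
    rfl
  have htr : ∀ i, H 1 (β i : F) = 0 := by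
    intro i
    simp only [H, map_one, one_mul]
    have h1 := trace_eq_sum_embeddings (K := ℚ) (L := F) ℂ (x := (β i : F))
    rw [hβ, map_zero] at h1
    rw [← Equiv.sum_comp (RingHom.equivRatAlgHom F ℂ)] at h1
    rw [h1]
    rfl
  have htr' : ∀ i, H (β i : F) 1 = 0 := by
    intro i
    rw [hHre, ← hHsymm, htr]
    simp
  have hH1 : H 1 1 = 3 := by
    simp only [H, map_one, one_mul, Finset.sum_const, Finset.card_univ]
    rw [NumberField.Embeddings.card, h3]
    simp
  let G : Matrix (Fin 2) (Fin 2) ℝ := Matrix.of fun i j => (H (β i : F) (β j : F)).re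
  have hGH : ∀ i j, H (β i : F) (β j : F) = ((G i j : ℝ) : ℂ) := fun i j => hHre _ _
  have hdetG : (3 : ℂ) * ((G.det : ℝ) : ℂ) = (N.conjTranspose * N).det := by
    rw [Matrix.det_fin_three, Matrix.det_fin_two]
    simp only [hNH]
    simp only [c, Matrix.cons_val_zero, Matrix.cons_val_one, Matrix.cons_val]
    rw [hH1, htr, htr, htr', htr', hGH, hGH, hGH, hGH]
    push_cast
    ring
  have hdet3 : 3 * G.det = 81 * |((discr F : ℤ) : ℝ)| := by
    have h1 : ((3 * G.det : ℝ) : ℂ) = ((‖N.det ^ 2‖ : ℝ) : ℂ) := by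
      push_cast
      rw [hdetG, Matrix.det_mul, Matrix.det_conjTranspose, norm_pow]
      rw [show star N.det = (starRingEnd ℂ) N.det from rfl, mul_comm, Complex.mul_conj,
        Complex.normSq_eq_norm_sq]
    have h2 : 3 * G.det = ‖N.det ^ 2‖ := by exact_mod_cast h1
    rw [h2, hdet, norm_mul]
    simp
  have hquad : ∀ x : Fin 2 → ℝ, ∑ σ : F →+* ℂ, ‖∑ k, (x k : ℂ) * σ (β k : F)‖ ^ 2 =
      x ⬝ᵥ G.mulVec x := by
    intro x
    have hG : ∀ i j, G i j = ∑ σ : F →+* ℂ, ((starRingEnd ℂ) (σ (β i : F)) * σ (β j : F)).re := by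
      intro i j
      simp only [G, Matrix.of_apply, H, Complex.re_sum]
    simp only [dotProduct, Matrix.mulVec, Fin.sum_univ_two, hG, Finset.sum_mul, Finset.mul_sum,
      ← Finset.sum_add_distrib]
    refine Finset.sum_congr rfl fun σ _ => ?_
    rw [Complex.sq_norm, Complex.normSq_apply]
    simp only [Complex.add_re, Complex.add_im, Complex.mul_re, Complex.mul_im, Complex.ofReal_re,
      Complex.ofReal_im, Complex.conj_re, Complex.conj_im]
    ring
  have hpos : G.PosDef := by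
    refine Matrix.PosDef.of_dotProduct_mulVec_pos ?_ ?_
    · ext i j
      simp only [Matrix.conjTranspose_apply, star_trivial, G, Matrix.of_apply]
      exact hHsymm _ _
    · intro x hx
      rw [star_trivial, ← hquad]
      refine lt_of_le_of_ne (Finset.sum_nonneg fun _ _ => by positivity) ?_
      intro h0
      rw [eq_comm, Finset.sum_eq_zero_iff_of_nonneg (fun _ _ => by positivity)] at h0
      have h1 : N.mulVec ![0, (x 0 : ℂ), (x 1 : ℂ)] = 0 := by
        funext k
        have h2 := h0 (e k) (Finset.mem_univ _)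
        rw [sq_eq_zero_iff, norm_eq_zero, Fin.sum_univ_two] at h2
        simp only [Matrix.mulVec, dotProduct, Fin.sum_univ_three, N, Matrix.of_apply, c,
          Matrix.cons_val_zero, Matrix.cons_val_one, Matrix.cons_val, Pi.zero_apply]
        linear_combination h2
      have h3 := Matrix.eq_zero_of_mulVec_eq_zero hdet0 h1
      apply hx
      funext i
      fin_cases i
      · have := congrFun h3 1
        simpa using this
      · have := congrFun h3 2
        simpa using this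
  refine ⟨β, G, hpos, by linarith, hβ, fun n hn => ?_⟩
  have hsum : ∑ σ : F →+* ℂ, ‖σ (∑ k, (n k : F) * (β k : F))‖ ^ 2 =
          (fun i => (n i : ℝ)) ⬝ᵥ G.mulVec (fun i => (n i : ℝ)) := by
    rw [← hquad]
    refine Finset.sum_congr rfl fun σ _ => ?_
    congr 2
    rw [map_sum]
    refine Finset.sum_congr rfl fun k _ => ?_
    rw [map_mul, map_intCast]
    push_cast
    rfl
  refine ⟨fun h0 => ?_, hsum⟩
  have hn' : (fun i => (n i : ℝ)) ≠ 0 := by
    intro h
    apply hn
    funext i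
    have := congrFun h i
    simpa using this
  have h1 := hpos.dotProduct_mulVec_pos hn'
  rw [h0] at hsum
  simp only [map_zero, norm_zero] at hsum
  simp only [star_trivial] at h1
  rw [← hsum] at h1
  simp at h1

open Polynomial in
private theorem exists_cubic (F : Type) [Field F] [NumberField F] (h3 : finrank ℚ F = 3)
    (α : 𝓞 F) (hα : (α : F) ≠ 0) (htr : Algebra.trace ℚ F (α : F) = 0) (B : ℝ) (hB : 0 ≤ B)
    (hσ : ∀ σ : F →+* ℂ, ‖σ (α : F)‖ ≤ B) :
    (minpoly ℚ (α : F)).natDegree = 3 ∧ ∃ p q : ℤ, (α : F) ^ 3 + p * (α : F) + q = 0 ∧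
      |(p : ℝ)| ≤ 3 * B ^ 2 ∧ |(q : ℝ)| ≤ B ^ 3 := by
  have hint : IsIntegral ℚ (α : F) := Algebra.IsIntegral.isIntegral _
  have hnd : (minpoly ℚ (α : F)).natDegree = 3 := by
    have h1 : (minpoly ℚ (α : F)).natDegree ∣ 3 := by
      rw [← h3, ← IntermediateField.adjoin.finrank hint]
      exact Dvd.intro _ (Module.finrank_mul_finrank ℚ _ F)
    rcases (Nat.dvd_prime Nat.prime_three).1 h1 with h2 | h2
    · exfalso
      rw [minpoly.natDegree_eq_one_iff] at h2
      obtain ⟨r, hr⟩ := h2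
      rw [← hr, Algebra.trace_algebraMap, h3] at htr
      have hr0 : r = 0 := by simpa using htr
      apply hα
      rw [← hr, hr0, map_zero]
    · exact h2
  have hZ : minpoly ℚ (α : F) = (minpoly ℤ (α : F)).map (algebraMap ℤ ℚ) :=
    minpoly.isIntegrallyClosed_eq_field_fractions' ℚ α.2
  have hmon : (minpoly ℚ (α : F)).Monic := minpoly.monic hint
  have hcoef : ∀ i, (minpoly ℚ (α : F)).coeff i = (((minpoly ℤ (α : F)).coeff i : ℤ) : ℚ) := by
    intro i
    rw [hZ, coeff_map]
    rfl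
  have h2 : (minpoly ℚ (α : F)).coeff 2 = 0 := by
    have h4 := trace_eq_finrank_mul_minpoly_nextCoeff ℚ (α : F)
    rw [htr, nextCoeff_of_natDegree_pos (by rw [hnd]; norm_num), hnd] at h4
    have h5 : (finrank (IntermediateField.adjoin ℚ {(α : F)}) F : ℚ) ≠ 0 := by
      exact_mod_cast (finrank_pos).ne'
    rw [eq_comm, mul_eq_zero] at h4
    have h6 := h4.resolve_left h5
    simpa using h6
  have hroots : ∀ z ∈ (Polynomial.map (algebraMap ℚ ℂ) (minpoly ℚ (α : F))).roots, ‖z‖ ≤ B := by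
    intro z hz
    have hz' : z ∈ (minpoly ℚ (α : F)).rootSet ℂ := by
      rw [mem_rootSet']
      rw [mem_roots'] at hz
      refine ⟨hz.1, ?_⟩
      have := hz.2
      rwa [IsRoot.def, eval_map_algebraMap] at this
    rw [← NumberField.Embeddings.range_eval_eq_rootSet_minpoly F ℂ] at hz'
    obtain ⟨σ, rfl⟩ := hz'
    exact hσ σ
  have hbd : ∀ i, ‖(Polynomial.map (algebraMap ℚ ℂ) (minpoly ℚ (α : F))).coeff i‖ ≤
      B ^ (3 - i) * (Nat.choose 3 i) := by
    intro i
    have := coeff_le_of_roots_le (f := algebraMap ℚ ℂ) i hmon (IsAlgClosed.splits _) hroots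
    rwa [hnd] at this
  have hbd' : ∀ i, |((((minpoly ℤ (α : F)).coeff i : ℤ)) : ℝ)| ≤ B ^ (3 - i) * (Nat.choose 3 i) := by
    intro i
    have := hbd i
    rw [coeff_map, hcoef] at this
    simpa using this
  refine ⟨hnd, (minpoly ℤ (α : F)).coeff 1, (minpoly ℤ (α : F)).coeff 0, ?_, ?_, ?_⟩
  · have h4 := minpoly.aeval ℚ (α : F)
    rw [aeval_eq_sum_range, hnd] at h4
    have h5 : (minpoly ℚ (α : F)).coeff 3 = 1 := by
      have := hmon.coeff_natDegree
      rwa [hnd] at this
    simp only [Finset.sum_range_succ, Finset.sum_range_zero, h2, h5, hcoef 0, hcoef 1] at h4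
    simp only [Algebra.smul_def, map_intCast, map_zero, map_one, pow_zero, pow_one] at h4
    linear_combination h4
  · have := hbd' 1
    simp only [Nat.choose_one_right] at this
    norm_num at this
    linarith
  · have := hbd' 0
    simp only [Nat.choose_zero_right] at this
    norm_num at this
    linarith

theorem cubic_poly : ∃ C : ℝ, 0 < C ∧ ∀ (F : SF) [NumberField F], deg F = 3 →
    ∃ (β : ℂ) (p q : ℤ), β ^ 3 + p * β + q = 0 ∧ F = IntermediateField.adjoin ℚ {β} ∧
      |(p : ℝ)| ≤ C * dabs F ^ ((1 : ℝ) / 2) ∧ |(q : ℝ)| ≤ C * dabs F ^ ((3 : ℝ) / 4) := by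
  have hgam : 0 ≤ gam 2 := by
    unfold gam
    exact mul_nonneg (by positivity) (Real.rpow_nonneg (Real.Gamma_nonneg_of_nonneg (by positivity)) _)
  set c : ℝ := gam 2 * 27 ^ ((1 : ℝ) / 2) with hc
  have hc0 : 0 ≤ c := mul_nonneg hgam (by positivity)
  refine ⟨3 * c + c ^ ((3 : ℝ) / 2) + 1, by positivity, fun F _ hF => ?_⟩
  have h3 : finrank ℚ F = 3 := hF
  obtain ⟨β, G, hG, hdet, htr, hn⟩ := cubic_gram F h3
  obtain ⟨n, hn0, hle⟩ := hermite (m := 2) (by norm_num) G hG
  obtain ⟨hne, hsum⟩ := hn n hn0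
  rw [hdet, ← dabs_eq F] at hle
  have hD : 1 ≤ dabs F := one_le_dabs F
  have hD0 : 0 ≤ dabs F := by linarith
  rw [← hsum, Real.mul_rpow (by norm_num) hD0, ← mul_assoc] at hle
  have hcast : ((1 : ℝ) / ((2 : ℕ) : ℝ)) = 1 / 2 := by norm_num
  rw [hcast, ← hc] at hle
  let α : 𝓞 F := ∑ k, (n k : 𝓞 F) * β k
  have hα : (α : F) = ∑ k, (n k : F) * (β k : F) := by
    change algebraMap (𝓞 F) F (∑ k, (n k : 𝓞 F) * β k) = _
    rw [map_sum]
    refine Finset.sum_congr rfl fun k _ => ?_
    rw [map_mul, map_intCast]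
  rw [← hα] at hne hle
  have htrα : Algebra.trace ℚ F (α : F) = 0 := by
    rw [hα, map_sum]
    refine Finset.sum_eq_zero fun k _ => ?_
    have : (n k : F) * (β k : F) = (n k : ℚ) • (β k : F) := by
      rw [Algebra.smul_def]; simp
    rw [this, map_smul, htr, smul_zero]
  set y : ℝ := c * dabs F ^ ((1 : ℝ) / 2) with hy
  have hy0 : 0 ≤ y := by positivity
  have hσ : ∀ σ : F →+* ℂ, ‖σ (α : F)‖ ≤ y ^ ((1 : ℝ) / 2) := by
    intro σ
    have h1 : ‖σ (α : F)‖ ^ 2 ≤ y := le_trans
      (Finset.single_le_sum (f := fun σ : F →+* ℂ => ‖σ (α : F)‖ ^ 2)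
        (fun _ _ => by positivity) (Finset.mem_univ σ)) hle
    rw [← Real.sqrt_eq_rpow]
    exact Real.le_sqrt_of_sq_le h1
  obtain ⟨hdeg, p, q, hpq, hp, hq⟩ := exists_cubic F h3 α hne htrα (y ^ ((1 : ℝ) / 2))
    (by positivity) hσ
  refine ⟨((α : F) : ℂ), p, q, ?_, ?_, ?_, ?_⟩
  · have := congrArg (fun x : F => (x : ℂ)) hpq
    simpa using this
  · symm
    apply IntermediateField.eq_of_le_of_finrank_eq
    · rw [IntermediateField.adjoin_le_iff, Set.singleton_subset_iff]
      exact (α : F).2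
    · have h4 : minpoly ℚ ((α : F) : ℂ) = minpoly ℚ (α : F) :=
        minpoly.algebraMap_eq (A := ℚ) (B := F) (B' := ℂ) (algebraMap F ℂ).injective (α : F)
      have h5 : IsIntegral ℚ ((α : F) : ℂ) := by
        have : IsIntegral ℚ (α : F) := Algebra.IsIntegral.isIntegral _
        exact this.map (IntermediateField.val F)
      rw [IntermediateField.adjoin.finrank h5, h4, hdeg, h3]
  · have h1 : (y ^ ((1 : ℝ) / 2)) ^ 2 = y := by
      rw [← Real.rpow_natCast, ← Real.rpow_mul hy0]
      norm_num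
    rw [h1, hy] at hp
    refine hp.trans ?_
    have h2 : 0 ≤ dabs F ^ ((1 : ℝ) / 2) := by positivity
    have h3 : 0 ≤ c ^ ((3 : ℝ) / 2) := by positivity
    nlinarith
  · have h1 : (y ^ ((1 : ℝ) / 2)) ^ 3 = c ^ ((3 : ℝ) / 2) * dabs F ^ ((3 : ℝ) / 4) := by
      rw [← Real.rpow_natCast, ← Real.rpow_mul hy0, hy, Real.mul_rpow hc0 (by positivity),
        ← Real.rpow_mul hD0]
      norm_num
    rw [h1] at hq
    refine hq.trans ?_
    gcongr
    linarith

end QTow
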