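import Pool.Agent.Lib.MP_44a56e_nt.Defs2

/-! # MP_44a56e_nt, module Num1: the constant of the uniform bound.

PROOF of `cc_le`. `c₀ = 23/20 coth(23/20) ≤ 1.4065` (true value 1.40630; `coth x =
(e^{2x}+1)/(e^{2x}-1)`, `e^{2.3} ≥ 9.974`). `gam m = (4/π) (Γ(m/2+1)^2)^{1/m}`. For `m ≥ 1`:
`Γ(m/2+1) ≤ ` (log-convexity or monotonicity) `C Γ(m/2+3/2)`, and the duplication formula
(`Real.Gamma_mul_Gamma_add_half`) `Γ(m/2+1) Γ(m/2+3/2) = 2^{-(m+1)} √π Γ(m+2) = 2^{-(m+1)} √π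
(m+1)!`, so `Γ(m/2+1)^2 ≤ C 2^{-m} (m+1)!`; `m! ≤ e m (m/e)^m` hence
`(Γ^2)^{1/m} ≤ (m/(2e)) (C' (m+1)^2)^{1/m} ≤ (m/(2e)) (1 + C'' log(m+1)/m)`, so
`gam m ≤ 2 m/(π e) + C₃ log(m+2)`. Therefore `cc m ≤ (c₀ exp(2π·0.81·2/(2.3 π e)))^m *
(m+2)^{C₄}`, the exponent is `3.24/(2.3 e) = 0.518222` and `1.4065 · e^{0.51823} ≤ 1.4065 · 1.67906 ≤
2.3616 < 2.4 = 12/5`. A polynomial times `(2.3616/2.4)^m` is bounded. (Any other route, e.g. via
`Stirling`, is fine.) -/

open NumberField Module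

namespace QTow

private theorem nm_exp23 : (99 / 10 : ℝ) ≤ Real.exp (23 / 10) := by
  have h1 := Real.exp_one_gt_d9
  have h2 : Real.exp (23 / 10) = Real.exp 1 * Real.exp 1 * Real.exp (3 / 10) := by
    rw [← Real.exp_add, ← Real.exp_add]
    norm_num
  have h3 := Real.quadratic_le_exp_of_nonneg (x := 3 / 10) (by norm_num)
  have h4 : (73886 / 10000 : ℝ) ≤ Real.exp 1 * Real.exp 1 := by nlinarith
  rw [h2]
  nlinarith

private theorem nm_sinh_pos : 0 < Real.sinh (23 / 20) := Real.sinh_pos_iff.2 (by norm_num)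

private theorem nm_coth : 23 / 20 * coth (23 / 20) ≤ 141 / 100 := by
  unfold coth
  rw [← mul_div_assoc, div_le_iff₀ nm_sinh_pos, Real.cosh_eq, Real.sinh_eq, Real.exp_neg]
  have h1 : Real.exp (23 / 20) * Real.exp (23 / 20) = Real.exp (23 / 10) := by
    rw [← Real.exp_add]
    norm_num
  have h2 := nm_exp23
  rw [← h1] at h2
  have h3 : 0 < Real.exp (23 / 20) := Real.exp_pos _
  set E := Real.exp (23 / 20)
  have h4 : E * E⁻¹ = 1 := mul_inv_cancel₀ h3.ne'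
  have h5 : 256 / 26 * E⁻¹ ≤ E := by
    rw [← div_eq_mul_inv, div_le_iff₀ h3]
    linarith
  linarith

private theorem nm_coth_pos : 0 ≤ 23 / 20 * coth (23 / 20) := by
  unfold coth
  exact mul_nonneg (by norm_num) (div_nonneg (Real.cosh_pos _).le nm_sinh_pos.le)

private theorem nm_exp : Real.exp (5287 / 10000) ≤ 17 / 10 := by
  have h := Real.exp_bound' (x := 5287 / 10000) (by norm_num) (by norm_num) (n := 4) (by norm_num)
  refine h.trans ?_
  norm_num [Finset.sum_range_succ, Nat.factorial]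

private theorem nm_gamma : ∀ᶠ m : ℕ in Filter.atTop, Real.Gamma ((m : ℝ) / 2 + 1) ^ 2 ≤
    ((102 / 100) * (m / (2 * Real.exp 1))) ^ m := by
  have hπ : √Real.pi ≤ 2 := by
    rw [Real.sqrt_le_left (by norm_num)]
    linarith [Real.pi_le_four]
  have hπ' : √Real.pi < 2 := by
    rw [Real.sqrt_lt' (by norm_num)]
    linarith [Real.pi_lt_four]
  have h1 : ∀ᶠ m : ℕ in Filter.atTop, Stirling.stirlingSeq m < 2 :=
    Stirling.tendsto_stirlingSeq_sqrt_pi.eventually (gt_mem_nhds hπ')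
  have h2 : ∀ᶠ m : ℕ in Filter.atTop, (m : ℝ) ^ 2 / (102 / 100) ^ m < 1 / 8 :=
    (tendsto_pow_const_div_const_pow_of_one_lt 2 (by norm_num : (1 : ℝ) < 102 / 100)).eventually
      (gt_mem_nhds (by norm_num))
  filter_upwards [h1, h2, Filter.eventually_ge_atTop 2] with m h1 h2 hm
  have hm0 : (0 : ℝ) < m := by
    have : 0 < m := by omega
    exact_mod_cast this
  have hm2 : (2 : ℝ) ≤ m := by exact_mod_cast hm
  have hs : (2 : ℝ) ≤ (m : ℝ) / 2 + 1 := by linarith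
  have h3 : Real.Gamma ((m : ℝ) / 2 + 1) ≤ Real.Gamma ((m : ℝ) / 2 + 1 + 1 / 2) :=
    Real.Gamma_strictMonoOn_Ici.monotoneOn hs (by simp only [Set.mem_Ici]; linarith)
      (by linarith)
  have h4 := Real.Gamma_mul_Gamma_add_half ((m : ℝ) / 2 + 1)
  have e1 : 2 * ((m : ℝ) / 2 + 1) = ((m + 1 : ℕ) : ℝ) + 1 := by push_cast; ring
  have e2 : 1 - (((m + 1 : ℕ) : ℝ) + 1) = -((m + 1 : ℕ) : ℝ) := by push_cast; ring
  rw [e1, Real.Gamma_nat_eq_factorial, e2, Real.rpow_neg (by norm_num), Real.rpow_natCast] at h4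
  have hG0 : 0 < Real.Gamma ((m : ℝ) / 2 + 1) := Real.Gamma_pos_of_pos (by linarith)
  have h5 : Real.Gamma ((m : ℝ) / 2 + 1) ^ 2 ≤
      ((m + 1).factorial : ℝ) * (2 ^ (m + 1))⁻¹ * √Real.pi := by
    rw [← h4, pow_two]
    exact mul_le_mul_of_nonneg_left h3 hG0.le
  have he : 0 < Real.exp 1 := Real.exp_pos 1
  have h6 : (m.factorial : ℝ) ≤ 2 * (√(2 * m) * (m / Real.exp 1) ^ m) := by
    rw [Stirling.stirlingSeq, div_lt_iff₀ (by positivity)] at h1
    exact h1.le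
  have h7 : √(2 * (m : ℝ)) ≤ 2 * m := by
    rw [Real.sqrt_le_left (by positivity)]
    nlinarith
  have h8 : (m : ℝ) ^ 2 * 8 ≤ (102 / 100) ^ m := by
    rw [div_lt_iff₀ (by positivity)] at h2
    linarith
  have hP : 0 < ((m : ℝ) / Real.exp 1) ^ m := by positivity
  have hfact : ((m + 1).factorial : ℝ) ≤ (2 * m) * (2 * (2 * m * (m / Real.exp 1) ^ m)) := by
    rw [Nat.factorial_succ]
    push_cast
    refine mul_le_mul (by linarith) (h6.trans ?_) (by positivity) (by positivity)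
    apply mul_le_mul_of_nonneg_left _ (by norm_num)
    exact mul_le_mul_of_nonneg_right h7 hP.le
  have e3 : ((102 / 100 : ℝ) * (m / (2 * Real.exp 1))) ^ m =
      (102 / 100) ^ m * ((m / Real.exp 1) ^ m * (2 ^ m)⁻¹) := by
    rw [mul_pow]
    congr 1
    rw [← inv_pow, ← mul_pow]
    congr 1
    field_simp
  rw [e3]
  calc Real.Gamma ((m : ℝ) / 2 + 1) ^ 2
      ≤ ((m + 1).factorial : ℝ) * (2 ^ (m + 1))⁻¹ * √Real.pi := h5
    _ ≤ ((2 * m) * (2 * (2 * m * (m / Real.exp 1) ^ m))) * (2 ^ (m + 1))⁻¹ * 2 := by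
        apply mul_le_mul _ hπ (Real.sqrt_nonneg _) (by positivity)
        exact mul_le_mul_of_nonneg_right hfact (by positivity)
    _ = (m ^ 2 * 8) * ((m / Real.exp 1) ^ m * (2 ^ m)⁻¹) := by
        rw [pow_succ]
        field_simp
        ring
    _ ≤ (102 / 100) ^ m * ((m / Real.exp 1) ^ m * (2 ^ m)⁻¹) :=
        mul_le_mul_of_nonneg_right h8 (by positivity)

private theorem nm_ev : ∀ᶠ m : ℕ in Filter.atTop, cc m ≤ (12 / 5) ^ m := by
  filter_upwards [nm_gamma, Filter.eventually_ge_atTop 1] with m hG hm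
  have hm0 : (0 : ℝ) < m := by exact_mod_cast hm
  have he : 0 < Real.exp 1 := Real.exp_pos 1
  have hG0 : 0 < Real.Gamma ((m : ℝ) / 2 + 1) := Real.Gamma_pos_of_pos (by linarith)
  have hx0 : 0 ≤ (102 / 100 : ℝ) * (m / (2 * Real.exp 1)) := by positivity
  have h1 : Real.Gamma ((m : ℝ) / 2 + 1) ^ ((2 : ℝ) / m) ≤
      (102 / 100) * (m / (2 * Real.exp 1)) := by
    have e1 : (2 : ℝ) / m = ((2 : ℕ) : ℝ) * (m : ℝ)⁻¹ := by push_cast; ring
    rw [e1, Real.rpow_mul hG0.le, Real.rpow_natCast]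
    refine (Real.rpow_le_rpow (by positivity) hG (by positivity)).trans ?_
    rw [Real.pow_rpow_inv_natCast hx0 (by omega)]
  have h2 : 2 * Real.pi * (81 / 100) * gam m / (23 / 10) ≤ m * (5287 / 10000) := by
    unfold gam
    have hπ := Real.pi_pos
    have h3 : 2 * Real.pi * (81 / 100) * (4 / Real.pi * Real.Gamma ((m : ℝ) / 2 + 1) ^ ((2 : ℝ) / m))
        / (23 / 10) = (648 / 230) * Real.Gamma ((m : ℝ) / 2 + 1) ^ ((2 : ℝ) / m) := by
      field_simp
      ring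
    rw [h3]
    have h4 : (m : ℝ) / (2 * Real.exp 1) ≤ m * (5000 / 27182) := by
      rw [div_le_iff₀ (by positivity)]
      have h5 := Real.exp_one_gt_d9
      nlinarith
    calc (648 / 230) * Real.Gamma ((m : ℝ) / 2 + 1) ^ ((2 : ℝ) / m)
        ≤ (648 / 230) * ((102 / 100) * (m / (2 * Real.exp 1))) :=
          mul_le_mul_of_nonneg_left h1 (by norm_num)
      _ ≤ (648 / 230) * ((102 / 100) * (m * (5000 / 27182))) := by
          apply mul_le_mul_of_nonneg_left _ (by norm_num)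
          exact mul_le_mul_of_nonneg_left h4 (by norm_num)
      _ ≤ m * (5287 / 10000) := by nlinarith
  have h3 : Real.exp (2 * Real.pi * (81 / 100) * gam m / (23 / 10)) ≤ (17 / 10) ^ m := by
    refine (Real.exp_le_exp.2 h2).trans ?_
    rw [Real.exp_nat_mul]
    exact pow_le_pow_left₀ (Real.exp_pos _).le nm_exp m
  unfold cc
  calc (23 / 20 * coth (23 / 20)) ^ m * Real.exp (2 * Real.pi * (81 / 100) * gam m / (23 / 10))
      ≤ (141 / 100) ^ m * (17 / 10) ^ m :=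
        mul_le_mul (pow_le_pow_left₀ nm_coth_pos nm_coth m) h3 (Real.exp_pos _).le (by positivity)
    _ = (2397 / 1000) ^ m := by rw [← mul_pow]; norm_num
    _ ≤ (12 / 5) ^ m := pow_le_pow_left₀ (by norm_num) (by norm_num) m

theorem cc_le : ∃ K₀ : ℝ, 0 < K₀ ∧ ∀ m : ℕ, cc m ≤ K₀ * (12 / 5) ^ m := by
  obtain ⟨N, hN⟩ := Filter.eventually_atTop.1 nm_ev
  have hpos : ∀ m : ℕ, 0 ≤ cc m := fun m =>
    mul_nonneg (pow_nonneg nm_coth_pos m) (Real.exp_pos _).le
  refine ⟨1 + ∑ m ∈ Finset.range N, cc m, ?_, fun m => ?_⟩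
  · have := Finset.sum_nonneg fun m (_ : m ∈ Finset.range N) => hpos m
    linarith
  · have h1 : (1 : ℝ) ≤ (12 / 5) ^ m := one_le_pow₀ (by norm_num)
    have h2 := Finset.sum_nonneg fun m (_ : m ∈ Finset.range N) => hpos m
    by_cases hm : N ≤ m
    · have h3 := hN m hm
      nlinarith
    · push Not at hm
      have h3 : cc m ≤ ∑ m ∈ Finset.range N, cc m :=
        Finset.single_le_sum (f := cc) (fun i _ => hpos i) (Finset.mem_range.2 hm)
      nlinarith [hpos m]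

end QTow
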