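import Pool.Agent.Lib.MP_44a56e_nt.Defs2

/-! # MP_44a56e_nt, module Num2: Minkowski's bound.

PROOF of `discr_large`. `abs_discr_ge'`: `|discr F| ≥ m^{2m} / ((4/π)^{2 r₂} m!^2)` with
`2 r₂ ≤ m` (`card_add_two_mul_card_eq_rank`), `4/π ≥ 1`, so `|discr F| ≥ (π/4)^m (m^m/m!)^2`; and
`m! ≤ e √m (m/e)^m` for `m ≥ 1` (the Stirling sequence is decreasing). So
`|discr F| ≥ ((π/4) e^2)^m / (e^2 m)`, and `(π/4) e^2 ≥ 0.785 · 7.389 = 5.80 > 5.76 = 144/25`;
`(5.80/5.76)^m / (e^2 m) → ∞`. -/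

open NumberField Module

namespace QTow

private theorem Num2_fact (m : ℕ) (hm : 1 ≤ m) :
    ((m.factorial : ℕ) : ℝ) ^ 2 ≤ Real.exp 1 ^ 2 * m * ((m : ℝ) / Real.exp 1) ^ (2 * m) := by
  have h1 : Stirling.stirlingSeq m ≤ Stirling.stirlingSeq 1 := by
    obtain ⟨n, rfl⟩ := Nat.exists_eq_add_of_le hm
    have h := Stirling.stirlingSeq'_antitone (Nat.zero_le n)
    have e1 : (1 + n : ℕ) = Nat.succ n := by rw [Nat.succ_eq_add_one, add_comm]
    rw [e1]
    exact h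
  rw [Stirling.stirlingSeq_one] at h1
  unfold Stirling.stirlingSeq at h1
  have hm0 : (0 : ℝ) < m := by exact_mod_cast hm
  have he : (0 : ℝ) < Real.exp 1 := Real.exp_pos 1
  have hpos : 0 < Real.sqrt (2 * m) * ((m : ℝ) / Real.exp 1) ^ m := by positivity
  have h2 : ((m.factorial : ℕ) : ℝ) ≤ Real.exp 1 / Real.sqrt 2 *
      (Real.sqrt (2 * m) * ((m : ℝ) / Real.exp 1) ^ m) := by
    rw [div_le_iff₀ hpos] at h1
    exact h1
  have h3 : ((m.factorial : ℕ) : ℝ) ^ 2 ≤ (Real.exp 1 / Real.sqrt 2 *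
      (Real.sqrt (2 * m) * ((m : ℝ) / Real.exp 1) ^ m)) ^ 2 :=
    pow_le_pow_left₀ (Nat.cast_nonneg _) h2 2
  refine h3.trans (le_of_eq ?_)
  rw [mul_pow, div_pow, mul_pow, Real.sq_sqrt (by norm_num : (0 : ℝ) ≤ 2),
    Real.sq_sqrt (by positivity : (0 : ℝ) ≤ 2 * m), ← pow_mul, mul_comm m 2]
  ring

theorem discr_large (C : ℝ) (hC : 0 < C) : ∃ m₀ : ℕ, ∀ (F : Type) [Field F] [NumberField F],
    m₀ ≤ finrank ℚ F → C * (144 / 25) ^ (finrank ℚ F) ≤ |((discr F : ℤ) : ℝ)| := by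
  have hlim := tendsto_pow_const_mul_const_pow_of_abs_lt_one 1 (r := (144 / 145 : ℝ))
    (by rw [abs_of_nonneg (by norm_num)]; norm_num)
  have hev := hlim.eventually_lt_const (u := 1 / (8 * C)) (by positivity)
  obtain ⟨m₁, hm₁⟩ := Filter.eventually_atTop.1 hev
  refine ⟨m₁, fun F _ _ hF => ?_⟩
  set m := finrank ℚ F with hm
  have hm0 : 0 < m := finrank_pos
  have hmR : (0 : ℝ) < m := by exact_mod_cast hm0
  have h1 := hm₁ m hF
  rw [pow_one] at h1
  have hd := abs_discr_ge' F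
  rw [← hm] at hd
  have hcast : |((discr F : ℤ) : ℝ)| = ((|discr F| : ℤ) : ℝ) := by rw [Int.cast_abs]
  rw [hcast]
  refine le_trans ?_ hd
  have hr : 2 * InfinitePlace.nrComplexPlaces F ≤ m := by
    have := InfinitePlace.card_add_two_mul_card_eq_rank F
    omega
  have hpi : (1 : ℝ) ≤ 4 / Real.pi := by
    rw [le_div_iff₀ Real.pi_pos]
    linarith [Real.pi_le_four]
  have hpow : (4 / Real.pi) ^ (2 * InfinitePlace.nrComplexPlaces F) ≤ (4 / Real.pi) ^ m :=
    pow_le_pow_right₀ hpi hr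
  have hfac := Num2_fact m hm0
  have hfpos : (0 : ℝ) < ((m.factorial : ℕ) : ℝ) ^ 2 := by
    have := Nat.factorial_pos m
    positivity
  rw [le_div_iff₀ (by positivity)]
  have he := Real.exp_one_gt_d9
  have he' := Real.exp_one_lt_d9
  have hpi3 := Real.pi_gt_d4
  set e := Real.exp 1 with hedef
  have he0 : 0 < e := by linarith
  have key : (29 / 5 : ℝ) * (4 / Real.pi) ≤ e ^ 2 := by
    rw [← mul_div_assoc, div_le_iff₀ Real.pi_pos]
    nlinarith
  have he8 : e ^ 2 ≤ 8 := by nlinarith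
  have hC8 : 8 * C * m ≤ (145 / 144 : ℝ) ^ m := by
    have h2 : (m : ℝ) * (144 / 145) ^ m * (8 * C) < 1 := by
      rwa [lt_div_iff₀ (by positivity)] at h1
    have h3 : (144 / 145 : ℝ) ^ m * (145 / 144) ^ m = 1 := by
      rw [← mul_pow]; norm_num
    have h4 : 0 < (145 / 144 : ℝ) ^ m := by positivity
    calc 8 * C * m = (m * (144 / 145 : ℝ) ^ m * (8 * C)) * (145 / 144) ^ m := by
          linear_combination (-(8 * C * m)) * h3
      _ ≤ 1 * (145 / 144) ^ m := mul_le_mul_of_nonneg_right h2.le h4.le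
      _ = _ := one_mul _
  calc C * (144 / 25) ^ m * ((4 / Real.pi) ^ (2 * InfinitePlace.nrComplexPlaces F) *
        ((m.factorial : ℕ) : ℝ) ^ 2)
      ≤ C * (144 / 25) ^ m * ((4 / Real.pi) ^ m * (e ^ 2 * m * ((m : ℝ) / e) ^ (2 * m))) := by
        refine mul_le_mul_of_nonneg_left ?_ (by positivity)
        exact mul_le_mul hpow hfac hfpos.le (by positivity)
    _ ≤ C * (144 / 25) ^ m * ((4 / Real.pi) ^ m * (8 * m * ((m : ℝ) / e) ^ (2 * m))) := by
        refine mul_le_mul_of_nonneg_left ?_ (by positivity)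
        refine mul_le_mul_of_nonneg_left ?_ (by positivity)
        refine mul_le_mul_of_nonneg_right ?_ (by positivity)
        exact mul_le_mul_of_nonneg_right he8 hmR.le
    _ = (8 * C * m) * ((144 / 25 * (4 / Real.pi)) ^ m * ((m : ℝ) / e) ^ (2 * m)) := by
        rw [mul_pow]; ring
    _ ≤ (145 / 144) ^ m * ((144 / 25 * (4 / Real.pi)) ^ m * ((m : ℝ) / e) ^ (2 * m)) :=
        mul_le_mul_of_nonneg_right hC8 (by positivity)
    _ = (29 / 5 * (4 / Real.pi)) ^ m * ((m : ℝ) / e) ^ (2 * m) := by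
        rw [← mul_assoc, ← mul_pow]
        norm_num
        left
        ring
    _ ≤ (e ^ 2) ^ m * ((m : ℝ) / e) ^ (2 * m) :=
        mul_le_mul_of_nonneg_right (pow_le_pow_left₀ (by positivity) key m) (by positivity)
    _ = (m : ℝ) ^ (2 * m) := by
        rw [← pow_mul, ← mul_pow, mul_div_cancel₀ _ he0.ne']

end QTow
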