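import Pool.Agent.Lib.MP_44a56e_nt.Defs2
import Pool.Agent.Lib.MP_44a56e_nt.SFBasic

/-! # MP_44a56e_nt, module QuadSum: partial summation over the quadratic extensions. -/

open NumberField Module

namespace QTow

/-- Powers of a product. -/
private theorem quadsum_pow {D : ℝ} (hD : 0 < D) (j : ℕ) :
    (2 ^ (j + 1) * D ^ 2) * (2 ^ j * D ^ 2) ^ (-(3 / 2) : ℝ) = 2 * D⁻¹ * (Real.sqrt 2)⁻¹ ^ j := by
  have h2 : (0 : ℝ) < 2 ^ j := by positivity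
  have hy : (0 : ℝ) < 2 ^ j * D ^ 2 := by positivity
  have h1 : (2 ^ j * D ^ 2 : ℝ) ^ (-(3 / 2) : ℝ) =
      (2 ^ j * D ^ 2)⁻¹ * (Real.sqrt (2 ^ j * D ^ 2))⁻¹ := by
    rw [Real.sqrt_eq_rpow, ← Real.rpow_neg hy.le, ← Real.rpow_neg_one, ← Real.rpow_add hy]
    norm_num
  have h3 : Real.sqrt (2 ^ j * D ^ 2) = Real.sqrt 2 ^ j * D := by
    rw [Real.sqrt_mul h2.le, Real.sqrt_sq hD.le]
    congr 1
    rw [Real.sqrt_eq_iff_mul_self_eq h2.le (by positivity), ← mul_pow,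
      Real.mul_self_sqrt (by norm_num)]
  have hs : Real.sqrt 2 ≠ 0 := by positivity
  rw [h1, h3, pow_succ, inv_pow]
  have hs' : Real.sqrt 2 ^ j ≠ 0 := pow_ne_zero _ hs
  field_simp

private theorem quadsum_geo {q : ℝ} (hq : q = (Real.sqrt 2)⁻¹) :
    0 ≤ q ∧ q < 1 ∧ 2 * (1 - q)⁻¹ ≤ 7 := by
  have h1 : (7 / 5 : ℝ) ≤ Real.sqrt 2 := by
    rw [Real.le_sqrt (by norm_num) (by norm_num)]
    norm_num
  have h2 : q ≤ 5 / 7 := by
    rw [hq]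
    calc (Real.sqrt 2)⁻¹ ≤ (7 / 5 : ℝ)⁻¹ := inv_anti₀ (by norm_num) h1
      _ = 5 / 7 := by norm_num
  have h3 : 0 ≤ q := by rw [hq]; positivity
  refine ⟨h3, by linarith, ?_⟩
  have h4 : (1 - q)⁻¹ ≤ (2 / 7 : ℝ)⁻¹ := inv_anti₀ (by norm_num) (by linarith)
  have h5 : (2 / 7 : ℝ)⁻¹ = 7 / 2 := by norm_num
  rw [h5] at h4
  linarith

theorem quad_sum (F : SF) [NumberField F] (c : ℝ) (hc0 : 0 ≤ c)
    (hc : ∀ X : ℝ, 0 < X → (qcount F X : ℝ) ≤ c * X) :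
    ∑' K : Quad F, ENNReal.ofReal (dabs K.1 ^ (-(3 / 2) : ℝ)) ≤
      ENNReal.ofReal (7 * c * (dabs F)⁻¹) := by
  classical
  set D := dabs F with hD
  have hD1 : 1 ≤ D := one_le_dabs F
  have hD0 : 0 < D := by linarith
  set q : ℝ := (Real.sqrt 2)⁻¹ with hq
  obtain ⟨hq0, hq1, hq7⟩ := quadsum_geo hq
  -- the majorant
  set a : ℕ → ENNReal := fun j => ENNReal.ofReal ((2 ^ j * D ^ 2) ^ (-(3 / 2) : ℝ)) with ha
  have hstep : ∀ K : Quad F, ENNReal.ofReal (dabs K.1 ^ (-(3 / 2) : ℝ)) ≤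
      ∑' j : ℕ, if dabs K.1 ≤ 2 ^ (j + 1) * D ^ 2 then a j else 0 := by
    intro K
    have hsq : D ^ 2 ≤ dabs K.1 := sq_le K.2
    have hD2 : 0 < D ^ 2 := by positivity
    have hx1 : 1 ≤ dabs K.1 / D ^ 2 := by rwa [one_le_div hD2]
    obtain ⟨j, hj1, hj2⟩ := exists_nat_pow_near hx1 (one_lt_two (α := ℝ))
    rw [le_div_iff₀ hD2] at hj1
    rw [div_lt_iff₀ hD2] at hj2
    refine le_trans ?_ (ENNReal.le_tsum j)
    rw [if_pos hj2.le]
    refine ENNReal.ofReal_le_ofReal ?_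
    exact Real.rpow_le_rpow_of_nonpos (by positivity) hj1 (by norm_num)
  have hcount : ∀ j : ℕ, (∑' K : Quad F, if dabs K.1 ≤ 2 ^ (j + 1) * D ^ 2 then a j else 0) ≤
      ENNReal.ofReal (2 * c * D⁻¹ * q ^ j) := by
    intro j
    set T : Set SF := {K | K ∈ Quad F ∧ dabs K ≤ 2 ^ (j + 1) * D ^ 2} with hT
    have hfin : T.Finite := (finite_dabs (2 ^ (j + 1) * D ^ 2)).subset fun K hK =>
      ⟨hK.1.1, hK.2⟩
    have e1 : (∑' K : Quad F, if dabs K.1 ≤ 2 ^ (j + 1) * D ^ 2 then a j else 0) =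
        ∑' _ : T, a j := by
      rw [tsum_subtype (Quad F) (fun K => if dabs K ≤ 2 ^ (j + 1) * D ^ 2 then a j else 0),
        tsum_subtype T (fun _ => a j)]
      refine tsum_congr fun K => ?_
      by_cases h1 : K ∈ Quad F
      · by_cases h2 : dabs K ≤ 2 ^ (j + 1) * D ^ 2
        · rw [Set.indicator_of_mem h1, if_pos h2, Set.indicator_of_mem (show K ∈ T from ⟨h1, h2⟩)]
        · rw [Set.indicator_of_mem h1, if_neg h2,
            Set.indicator_of_notMem (show K ∉ T from fun h => h2 h.2)]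
      · rw [Set.indicator_of_notMem h1,
          Set.indicator_of_notMem (show K ∉ T from fun h => h1 h.1)]
    have e2 : (T.encard : ENNReal) = ENNReal.ofReal (qcount F (2 ^ (j + 1) * D ^ 2) : ℝ) := by
      rw [← hfin.cast_ncard_eq, ENNReal.ofReal_natCast]
      rfl
    rw [e1, ENNReal.tsum_set_const, e2, ha, ← ENNReal.ofReal_mul (Nat.cast_nonneg _)]
    refine ENNReal.ofReal_le_ofReal ?_
    have h1 := hc (2 ^ (j + 1) * D ^ 2) (by positivity)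
    have h2 : 0 ≤ (2 ^ j * D ^ 2 : ℝ) ^ (-(3 / 2) : ℝ) := Real.rpow_nonneg (by positivity) _
    calc (qcount F (2 ^ (j + 1) * D ^ 2) : ℝ) * (2 ^ j * D ^ 2) ^ (-(3 / 2) : ℝ) ≤
        c * (2 ^ (j + 1) * D ^ 2) * (2 ^ j * D ^ 2) ^ (-(3 / 2) : ℝ) :=
          mul_le_mul_of_nonneg_right h1 h2
      _ = c * ((2 ^ (j + 1) * D ^ 2) * (2 ^ j * D ^ 2) ^ (-(3 / 2) : ℝ)) := by ring
      _ = 2 * c * D⁻¹ * q ^ j := by rw [quadsum_pow hD0, hq]; ring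
  calc ∑' K : Quad F, ENNReal.ofReal (dabs K.1 ^ (-(3 / 2) : ℝ)) ≤
      ∑' K : Quad F, ∑' j : ℕ, (if dabs K.1 ≤ 2 ^ (j + 1) * D ^ 2 then a j else 0) :=
        ENNReal.tsum_le_tsum hstep
    _ = ∑' j : ℕ, ∑' K : Quad F, (if dabs K.1 ≤ 2 ^ (j + 1) * D ^ 2 then a j else 0) :=
        ENNReal.tsum_comm
    _ ≤ ∑' j : ℕ, ENNReal.ofReal (2 * c * D⁻¹ * q ^ j) := ENNReal.tsum_le_tsum hcount
    _ = ENNReal.ofReal (∑' j : ℕ, 2 * c * D⁻¹ * q ^ j) := by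
        rw [ENNReal.ofReal_tsum_of_nonneg (fun j => by positivity)
          ((summable_geometric_of_lt_one hq0 hq1).mul_left _)]
    _ ≤ ENNReal.ofReal (7 * c * D⁻¹) := by
        refine ENNReal.ofReal_le_ofReal ?_
        rw [tsum_mul_left, tsum_geometric_of_lt_one hq0 hq1]
        have h6 : 0 ≤ c * D⁻¹ := by positivity
        nlinarith

end QTow
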