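import Pool.Agent.Lib.MP_44a56e_nt.Defs2
import Pool.Agent.Lib.MP_44a56e_nt.BoxCount
import Pool.Agent.Lib.MP_44a56e_nt.Coord

/-! # MP_44a56e_nt, module FCount: counting integers with small conjugates.

PROOF of `one_add_sq_le`: `1 + v² ≤ exp((81/100) v)` for `v ≥ 0`. The function
`(81/100) v - log (1+v²)` has derivative `81/100 - 2v/(1+v²)` which vanishes only at
`v = (1 ± √(1-0.6561))/0.81`, `≈ 0.5106` and `1.9585`; it increases on `[0, v1]`, decreases on
`[v1, v2]`, increases after `v2`; at `v2` the value is `≈ 1.58641 - 1.57609 > 0.01`. Alternative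
proof with Taylor polynomials of exp: for `v ≤ 8`, `exp x ≥ ∑_{i ≤ 12} x^i/i!` etc., or the tangent
trick: for `v ∈ [1.4, 2.6]`: `log(1+v²) ≤ log(1+v0²) + (v-v0) 2v0/(1+v0²) + ...`; any proof is fine.
PROOF of `count_le`. If `N` is empty or ... ; take `ι, M, e, κ` from `exists_coord`, `R =
|discr F|^{1/m}`, `a_j = κ_j a`, `b_j = 1/(2 κ_j R)` in `box_count` for the finite set
`N' = N.image e.symm`; `a_j b_j = a/(2R)`, `2 b_j = 1/(κ_j R)`. For `α ∈ N`:
`∏_σ (a² + 4π²‖σα‖²) ≤ a^{2m} exp((81/100)(2π/a) ∑_σ ‖σα‖) ≤ a^{2m} exp(2π(81/100) r/a)` by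
`one_add_sq_le` with `v = 2π‖σα‖/a` (number of embeddings `= m`). So
`card ≤ |det M|⁻¹ (∏ κ²) a^{2m} exp(..) ∏_j coth(a/(2R))/(2 κ_j a)
 = |discr F|^{-1/2} (a coth(a/(2R))/2)^m exp(..)`. -/

open NumberField Module

namespace QTow

theorem one_add_sq_le (v : ℝ) (hv : 0 ≤ v) : 1 + v ^ 2 ≤ Real.exp (81 / 100 * v) := by
  have h := Real.sum_le_exp_of_nonneg (x := 81 / 100 * v) (by positivity) 7
  refine le_trans ?_ h
  simp only [Finset.sum_range_succ, Finset.sum_range_zero, Nat.factorial]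
  norm_num
  nlinarith [mul_nonneg hv (mul_nonneg hv (mul_nonneg hv (mul_nonneg hv
      (sq_nonneg (v - 49 / 25))))), mul_nonneg hv (mul_nonneg hv (mul_nonneg hv
      (sq_nonneg (v - 49 / 25)))), mul_nonneg hv (mul_nonneg hv
      (sq_nonneg (v - 49 / 25))), mul_nonneg hv (sq_nonneg (v - 49 / 25)), hv,
      mul_nonneg hv hv]

theorem count_le (F : Type) [Field F] [NumberField F] (a r : ℝ) (ha : 0 < a)
    (N : Finset (𝓞 F)) (hN : ∀ α ∈ N, ∑ σ : F →+* ℂ, ‖σ (α : F)‖ ≤ r) :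
    (N.card : ℝ) ≤ |((discr F : ℤ) : ℝ)| ^ (-(1 / 2) : ℝ) *
      (a / 2 * coth (a / (2 * |((discr F : ℤ) : ℝ)| ^ ((1 : ℝ) / (finrank ℚ F : ℝ))))) ^
        (finrank ℚ F) * Real.exp (2 * Real.pi * (81 / 100) * r / a) := by
  classical
  obtain ⟨ι, _, _, M, e, κ, hcard, hκ, hdet, hprod, hdual⟩ := exists_coord F
  set D : ℝ := |((discr F : ℤ) : ℝ)| with hD
  set m := finrank ℚ F with hm
  set R : ℝ := D ^ ((1 : ℝ) / (m : ℝ)) with hR
  have hD0 : 0 < D := by
    rw [hD]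
    exact abs_pos.2 (by exact_mod_cast discr_ne_zero F)
  have hR0 : 0 < R := Real.rpow_pos_of_pos hD0 _
  have hκp : 0 < ∏ j, κ j := Finset.prod_pos fun j _ => hκ j
  have hdet0 : M.det ≠ 0 := by
    intro h
    rw [h, abs_zero] at hdet
    have : 0 < (∏ j, κ j) * Real.sqrt D := mul_pos hκp (Real.sqrt_pos.2 hD0)
    linarith
  set E : ℝ := Real.exp (2 * Real.pi * (81 / 100) * r / a) with hE
  set N' : Finset (ι → ℤ) := N.image e.symm with hN'
  have hcN : N'.card = N.card := Finset.card_image_of_injective _ e.symm.injective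
  have hW : ∀ n ∈ N', ∏ j, ((κ j * a) ^ 2 + 4 * Real.pi ^ 2 *
      M.mulVec (fun i => (n i : ℝ)) j ^ 2) ≤ (∏ j, κ j ^ 2) * (a ^ (2 * m) * E) := by
    intro n hn
    obtain ⟨α, hα, rfl⟩ := Finset.mem_image.1 hn
    refine (hprod _ a).trans (mul_le_mul_of_nonneg_left ?_
      (Finset.prod_nonneg fun j _ => sq_nonneg _))
    rw [AddEquiv.apply_symm_apply]
    calc ∏ σ : F →+* ℂ, (a ^ 2 + 4 * Real.pi ^ 2 * ‖σ (α : F)‖ ^ 2)
        ≤ ∏ σ : F →+* ℂ, (a ^ 2 * Real.exp (81 / 100 * (2 * Real.pi * ‖σ (α : F)‖ / a))) := by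
          refine Finset.prod_le_prod (fun σ _ => by positivity) fun σ _ => ?_
          have h1 := one_add_sq_le (2 * Real.pi * ‖σ (α : F)‖ / a) (by positivity)
          have h2 : a ^ 2 + 4 * Real.pi ^ 2 * ‖σ (α : F)‖ ^ 2 =
              a ^ 2 * (1 + (2 * Real.pi * ‖σ (α : F)‖ / a) ^ 2) := by
            field_simp
            ring
          rw [h2]
          exact mul_le_mul_of_nonneg_left h1 (sq_nonneg a)
      _ = a ^ (2 * m) * Real.exp (∑ σ : F →+* ℂ, 81 / 100 * (2 * Real.pi * ‖σ (α : F)‖ / a)) := by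
          rw [Finset.prod_mul_distrib, Finset.prod_const, Finset.card_univ,
            NumberField.Embeddings.card F ℂ, ← pow_mul, ← Real.exp_sum]
      _ ≤ a ^ (2 * m) * E := by
          refine mul_le_mul_of_nonneg_left (Real.exp_le_exp.2 ?_) (by positivity)
          have h3 : ∑ σ : F →+* ℂ, 81 / 100 * (2 * Real.pi * ‖σ (α : F)‖ / a) =
              2 * Real.pi * (81 / 100) * (∑ σ : F →+* ℂ, ‖σ (α : F)‖) / a := by
            rw [Finset.mul_sum, Finset.sum_div]
            exact Finset.sum_congr rfl fun σ _ => by ring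
          rw [h3]
          refine div_le_div_of_nonneg_right ?_ ha.le
          exact mul_le_mul_of_nonneg_left (hN α hα) (by positivity)
  have hbox : ∀ k : ι → ℤ, k ≠ 0 → ∃ j, 2 * (1 / (2 * (κ j * R))) ≤
      |(M.transpose)⁻¹.mulVec (fun i => (k i : ℝ)) j| := by
    intro k hk
    obtain ⟨j, hj⟩ := hdual k hk
    refine ⟨j, le_trans (le_of_eq ?_) hj⟩
    have := hκ j
    field_simp
  have h := box_count M hdet0 (fun j => κ j * a) (fun j => 1 / (2 * (κ j * R)))
    (fun j => mul_pos (hκ j) ha) (fun j => by have := hκ j; positivity) hbox N'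
    ((∏ j, κ j ^ 2) * (a ^ (2 * m) * E))
    (mul_nonneg (Finset.prod_nonneg fun j _ => sq_nonneg _) (by positivity)) hW
  rw [hcN] at h
  refine h.trans (le_of_eq ?_)
  have h4 : ∏ j, (coth (κ j * a * (1 / (2 * (κ j * R)))) / (2 * (κ j * a))) =
      (coth (a / (2 * R)) / (2 * a)) ^ m * (∏ j, κ j)⁻¹ := by
    have h5 : ∀ j, coth (κ j * a * (1 / (2 * (κ j * R)))) / (2 * (κ j * a)) =
        coth (a / (2 * R)) / (2 * a) * (κ j)⁻¹ := by
      intro j
      have hj := (hκ j).ne'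
      have h6 : κ j * a * (1 / (2 * (κ j * R))) = a / (2 * R) := by
        field_simp
      rw [h6]
      field_simp
    rw [Finset.prod_congr rfl fun j _ => h5 j, Finset.prod_mul_distrib, Finset.prod_const,
      Finset.card_univ, hcard, Finset.prod_inv_distrib]
  rw [h4, hdet, Finset.prod_pow]
  have h7 : D ^ (-(1 / 2) : ℝ) = (Real.sqrt D)⁻¹ := by
    rw [Real.sqrt_eq_rpow, ← Real.rpow_neg hD0.le]
  rw [h7]
  have hs : 0 < Real.sqrt D := Real.sqrt_pos.2 hD0
  have h8 : (a / 2 * coth (a / (2 * R))) ^ m =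
      a ^ (2 * m) * (coth (a / (2 * R)) / (2 * a)) ^ m := by
    rw [pow_mul, ← mul_pow]
    congr 1
    field_simp
  rw [h8]
  field_simp

end QTow
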