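import Pool.Agent.Lib.MP_44a56e_nt.Defs2

/-! # MP_44a56e_nt, module GramA: the discriminant of a quadratic extension.

PROOF of `exists_beta`. `m = finrank ℚ F`, `finrank ℚ K = 2 m`. `𝓞 F → 𝓞 K` is injective and the
quotient `ℤ`-module `𝓞 K / 𝓞 F` is finitely generated and torsion free (if `n x ∈ F`, `n ≠ 0`,
then `x ∈ F`, integral), hence free of rank `m`; so there is a `ℤ`-basis `(b, c)` of `𝓞 K`
(indexed by `Fin m ⊕ Fin m`) with `b` a basis of `𝓞 F` (search Mathlib for `Basis.sumQuot`,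
`Basis.ofSplitExact`, `Submodule.exists_isCompl`, or use Smith normal form).
Put `t k = Tr_{K/F} (c k) ∈ 𝓞 F`, `β k = 2 c k - t k`; so `Tr_{K/F} (β k) = 2 t k - 2 t k = 0`.
For `x, y` in `K` of trace zero over `F` one has `x * y ∈ F` (`x^2 ∈ F` because the characteristic
polynomial of `x` is `X^2 + N(x)`; polarize: `(x+y)^2`; this gives `c i j`).
The family `(b, β)` is obtained from the basis `(b, c)` by the matrix `[[1, -T], [0, 2]]` over `ℤ`
with determinant `2^m`, so `discr ℤ (b, β) = 4^m * discr K` (`Algebra.discr_of_matrix_vecMul` or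
`discr_of_matrix_mulVec`; `discr_eq_discr` identifies `Algebra.discr ℤ basis` with
`NumberField.discr K`; one may also work over `ℚ`: `coe_discr`). The trace matrix of `(b, β)` over
`ℚ` is block diagonal: `Tr_{K/ℚ}(b i b j) = 2 Tr_{F/ℚ}(b i b j)`, `Tr_{K/ℚ}(b i β j) =
Tr_{F/ℚ}(b i Tr_{K/F}(β j)) = 0`, `Tr_{K/ℚ}(β i β j) = 2 Tr_{F/ℚ}(c i j)` (`Algebra.trace_trace`).
So `4^m discr K = 2^m discr F * 2^m det (Tr_{F/ℚ}(c i j))`. -/

open NumberField Module

namespace QTow

private lemma gr_basis (F K : Type) [Field F] [NumberField F] [Field K] [NumberField K]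
    [Algebra F K] (h2 : finrank F K = 2) :
    ∃ (bF : Basis (Fin (finrank ℚ F)) ℤ (𝓞 F))
      (B : Basis (Fin (finrank ℚ F) ⊕ Fin (finrank ℚ F)) ℤ (𝓞 K)),
      ∀ i, B (Sum.inl i) = algebraMap (𝓞 F) (𝓞 K) (bF i) := by
  obtain ⟨f, hf⟩ : ∃ f : 𝓞 F →ₗ[ℤ] 𝓞 K, ∀ x, f x = algebraMap (𝓞 F) (𝓞 K) x :=
    ⟨(algebraMap (𝓞 F) (𝓞 K)).toIntAlgHom.toLinearMap, fun x => rfl⟩
  have hinj : Function.Injective f := by
    intro x y hxy
    rw [hf, hf] at hxy
    exact FaithfulSMul.algebraMap_injective (𝓞 F) (𝓞 K) hxy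
  obtain ⟨W, hW⟩ : ∃ W : Submodule ℤ (𝓞 K), W = LinearMap.range f := ⟨_, rfl⟩
  -- torsion free quotient
  have htf : IsTorsionFree ℤ (𝓞 K ⧸ W) := by
    refine Module.IsTorsionFree.of_smul_eq_zero fun n q hq => ?_
    by_cases hn : n = 0
    · exact Or.inl hn
    right
    obtain ⟨x, rfl⟩ := Submodule.Quotient.mk_surjective W q
    rw [← Submodule.Quotient.mk_smul, Submodule.Quotient.mk_eq_zero, hW, LinearMap.mem_range] at hq
    rw [Submodule.Quotient.mk_eq_zero, hW, LinearMap.mem_range]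
    obtain ⟨y, hy⟩ := hq
    rw [hf] at hy
    have hn' : (n : F) ≠ 0 := by exact_mod_cast hn
    have hn'' : (n : K) ≠ 0 := by exact_mod_cast hn
    have h1 : algebraMap F K ((y : F) / (n : F)) = (x : K) := by
      have h2 : ((algebraMap (𝓞 F) (𝓞 K) y : 𝓞 K) : K) = ((n • x : 𝓞 K) : K) :=
        congrArg (fun z : 𝓞 K => (z : K)) hy
      have h3 : ((algebraMap (𝓞 F) (𝓞 K) y : 𝓞 K) : K) = algebraMap F K (y : F) := rfl
      rw [h3] at h2
      have h4 : (((n • x : 𝓞 K)) : K) = (n : K) * (x : K) := by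
        simp
      rw [h4] at h2
      rw [map_div₀, h2, map_intCast]
      field_simp
    have h5 : IsIntegral ℤ ((y : F) / (n : F)) := by
      rw [← isIntegral_algebraMap_iff (FaithfulSMul.algebraMap_injective F K), h1]
      exact x.2
    refine ⟨⟨(y : F) / (n : F), h5⟩, ?_⟩
    rw [hf]
    exact RingOfIntegers.ext h1
  have hfree : Module.Free ℤ (𝓞 K ⧸ W) := inferInstance
  have hrF : finrank ℤ (𝓞 F) = finrank ℚ F := RingOfIntegers.rank F
  have hrK : finrank ℤ (𝓞 K) = 2 * finrank ℚ F := by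
    rw [RingOfIntegers.rank K, ← Module.finrank_mul_finrank ℚ F K, h2, mul_comm]
  have hrW : finrank ℤ W = finrank ℚ F := by
    rw [hW, LinearMap.finrank_range_of_inj hinj, hrF]
  have hrQ : finrank ℤ (𝓞 K ⧸ W) = finrank ℚ F := by
    have := Submodule.finrank_quotient_add_finrank W
    omega
  obtain ⟨bF⟩ : Nonempty (Basis (Fin (finrank ℚ F)) ℤ (𝓞 F)) :=
    ⟨Module.finBasisOfFinrankEq ℤ (𝓞 F) hrF⟩
  obtain ⟨bQ⟩ : Nonempty (Basis (Fin (finrank ℚ F)) ℤ (𝓞 K ⧸ W)) :=
    ⟨Module.finBasisOfFinrankEq ℤ _ hrQ⟩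
  subst hW
  refine ⟨bF, Basis.sumQuot (bF.map (LinearEquiv.ofInjective f hinj)) bQ, fun i => ?_⟩
  rw [Basis.sumQuot_inl, Basis.map_apply, LinearEquiv.ofInjective_apply, hf]

private lemma gr_conj (F K : Type) [Field F] [CharZero F] [Field K] [Algebra F K]
    (h2 : finrank F K = 2) :
    ∃ σ : K ≃ₐ[F] K, (∀ x : K, algebraMap F K (Algebra.trace F K x) = x + σ x) ∧
      (∀ x : K, σ x = x → ∃ a, algebraMap F K a = x) := by
  classical
  have hq : Algebra.IsQuadraticExtension F K := { finrank_eq_two' := h2 }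
  have hfd : FiniteDimensional F K := FiniteDimensional.of_finrank_pos (by omega)
  have hgal : IsGalois F K := inferInstance
  have hcard : Fintype.card (K ≃ₐ[F] K) = 2 := by
    rw [← Nat.card_eq_fintype_card, IsGalois.card_aut_eq_finrank, h2]
  obtain ⟨σ, hσ⟩ : ∃ σ : K ≃ₐ[F] K, σ ≠ 1 := by
    by_contra hcon
    push Not at hcon
    have : Subsingleton (K ≃ₐ[F] K) := ⟨fun a b => by rw [hcon a, hcon b]⟩
    have := Fintype.card_le_one_iff_subsingleton.2 this
    omega
  have huniv : (Finset.univ : Finset (K ≃ₐ[F] K)) = {1, σ} := by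
    symm
    rw [← Finset.card_eq_iff_eq_univ, hcard, Finset.card_pair (Ne.symm hσ)]
  refine ⟨σ, fun x => ?_, fun x hx => ?_⟩
  · rw [trace_eq_sum_automorphisms, huniv, Finset.sum_pair (Ne.symm hσ)]
    rfl
  · refine (IsGalois.mem_range_algebraMap_iff_fixed x).2 fun f => ?_
    have hf : f ∈ (Finset.univ : Finset (K ≃ₐ[F] K)) := Finset.mem_univ f
    rw [huniv, Finset.mem_insert, Finset.mem_singleton] at hf
    rcases hf with rfl | rfl
    · rfl
    · exact hx

theorem exists_beta (F K : Type) [Field F] [NumberField F] [Field K] [NumberField K]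
    [Algebra F K] (h2 : finrank F K = 2) :
    ∃ (β : Fin (finrank ℚ F) → K) (c : Fin (finrank ℚ F) → Fin (finrank ℚ F) → F),
      (∀ i, IsIntegral ℤ (β i)) ∧ (∀ i, Algebra.trace F K (β i) = 0) ∧
      (∀ i j, algebraMap F K (c i j) = β i * β j) ∧
      |((discr K : ℤ) : ℝ)| = |((discr F : ℤ) : ℝ)| *
        |((Matrix.of fun i j => Algebra.trace ℚ F (c i j)).det : ℝ)| := by
  obtain ⟨bF, B, hB⟩ := gr_basis F K h2
  obtain ⟨σ, hσ1, hσ2⟩ := gr_conj F K h2
  obtain ⟨m, hm⟩ : ∃ m, m = finrank ℚ F := ⟨_, rfl⟩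
  -- the elements
  obtain ⟨t, ht⟩ : ∃ t : Fin (finrank ℚ F) → F,
      ∀ k, t k = Algebra.trace F K (B (Sum.inr k) : K) := ⟨_, fun _ => rfl⟩
  obtain ⟨β, hβ⟩ : ∃ β : Fin (finrank ℚ F) → K,
      ∀ k, β k = 2 * (B (Sum.inr k) : K) - algebraMap F K (t k) := ⟨_, fun _ => rfl⟩
  have htint : ∀ k, IsIntegral ℤ (t k) := by
    intro k
    rw [ht k]
    exact Algebra.isIntegral_trace (B (Sum.inr k)).2
  have hβint : ∀ k, IsIntegral ℤ (β k) := by
    intro k
    rw [hβ k]
    refine IsIntegral.sub ?_ ((htint k).algebraMap)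
    exact IsIntegral.mul (by simpa using (isIntegral_algebraMap (R := ℤ) (A := K) (x := 2)))
      (B (Sum.inr k)).2
  have htr0 : ∀ k, Algebra.trace F K (β k) = 0 := by
    intro k
    have h3 : β k = (2 : F) • (B (Sum.inr k) : K) - algebraMap F K (t k) := by
      rw [hβ k, Algebra.smul_def, map_ofNat]
    rw [h3, map_sub, map_smul, ← ht k, Algebra.trace_algebraMap, h2, smul_eq_mul, nsmul_eq_mul]
    push_cast
    ring
  have hc : ∀ i j, ∃ a : F, algebraMap F K a = β i * β j := by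
    intro i j
    have hneg : ∀ k, σ (β k) = - β k := by
      intro k
      have h3 := hσ1 (β k)
      rw [htr0 k, map_zero] at h3
      linear_combination (-1 : K) * h3
    refine hσ2 _ ?_
    rw [map_mul, hneg, hneg]
    ring
  choose c hc using hc
  refine ⟨β, c, hβint, htr0, hc, ?_⟩
  -- the bases over the rationals
  obtain ⟨bq, hbq⟩ : ∃ bq, bq = bF.localizationLocalization ℚ (nonZeroDivisors ℤ) F := ⟨_, rfl⟩
  obtain ⟨Bq, hBq⟩ : ∃ Bq, Bq = B.localizationLocalization ℚ (nonZeroDivisors ℤ) K := ⟨_, rfl⟩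
  have hbq' : ∀ i, bq i = (bF i : F) := by
    intro i
    rw [hbq, Basis.localizationLocalization_apply]
  have hBq' : ∀ i, Bq i = (B i : K) := by
    intro i
    rw [hBq, Basis.localizationLocalization_apply]
  have hBinl : ∀ i, Bq (Sum.inl i) = algebraMap F K (bq i) := by
    intro i
    rw [hBq', hB, hbq']
    rfl
  have hdF : Algebra.discr ℚ bq = (discr F : ℚ) := by
    rw [hbq, Algebra.discr_localizationLocalization, NumberField.discr_eq_discr]
    rfl
  have hdK : Algebra.discr ℚ Bq = (discr K : ℚ) := by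
    rw [hBq, Algebra.discr_localizationLocalization, NumberField.discr_eq_discr]
    rfl
  obtain ⟨T, hT⟩ : ∃ T : Matrix (Fin (finrank ℚ F)) (Fin (finrank ℚ F)) ℚ,
      T = Matrix.of fun l k => bq.repr (t k) l := ⟨_, rfl⟩
  obtain ⟨P, hP⟩ : ∃ P : Matrix (Fin (finrank ℚ F) ⊕ Fin (finrank ℚ F))
      (Fin (finrank ℚ F) ⊕ Fin (finrank ℚ F)) ℚ,
      P = Matrix.fromBlocks 1 (-T) 0 ((2 : ℚ) • (1 : Matrix _ _ ℚ)) := ⟨_, rfl⟩
  obtain ⟨v, hv⟩ : ∃ v : Fin (finrank ℚ F) ⊕ Fin (finrank ℚ F) → K,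
      v = Sum.elim (fun i => algebraMap F K (bq i)) β := ⟨_, rfl⟩
  have hvP : v = Matrix.vecMul (Bq : _ → K) (P.map (algebraMap ℚ K)) := by
    funext j
    rw [Matrix.vecMul, dotProduct, Fintype.sum_sum_type, hv, hP]
    rcases j with j | k
    · simp only [Sum.elim_inl, Matrix.map_apply, Matrix.fromBlocks_apply₁₁,
        Matrix.fromBlocks_apply₂₁, Matrix.zero_apply, map_zero, mul_zero, Finset.sum_const_zero,
        add_zero, Matrix.one_apply]
      rw [Finset.sum_eq_single j]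
      · rw [if_pos rfl, map_one, mul_one, hBinl]
      · intro i _ hi
        rw [if_neg hi, map_zero, mul_zero]
      · intro h
        exact absurd (Finset.mem_univ _) h
    · simp only [Sum.elim_inr, Matrix.map_apply, Matrix.fromBlocks_apply₁₂,
        Matrix.fromBlocks_apply₂₂, Matrix.neg_apply, Matrix.smul_apply, Matrix.one_apply,
        smul_eq_mul]
      have e1 : ∑ l, Bq (Sum.inr l) * algebraMap ℚ K (2 * if l = k then 1 else 0) =
          2 * (B (Sum.inr k) : K) := by
        rw [Finset.sum_eq_single k]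
        · rw [if_pos rfl, mul_one, map_ofNat, hBq', mul_comm]
        · intro i _ hi
          rw [if_neg hi, mul_zero, map_zero, mul_zero]
        · intro h
          exact absurd (Finset.mem_univ _) h
      have e2 : ∑ l, Bq (Sum.inl l) * algebraMap ℚ K (-T l k) = - algebraMap F K (t k) := by
        have h3 : t k = ∑ l, T l k • bq l := by
          rw [hT]
          simp only [Matrix.of_apply]
          exact (bq.sum_repr (t k)).symm
        rw [h3, map_sum, ← Finset.sum_neg_distrib]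
        refine Finset.sum_congr rfl fun l _ => ?_
        rw [hBinl, Algebra.smul_def, map_mul, map_neg, ← IsScalarTower.algebraMap_apply]
        ring
      rw [e1, e2, hβ k]
      ring
  have hdet : P.det = 2 ^ finrank ℚ F := by
    rw [hP, Matrix.det_fromBlocks_zero₂₁, Matrix.det_one, one_mul, Matrix.det_smul,
      Matrix.det_one, mul_one, Fintype.card_fin]
  have h5 : Algebra.discr ℚ v = (2 ^ finrank ℚ F) ^ 2 * (discr K : ℚ) := by
    rw [hvP, Algebra.discr_of_matrix_vecMul, hdet, hdK]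
  have htm : Algebra.traceMatrix ℚ v = Matrix.fromBlocks ((2 : ℚ) • Algebra.traceMatrix ℚ bq) 0 0
      ((2 : ℚ) • Matrix.of fun i j => Algebra.trace ℚ F (c i j)) := by
    have hal : ∀ a : F, Algebra.trace ℚ K (algebraMap F K a) = 2 * Algebra.trace ℚ F a := by
      intro a
      rw [← Algebra.trace_trace (S := F), Algebra.trace_algebraMap, h2, map_nsmul, nsmul_eq_mul]
      push_cast
      ring
    have hmix : ∀ (a : F) (k), Algebra.trace ℚ K (algebraMap F K a * β k) = 0 := by
      intro a k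
      rw [← Algebra.trace_trace (S := F), ← Algebra.smul_def, map_smul, htr0, smul_zero, map_zero]
    refine Matrix.ext fun i j => ?_
    rw [Algebra.traceMatrix_apply, Algebra.traceForm_apply, hv]
    rcases i with i | i
    · rcases j with j | j
      · rw [Sum.elim_inl, Sum.elim_inl, ← map_mul, hal]
        simp [Algebra.traceMatrix_apply, Algebra.traceForm_apply]
      · rw [Sum.elim_inl, Sum.elim_inr, hmix]
        simp
    · rcases j with j | j
      · rw [Sum.elim_inl, Sum.elim_inr, mul_comm, hmix]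
        simp
      · rw [Sum.elim_inr, Sum.elim_inr, ← hc, hal]
        simp
  have h6 : Algebra.discr ℚ v = (2 ^ finrank ℚ F * (discr F : ℚ)) *
      (2 ^ finrank ℚ F * (Matrix.of fun i j => Algebra.trace ℚ F (c i j)).det) := by
    rw [Algebra.discr_def, htm, Matrix.det_fromBlocks_zero₂₁, Matrix.det_smul, Matrix.det_smul,
      Fintype.card_fin, ← Algebra.discr_def, hdF]
  have h7 : (discr K : ℚ) = (discr F : ℚ) *
      (Matrix.of fun i j => Algebra.trace ℚ F (c i j)).det := by
    have h8 : ((2 : ℚ) ^ finrank ℚ F) ^ 2 ≠ 0 := by positivity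
    apply mul_left_cancel₀ h8
    rw [← h5, h6]
    ring
  have h9 := congrArg (fun q : ℚ => |(q : ℝ)|) h7
  simp only [Rat.cast_mul, abs_mul, Rat.cast_intCast] at h9
  exact h9

end QTow
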