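import Pool.Agent.Lib.MP_44a56e_nt.Defs2
import Pool.Agent.Lib.MP_44a56e_nt.GramA

/-! # MP_44a56e_nt, module GramB: the positive definite form of a quadratic extension.

PROOF of `exists_gram`. Take `β, c` from `exists_beta`. For each `σ : F →+* ℂ` choose an extension
`σ' : K →+* ℂ`. Let `M` be the matrix `σ, k ↦ σ' (β k)`.
(1) `(Mᵀ M) k l = ∑ σ, σ' (β k β l) = ∑ σ, σ (c k l) = Tr_{F/ℚ} (c k l)`, so
`|det M|^2 = |det (Tr (c k l))| = |discr K| / |discr F|`.
(2) `H = Mᴴ M` is real: two extensions of the same embedding have the same products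
`τ (β i) τ (β j)`, hence the same `conj (τ (β i)) τ (β j)`.
(3) `G = H.map re`. For a real vector `x`: `x ⬝ G x = ∑ σ, ‖(M x) σ‖^2`; it is positive definite as
`det M ≠ 0` (`discr_ne_zero`), and `det G = det H = |det M|^2`.
(4) For an integer vector `n ≠ 0` put `s = ∑ k, n k β k`; `α = s^2 = ∑ n k n l c k l ∈ F`, integral;
`‖σ α‖ = ‖σ' s‖^2 = ‖(M n) σ‖^2`; the sum is `n ⬝ G n > 0`, so `s ≠ 0`; as `s` has trace zero,
`s ∉ F` (trace of `x ∈ F` is `2 x`). -/

open NumberField Module

namespace QTow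

private theorem gb_ext (F K : Type) [Field F] [NumberField F] [Field K] [NumberField K]
    [Algebra F K] : ∃ ext : (F →+* ℂ) → (K →+* ℂ), ∀ σ x, ext σ (algebraMap F K x) = σ x := by
  have h : ∀ σ : F →+* ℂ, ∃ τ : K →+* ℂ, ∀ x, τ (algebraMap F K x) = σ x := by
    intro σ
    let _i := σ.toAlgebra
    have hA : Algebra.IsAlgebraic F K := by
      have : IsScalarTower ℚ F K := inferInstance
      exact Algebra.IsAlgebraic.tower_top (K := ℚ) F
    let f : K →ₐ[F] ℂ := IsAlgClosed.lift
    exact ⟨f.toRingHom, fun x => f.commutes x⟩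
  choose ext hext using h
  exact ⟨ext, hext⟩

private theorem gb_sign {a b a' b' : ℂ} (h1 : a * a = b * b) (h2 : a' * a' = b' * b')
    (h3 : a * a' = b * b') : (starRingEnd ℂ) a * a' = (starRingEnd ℂ) b * b' := by
  rcases mul_self_eq_mul_self_iff.1 h1 with h | h
  · rcases mul_self_eq_mul_self_iff.1 h2 with h' | h'
    · rw [h, h']
    · subst h h'
      by_cases ha : a = 0
      · simp [ha]
      · have h4 : b' = 0 := by
          have h5 : a * (-b' - b') = 0 := by linear_combination h3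
          rcases mul_eq_zero.1 h5 with h6 | h6
          · exact absurd h6 ha
          · have h7 : (-2 : ℂ) * b' = 0 := by linear_combination h6
            rcases mul_eq_zero.1 h7 with h8 | h8
            · norm_num at h8
            · exact h8
        simp [h4]
  · rcases mul_self_eq_mul_self_iff.1 h2 with h' | h'
    · subst h h'
      by_cases hb : b = 0
      · simp [hb]
      · have h4 : a' = 0 := by
          have h5 : b * ((-2 : ℂ) * a') = 0 := by linear_combination h3
          rcases mul_eq_zero.1 h5 with h6 | h6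
          · exact absurd h6 hb
          · rcases mul_eq_zero.1 h6 with h8 | h8
            · norm_num at h8
            · exact h8
        simp [h4]
    · rw [h, h', map_neg]; ring

private theorem gb_trace (F : Type) [Field F] [NumberField F] (x : F) :
    ∑ σ : F →+* ℂ, σ x = ((Algebra.trace ℚ F x : ℚ) : ℂ) := by
  have h := trace_eq_sum_embeddings ℂ (K := ℚ) (L := F) (x := x)
  rw [show ((Algebra.trace ℚ F x : ℚ) : ℂ) = algebraMap ℚ ℂ (Algebra.trace ℚ F x) from rfl, h]
  exact Fintype.sum_equiv (RingHom.equivRatAlgHom F ℂ) _ _ fun σ => rfl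

open Matrix in
theorem exists_gram (F K : Type) [Field F] [NumberField F] [Field K] [NumberField K]
    [Algebra F K] (h2 : finrank F K = 2) :
    ∃ (β : Fin (finrank ℚ F) → K) (G : Matrix (Fin (finrank ℚ F)) (Fin (finrank ℚ F)) ℝ),
      G.PosDef ∧ G.det = |((discr K : ℤ) : ℝ)| / |((discr F : ℤ) : ℝ)| ∧
      ∀ n : Fin (finrank ℚ F) → ℤ, n ≠ 0 →
        (∑ k, (n k : K) * β k) ∉ Set.range (algebraMap F K) ∧
        ∃ α : 𝓞 F, algebraMap F K (α : F) = (∑ k, (n k : K) * β k) ^ 2 ∧
          ∑ σ : F →+* ℂ, ‖σ (α : F)‖ =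
            (fun i => (n i : ℝ)) ⬝ᵥ G.mulVec (fun i => (n i : ℝ)) := by
  obtain ⟨β, c, hβi, hβt, hc, hd⟩ := exists_beta F K h2
  obtain ⟨ext, hext⟩ := gb_ext F K
  have hcard : Fintype.card (F →+* ℂ) = finrank ℚ F := NumberField.Embeddings.card F ℂ
  let e : Fin (finrank ℚ F) ≃ (F →+* ℂ) := (Fintype.equivFinOfCardEq hcard).symm
  let M : Matrix (F →+* ℂ) (Fin (finrank ℚ F)) ℂ := Matrix.of fun σ k => ext σ (β k)
  let N : Matrix (Fin (finrank ℚ F)) (Fin (finrank ℚ F)) ℂ := M.submatrix e id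
  have hNN : Nᵀ * N = (Matrix.of fun i j => Algebra.trace ℚ F (c i j)).map
      (fun x : ℚ => (x : ℂ)) := by
    ext i j
    rw [Matrix.mul_apply, Matrix.map_apply, Matrix.of_apply, ← gb_trace]
    rw [← Equiv.sum_comp e]
    refine Finset.sum_congr rfl fun k _ => ?_
    change ext (e k) (β i) * ext (e k) (β j) = (e k) (c i j)
    rw [← map_mul, ← hc, hext]
  have hdetN : ‖N.det‖ ^ 2 = |((discr K : ℤ) : ℝ)| / |((discr F : ℤ) : ℝ)| := by
    have h1 : N.det * N.det = (((Matrix.of fun i j => Algebra.trace ℚ F (c i j)).det : ℚ) : ℂ) := by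
      have h2 := congrArg Matrix.det hNN
      rw [Matrix.det_mul, Matrix.det_transpose] at h2
      rw [h2]
      have h5 := RingHom.map_det (Rat.castHom ℂ) (Matrix.of fun i j => Algebra.trace ℚ F (c i j))
      exact h5.symm
    have h3 : ‖N.det‖ ^ 2 =
        |((Matrix.of fun i j => Algebra.trace ℚ F (c i j)).det : ℝ)| := by
      rw [sq, ← norm_mul, h1]
      have h4 : (((Matrix.of fun i j => Algebra.trace ℚ F (c i j)).det : ℚ) : ℂ) =
          ((((Matrix.of fun i j => Algebra.trace ℚ F (c i j)).det : ℚ) : ℝ) : ℂ) :=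
        (Complex.ofReal_ratCast _).symm
      rw [h4, Complex.norm_real, Real.norm_eq_abs]
    rw [h3, hd]
    have hF : |((discr F : ℤ) : ℝ)| ≠ 0 := by
      rw [abs_ne_zero, Int.cast_ne_zero]
      exact NumberField.discr_ne_zero F
    field_simp
  have hdet0 : N.det ≠ 0 := by
    intro h0
    rw [h0, norm_zero] at hdetN
    have hF : |((discr F : ℤ) : ℝ)| ≠ 0 := by
      rw [abs_ne_zero, Int.cast_ne_zero]
      exact NumberField.discr_ne_zero F
    have hK : |((discr K : ℤ) : ℝ)| ≠ 0 := by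
      rw [abs_ne_zero, Int.cast_ne_zero]
      exact NumberField.discr_ne_zero K
    have := div_ne_zero hK hF
    rw [← hdetN] at this
    norm_num at this
  let H : Matrix (Fin (finrank ℚ F)) (Fin (finrank ℚ F)) ℂ := Nᴴ * N
  have hH : ∀ i j, H i j = ∑ σ : F →+* ℂ, (starRingEnd ℂ) (ext σ (β i)) * ext σ (β j) := by
    intro i j
    change (Nᴴ * N) i j = _
    rw [Matrix.mul_apply, ← Equiv.sum_comp e]
    rfl
  have hreal : ∀ i j, (starRingEnd ℂ) (H i j) = H i j := by
    intro i j
    rw [hH, map_sum]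
    have hinv : Function.Involutive (ComplexEmbedding.conjugate : (F →+* ℂ) → (F →+* ℂ)) :=
      fun σ => star_involutive σ
    refine Fintype.sum_equiv hinv.toPerm _ _ fun σ => ?_
    have hprod : ∀ k l, (starRingEnd ℂ) (ext σ (β k)) * (starRingEnd ℂ) (ext σ (β l)) =
        ext (ComplexEmbedding.conjugate σ) (β k) * ext (ComplexEmbedding.conjugate σ) (β l) := by
      intro k l
      rw [← map_mul, ← map_mul, ← hc, hext, ← map_mul, ← hc, hext]
      rfl
    rw [map_mul]
    exact gb_sign (hprod i i) (hprod j j) (hprod i j)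
  let G : Matrix (Fin (finrank ℚ F)) (Fin (finrank ℚ F)) ℝ := H.map Complex.re
  have hGH : G.map (fun x : ℝ => (x : ℂ)) = H := by
    ext i j
    exact Complex.conj_eq_iff_re.1 (hreal i j)
  have hquad : ∀ x : Fin (finrank ℚ F) → ℝ,
      x ⬝ᵥ G.mulVec x = ∑ σ : F →+* ℂ, ‖∑ k, (x k : ℂ) * ext σ (β k)‖ ^ 2 := by
    intro x
    have h1 : ((x ⬝ᵥ G.mulVec x : ℝ) : ℂ) = ((∑ σ : F →+* ℂ,
        ‖∑ k, (x k : ℂ) * ext σ (β k)‖ ^ 2 : ℝ) : ℂ) := by
      push_cast
      simp only [dotProduct, mulVec]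
      push_cast
      have h2 : ∀ i j, ((G i j : ℝ) : ℂ) =
          ∑ σ : F →+* ℂ, (starRingEnd ℂ) (ext σ (β i)) * ext σ (β j) := by
        intro i j
        rw [← hH, ← hGH]; rfl
      simp only [h2]
      have h3 : ∀ σ : F →+* ℂ, ((‖∑ k, (x k : ℂ) * ext σ (β k)‖ : ℝ) : ℂ) ^ 2 =
          ∑ i, (x i : ℂ) * ∑ j, (starRingEnd ℂ) (ext σ (β i)) * ext σ (β j) * (x j : ℂ) := by
        intro σ
        rw [← Complex.conj_mul', map_sum, Finset.sum_mul]
        refine Finset.sum_congr rfl fun i _ => ?_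
        rw [Finset.mul_sum, Finset.mul_sum]
        refine Finset.sum_congr rfl fun j _ => ?_
        rw [map_mul, Complex.conj_ofReal]
        ring
      simp only [h3]
      rw [Finset.sum_comm]
      refine Finset.sum_congr rfl fun i _ => ?_
      rw [← Finset.mul_sum, Finset.sum_comm]
      congr 1
      refine Finset.sum_congr rfl fun j _ => ?_
      rw [Finset.sum_mul]
    exact_mod_cast h1
  have hzero : ∀ x : Fin (finrank ℚ F) → ℝ, x ≠ 0 → 0 < x ⬝ᵥ G.mulVec x := by
    intro x hx
    rw [hquad]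
    refine lt_of_le_of_ne (Finset.sum_nonneg fun _ _ => sq_nonneg _) fun h0 => hx ?_
    have h1 := (Finset.sum_eq_zero_iff_of_nonneg (fun _ _ => sq_nonneg _)).1 h0.symm
    have h4 : N.mulVec (fun k => (x k : ℂ)) = 0 := by
      ext i
      have h5 := h1 (e i) (Finset.mem_univ _)
      have h6 := norm_eq_zero.1 (pow_eq_zero_iff (two_ne_zero) |>.1 h5)
      rw [Pi.zero_apply, ← h6]
      simp only [mulVec, dotProduct]
      exact Finset.sum_congr rfl fun k _ => mul_comm _ _
    have h7 := Matrix.eq_zero_of_mulVec_eq_zero hdet0 h4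
    ext k
    have h8 := congrFun h7 k
    simpa using h8
  have hGsymm : G.IsHermitian := by
    ext i j
    change (H j i).re = (H i j).re
    have h1 : (starRingEnd ℂ) (H j i) = H i j := by
      rw [hH, hH, map_sum]
      refine Finset.sum_congr rfl fun σ _ => ?_
      rw [map_mul, Complex.conj_conj, mul_comm]
    rw [← h1, Complex.conj_re]
  have hG : G.PosDef := by
    refine Matrix.PosDef.of_dotProduct_mulVec_pos hGsymm fun x hx => ?_
    simpa using hzero x hx
  have hGdet : G.det = |((discr K : ℤ) : ℝ)| / |((discr F : ℤ) : ℝ)| := by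
    have h1 : ((G.det : ℝ) : ℂ) = ((‖N.det‖ ^ 2 : ℝ) : ℂ) := by
      have h2 : ((G.det : ℝ) : ℂ) = (G.map (fun x : ℝ => (x : ℂ))).det :=
        RingHom.map_det Complex.ofRealHom G
      rw [h2, hGH]
      change (Nᴴ * N).det = _
      rw [Matrix.det_mul, Matrix.det_conjTranspose]
      push_cast
      exact Complex.conj_mul' N.det
    rw [← hdetN]
    exact_mod_cast h1
  refine ⟨β, G, hG, hGdet, fun n hn => ?_⟩
  set s : K := ∑ k, (n k : K) * β k with hs
  obtain ⟨α, hα⟩ : ∃ α : F, α = ∑ k, ∑ l, (n k : F) * (n l : F) * c k l := ⟨_, rfl⟩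
  have hαs : algebraMap F K α = s ^ 2 := by
    rw [hα, hs, sq, Finset.sum_mul_sum, map_sum]
    refine Finset.sum_congr rfl fun k _ => ?_
    rw [map_sum]
    refine Finset.sum_congr rfl fun l _ => ?_
    rw [map_mul, map_mul, map_intCast, map_intCast, hc]
    ring
  have hsint : IsIntegral ℤ s := by
    refine IsIntegral.sum _ fun k _ => ?_
    exact IsIntegral.mul (by simpa using (isIntegral_algebraMap (R := ℤ) (A := K) (x := n k)))
      (hβi k)
  have hαint : IsIntegral ℤ α := by
    have h1 : IsIntegral ℤ (algebraMap F K α) := by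
      rw [hαs]; exact hsint.pow 2
    exact (isIntegral_algebraMap_iff (algebraMap F K).injective).1 h1
  have hsum : ∑ σ : F →+* ℂ, ‖σ α‖ =
      (fun i => (n i : ℝ)) ⬝ᵥ G.mulVec (fun i => (n i : ℝ)) := by
    rw [hquad]
    refine Finset.sum_congr rfl fun σ _ => ?_
    rw [← hext, hαs, map_pow, norm_pow, hs, map_sum]
    congr 2
    refine Finset.sum_congr rfl fun k _ => ?_
    rw [map_mul, map_intCast]
    push_cast
    rfl
  have hpos : 0 < ∑ σ : F →+* ℂ, ‖σ α‖ := by
    rw [hsum]
    apply hzero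
    intro h0
    apply hn
    ext k
    have h5 : ((n k : ℤ) : ℝ) = 0 := congrFun h0 k
    change n k = 0
    exact_mod_cast h5
  refine ⟨?_, ⟨α, hαint⟩, hαs, hsum⟩
  rintro ⟨x, hx⟩
  have ht : Algebra.trace F K s = 0 := by
    rw [hs, map_sum]
    refine Finset.sum_eq_zero fun k _ => ?_
    have h1 : (n k : K) * β k = (n k) • β k := by rw [zsmul_eq_mul]
    rw [h1, map_zsmul, hβt, smul_zero]
  rw [← hx, Algebra.trace_algebraMap, h2] at ht
  have hx0 : x = 0 := by
    rcases smul_eq_zero.1 ht with h | h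
    · norm_num at h
    · exact h
  have hα0 : α = 0 := by
    apply (algebraMap F K).injective
    rw [hαs, ← hx, hx0]
    simp
  rw [hα0] at hpos
  simp at hpos

end QTow
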