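import Pool.Agent.Lib.MP_44a56e_nt.Defs2
import Pool.Agent.Lib.MP_44a56e_nt.SFBasic
import Pool.Agent.Lib.MP_44a56e_nt.GramB
import Pool.Agent.Lib.MP_44a56e_nt.Hermite
import Pool.Agent.Lib.MP_44a56e_nt.FCount

/-! # MP_44a56e_nt, module Short: the uniform bound for the number of quadratic extensions.

PROOF of `exists_small`. Algebra structure of `K` over `F` by inclusion, `finrank_quad`; `exists_gram`
and `hermite` (with `m = deg F > 0`): an integer vector `n ≠ 0` with `n ⬝ G n ≤ gam m *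
(det G)^(1/m)`; `s = ∑ n_k β_k`, `α` from `exists_gram`.
PROOF of `quad_count`. `m = deg F`, `D = dabs F`, `R = D^(1/m)`. Finite: `finite_dabs`. If
`X < D^2` the set is empty by `sq_le`. Otherwise let `Q = (X/D)^(1/m) ≥ R`, `r = gam m * Q`,
`a = 23/10 * Q`. Choose `s K, α K` by `exists_small`; `α` is injective on the set: if `α K = α K'`
then `s K' = ± s K ∈ K ∩ K'`, `eq_of_mem`. Apply `count_le` to the image:
`card ≤ D^(-1/2) (a/2 coth(a/(2R)))^m exp(2π(81/100) r/a)`; `a/(2R) ≥ 23/20`, `coth` is decreasing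
on `(0, ∞)`, `a/2 = 23/20 Q`, `Q^m = X/D`, `r/a = gam m/(23/10)`. -/

open NumberField Module

namespace QTow

private theorem sh_gam_nonneg (m : ℕ) : 0 ≤ gam m := by
  unfold gam
  have h1 : 0 ≤ Real.Gamma ((m : ℝ) / 2 + 1) := (Real.Gamma_pos_of_pos (by positivity)).le
  have h2 := Real.rpow_nonneg h1 ((2 : ℝ) / m)
  have h3 := Real.pi_pos
  positivity

private theorem sh_coth_anti {x y : ℝ} (hx : 0 < x) (hxy : x ≤ y) : coth y ≤ coth x := by
  have hy : 0 < y := lt_of_lt_of_le hx hxy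
  have h1 : 0 < Real.sinh x := Real.sinh_pos_iff.2 hx
  have h2 : 0 < Real.sinh y := Real.sinh_pos_iff.2 hy
  have h3 : 0 ≤ Real.sinh (y - x) := Real.sinh_nonneg_iff.2 (sub_nonneg.2 hxy)
  rw [Real.sinh_sub] at h3
  unfold coth
  rw [div_le_div_iff₀ h2 h1]
  linarith

private theorem sh_coth_pos {x : ℝ} (hx : 0 < x) : 0 < coth x := by
  unfold coth
  exact div_pos (Real.cosh_pos x) (Real.sinh_pos_iff.2 hx)

theorem exists_small {F K : SF} [NumberField F] (h : K ∈ Quad F) :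
    ∃ (s : ℂ) (α : 𝓞 F), s ∈ K ∧ s ∉ F ∧ s ^ 2 = ((α : F) : ℂ) ∧
      ∑ σ : F →+* ℂ, ‖σ (α : F)‖ ≤ gam (deg F) * (dabs K / dabs F) ^ ((1 : ℝ) / (deg F : ℝ)) := by
  haveI : NumberField K := quad_numberField h
  letI : Algebra F K := (IntermediateField.inclusion h.2.1).toAlgebra
  have h2 : finrank F K = 2 := finrank_quad h
  have hm : 0 < finrank ℚ F := deg_pos F
  obtain ⟨β, G, hG, hdet, hall⟩ := exists_gram F K h2
  obtain ⟨n, hn0, hn⟩ := hermite hm G hG
  obtain ⟨hnr, α, hα, hsum⟩ := hall n hn0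
  have hmap : ∀ x : F, ((algebraMap F K x : K) : ℂ) = (x : ℂ) := fun x => rfl
  refine ⟨((∑ k, (n k : K) * β k : K) : ℂ), α, (∑ k, (n k : K) * β k : K).2, ?_, ?_, ?_⟩
  · intro hF
    apply hnr
    refine ⟨⟨_, hF⟩, ?_⟩
    apply Subtype.ext
    rw [hmap]
  · rw [← hmap, hα]
    rfl
  · rw [hsum, dabs_eq K, dabs_eq F, ← hdet]
    exact hn

theorem quad_count (F : SF) [NumberField F] (X : ℝ) (hX : 0 < X) :
    (qcount F X : ℝ) ≤ cc (deg F) * X * dabs F ^ (-(3 / 2) : ℝ) := by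
  set D : ℝ := dabs F with hD
  set m : ℕ := deg F with hm
  have hm0 : 0 < m := deg_pos F
  have hD1 : 1 ≤ D := one_le_dabs F
  have hD0 : 0 < D := lt_of_lt_of_le one_pos hD1
  have hmR : (m : ℝ) ≠ 0 := by exact_mod_cast hm0.ne'
  have hc0 : 0 < coth (23 / 20) := sh_coth_pos (by norm_num)
  have hcc : 0 ≤ cc m := by unfold cc; positivity
  set S : Set SF := {K | K ∈ Quad F ∧ dabs K ≤ X} with hS
  have hSfin : S.Finite := by
    refine (finite_dabs X).subset ?_
    intro K hK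
    exact ⟨hK.1.1, hK.2⟩
  by_cases hXD : X < D ^ 2
  · have hempty : S = ∅ := by
      rw [Set.eq_empty_iff_forall_notMem]
      intro K hK
      have h1 := sq_le hK.1
      have h2 := hK.2
      linarith
    have h0 : qcount F X = 0 := by
      unfold qcount
      rw [← hS, hempty, Set.ncard_empty]
    rw [h0, Nat.cast_zero]
    have := Real.rpow_nonneg hD0.le (-(3 / 2) : ℝ)
    positivity
  push Not at hXD
  have hXD0 : 0 < X / D := div_pos hX hD0
  set Q : ℝ := (X / D) ^ ((1 : ℝ) / (m : ℝ)) with hQ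
  have hQ0 : 0 < Q := Real.rpow_pos_of_pos hXD0 _
  have hQm : Q ^ m = X / D := by
    rw [hQ, ← Real.rpow_natCast, ← Real.rpow_mul hXD0.le, one_div, inv_mul_cancel₀ hmR,
      Real.rpow_one]
  have hRQ : D ^ ((1 : ℝ) / (m : ℝ)) ≤ Q := by
    apply Real.rpow_le_rpow hD0.le _ (by positivity)
    rw [le_div_iff₀ hD0]
    nlinarith
  have hR0 : 0 < D ^ ((1 : ℝ) / (m : ℝ)) := Real.rpow_pos_of_pos hD0 _
  have hex : ∀ K : S, ∃ (s : ℂ) (α : 𝓞 F), s ∈ K.1 ∧ s ∉ F ∧ s ^ 2 = ((α : F) : ℂ) ∧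
      ∑ σ : F →+* ℂ, ‖σ (α : F)‖ ≤ gam m * Q := by
    intro K
    obtain ⟨s, α, h1, h2, h3, h4⟩ := exists_small K.2.1
    refine ⟨s, α, h1, h2, h3, h4.trans ?_⟩
    apply mul_le_mul_of_nonneg_left _ (sh_gam_nonneg _)
    apply Real.rpow_le_rpow _ _ (by positivity)
    · haveI : NumberField K.1 := quad_numberField K.2.1
      exact div_nonneg (zero_le_one.trans (one_le_dabs K.1)) hD0.le
    · exact div_le_div_of_nonneg_right K.2.2 hD0.le
  choose s α hs1 hs2 hs3 hs4 using hex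
  have hinj : Function.Injective α := by
    intro K K' hKK
    have h1 : s K ^ 2 = s K' ^ 2 := by rw [hs3, hs3, hKK]
    have h2 : s K ∈ K'.1 := by
      rcases sq_eq_sq_iff_eq_or_eq_neg.1 h1 with h | h
      · rw [h]
        exact hs1 K'
      · rw [h]
        exact neg_mem (hs1 K')
    exact Subtype.ext (eq_of_mem K.2.1 K'.2.1 (hs1 K) h2 (hs2 K))
  haveI : Fintype S := hSfin.fintype
  classical
  have hcard : qcount F X = (Finset.univ.image α).card := by
    rw [Finset.card_image_of_injective _ hinj, Finset.card_univ]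
    unfold qcount
    rw [← hS, Set.ncard_eq_toFinset_card', Set.toFinset_card]
  have hmain := count_le F (23 / 10 * Q) (gam m * Q) (by positivity) (Finset.univ.image α) (by
    intro x hx
    obtain ⟨K, _, rfl⟩ := Finset.mem_image.1 hx
    exact hs4 K)
  rw [← hcard] at hmain
  have hDd : |((discr F : ℤ) : ℝ)| = D := (dabs_eq F).symm
  have hfr : finrank ℚ F = m := rfl
  rw [hDd, hfr] at hmain
  refine hmain.trans ?_
  have e1 : 2 * Real.pi * (81 / 100) * (gam m * Q) / (23 / 10 * Q) =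
      2 * Real.pi * (81 / 100) * gam m / (23 / 10) := by
    field_simp
  have e2 : 23 / 20 ≤ 23 / 10 * Q / (2 * D ^ ((1 : ℝ) / (m : ℝ))) := by
    rw [le_div_iff₀ (by positivity)]
    linarith
  have e3 : coth (23 / 10 * Q / (2 * D ^ ((1 : ℝ) / (m : ℝ)))) ≤ coth (23 / 20) :=
    sh_coth_anti (by norm_num) e2
  have e4 : 0 < coth (23 / 10 * Q / (2 * D ^ ((1 : ℝ) / (m : ℝ)))) :=
    sh_coth_pos (lt_of_lt_of_le (by norm_num) e2)
  have e5 : (23 / 10 * Q / 2 * coth (23 / 10 * Q / (2 * D ^ ((1 : ℝ) / (m : ℝ))))) ^ m ≤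
      (23 / 20 * coth (23 / 20)) ^ m * (X / D) := by
    rw [← hQm, ← mul_pow]
    apply pow_le_pow_left₀ (by positivity)
    calc 23 / 10 * Q / 2 * coth (23 / 10 * Q / (2 * D ^ ((1 : ℝ) / (m : ℝ))))
        ≤ 23 / 10 * Q / 2 * coth (23 / 20) := mul_le_mul_of_nonneg_left e3 (by positivity)
      _ = 23 / 20 * coth (23 / 20) * Q := by ring
  rw [e1]
  have e6 : D ^ (-(3 / 2) : ℝ) = D ^ (-(1 / 2) : ℝ) / D := by
    rw [show (-(3 / 2) : ℝ) = -(1 / 2) - 1 by norm_num, Real.rpow_sub hD0, Real.rpow_one]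
  have e7 : 0 < D ^ (-(1 / 2) : ℝ) := Real.rpow_pos_of_pos hD0 _
  calc D ^ (-(1 / 2) : ℝ) *
        (23 / 10 * Q / 2 * coth (23 / 10 * Q / (2 * D ^ ((1 : ℝ) / (m : ℝ))))) ^ m *
        Real.exp (2 * Real.pi * (81 / 100) * gam m / (23 / 10))
      ≤ D ^ (-(1 / 2) : ℝ) * ((23 / 20 * coth (23 / 20)) ^ m * (X / D)) *
        Real.exp (2 * Real.pi * (81 / 100) * gam m / (23 / 10)) := by
        apply mul_le_mul_of_nonneg_right _ (Real.exp_pos _).le
        exact mul_le_mul_of_nonneg_left e5 e7.le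
    _ = cc m * X * D ^ (-(3 / 2) : ℝ) := by
        rw [e6]
        unfold cc
        ring

end QTow
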