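import Pool.Agent.Lib.MP_44a56e_nt.Defs2
import Pool.Agent.Lib.MP_44a56e_nt.SFBasic
import Pool.Agent.Lib.MP_44a56e_nt.Short
import Pool.Agent.Lib.MP_44a56e_nt.Num1
import Pool.Agent.Lib.MP_44a56e_nt.Num2
import Pool.Agent.Lib.MP_44a56e_nt.QuadSum

/-! # MP_44a56e_nt, module Level: summability over all towers. -/

open NumberField Module

namespace QTow

theorem uniform_bound : ∃ K₀ : ℝ, 0 < K₀ ∧ ∀ (F : SF) [NumberField F] (X : ℝ), 0 < X →
    (qcount F X : ℝ) ≤ K₀ * wt F * X := by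
  obtain ⟨K₀, hK₀, h⟩ := cc_le
  refine ⟨K₀, hK₀, fun F _ X hX => (quad_count F X hX).trans ?_⟩
  have h1 : 0 ≤ dabs F ^ (-(3 / 2) : ℝ) :=
    Real.rpow_nonneg (zero_le_one.trans (one_le_dabs F)) _
  unfold wt
  calc cc (deg F) * X * dabs F ^ (-(3 / 2) : ℝ) ≤
      K₀ * (12 / 5) ^ (deg F) * X * dabs F ^ (-(3 / 2) : ℝ) := by
        gcongr
        exact h _
    _ = K₀ * ((12 / 5) ^ deg F * dabs F ^ (-(3 / 2) : ℝ)) * X := by ring

/-- The levels of the tower. -/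
private def levelL (B : Set SF) : ℕ → Set SF
  | 0 => B
  | k + 1 => ⋃ F ∈ levelL B k, Quad F

private theorem level_fd {B : Set SF} (hfd : ∀ F ∈ B, FiniteDimensional ℚ F) :
    ∀ (k : ℕ) (F : SF), F ∈ levelL B k → FiniteDimensional ℚ F := by
  intro k
  cases k with
  | zero => exact hfd
  | succ k =>
    intro K hK
    simp only [levelL, Set.mem_iUnion] at hK
    obtain ⟨F, _, hK⟩ := hK
    exact hK.1

private theorem level_deg {B : Set SF} (hfd : ∀ F ∈ B, FiniteDimensional ℚ F) :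
    ∀ (k : ℕ) (F : SF), F ∈ levelL B k → 2 ^ k ≤ deg F := by
  intro k
  induction k with
  | zero =>
    intro F hF
    have := numberField_of F (hfd F hF)
    have h := deg_pos F
    rw [pow_zero]
    exact h
  | succ k ih =>
    intro K hK
    simp only [levelL, Set.mem_iUnion] at hK
    obtain ⟨F, hF, hK⟩ := hK
    rw [hK.2.2, pow_succ, mul_comm]
    exact Nat.mul_le_mul_left 2 (ih F hF)

private theorem level_clo (B : Set SF) : Clo B ⊆ ⋃ k, levelL B k := by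
  intro K hK
  rw [Set.mem_iUnion]
  rcases hK with hK | hK
  · exact ⟨0, hK⟩
  · induction hK with
    | @base F K hF hK =>
      refine ⟨1, ?_⟩
      simp only [levelL, Set.mem_iUnion]
      exact ⟨F, hF, hK⟩
    | @step F K _ hK ih =>
      obtain ⟨k, hk⟩ := ih
      refine ⟨k + 1, ?_⟩
      simp only [levelL, Set.mem_iUnion]
      exact ⟨F, hk, hK⟩

private theorem wt_nonneg (F : SF) : 0 ≤ wt F := by
  obtain ⟨n, hn⟩ := dabs_int F
  unfold wt
  rw [hn]
  positivity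

private theorem quad_wt {K₀ : ℝ} (hK₀ : 0 < K₀)
    (hub : ∀ (F : SF) [NumberField F] (X : ℝ), 0 < X → (qcount F X : ℝ) ≤ K₀ * wt F * X)
    (F : SF) [NumberField F] :
    ∑' K : Quad F, ENNReal.ofReal (wt K.1) ≤
      ENNReal.ofReal (7 * K₀ * (144 / 25) ^ deg F * (dabs F)⁻¹) * ENNReal.ofReal (wt F) := by
  have hw := wt_nonneg F
  have hD := one_le_dabs F
  have h1 := quad_sum F (K₀ * wt F) (by positivity) (fun X hX => hub F X hX)
  have h2 : ∀ K : Quad F, ENNReal.ofReal (wt K.1) =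
      ENNReal.ofReal ((144 / 25) ^ deg F) * ENNReal.ofReal (dabs K.1 ^ (-(3 / 2) : ℝ)) := by
    intro K
    rw [← ENNReal.ofReal_mul (by positivity)]
    congr 1
    unfold wt
    rw [K.2.2.2, pow_mul]
    norm_num
  calc ∑' K : Quad F, ENNReal.ofReal (wt K.1) = ∑' K : Quad F,
      ENNReal.ofReal ((144 / 25) ^ deg F) * ENNReal.ofReal (dabs K.1 ^ (-(3 / 2) : ℝ)) :=
        tsum_congr h2
    _ = ENNReal.ofReal ((144 / 25) ^ deg F) *
        ∑' K : Quad F, ENNReal.ofReal (dabs K.1 ^ (-(3 / 2) : ℝ)) := ENNReal.tsum_mul_left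
    _ ≤ ENNReal.ofReal ((144 / 25) ^ deg F) *
        ENNReal.ofReal (7 * (K₀ * wt F) * (dabs F)⁻¹) := by gcongr
    _ = _ := by
        rw [← ENNReal.ofReal_mul (by positivity), ← ENNReal.ofReal_mul (by positivity)]
        congr 1
        ring

private theorem level_succ (B : Set SF) (k : ℕ) :
    levelL B (k + 1) = ⋃ F ∈ levelL B k, Quad F := rfl

private theorem level_sum (B : Set SF) (k : ℕ) :
    ∑' F : levelL B (k + 1), ENNReal.ofReal (wt F.1) ≤
      ∑' F : levelL B k, ∑' K : Quad F.1, ENNReal.ofReal (wt K.1) := by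
  rw [level_succ]
  exact ENNReal.tsum_biUnion_le_tsum (fun K => ENNReal.ofReal (wt K)) (levelL B k) Quad

private theorem level_fac {B : Set SF} (hfd : ∀ F ∈ B, FiniteDimensional ℚ F) {K₀ : ℝ}
    (hK₀ : 0 < K₀)
    (hub : ∀ (F : SF) [NumberField F] (X : ℝ), 0 < X → (qcount F X : ℝ) ≤ K₀ * wt F * X) {m₀ : ℕ}
    (hm₀ : ∀ (F : Type) [Field F] [NumberField F],
      m₀ ≤ finrank ℚ F → 14 * K₀ * (144 / 25) ^ (finrank ℚ F) ≤ |((discr F : ℤ) : ℝ)|)
    (k : ℕ) (F : levelL B k) (hF : m₀ ≤ deg F.1) :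
    ∑' K : Quad F.1, ENNReal.ofReal (wt K.1) ≤ ENNReal.ofReal (1 / 2) *
        ENNReal.ofReal (wt F.1) := by
  have := numberField_of F.1 (level_fd hfd k F.1 F.2)
  refine (quad_wt hK₀ hub F.1).trans ?_
  refine mul_le_mul_left (ENNReal.ofReal_le_ofReal ?_) _
  have h1 : 14 * K₀ * (144 / 25) ^ deg F.1 ≤ dabs F.1 := by
    rw [dabs_eq]
    exact hm₀ F.1 hF
  have hD := one_le_dabs F.1
  rw [← div_eq_mul_inv, div_le_iff₀ (by linarith)]
  linarith

private theorem level_fac' {B : Set SF} (hfd : ∀ F ∈ B, FiniteDimensional ℚ F) {K₀ : ℝ}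
    (hK₀ : 0 < K₀)
    (hub : ∀ (F : SF) [NumberField F] (X : ℝ), 0 < X → (qcount F X : ℝ) ≤ K₀ * wt F * X) {m₀ : ℕ}
    (k : ℕ) (F : levelL B k) (hF : deg F.1 ≤ m₀) :
    ∑' K : Quad F.1, ENNReal.ofReal (wt K.1) ≤ ENNReal.ofReal (7 * K₀ * (144 / 25) ^ m₀) *
        ENNReal.ofReal (wt F.1) := by
  have := numberField_of F.1 (level_fd hfd k F.1 F.2)
  refine (quad_wt hK₀ hub F.1).trans ?_
  refine mul_le_mul_left (ENNReal.ofReal_le_ofReal ?_) _
  have hD := one_le_dabs F.1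
  have h1 : (dabs F.1)⁻¹ ≤ 1 := inv_le_one_of_one_le₀ hD
  have h2 : ((144 : ℝ) / 25) ^ deg F.1 ≤ (144 / 25) ^ m₀ :=
    pow_le_pow_right₀ (by norm_num) hF
  have h3 : 7 * K₀ * (144 / 25) ^ deg F.1 ≤ 7 * K₀ * (144 / 25) ^ m₀ :=
    mul_le_mul_of_nonneg_left h2 (by positivity)
  exact (mul_le_of_le_one_right (by positivity) h1).trans h3

theorem summable_clo (B : Set SF) (hfd : ∀ F ∈ B, FiniteDimensional ℚ F)
    (hsum : Summable fun F : B => wt F.1) : Summable fun F : Clo B => wt F.1 := by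
  obtain ⟨K₀, hK₀, hub⟩ := uniform_bound
  obtain ⟨m₀, hm₀⟩ := discr_large (14 * K₀) (by positivity)
  obtain ⟨S, hS⟩ : ∃ S : ℕ → ENNReal,
      S = fun k => ∑' F : levelL B k, ENNReal.ofReal (wt F.1) := ⟨_, rfl⟩
  obtain ⟨R, hR⟩ : ∃ R : ℝ, R = max (1 / 2) (7 * K₀ * (144 / 25) ^ m₀) := ⟨_, rfl⟩
  have hfac : ∀ (k : ℕ) (F : levelL B k), m₀ ≤ deg F.1 →
      ∑' K : Quad F.1, ENNReal.ofReal (wt K.1) ≤ ENNReal.ofReal (1 / 2) *
        ENNReal.ofReal (wt F.1) := fun k F hF => level_fac hfd hK₀ hub hm₀ k F hF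
  have hfac' : ∀ (k : ℕ) (F : levelL B k),
      ∑' K : Quad F.1, ENNReal.ofReal (wt K.1) ≤ ENNReal.ofReal R *
        ENNReal.ofReal (wt F.1) := by
    intro k F
    by_cases hF : m₀ ≤ deg F.1
    · refine (hfac k F hF).trans (mul_le_mul_left (ENNReal.ofReal_le_ofReal ?_) _)
      rw [hR]
      exact le_max_left _ _
    · refine (level_fac' hfd hK₀ hub k F (not_le.1 hF).le).trans
        (mul_le_mul_left (ENNReal.ofReal_le_ofReal ?_) _)
      rw [hR]
      exact le_max_right _ _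
  have hstep : ∀ k, S (k + 1) ≤ ∑' F : levelL B k, ∑' K : Quad F.1, ENNReal.ofReal (wt K.1) := by
    intro k
    rw [hS]
    exact level_sum B k
  have h1 : ∀ k, S (k + 1) ≤ ENNReal.ofReal R * S k := by
    intro k
    refine (hstep k).trans ((ENNReal.tsum_le_tsum (hfac' k)).trans_eq ?_)
    rw [hS]
    exact ENNReal.tsum_mul_left
  have h2 : ∀ k, m₀ ≤ 2 ^ k → S (k + 1) ≤ ENNReal.ofReal (1 / 2) * S k := by
    intro k hk
    refine (hstep k).trans ((ENNReal.tsum_le_tsum fun F =>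
      hfac k F (hk.trans (level_deg hfd k F.1 F.2))).trans_eq ?_)
    rw [hS]
    exact ENNReal.tsum_mul_left
  have hfin : ∀ k, S k ≠ ⊤ := by
    intro k
    induction k with
    | zero =>
      rw [hS]
      exact hsum.tsum_ofReal_ne_top
    | succ k ih => exact ne_top_of_le_ne_top (ENNReal.mul_ne_top ENNReal.ofReal_ne_top ih) (h1 k)
  obtain ⟨k₀, hk₀⟩ : ∃ k₀ : ℕ, m₀ ≤ 2 ^ k₀ := ⟨m₀, Nat.lt_two_pow_self.le⟩
  have h3 : ∀ j, S (j + k₀) ≤ ENNReal.ofReal ((1 / 2) ^ j) * S k₀ := by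
    intro j
    induction j with
    | zero => simp
    | succ j ih =>
      have e : j + 1 + k₀ = (j + k₀) + 1 := by omega
      rw [e]
      refine (h2 (j + k₀) (hk₀.trans (Nat.pow_le_pow_right (by norm_num) (by omega)))).trans ?_
      rw [pow_succ, mul_comm ((1 / 2 : ℝ) ^ j), ENNReal.ofReal_mul (by norm_num), mul_assoc]
      exact mul_le_mul_right ih _
  have h4 : ∑' j, S (j + k₀) ≠ ⊤ := by
    refine ne_top_of_le_ne_top ?_ (ENNReal.tsum_le_tsum h3)
    rw [ENNReal.tsum_mul_right]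
    refine ENNReal.mul_ne_top ?_ (hfin k₀)
    exact (summable_geometric_of_lt_one (by norm_num) (by norm_num)).tsum_ofReal_ne_top
  have h5 : ∑' k, S k ≠ ⊤ := by
    rw [← (ENNReal.summable (f := fun j => S (j + k₀))).sum_add_tsum_nat_add']
    exact ENNReal.add_ne_top.2 ⟨(ENNReal.sum_lt_top.2 fun k _ => (hfin k).lt_top).ne, h4⟩
  have h6 : ∑' K : Clo B, ENNReal.ofReal (wt K.1) ≠ ⊤ := by
    refine ne_top_of_le_ne_top h5 ?_
    rw [hS]
    exact (ENNReal.tsum_mono_subtype (fun K => ENNReal.ofReal (wt K)) (level_clo B)).trans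
      (ENNReal.tsum_iUnion_le_tsum (fun K => ENNReal.ofReal (wt K)) (levelL B))
  exact (ENNReal.summable_toReal h6).congr fun K => ENNReal.toReal_ofReal (wt_nonneg K.1)

end QTow
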