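import Pool.Agent.Lib.MP_44a56e_nt.Defs2
import Pool.Agent.Lib.MP_44a56e_nt.SFBasic
import Pool.Agent.Lib.MP_44a56e_nt.CubicA
import Pool.Agent.Lib.MP_44a56e_nt.QuadSum
import Pool.Agent.Lib.MP_44a56e_nt.Level

/-! # MP_44a56e_nt, module CubicB: the number fields of degree at most three.

PROOF of `cubic_count`. Each `F` with `deg F = 3`, `dabs F ≤ X` is `ℚ(β)` for a root `β` of one of the
polynomials `T³ + p T + q`, `|p| ≤ C X^(1/2)`, `|q| ≤ C X^(3/4)` (`cubic_poly`); each polynomial has at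
most three roots. So at most `3 (2 C X^(1/2) + 1)(2 C X^(3/4) + 1) ≤ C' X^(5/4)` for `X ≥ 1`.
PROOF of `summable_le_three`. The weight is at most `(12/5)^3 dabs F^(-3/2)`. Degree one: only `⊥`.
Degree two: `F ∈ Quad ⊥` (`deg ⊥ = 1`): `uniform_bound` for `⊥` and `quad_sum`. Degree three: dyadic
blocks `2^j ≤ dabs F < 2^(j+1)`: sum over the block at most `C' 2^(5(j+1)/4) 2^(-3j/2)`, a convergent
geometric series. -/

open NumberField Module

namespace QTow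

private theorem cubicb_poly_card (p q : ℤ) :
    ((Polynomial.X ^ 3 + Polynomial.C (p : ℂ) * Polynomial.X +
      Polynomial.C (q : ℂ) : Polynomial ℂ).roots.toFinset).card ≤ 3 := by
  refine (Multiset.toFinset_card_le _).trans ((Polynomial.card_roots' _).trans ?_)
  compute_degree

private theorem cubicb_mem {p q : ℤ} {β : ℂ} (h : β ^ 3 + p * β + q = 0) :
    β ∈ (Polynomial.X ^ 3 + Polynomial.C (p : ℂ) * Polynomial.X +
      Polynomial.C (q : ℂ) : Polynomial ℂ).roots.toFinset := by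
  rw [Multiset.mem_toFinset, Polynomial.mem_roots']
  constructor
  · have h1 : (Polynomial.X ^ 3 + Polynomial.C (p : ℂ) * Polynomial.X +
      Polynomial.C (q : ℂ) : Polynomial ℂ).Monic := by monicity!
    exact h1.ne_zero
  · simp [Polynomial.IsRoot, h]

theorem cubic_count : ∃ C : ℝ, 0 < C ∧ ∀ X : ℝ, 1 ≤ X →
    (Set.ncard {F : SF | FiniteDimensional ℚ F ∧ deg F = 3 ∧ dabs F ≤ X} : ℝ) ≤
      C * X ^ ((5 : ℝ) / 4) := by
  classical
  obtain ⟨C, hC, hpoly⟩ := cubic_poly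
  refine ⟨3 * (2 * C + 1) ^ 2, by positivity, fun X hX => ?_⟩
  obtain ⟨T, hT⟩ : ∃ T : Set SF, T = {F : SF | FiniteDimensional ℚ F ∧ deg F = 3 ∧ dabs F ≤ X} :=
    ⟨_, rfl⟩
  rw [← hT]
  have hX0 : 0 ≤ X := by linarith
  -- the choice of a generator
  have hex : ∀ F : SF, ∃ β : ℂ, F ∈ T → ∃ (p q : ℤ), β ^ 3 + p * β + q = 0 ∧
      F = IntermediateField.adjoin ℚ {β} ∧ |(p : ℝ)| ≤ C * X ^ ((1 : ℝ) / 2) ∧
      |(q : ℝ)| ≤ C * X ^ ((3 : ℝ) / 4) := by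
    intro F
    by_cases hF : F ∈ T
    · have hF' := hF
      rw [hT] at hF'
      obtain ⟨hfd, hdeg, hle⟩ := hF'
      have : NumberField F := numberField_of F hfd
      obtain ⟨β, p, q, h1, h2, h3, h4⟩ := hpoly F hdeg
      have h0 : 0 ≤ dabs F := le_trans zero_le_one (one_le_dabs F)
      refine ⟨β, fun _ => ⟨p, q, h1, h2, h3.trans ?_, h4.trans ?_⟩⟩
      · exact mul_le_mul_of_nonneg_left (Real.rpow_le_rpow h0 hle (by norm_num)) hC.le
      · exact mul_le_mul_of_nonneg_left (Real.rpow_le_rpow h0 hle (by norm_num)) hC.le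
    · exact ⟨0, fun h => absurd h hF⟩
  choose β hβ using hex
  obtain ⟨P, hP⟩ : ∃ P : ℕ, P = ⌊C * X ^ ((1 : ℝ) / 2)⌋₊ := ⟨_, rfl⟩
  obtain ⟨Q, hQ⟩ : ∃ Q : ℕ, Q = ⌊C * X ^ ((3 : ℝ) / 4)⌋₊ := ⟨_, rfl⟩
  have hA0 : 0 ≤ C * X ^ ((1 : ℝ) / 2) := by positivity
  have hB0 : 0 ≤ C * X ^ ((3 : ℝ) / 4) := by positivity
  obtain ⟨R, hR⟩ : ∃ R : Finset ℂ, R = (Finset.Icc (-(P : ℤ)) P ×ˢ Finset.Icc (-(Q : ℤ)) Q).biUnion
      (fun pq => (Polynomial.X ^ 3 + Polynomial.C (pq.1 : ℂ) * Polynomial.X +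
        Polynomial.C (pq.2 : ℂ) : Polynomial ℂ).roots.toFinset) := ⟨_, rfl⟩
  have hRcard : R.card ≤ ((2 * P + 1) * (2 * Q + 1)) * 3 := by
    rw [hR]
    refine (Finset.card_biUnion_le_card_mul _ _ 3 fun pq _ => cubicb_poly_card pq.1 pq.2).trans ?_
    rw [Finset.card_product, Int.card_Icc, Int.card_Icc]
    have e1 : ((P : ℤ) + 1 - -(P : ℤ)).toNat = 2 * P + 1 := by omega
    have e2 : ((Q : ℤ) + 1 - -(Q : ℤ)).toNat = 2 * Q + 1 := by omega
    rw [e1, e2]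
  have hbd : ∀ (p : ℤ) (x : ℝ), 0 ≤ x → |(p : ℝ)| ≤ x →
      p ∈ Finset.Icc (-((⌊x⌋₊ : ℕ) : ℤ)) ((⌊x⌋₊ : ℕ) : ℤ) := by
    intro p x _ hp
    have h1 : p.natAbs ≤ ⌊x⌋₊ := by
      refine Nat.le_floor ?_
      rw [Nat.cast_natAbs, Int.cast_abs]
      exact hp
    rw [Finset.mem_Icc]
    omega
  have hmaps : ∀ F ∈ T, β F ∈ (R : Set ℂ) := by
    intro F hF
    obtain ⟨p, q, h1, -, h3, h4⟩ := hβ F hF
    rw [Finset.mem_coe, hR, Finset.mem_biUnion]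
    refine ⟨(p, q), Finset.mem_product.2 ⟨?_, ?_⟩, cubicb_mem h1⟩
    · rw [hP]; exact hbd p _ hA0 h3
    · rw [hQ]; exact hbd q _ hB0 h4
  have hinj : Set.InjOn β T := by
    intro F hF G hG hFG
    obtain ⟨_, _, -, h2, -⟩ := hβ F hF
    obtain ⟨_, _, -, h2', -⟩ := hβ G hG
    rw [h2, h2', hFG]
  have hcard : T.ncard ≤ R.card := by
    have h1 := Set.ncard_le_ncard_of_injOn β hmaps hinj R.finite_toSet
    rwa [Set.ncard_coe_finset] at h1
  have hX2 : 1 ≤ X ^ ((1 : ℝ) / 2) := Real.one_le_rpow hX (by norm_num)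
  have hX3 : 1 ≤ X ^ ((3 : ℝ) / 4) := Real.one_le_rpow hX (by norm_num)
  have hPle : (P : ℝ) ≤ C * X ^ ((1 : ℝ) / 2) := by rw [hP]; exact Nat.floor_le hA0
  have hQle : (Q : ℝ) ≤ C * X ^ ((3 : ℝ) / 4) := by rw [hQ]; exact Nat.floor_le hB0
  have h5 : (T.ncard : ℝ) ≤ ((2 * P + 1) * (2 * Q + 1)) * 3 := by
    exact_mod_cast hcard.trans hRcard
  refine h5.trans ?_
  have h6 : (2 * P + 1 : ℝ) ≤ (2 * C + 1) * X ^ ((1 : ℝ) / 2) := by linarith
  have h7 : (2 * Q + 1 : ℝ) ≤ (2 * C + 1) * X ^ ((3 : ℝ) / 4) := by linarith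
  have h8 : X ^ ((5 : ℝ) / 4) = X ^ ((1 : ℝ) / 2) * X ^ ((3 : ℝ) / 4) := by
    rw [← Real.rpow_add (by linarith)]
    norm_num
  rw [h8]
  have h9 : (2 * P + 1 : ℝ) * (2 * Q + 1) ≤
      ((2 * C + 1) * X ^ ((1 : ℝ) / 2)) * ((2 * C + 1) * X ^ ((3 : ℝ) / 4)) :=
    mul_le_mul h6 h7 (by positivity) (by positivity)
  nlinarith

/-- dyadic summation -/
private theorem cubicb_sum (A : Set SF) (hA : ∀ F ∈ A, FiniteDimensional ℚ F) (C : ℝ) (hC : 0 ≤ C)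
    (hcount : ∀ X : ℝ, 1 ≤ X → (Set.ncard {F : SF | F ∈ A ∧ dabs F ≤ X} : ℝ) ≤
      C * X ^ ((5 : ℝ) / 4)) :
    Summable fun F : A => dabs F.1 ^ (-(3 / 2) : ℝ) := by
  classical
  obtain ⟨a, ha⟩ : ∃ a : ℕ → ENNReal, a = fun j : ℕ =>
      ENNReal.ofReal (((2 : ℝ) ^ j) ^ (-(3 / 2) : ℝ)) := ⟨_, rfl⟩
  have hstep : ∀ F : A, ENNReal.ofReal (dabs F.1 ^ (-(3 / 2) : ℝ)) ≤
      ∑' j : ℕ, if dabs F.1 ≤ 2 ^ (j + 1) then a j else 0 := by
    intro F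
    have : NumberField F.1 := numberField_of F.1 (hA F.1 F.2)
    have hx1 : 1 ≤ dabs F.1 := one_le_dabs F.1
    obtain ⟨j, hj1, hj2⟩ := exists_nat_pow_near hx1 (one_lt_two (α := ℝ))
    refine le_trans ?_ (ENNReal.le_tsum j)
    rw [if_pos hj2.le, ha]
    refine ENNReal.ofReal_le_ofReal ?_
    exact Real.rpow_le_rpow_of_nonpos (by positivity) hj1 (by norm_num)
  obtain ⟨r, hr⟩ : ∃ r : ℝ, r = (2 : ℝ) ^ (-(1 / 4) : ℝ) := ⟨_, rfl⟩
  have hr0 : 0 < r := by rw [hr]; positivity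
  have hr1 : r < 1 := by
    rw [hr]
    exact Real.rpow_lt_one_of_one_lt_of_neg (by norm_num) (by norm_num)
  have hterm : ∀ j : ℕ, C * ((2 : ℝ) ^ (j + 1)) ^ ((5 : ℝ) / 4) * ((2 : ℝ) ^ j) ^ (-(3 / 2) : ℝ) =
      C * (2 : ℝ) ^ ((5 : ℝ) / 4) * r ^ j := by
    intro j
    have h2 : (0 : ℝ) < 2 := by norm_num
    have e1 : ((2 : ℝ) ^ (j + 1)) ^ ((5 : ℝ) / 4) = (2 : ℝ) ^ ((5 : ℝ) / 4) *
        (2 : ℝ) ^ ((5 : ℝ) / 4 * j) := by
      rw [← Real.rpow_natCast, ← Real.rpow_mul h2.le, ← Real.rpow_add h2]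
      congr 1
      push_cast
      ring
    have e2 : ((2 : ℝ) ^ j) ^ (-(3 / 2) : ℝ) = (2 : ℝ) ^ (-(3 / 2) * (j : ℝ)) := by
      rw [← Real.rpow_natCast, ← Real.rpow_mul h2.le]
      congr 1
      ring
    have e3 : r ^ j = (2 : ℝ) ^ (-(1 / 4) * (j : ℝ)) := by
      rw [hr, ← Real.rpow_natCast, ← Real.rpow_mul h2.le]
    rw [e1, e2, e3, mul_assoc, mul_assoc, mul_assoc, ← Real.rpow_add h2]
    congr 3
    ring
  have hcnt : ∀ j : ℕ, (∑' F : A, if dabs F.1 ≤ 2 ^ (j + 1) then a j else 0) ≤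
      ENNReal.ofReal (C * (2 : ℝ) ^ ((5 : ℝ) / 4) * r ^ j) := by
    intro j
    obtain ⟨T, hT⟩ : ∃ T : Set SF, T = {F : SF | F ∈ A ∧ dabs F ≤ 2 ^ (j + 1)} := ⟨_, rfl⟩
    have hfin : T.Finite := by
      rw [hT]
      exact (finite_dabs (2 ^ (j + 1))).subset fun K hK => ⟨hA K hK.1, hK.2⟩
    have hmT : ∀ F, F ∈ T ↔ F ∈ A ∧ dabs F ≤ 2 ^ (j + 1) := fun F => by rw [hT]; rfl
    have e1 : (∑' F : A, if dabs F.1 ≤ 2 ^ (j + 1) then a j else 0) = ∑' _ : T, a j := by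
      rw [tsum_subtype A (fun F => if dabs F ≤ 2 ^ (j + 1) then a j else 0),
        tsum_subtype T (fun _ => a j)]
      refine tsum_congr fun F => ?_
      by_cases h1 : F ∈ A
      · by_cases h2 : dabs F ≤ 2 ^ (j + 1)
        · rw [Set.indicator_of_mem h1, if_pos h2, Set.indicator_of_mem ((hmT F).2 ⟨h1, h2⟩)]
        · rw [Set.indicator_of_mem h1, if_neg h2,
            Set.indicator_of_notMem (fun h => h2 ((hmT F).1 h).2)]
      · rw [Set.indicator_of_notMem h1, Set.indicator_of_notMem (fun h => h1 ((hmT F).1 h).1)]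
    have e2 : (T.encard : ENNReal) = ENNReal.ofReal (T.ncard : ℝ) := by
      rw [← hfin.cast_ncard_eq, ENNReal.ofReal_natCast]
      rfl
    rw [e1, ENNReal.tsum_set_const, e2, ha, ← ENNReal.ofReal_mul (Nat.cast_nonneg _), ← hterm j]
    refine ENNReal.ofReal_le_ofReal (mul_le_mul_of_nonneg_right ?_ ?_)
    · rw [hT]
      exact hcount _ (one_le_pow₀ (by norm_num))
    · positivity
  have hfin : ∑' F : A, ENNReal.ofReal (dabs F.1 ^ (-(3 / 2) : ℝ)) ≠ ⊤ := by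
    have h1 : ∑' F : A, ENNReal.ofReal (dabs F.1 ^ (-(3 / 2) : ℝ)) ≤
        ENNReal.ofReal (∑' j : ℕ, C * (2 : ℝ) ^ ((5 : ℝ) / 4) * r ^ j) := by
      calc ∑' F : A, ENNReal.ofReal (dabs F.1 ^ (-(3 / 2) : ℝ)) ≤
          ∑' F : A, ∑' j : ℕ, (if dabs F.1 ≤ 2 ^ (j + 1) then a j else 0) :=
            ENNReal.tsum_le_tsum hstep
        _ = ∑' j : ℕ, ∑' F : A, (if dabs F.1 ≤ 2 ^ (j + 1) then a j else 0) :=
            ENNReal.tsum_comm
        _ ≤ ∑' j : ℕ, ENNReal.ofReal (C * (2 : ℝ) ^ ((5 : ℝ) / 4) * r ^ j) :=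
            ENNReal.tsum_le_tsum hcnt
        _ = ENNReal.ofReal (∑' j : ℕ, C * (2 : ℝ) ^ ((5 : ℝ) / 4) * r ^ j) := by
            rw [ENNReal.ofReal_tsum_of_nonneg (fun j => by positivity)
              ((summable_geometric_of_lt_one hr0.le hr1).mul_left _)]
    exact ne_top_of_le_ne_top ENNReal.ofReal_ne_top h1
  have hs := ENNReal.summable_toReal hfin
  refine hs.congr fun F => ?_
  have : NumberField F.1 := numberField_of F.1 (hA F.1 F.2)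
  have h0 : 0 ≤ dabs F.1 := le_trans zero_le_one (one_le_dabs F.1)
  exact ENNReal.toReal_ofReal (Real.rpow_nonneg h0 _)

theorem summable_le_three :
    Summable fun F : {F : SF // FiniteDimensional ℚ F ∧ deg F ≤ 3} => wt F.1 := by
  classical
  obtain ⟨C3, hC3, h3⟩ := cubic_count
  obtain ⟨K₀, hK₀, hub⟩ := uniform_bound
  obtain ⟨A, hA⟩ : ∃ A : Set SF, A = {F : SF | FiniteDimensional ℚ F ∧ deg F ≤ 3} := ⟨_, rfl⟩
  have hmA : ∀ F, F ∈ A ↔ FiniteDimensional ℚ F ∧ deg F ≤ 3 := fun F => by rw [hA]; rfl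
  have hbotd : deg (⊥ : SF) = 1 := by
    rw [deg]
    exact IntermediateField.finrank_bot
  have hbot : NumberField (⊥ : SF) := numberField_of ⊥ inferInstance
  have hwbot : 0 ≤ wt (⊥ : SF) := by
    rw [wt]
    have h0 : 0 ≤ dabs (⊥ : SF) := le_trans zero_le_one (one_le_dabs _)
    positivity
  have hcount : ∀ X : ℝ, 1 ≤ X → (Set.ncard {F : SF | F ∈ A ∧ dabs F ≤ X} : ℝ) ≤
      (1 + K₀ * wt ⊥ + C3) * X ^ ((5 : ℝ) / 4) := by
    intro X hX
    have hsub : {F : SF | F ∈ A ∧ dabs F ≤ X} ⊆ {⊥} ∪ ({K | K ∈ Quad ⊥ ∧ dabs K ≤ X} ∪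
        {F : SF | FiniteDimensional ℚ F ∧ deg F = 3 ∧ dabs F ≤ X}) := by
      rintro F ⟨hF, hle⟩
      obtain ⟨hfd, hdeg⟩ := (hmA F).1 hF
      have : NumberField F := numberField_of F hfd
      have hpos := deg_pos F
      have hcases : deg F = 1 ∨ deg F = 2 ∨ deg F = 3 := by omega
      rcases hcases with h | h | h
      · left
        exact IntermediateField.finrank_eq_one_iff.1 h
      · right; left
        refine ⟨⟨hfd, bot_le, ?_⟩, hle⟩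
        rw [h, hbotd]
      · right; right
        exact ⟨hfd, h, hle⟩
    have hf2 : {K | K ∈ Quad ⊥ ∧ dabs K ≤ X}.Finite :=
      (finite_dabs X).subset fun K hK => ⟨hK.1.1, hK.2⟩
    have hf3 : {F : SF | FiniteDimensional ℚ F ∧ deg F = 3 ∧ dabs F ≤ X}.Finite :=
      (finite_dabs X).subset fun K hK => ⟨hK.1, hK.2.2⟩
    have h4 := Set.ncard_le_ncard hsub ((Set.finite_singleton _).union (hf2.union hf3))
    have h5 := Set.ncard_union_le ({⊥} : Set SF) ({K | K ∈ Quad ⊥ ∧ dabs K ≤ X} ∪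
        {F : SF | FiniteDimensional ℚ F ∧ deg F = 3 ∧ dabs F ≤ X})
    have h6 := Set.ncard_union_le {K | K ∈ Quad ⊥ ∧ dabs K ≤ X}
      {F : SF | FiniteDimensional ℚ F ∧ deg F = 3 ∧ dabs F ≤ X}
    rw [Set.ncard_singleton] at h5
    have h7 : (Set.ncard {F : SF | F ∈ A ∧ dabs F ≤ X} : ℝ) ≤ 1 + (qcount ⊥ X +
        (Set.ncard {F : SF | FiniteDimensional ℚ F ∧ deg F = 3 ∧ dabs F ≤ X} : ℝ)) := by
      have h8 : Set.ncard {F : SF | F ∈ A ∧ dabs F ≤ X} ≤ 1 + (qcount ⊥ X +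
        Set.ncard {F : SF | FiniteDimensional ℚ F ∧ deg F = 3 ∧ dabs F ≤ X}) := by
        unfold qcount
        omega
      exact_mod_cast h8
    refine h7.trans ?_
    have h9 := hub ⊥ X (by linarith)
    have h10 := h3 X hX
    have h11 : X ≤ X ^ ((5 : ℝ) / 4) := by
      calc X = X ^ (1 : ℝ) := (Real.rpow_one X).symm
        _ ≤ X ^ ((5 : ℝ) / 4) := Real.rpow_le_rpow_of_exponent_le hX (by norm_num)
    have h12 : K₀ * wt ⊥ * X ≤ K₀ * wt ⊥ * X ^ ((5 : ℝ) / 4) :=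
      mul_le_mul_of_nonneg_left h11 (by positivity)
    have h13 : 1 ≤ X ^ ((5 : ℝ) / 4) := by linarith
    nlinarith
  have hs := cubicb_sum A (fun F hF => ((hmA F).1 hF).1) _ (by positivity) hcount
  subst hA
  refine Summable.of_nonneg_of_le (fun F => ?_) (fun F => ?_) (hs.mul_left ((12 / 5 : ℝ) ^ 3))
  · have : NumberField F.1 := numberField_of F.1 F.2.1
    have h0 : 0 ≤ dabs F.1 := le_trans zero_le_one (one_le_dabs F.1)
    unfold wt
    positivity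
  · have : NumberField F.1 := numberField_of F.1 F.2.1
    have h0 : 0 ≤ dabs F.1 := le_trans zero_le_one (one_le_dabs F.1)
    unfold wt
    exact mul_le_mul_of_nonneg_right (pow_le_pow_right₀ (by norm_num) F.2.2)
      (Real.rpow_nonneg h0 _)

end QTow
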