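import Mathlib

/-!
# Counting number fields obtained by successive quadratic extensions (MP_44a56e_nt): definitions
-/

open NumberField Filter Topology

namespace QTow

/-- Subfields of the complex numbers. -/
abbrev SF : Type := IntermediateField ℚ ℂ

/-- A finite subfield of `ℂ` is a number field. -/
theorem numberField_of (K : SF) (h : FiniteDimensional ℚ K) : NumberField K :=
  { to_charZero := inferInstance, to_finiteDimensional := h }

open Classical in
/-- The absolute value of the discriminant of the number field `K` (and `0` if the subfield `K`
of `ℂ` is not a number field). -/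
noncomputable def dabs (K : SF) : ℝ :=
  if h : FiniteDimensional ℚ K then
    |((@NumberField.discr K _ (numberField_of K h) : ℤ) : ℝ)| else 0

/-- The degree of the number field `K` over `ℚ`. -/
noncomputable def deg (K : SF) : ℕ := Module.finrank ℚ K

/-- The quadratic extensions of the number field `F` inside `ℂ`. -/
def Quad (F : SF) : Set SF :=
  {K | FiniteDimensional ℚ K ∧ F ≤ K ∧ deg K = 2 * deg F}

/-- The number fields obtained from members of `B` by one or more successive quadratic
extensions. -/
inductive Tow (B : Set SF) : SF → Prop
  | base {F K : SF} : F ∈ B → K ∈ Quad F → Tow B K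
  | step {F K : SF} : Tow B F → K ∈ Quad F → Tow B K

/-- The members of `B` and the number fields obtained from them by successive quadratic
extensions. -/
def Clo (B : Set SF) : Set SF := {K | K ∈ B ∨ Tow B K}

/-- The number of isomorphism classes of number fields in `S` with absolute discriminant less
than `X`. -/
noncomputable def countIso (S : Set SF) (X : ℝ) : ℕ :=
  Nat.card (Quot fun K L : {K : SF // K ∈ S ∧ FiniteDimensional ℚ K ∧ dabs K < X} =>
    Nonempty (K.1 ≃ₐ[ℚ] L.1))

/-- The set `S` of subfields of `ℂ` is closed under isomorphisms. -/
def IsoClosed (S : Set SF) : Prop :=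
  ∀ K ∈ S, ∀ L : SF, Nonempty (K ≃ₐ[ℚ] L) → L ∈ S

/-- The number of quadratic extensions `K` of `F` with absolute discriminant at most `X`. -/
noncomputable def qcount (F : SF) (X : ℝ) : ℕ := Set.ncard {K | K ∈ Quad F ∧ dabs K ≤ X}

end QTow
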