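import Pool.Agent.Lib.MP_44a56e_nt.Defs

/-!
# Auxiliary definitions (MP_44a56e_nt)
-/

open NumberField Filter Topology Module

namespace QTow

/-- The quadratic extensions `K` of `F` whose group of automorphisms is not of order two. -/
def Bad (F : SF) : Set SF := {K | K ∈ Quad F ∧ Nat.card (K ≃ₐ[ℚ] K) ≠ 2}

/-- The Hermite-Minkowski constant. -/
noncomputable def gam (m : ℕ) : ℝ :=
  4 / Real.pi * Real.Gamma ((m : ℝ) / 2 + 1) ^ ((2 : ℝ) / m)

/-- The hyperbolic cotangent. -/
noncomputable def coth (x : ℝ) : ℝ := Real.cosh x / Real.sinh x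

/-- The constant of the uniform bound in degree `m`. -/
noncomputable def cc (m : ℕ) : ℝ :=
  (23 / 20 * coth (23 / 20)) ^ m * Real.exp (2 * Real.pi * (81 / 100) * gam m / (23 / 10))

/-- The weight of a number field in the sums over all fields. -/
noncomputable def wt (F : SF) : ℝ := (12 / 5 : ℝ) ^ deg F * dabs F ^ (-(3 / 2) : ℝ)

/-- The ideal `I` is squarefree: it is not contained in the square of a prime ideal (the zero
ideal is not squarefree). -/
def SqFree {R : Type} [CommRing R] (I : Ideal R) : Prop :=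
  ∀ P : Ideal R, P.IsPrime → ¬ I ≤ P ^ 2

/-- The element `α` of `𝔟 ^ 2` is squarefree relative to `𝔟 ^ 2`. -/
def SqF {R : Type} [CommRing R] (𝔟 : Ideal R) (α : R) : Prop :=
  α ∈ 𝔟 ^ 2 ∧ ∀ P : Ideal R, P.IsPrime → α ∉ P ^ 2 * 𝔟 ^ 2

section cone
variable (F : Type) [Field F] [NumberField F]

/-- The integer `α` of `F` lies in the fundamental cone. -/
def InCone (α : 𝓞 F) : Prop := mixedEmbedding F (α : F) ∈ mixedEmbedding.fundamentalCone F

/-- The absolute value of the norm of the integer `α` of `F`. -/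
noncomputable def nrm (α : 𝓞 F) : ℝ := |((Algebra.norm ℤ α : ℤ) : ℝ)|

open InfinitePlace Units in
/-- The density of the integers of `F` in the fundamental cone with respect to the norm. -/
noncomputable def kap : ℝ :=
  2 ^ nrRealPlaces F * (2 * Real.pi) ^ nrComplexPlaces F * regulator F /
    Real.sqrt |((discr F : ℤ) : ℝ)|

end cone

/-- The set `P` is periodic modulo the ideal `I`. -/
def Per {R : Type} [CommRing R] (I : Ideal R) (P : Set R) : Prop :=
  ∀ x y, x - y ∈ I → (x ∈ P ↔ y ∈ P)

/-- The density of a set that is periodic modulo the ideal `I`. -/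
noncomputable def dens {R : Type} [CommRing R] [IsDedekindDomain R] [Module.Free ℤ R]
    (I : Ideal R) (P : Set R) : ℝ :=
  (Set.ncard (Ideal.Quotient.mk I '' P) : ℝ) / (Ideal.absNorm I : ℝ)

end QTow
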