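import Pool.Agent.Lib.MP_44a56e_nt.Defs2
import Pool.Agent.Lib.MP_44a56e_nt.SFBasic

/-! # MP_44a56e_nt, module TwoA: fields with a Galois closure of 2-power degree are towers.

PROOF of `tow_of_two_group`. `L = normalClosure ℚ K ℂ`, a finite Galois extension of `ℚ` with
`Nat.card (L ≃ₐ[ℚ] L) = 2^k` (`IsGalois.card_aut_eq_finrank`), `K ≤ L` (`le_normalClosure`-like).
Claim: every `K : SF` with `K ≤ L` is `⊥` or satisfies `Tow {⊥} K`; strong induction on `deg K`. `K' ` =
`K` as an intermediate field of `L / ℚ`, `H = K'.fixingSubgroup`, `Nat.card H = 2^n`, `n ≤ k`. If `n = k`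
then `K = ⊥`. If `n < k`: `Sylow.exists_subgroup_card_pow_succ` gives `H ≤ H'` with
`Nat.card H' = 2^(n+1)`; `F' = fixedField H' ≤ K'`, `finrank ℚ F' = 2^(k-n-1)`, `finrank ℚ K' = 2^(k-n)`;
lift to `F : SF` (`IntermediateField.lift`, or map under the inclusion): `K ∈ Quad F`; induction for
`F`: `F = ⊥` gives `Tow.base`, `Tow {⊥} F` gives `Tow.step`. -/

open NumberField Module

namespace QTow

private theorem twoa_lift_mono {L : SF} {F E : IntermediateField ℚ L} (h : F ≤ E) :
    IntermediateField.lift F ≤ IntermediateField.lift E := by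
  intro x hx
  have hxL : x ∈ L := IntermediateField.lift_le F hx
  exact (IntermediateField.mem_lift ⟨x, hxL⟩).2 (h ((IntermediateField.mem_lift ⟨x, hxL⟩).1 hx))

private theorem twoa_lift_finrank {L : SF} (F : IntermediateField ℚ L) :
    finrank ℚ (IntermediateField.lift F) = finrank ℚ F :=
  ((IntermediateField.liftAlgEquiv F).toLinearEquiv.finrank_eq).symm

private theorem twoa_main (L : SF) [FiniteDimensional ℚ L] [IsGalois ℚ L] {k : ℕ}
    (hk : finrank ℚ L = 2 ^ k) (j : ℕ) (E : IntermediateField ℚ L) (hE : finrank ℚ E ≤ j) :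
    IntermediateField.lift E = ⊥ ∨ Tow {⊥} (IntermediateField.lift E) := by
  induction j generalizing E with
  | zero =>
    have h1 : 0 < finrank ℚ E := finrank_pos
    omega
  | succ j ih =>
    have hcard : Nat.card (L ≃ₐ[ℚ] L) = 2 ^ k := by rw [IsGalois.card_aut_eq_finrank, hk]
    have hE2 : finrank ℚ E * finrank E L = 2 ^ k := by rw [finrank_mul_finrank, hk]
    have hH : Nat.card E.fixingSubgroup = finrank E L := IsGalois.card_fixingSubgroup_eq_finrank E
    obtain ⟨n, hnk, hn⟩ := (Nat.dvd_prime_pow Nat.prime_two).1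
      (Dvd.intro_left _ hE2 : finrank E L ∣ 2 ^ k)
    rcases hnk.lt_or_eq with hlt | heq
    · right
      obtain ⟨H', hH', hle⟩ := Sylow.exists_subgroup_card_pow_succ (p := 2) (n := n)
        (G := L ≃ₐ[ℚ] L) (by rw [hcard]; exact pow_dvd_pow 2 hlt) (hH.trans hn)
      obtain ⟨F, hFd⟩ : ∃ F, F = IntermediateField.fixedField H' := ⟨_, rfl⟩
      have hFE : F ≤ E := by
        have h1 := IntermediateField.fixedField_le hle
        rw [IsGalois.fixedField_fixingSubgroup] at h1
        rw [hFd]
        exact h1
      have hFL : finrank F L = 2 ^ (n + 1) := by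
        rw [hFd, IntermediateField.finrank_fixedField_eq_card, hH']
      have hF2 : finrank ℚ F * finrank F L = 2 ^ k := by rw [finrank_mul_finrank, hk]
      have hEF : finrank ℚ E = 2 * finrank ℚ F := by
        rw [hFL, pow_succ] at hF2
        rw [hn] at hE2
        have h2 : 0 < 2 ^ n := by positivity
        have h3 : finrank ℚ E * 2 ^ n = (2 * finrank ℚ F) * 2 ^ n := by
          rw [hE2, ← hF2]; ring
        exact Nat.eq_of_mul_eq_mul_right h2 h3
      have hFpos : 0 < finrank ℚ F := finrank_pos
      have hquad : IntermediateField.lift E ∈ Quad (IntermediateField.lift F) := by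
        refine ⟨?_, twoa_lift_mono hFE, ?_⟩
        · exact (IntermediateField.liftAlgEquiv E).toLinearEquiv.finiteDimensional
        · rw [deg, deg, twoa_lift_finrank, twoa_lift_finrank, hEF]
      rcases ih F (by omega) with h4 | h4
      · exact Tow.base (Set.mem_singleton_iff.2 h4) hquad
      · exact Tow.step h4 hquad
    · left
      rw [hn, heq] at hE2
      have h2 : finrank ℚ E = 1 := by
        have h3 : 0 < 2 ^ k := by positivity
        have h5 : finrank ℚ E * 2 ^ k = 1 * 2 ^ k := by rw [hE2, one_mul]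
        exact Nat.eq_of_mul_eq_mul_right h3 h5
      have h6 : finrank ℚ (IntermediateField.lift E) = 1 := by rw [twoa_lift_finrank, h2]
      exact IntermediateField.finrank_eq_one_iff.1 h6

theorem tow_of_two_group (K : SF) [NumberField K]
    (h : ∃ k : ℕ, finrank ℚ (IntermediateField.normalClosure ℚ K ℂ) = 2 ^ k) :
    K = ⊥ ∨ Tow {⊥} K := by
  obtain ⟨k, hk⟩ := h
  have hnc : IsNormalClosure ℚ K (IntermediateField.normalClosure ℚ K ℂ) :=
    Algebra.IsAlgebraic.isNormalClosure_normalClosure fun x => IsAlgClosed.splits _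
  have hnorm : Normal ℚ (IntermediateField.normalClosure ℚ K ℂ) := hnc.normal
  have hfin : FiniteDimensional ℚ (IntermediateField.normalClosure ℚ K ℂ) := inferInstance
  have hgal : IsGalois ℚ (IntermediateField.normalClosure ℚ K ℂ) := ⟨⟩
  have hle : K ≤ IntermediateField.normalClosure ℚ K ℂ := IntermediateField.le_normalClosure K
  have h1 := twoa_main (IntermediateField.normalClosure ℚ K ℂ) hk _
    (IntermediateField.restrict hle) le_rfl
  rwa [IntermediateField.lift_restrict] at h1

end QTow
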