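import Pool.Agent.Lib.MP_44a56e_nt.Defs2
import Pool.Agent.Lib.MP_44a56e_nt.SFBasic

/-! # MP_44a56e_nt, module TwoB: the Galois closure of a tower of quadratic extensions.

PROOF of `adjoin_roots`. Induction on the finite set `A`: `L ⊔ adjoin (insert s A) = (L ⊔ adjoin A)(s)`
and `s² ∈ L`, so the degree is multiplied by `1` or `2`.
PROOF of `two_group_quad`. `L = normalClosure ℚ F ℂ`, of degree `2^k`, `F ≤ L`. `s ∈ K \ F`,
`s² = α ∈ F` (`exists_sqrt_mem`), `K = F ⊔ ℚ⟮s⟯` (`eq_of_mem`-like: `[K : F] = 2`). Let `A` be the finite set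
of the images `f s`, `f : K →ₐ[ℚ] ℂ`: `(f s)² = f α ∈ L`, because `f` maps `F` into `L` (the normal closure
contains the range of each embedding of `F`). So the range of each `f` is in `M = L ⊔ adjoin ℚ A`,
hence `normalClosure ℚ K ℂ ≤ M` (`normalClosure_le_iff`, it is the supremum of the ranges), and its degree
divides `finrank ℚ M`, a power of two (`adjoin_roots`); `Nat.dvd_prime_pow`.
PROOF of `two_group_of_tow`. Induction on `Tow`; `normalClosure ℚ ⊥ ℂ = ⊥` has degree `1`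
(the fields in a tower are number fields: `quad_numberField`). -/

open NumberField Module

namespace QTow

theorem adjoin_roots (L : SF) [FiniteDimensional ℚ L] (hL : ∃ k : ℕ, finrank ℚ L = 2 ^ k)
    (A : Finset ℂ) (hA : ∀ s ∈ A, s ^ 2 ∈ L) :
    ∃ M : SF, FiniteDimensional ℚ M ∧ L ≤ M ∧ (∀ s ∈ A, s ∈ M) ∧ ∃ k : ℕ, finrank ℚ M = 2 ^ k := by
  classical
  induction A using Finset.induction_on with
  | empty => exact ⟨L, inferInstance, le_rfl, by simp, hL⟩
  | insert s A hs ih =>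
    obtain ⟨M, hM, hLM, hAM, k, hk⟩ := ih fun t ht => hA t (Finset.mem_insert_of_mem ht)
    by_cases hsM : s ∈ M
    · refine ⟨M, hM, hLM, ?_, k, hk⟩
      intro t ht
      rcases Finset.mem_insert.1 ht with rfl | ht
      · exact hsM
      · exact hAM t ht
    · have : NumberField M := numberField_of M hM
      obtain ⟨K, ⟨hKf, hMK, hdeg⟩, hsK⟩ :=
        exists_quad M (hLM (hA s (Finset.mem_insert_self s A))) hsM
      refine ⟨K, hKf, hLM.trans hMK, ?_, k + 1, ?_⟩
      · intro t ht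
        rcases Finset.mem_insert.1 ht with rfl | ht
        · exact hsK
        · exact hMK (hAM t ht)
      · have h1 : finrank ℚ K = 2 * finrank ℚ M := hdeg
        rw [h1, hk, pow_succ]
        ring

private theorem twob_dvd {A B : SF} (h : A ≤ B) : finrank ℚ A ∣ finrank ℚ B :=
  ⟨A.relfinrank B, (IntermediateField.finrank_bot_mul_relfinrank h).symm⟩

private theorem twob_mid {F N K : SF} (h : K ∈ Quad F) (hFN : F ≤ N) (hNK : N ≤ K) {s : ℂ}
    (hs : s ∈ N) (hsF : s ∉ F) : N = K := by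
  have : FiniteDimensional ℚ K := h.1
  have : NumberField F := quad_base h
  have hF0 : 0 < deg F := deg_pos F
  obtain ⟨a, ha⟩ := twob_dvd hFN
  obtain ⟨b, hb⟩ := twob_dvd hNK
  have hdeg : finrank ℚ K = 2 * finrank ℚ F := h.2.2
  have hF1 : 0 < finrank ℚ F := hF0
  have hab : a * b = 2 := by
    have h1 : finrank ℚ F * (a * b) = finrank ℚ F * 2 := by
      rw [← mul_assoc, ← ha, ← hb, hdeg, mul_comm]
    exact Nat.eq_of_mul_eq_mul_left hF1 h1
  have : FiniteDimensional ℚ N := by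
    have h2 : 0 < finrank ℚ N := by
      rw [ha]
      refine Nat.mul_pos hF1 (Nat.pos_of_ne_zero ?_)
      rintro rfl
      simp at hab
    exact Module.finite_of_finrank_pos h2
  have ha2 : a ∣ 2 := ⟨b, hab.symm⟩
  rcases (Nat.dvd_prime Nat.prime_two).1 ha2 with h1 | h1
  · exfalso
    have h3 : F = N := IntermediateField.eq_of_le_of_finrank_eq hFN (by rw [ha, h1, mul_one])
    exact hsF (h3 ▸ hs)
  · refine IntermediateField.eq_of_le_of_finrank_eq hNK ?_
    rw [ha, h1, hdeg, mul_comm]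

theorem two_group_quad {F K : SF} (h : K ∈ Quad F)
    (hF : ∃ k : ℕ, finrank ℚ (IntermediateField.normalClosure ℚ F ℂ) = 2 ^ k) :
    ∃ k : ℕ, finrank ℚ (IntermediateField.normalClosure ℚ K ℂ) = 2 ^ k := by
  classical
  have : FiniteDimensional ℚ K := h.1
  obtain ⟨L, hLd⟩ : ∃ L : SF, L = IntermediateField.normalClosure ℚ F ℂ := ⟨_, rfl⟩
  rw [← hLd] at hF
  have : FiniteDimensional ℚ L := by
    obtain ⟨k, hk⟩ := hF
    exact Module.finite_of_finrank_pos (by rw [hk]; positivity)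
  obtain ⟨s, hsK, hsF, hs2⟩ := exists_sqrt_mem h
  have hfin : (Set.range fun f : K →ₐ[ℚ] ℂ => f ⟨s, hsK⟩).Finite := Set.finite_range _
  have hfF : ∀ (f : K →ₐ[ℚ] ℂ) (x : ℂ) (hx : x ∈ F), f ⟨x, h.2.1 hx⟩ ∈ L := by
    intro f x hx
    rw [hLd]
    exact (f.comp (IntermediateField.inclusion h.2.1)).fieldRange_le_normalClosure
      ⟨⟨x, hx⟩, rfl⟩
  obtain ⟨M, hM, hLM, hAM, k, hk⟩ := adjoin_roots L hF hfin.toFinset (by
    intro t ht
    rw [Set.Finite.mem_toFinset] at ht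
    obtain ⟨f, rfl⟩ := ht
    have h1 := hfF f (s ^ 2) hs2
    have h2 : (f ⟨s, hsK⟩) ^ 2 = f ⟨s ^ 2, h.2.1 hs2⟩ := by
      rw [← map_pow]
      rfl
    change (f ⟨s, hsK⟩) ^ 2 ∈ L
    rw [h2]
    exact h1)
  have hle : IntermediateField.normalClosure ℚ K ℂ ≤ M := by
    rw [normalClosure_le_iff]
    intro f
    -- the preimage of `M` in `K`
    obtain ⟨N, hN⟩ : ∃ N : SF, N = (M.comap f).map K.val := ⟨_, rfl⟩
    have hmem : ∀ x : ℂ, x ∈ N ↔ ∃ hx : x ∈ K, f ⟨x, hx⟩ ∈ M := by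
      intro x
      rw [hN]
      constructor
      · rintro ⟨y, hy, rfl⟩
        exact ⟨y.2, hy⟩
      · rintro ⟨hx, hy⟩
        exact ⟨⟨x, hx⟩, hy, rfl⟩
    have hNK : N ≤ K := fun x hx => ((hmem x).1 hx).1
    have hFN : F ≤ N := fun x hx => (hmem x).2 ⟨h.2.1 hx, hLM (hfF f x hx)⟩
    have hsN : s ∈ N := (hmem s).2 ⟨hsK, hAM _ (by
      rw [Set.Finite.mem_toFinset]
      exact ⟨f, rfl⟩)⟩
    have hNKe := twob_mid h hFN hNK hsN hsF
    rintro _ ⟨y, rfl⟩
    have h3 : (y : ℂ) ∈ N := by rw [hNKe]; exact y.2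
    exact ((hmem _).1 h3).2
  have h4 := twob_dvd hle
  rw [hk] at h4
  obtain ⟨j, _, hj⟩ := (Nat.dvd_prime_pow Nat.prime_two).1 h4
  exact ⟨j, hj⟩

theorem two_group_bot :
    ∃ k : ℕ, finrank ℚ (IntermediateField.normalClosure ℚ (⊥ : SF) ℂ) = 2 ^ k := by
  refine ⟨0, ?_⟩
  have h1 : IntermediateField.normalClosure ℚ (⊥ : SF) ℂ = (⊥ : SF) := by
    refine le_antisymm ?_ bot_le
    rw [normalClosure_le_iff]
    rintro f _ ⟨y, rfl⟩
    obtain ⟨q, hq⟩ := IntermediateField.mem_bot.1 y.2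
    have h2 : y = algebraMap ℚ (⊥ : SF) q := Subtype.ext hq.symm
    rw [h2]
    have h3 : f (algebraMap ℚ (⊥ : SF) q) = algebraMap ℚ ℂ q := f.commutes q
    change f (algebraMap ℚ (⊥ : SF) q) ∈ (⊥ : SF)
    rw [h3]
    exact IntermediateField.algebraMap_mem _ q
  rw [h1, IntermediateField.finrank_bot, pow_zero]

theorem two_group_of_tow {K : SF} (h : Tow {⊥} K) :
    ∃ k : ℕ, finrank ℚ (IntermediateField.normalClosure ℚ K ℂ) = 2 ^ k := by
  induction h with
  | base hF hK =>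
    rw [Set.mem_singleton_iff] at hF
    subst hF
    exact two_group_quad hK two_group_bot
  | step _ hK ih => exact two_group_quad hK ih

end QTow
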