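import Pool.Agent.Lib.MP_44a56e_nt.Main
import Pool.Agent.Lib.MP_44a56e_nt.TwoA
import Pool.Agent.Lib.MP_44a56e_nt.TwoB
import Pool.Agent.Lib.MP_44a56e_nt.CubicB

/-! # MP_44a56e_nt, module Final: the special cases. -/

open NumberField Module Filter Topology

namespace QTow

/-- The number fields (inside `ℂ`) whose Galois closure has 2-power degree over `ℚ`. -/
def TwoClosure : Set SF :=
  {K | ∃ k : ℕ, finrank ℚ (IntermediateField.normalClosure ℚ K ℂ) = 2 ^ k}

/-- The number fields (inside `ℂ`) of degree at most three. -/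
def LeThree : Set SF := {F | FiniteDimensional ℚ F ∧ deg F ≤ 3}

theorem countIso_congr {S S' : Set SF}
    (h : ∀ K : SF, FiniteDimensional ℚ K → (K ∈ S ↔ K ∈ S')) (X : ℝ) :
    countIso S X = countIso S' X := by
  have h1 : (fun K : SF => K ∈ S ∧ FiniteDimensional ℚ K ∧ dabs K < X) =
      (fun K : SF => K ∈ S' ∧ FiniteDimensional ℚ K ∧ dabs K < X) := by
    funext K
    refine propext ⟨?_, ?_⟩
    · rintro ⟨h1, h2, h3⟩
      exact ⟨(h K h2).1 h1, h2, h3⟩
    · rintro ⟨h1, h2, h3⟩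
      exact ⟨(h K h2).2 h1, h2, h3⟩
  let G : (SF → Prop) → ℕ := fun p =>
    Nat.card (Quot fun K L : {K : SF // p K} => Nonempty (K.1 ≃ₐ[ℚ] L.1))
  change G _ = G _
  rw [h1]

theorem bot_fd : FiniteDimensional ℚ (⊥ : SF) := inferInstance

theorem deg_bot : deg (⊥ : SF) = 1 := by
  unfold deg
  exact IntermediateField.finrank_bot

theorem eq_bot_of_deg {K : SF} (h : deg K = 1) : K = ⊥ :=
  IntermediateField.finrank_eq_one_iff.1 h

theorem isoClosed_bot : IsoClosed {(⊥ : SF)} := by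
  rintro K hK L ⟨e⟩
  rw [Set.mem_singleton_iff] at hK
  subst hK
  rw [Set.mem_singleton_iff]
  apply eq_bot_of_deg
  rw [← deg_iso e, deg_bot]

theorem isoClosed_leThree : IsoClosed LeThree := by
  rintro K ⟨hK, hd⟩ L ⟨e⟩
  exact ⟨e.toLinearEquiv.finiteDimensional, by rw [← deg_iso e]; exact hd⟩

theorem two_iff (K : SF) (hK : FiniteDimensional ℚ K) :
    K ∈ TwoClosure ↔ K ∈ Clo {(⊥ : SF)} := by
  have := numberField_of K hK
  constructor
  · intro h
    exact tow_of_two_group K h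
  · rintro (h | h)
    · rw [Set.mem_singleton_iff] at h
      subst h
      exact two_group_bot
    · exact two_group_of_tow h

theorem deg_quad_two {B : Set SF} {K : SF} (h : Tow B K) : ∃ F, K ∈ Quad F := by
  cases h with
  | base h1 h2 => exact ⟨_, h2⟩
  | step h1 h2 => exact ⟨_, h2⟩

theorem not_tow_bot {B : Set SF} : ¬ Tow B (⊥ : SF) := by
  intro h
  obtain ⟨F, hF⟩ := deg_quad_two h
  have h1 := hF.2.2
  rw [deg_bot] at h1
  omega

theorem isoClosed_clo {B : Set SF} (hB : IsoClosed B) : IsoClosed (Clo B) := by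
  rintro K (hK | hK) L he
  · exact Or.inl (hB K hK L he)
  · exact Or.inr (tow_iso B hB K hK L he)

/-- Adding the rational field changes the count by at most one. -/
theorem count_clo_bot (X : ℝ) :
    countIso {K | Tow {(⊥ : SF)} K} X ≤ countIso (Clo {(⊥ : SF)}) X ∧
      countIso (Clo {(⊥ : SF)}) X ≤ countIso {K | Tow {(⊥ : SF)} K} X + 1 := by
  classical
  have hTfin : {K : SF | Tow {(⊥ : SF)} K ∧ FiniteDimensional ℚ K ∧ dabs K < X}.Finite :=
    (finite_dabs X).subset fun K hK => ⟨hK.2.1, hK.2.2.le⟩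
  have hT'fin : {K : SF | K ∈ Clo {(⊥ : SF)} ∧ FiniteDimensional ℚ K ∧ dabs K < X}.Finite :=
    (finite_dabs X).subset fun K hK => ⟨hK.2.1, hK.2.2.le⟩
  set T := hTfin.toFinset with hTd
  set T' := hT'fin.toFinset with hTd'
  have hT : ∀ K, K ∈ T ↔ K ∈ {K | Tow {(⊥ : SF)} K} ∧ FiniteDimensional ℚ K ∧ dabs K < X := by
    intro K
    rw [hTd, Set.Finite.mem_toFinset]
    exact Iff.rfl
  have hT' : ∀ K, K ∈ T' ↔ K ∈ Clo {(⊥ : SF)} ∧ FiniteDimensional ℚ K ∧ dabs K < X := by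
    intro K
    rw [hTd', Set.Finite.mem_toFinset]
    exact Iff.rfl
  have e1 := countIso_eq {K | Tow {(⊥ : SF)} K} (tow_iso _ isoClosed_bot) X T hT
  have e2 := countIso_eq (Clo {(⊥ : SF)}) (isoClosed_clo isoClosed_bot) X T' hT'
  have hsub : T ⊆ T' := by
    intro K hK
    rw [hT] at hK
    rw [hT']
    exact ⟨Or.inr hK.1, hK.2⟩
  have hsub' : T' ⊆ insert ⊥ T := by
    intro K hK
    rw [hT'] at hK
    obtain ⟨hK1 | hK1, hK2⟩ := hK
    · rw [Set.mem_singleton_iff] at hK1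
      rw [hK1]
      exact Finset.mem_insert_self _ _
    · exact Finset.mem_insert_of_mem ((hT K).2 ⟨hK1, hK2⟩)
  have hnb : (⊥ : SF) ∉ T := by
    intro h
    exact not_tow_bot ((hT _).1 h).1
  have hpos : ∀ K : SF, 0 ≤ (Nat.card (K ≃ₐ[ℚ] K) : ℝ) / (deg K : ℝ) := fun K => by positivity
  have hbot : (Nat.card ((⊥ : SF) ≃ₐ[ℚ] (⊥ : SF)) : ℝ) / (deg (⊥ : SF) : ℝ) ≤ 1 := by
    have hnf : NumberField (⊥ : SF) := numberField_of _ bot_fd
    have h1 := (aut_le (⊥ : SF)).2
    rw [deg_bot] at h1 ⊢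
    rw [Nat.cast_one, div_one]
    exact_mod_cast h1
  constructor
  · have : (countIso {K | Tow {(⊥ : SF)} K} X : ℝ) ≤ countIso (Clo {(⊥ : SF)}) X := by
      rw [e1, e2]
      exact Finset.sum_le_sum_of_subset_of_nonneg hsub fun K _ _ => hpos K
    exact_mod_cast this
  · have : (countIso (Clo {(⊥ : SF)}) X : ℝ) ≤ countIso {K | Tow {(⊥ : SF)} K} X + 1 := by
      rw [e1, e2]
      refine le_trans (Finset.sum_le_sum_of_subset_of_nonneg hsub' fun K _ _ => hpos K) ?_
      rw [Finset.sum_insert hnb]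
      linarith
    exact_mod_cast this

theorem tendsto_count_clo_bot (c : ℝ)
    (h : Tendsto (fun X : ℝ => (countIso {K | Tow {(⊥ : SF)} K} X : ℝ) / X) atTop (𝓝 c)) :
    Tendsto (fun X : ℝ => (countIso TwoClosure X : ℝ) / X) atTop (𝓝 c) := by
  have h1 : Tendsto (fun X : ℝ => (countIso {K | Tow {(⊥ : SF)} K} X : ℝ) / X + X⁻¹) atTop
      (𝓝 (c + 0)) := h.add tendsto_inv_atTop_zero
  rw [add_zero] at h1
  refine tendsto_of_tendsto_of_tendsto_of_le_of_le' h h1 ?_ ?_
  · filter_upwards [eventually_gt_atTop 0] with X hX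
    rw [countIso_congr (two_iff) X]
    gcongr
    exact_mod_cast (count_clo_bot X).1
  · filter_upwards [eventually_gt_atTop 0] with X hX
    rw [countIso_congr (two_iff) X, ← one_div, ← add_div]
    gcongr
    exact_mod_cast (count_clo_bot X).2

/-- The uniform bound for the number of quadratic extensions. -/
theorem final_uniform :
    ∃ C : ℝ, 0 < C ∧ ∀ F : SF, FiniteDimensional ℚ F → ∀ X : ℝ, 0 < X →
      (qcount F X : ℝ) ≤ C * (12 / 5) ^ deg F * dabs F ^ (-(3 / 2) : ℝ) * X := by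
  obtain ⟨K₀, h0, h⟩ := uniform_bound
  refine ⟨K₀, h0, fun F hF X hX => ?_⟩
  have := numberField_of F hF
  have h1 := h F X hX
  unfold wt at h1
  rw [← mul_assoc] at h1
  exact h1

/-- The asymptotic formula for towers of quadratic extensions. -/
theorem final_asymp :
    ∃ c : SF → ℝ,
      (∀ F : SF, FiniteDimensional ℚ F →
        0 < c F ∧ Tendsto (fun X : ℝ => (qcount F X : ℝ) / X) atTop (𝓝 (c F))) ∧
      (∀ B : Set SF, IsoClosed B → (∀ F ∈ B, FiniteDimensional ℚ F) →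
        Summable (fun F : B => (12 / 5 : ℝ) ^ deg F.1 * dabs F.1 ^ (-(3 / 2) : ℝ)) →
          Summable (fun F : Clo B => c F.1 / deg F.1) ∧
          Tendsto (fun X : ℝ => (countIso {K | Tow B K} X : ℝ) / X) atTop
            (𝓝 (∑' F : Clo B, c F.1 / deg F.1))) ∧
      (Summable (fun F : {F : SF // FiniteDimensional ℚ F ∧ F ∈ TwoClosure} =>
          c F.1 / deg F.1) ∧
        0 < ∑' F : {F : SF // FiniteDimensional ℚ F ∧ F ∈ TwoClosure}, c F.1 / deg F.1 ∧
        Tendsto (fun X : ℝ => (countIso TwoClosure X : ℝ) / X) atTop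
          (𝓝 (∑' F : {F : SF // FiniteDimensional ℚ F ∧ F ∈ TwoClosure}, c F.1 / deg F.1))) ∧
      (Summable (fun F : Clo LeThree => c F.1 / deg F.1) ∧
        0 < ∑' F : Clo LeThree, c F.1 / deg F.1 ∧
        Tendsto (fun X : ℝ => (countIso {K | Tow LeThree K} X : ℝ) / X) atTop
          (𝓝 (∑' F : Clo LeThree, c F.1 / deg F.1))) := by
  classical
  have hex : ∀ F : SF, ∃ c : ℝ, FiniteDimensional ℚ F →
      0 < c ∧ Tendsto (fun X : ℝ => (qcount F X : ℝ) / X) atTop (𝓝 c) := by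
    intro F
    by_cases hF : FiniteDimensional ℚ F
    · have := numberField_of F hF
      obtain ⟨c, hc⟩ := quad_limit F
      exact ⟨c, fun _ => hc⟩
    · exact ⟨0, fun h => absurd h hF⟩
  choose c hc using hex
  have hmain : ∀ B : Set SF, IsoClosed B → (∀ F ∈ B, FiniteDimensional ℚ F) →
      Summable (fun F : B => wt F.1) →
        Summable (fun F : Clo B => c F.1 / deg F.1) ∧
          Tendsto (fun X : ℝ => (countIso {K | Tow B K} X : ℝ) / X) atTop
            (𝓝 (∑' F : Clo B, c F.1 / deg F.1)) :=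
    fun B hB hfd hs => main_limit c (fun F hF => (hc F hF).2) B hB hfd hs
  have hcpos : ∀ (B : Set SF) (hfd : ∀ F ∈ B, FiniteDimensional ℚ F) (F : Clo B),
      0 < c F.1 / deg F.1 := by
    intro B hfd F
    have := clo_numberField hfd F.2
    have h1 := (hc F.1 inferInstance).1
    have h2 : (0 : ℝ) < deg F.1 := by exact_mod_cast deg_pos F.1
    positivity
  have hsb : Summable (fun F : ({(⊥ : SF)} : Set SF) => wt F.1) := by
    haveI : Finite ({(⊥ : SF)} : Set SF) := Set.finite_singleton _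
    exact Summable.of_finite
  have hfb : ∀ F ∈ ({(⊥ : SF)} : Set SF), FiniteDimensional ℚ F := by
    intro F hF
    rw [Set.mem_singleton_iff] at hF
    rw [hF]
    exact bot_fd
  refine ⟨c, hc, fun B hB hfd hs => hmain B hB hfd hs, ?_, ?_⟩
  · obtain ⟨h1, h2⟩ := hmain {(⊥ : SF)} isoClosed_bot hfb hsb
    have h3 : 0 < ∑' F : Clo {(⊥ : SF)}, c F.1 / deg F.1 :=
      h1.tsum_pos (fun F => (hcpos _ hfb F).le) ⟨⊥, Or.inl rfl⟩ (hcpos _ hfb _)
    let e : {F : SF // FiniteDimensional ℚ F ∧ F ∈ TwoClosure} ≃ Clo {(⊥ : SF)} :=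
      Equiv.subtypeEquivRight fun F => ⟨fun h => (two_iff F h.1).1 h.2, fun h => by
        have hF : FiniteDimensional ℚ F := by
          have := clo_numberField hfb h
          infer_instance
        exact ⟨hF, (two_iff F hF).2 h⟩⟩
    have h4 : (∑' F : {F : SF // FiniteDimensional ℚ F ∧ F ∈ TwoClosure}, c F.1 / deg F.1) =
        ∑' F : Clo {(⊥ : SF)}, c F.1 / deg F.1 :=
      e.tsum_eq (fun F : Clo {(⊥ : SF)} => c F.1 / deg F.1)
    rw [h4]
    refine ⟨?_, h3, tendsto_count_clo_bot _ h2⟩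
    exact (e.summable_iff (f := fun F : Clo {(⊥ : SF)} => c F.1 / deg F.1)).2 h1
  · have hf3 : ∀ F ∈ LeThree, FiniteDimensional ℚ F := fun F hF => hF.1
    obtain ⟨h1, h2⟩ := hmain LeThree isoClosed_leThree hf3 summable_le_three
    refine ⟨h1, ?_, h2⟩
    exact h1.tsum_pos (fun F => (hcpos _ hf3 F).le)
      ⟨⊥, Or.inl ⟨bot_fd, by rw [deg_bot]; norm_num⟩⟩ (hcpos _ hf3 _)

end QTow
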