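import Pool.Agent.Lib.MP_44a56e_nt.Defs2
import Pool.Agent.Lib.MP_44a56e_nt.SFBasic

/-! # MP_44a56e_nt, module Iso: counting isomorphism classes.

PROOF of `countIso_eq`. The relation is an equivalence relation on the finite type
`A = {K // K ∈ S ∧ FiniteDimensional ℚ K ∧ dabs K < X}` (`finite_dabs`); `Quot` of it is the set of
classes. The class of `K ∈ A` consists of all subfields `L` of `ℂ` isomorphic to `K` (`hS`, `dabs_iso`);
it has `deg K / Nat.card (K ≃ₐ[ℚ] K)` elements: the map `(K →ₐ[ℚ] ℂ) → {L}`, `f ↦ f.fieldRange`, is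
surjective and each fibre is a torsor under `K ≃ₐ[ℚ] K` (`f ↦ f ∘ τ`), and there are `deg K`
embeddings (`AlgHom.card` / `NumberField.Embeddings.card`). `Nat.card (L ≃ₐ[ℚ] L) =
Nat.card (K ≃ₐ[ℚ] K)` and `deg L = deg K` for isomorphic `K, L`. So the sum of the weights over each
class is `1`, and the sum over `A` is the number of classes (`Finset.sum_fiberwise`).
PROOF of `quad_iso`. `F'` = the image of `F ≤ K` under `e`, as a subfield of `ℂ` (`AlgHom.fieldRange`
of `F → K → L → ℂ`): `F' ≤ L`, `deg F' = deg F` (`deg_iso`), `deg L = deg K`.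
PROOF of `tow_iso`. Induction on `Tow` with `quad_iso`, for all `L` isomorphic to `K`. -/

open NumberField Module

namespace QTow

/-- the embeddings with a given image -/
private theorem is_fibre {K L : SF} (e : K ≃ₐ[ℚ] L) :
    Nat.card {f : K →ₐ[ℚ] ℂ // f.fieldRange = L} = Nat.card (K ≃ₐ[ℚ] K) := by
  refine Nat.card_congr
    { toFun := fun f => (f.1.equivFieldRange.trans (IntermediateField.equivOfEq f.2)).trans e.symm
      invFun := fun g => ⟨L.val.comp (g.trans e).toAlgHom, ?_⟩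
      left_inv := ?_
      right_inv := ?_ }
  · ext x
    constructor
    · rintro ⟨y, rfl⟩
      exact ((g.trans e) y).2
    · intro hx
      obtain ⟨y, hy⟩ := (g.trans e).surjective ⟨x, hx⟩
      exact ⟨y, congrArg Subtype.val hy⟩
  · rintro ⟨f, hf⟩
    apply Subtype.ext
    ext x
    subst hf
    simp only [AlgHom.comp_apply]
    change ((e (e.symm _) : _) : ℂ) = f x
    rw [AlgEquiv.apply_symm_apply]
    rfl
  · intro g
    ext x
    apply congrArg Subtype.val
    apply e.injective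
    change e (e.symm _) = e (g x)
    rw [AlgEquiv.apply_symm_apply]
    apply Subtype.ext
    rfl

/-- orbit formula: number of conjugates times number of automorphisms -/
private theorem is_card (K : SF) [NumberField K] :
    Nat.card {L : SF // Nonempty (K ≃ₐ[ℚ] L)} * Nat.card (K ≃ₐ[ℚ] K) = deg K := by
  classical
  have hfin : Finite {L : SF // Nonempty (K ≃ₐ[ℚ] L)} := (iso_finite K).to_subtype
  have h1 : Nat.card (K →ₐ[ℚ] ℂ) = deg K :=
    AlgHom.natCard_of_splits ℚ K ℂ fun x => IsAlgClosed.splits _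
  rw [← h1]
  have hne : Finite (K →ₐ[ℚ] ℂ) := by
    apply Nat.finite_of_card_ne_zero
    rw [h1]
    exact (deg_pos K).ne'
  let φ : (K →ₐ[ℚ] ℂ) → {L : SF // Nonempty (K ≃ₐ[ℚ] L)} := fun f =>
    ⟨f.fieldRange, ⟨f.equivFieldRange⟩⟩
  have h2 := Nat.card_congr (Equiv.sigmaFiberEquiv φ)
  have hft : Fintype {L : SF // Nonempty (K ≃ₐ[ℚ] L)} := Fintype.ofFinite _
  rw [← h2, Nat.card_sigma]
  have h3 : ∀ L : {L : SF // Nonempty (K ≃ₐ[ℚ] L)},
      Nat.card {f : K →ₐ[ℚ] ℂ // φ f = L} = Nat.card (K ≃ₐ[ℚ] K) := by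
    intro L
    obtain ⟨e⟩ := L.2
    rw [← is_fibre e]
    refine Nat.card_congr (Equiv.subtypeEquivRight fun f => ?_)
    exact Subtype.ext_iff
  rw [Finset.sum_congr rfl fun L _ => h3 L, Finset.sum_const, smul_eq_mul, Finset.card_univ,
    Nat.card_eq_fintype_card (α := {L : SF // Nonempty (K ≃ₐ[ℚ] L)})]

theorem countIso_eq (S : Set SF) (hS : IsoClosed S) (X : ℝ) (T : Finset SF)
    (hT : ∀ K, K ∈ T ↔ K ∈ S ∧ FiniteDimensional ℚ K ∧ dabs K < X) :
    (countIso S X : ℝ) = ∑ K ∈ T, (Nat.card (K ≃ₐ[ℚ] K) : ℝ) / (deg K : ℝ) := by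
  classical
  let A := {K : SF // K ∈ S ∧ FiniteDimensional ℚ K ∧ dabs K < X}
  let s : Setoid A :=
    { r := fun K L => Nonempty (K.1 ≃ₐ[ℚ] L.1)
      iseqv := ⟨fun K => ⟨AlgEquiv.refl⟩, fun ⟨e⟩ => ⟨e.symm⟩, fun ⟨e⟩ ⟨e'⟩ => ⟨e.trans e'⟩⟩ }
  have hA : Fintype A := Fintype.subtype T hT
  have hq : countIso S X = Nat.card (Quotient s) := rfl
  have : Fintype (Quotient s) := Fintype.ofFinite _
  rw [hq, Finset.sum_subtype T hT, Nat.card_eq_fintype_card]
  rw [← Finset.sum_fiberwise (Finset.univ : Finset A) (fun a => (Quotient.mk s a))]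
  have key : ∀ q : Quotient s, ∑ a : A with Quotient.mk s a = q,
      (Nat.card (a.1 ≃ₐ[ℚ] a.1) : ℝ) / (deg a.1 : ℝ) = 1 := by
    intro q
    obtain ⟨a₀, rfl⟩ := Quotient.exists_rep q
    have hnf : NumberField a₀.1 := numberField_of a₀.1 a₀.2.2.1
    have h1 : ∀ a ∈ Finset.univ.filter (fun a : A => Quotient.mk s a = Quotient.mk s a₀),
        (Nat.card (a.1 ≃ₐ[ℚ] a.1) : ℝ) / (deg a.1 : ℝ) =
          (Nat.card (a₀.1 ≃ₐ[ℚ] a₀.1) : ℝ) / (deg a₀.1 : ℝ) := by
      intro a ha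
      rw [Finset.mem_filter] at ha
      obtain ⟨e⟩ : Nonempty (a.1 ≃ₐ[ℚ] a₀.1) := Quotient.exact ha.2
      rw [deg_iso e, Nat.card_congr (AlgEquiv.equivCongr e e)]
    rw [Finset.sum_congr rfl h1, Finset.sum_const, nsmul_eq_mul]
    have h2 : (Finset.univ.filter (fun a : A => Quotient.mk s a = Quotient.mk s a₀)).card =
        Nat.card {L : SF // Nonempty (a₀.1 ≃ₐ[ℚ] L)} := by
      rw [← Fintype.card_subtype, ← Nat.card_eq_fintype_card]
      refine Nat.card_congr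
        { toFun := fun a => ⟨a.1.1, (Quotient.exact a.2.symm : Nonempty (a₀.1 ≃ₐ[ℚ] a.1.1))⟩
          invFun := fun L => ⟨⟨L.1, ?_, ?_, ?_⟩, ?_⟩
          left_inv := fun a => rfl
          right_inv := fun L => rfl }
      · exact hS a₀.1 a₀.2.1 L.1 L.2
      · obtain ⟨e⟩ := L.2
        have := a₀.2.2.1
        exact LinearEquiv.finiteDimensional e.toLinearEquiv
      · obtain ⟨e⟩ := L.2
        rw [← dabs_iso e]
        exact a₀.2.2.2
      · obtain ⟨e⟩ := L.2
        exact Quotient.sound (s := s) ⟨e.symm⟩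
    rw [h2]
    have h3 := is_card a₀.1
    have h4 : (deg a₀.1 : ℝ) ≠ 0 := by exact_mod_cast (deg_pos a₀.1).ne'
    rw [← mul_div_assoc, div_eq_one_iff_eq h4]
    exact_mod_cast h3
  rw [Finset.sum_congr rfl fun q _ => key q]
  simp

theorem quad_iso {F K L : SF} (h : K ∈ Quad F) (e : K ≃ₐ[ℚ] L) :
    ∃ F' : SF, Nonempty (F ≃ₐ[ℚ] F') ∧ L ∈ Quad F' := by
  obtain ⟨hfd, hle, hdeg⟩ := h
  let f : F →ₐ[ℚ] ℂ := L.val.comp (e.toAlgHom.comp (IntermediateField.inclusion hle))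
  have hF : Nonempty (F ≃ₐ[ℚ] f.fieldRange) := ⟨f.equivFieldRange⟩
  refine ⟨f.fieldRange, hF, LinearEquiv.finiteDimensional e.toLinearEquiv, ?_, ?_⟩
  · rintro _ ⟨x, rfl⟩
    exact (e (IntermediateField.inclusion hle x)).2
  · obtain ⟨e'⟩ := hF
    rw [← deg_iso e, hdeg, deg_iso e']

theorem tow_iso (B : Set SF) (hB : IsoClosed B) : IsoClosed {K | Tow B K} := by
  intro K hK
  rw [Set.mem_ofPred_eq] at hK
  induction hK with
  | base hF hQ =>
    rintro L ⟨e⟩
    obtain ⟨F', hF', hL⟩ := quad_iso hQ e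
    exact Tow.base (hB _ hF F' hF') hL
  | step hT hQ ih =>
    rintro L ⟨e⟩
    obtain ⟨F', hF', hL⟩ := quad_iso hQ e
    exact Tow.step (ih F' hF') hL

end QTow
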