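import Pool.Agent.Lib.MP_44a56e_nt.Defs2

/-! # MP_44a56e_nt, module SieveB: congruences for the sieve.

`R` is a Dedekind domain (`𝓞 F`).
PROOF of `exists_sqf`. `T` finite set of nonzero primes. For `P ∈ T` the ideal
`𝔟² ∏_{Q ∈ T, Q ≠ P} Q` is not contained in `𝔟² P` (count the exponent of `P`, or: cancel `𝔟²`; if
`∏_{Q ≠ P} Q ≤ P` then some `Q ≤ P`, so `Q = P`). Choose `x_P` in the first and not in the second, and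
`t = ∑_{P ∈ T} x_P`: `t ∈ 𝔟²`, and `t ≡ x_P mod 𝔟² P` because all `x_Q`, `Q ≠ P`, are in `𝔟² P`. So
`t ∉ 𝔟² P ⊇ 𝔟² P²`.
PROOF of `coset_inter`. `M ≤ 𝔟²`, `P` prime not containing `M 𝔟^{-2}`; statement: two elements of
`(t + M) ∩ P² 𝔟²` differ by an element of `M ∩ P² 𝔟² ≤ M P²`: with `M = 𝔟² M'`, `P ⊔ M' = ⊤`, so
`P² ⊔ M' = ⊤`, hence `P² ⊓ M' = P² M'` and, multiplying by `𝔟²` (multiplication by an ideal of a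
Dedekind domain preserves `⊓`: `Ideal.mul_inf...`, or: `x ∈ 𝔟² P² ⊓ 𝔟² M'`, `span {x} = 𝔟² P² A =
𝔟² M' B`, cancel: `P² A = M' B`, `IsCoprime`, so `P² ∣ B`), `𝔟² P² ⊓ 𝔟² M' = 𝔟² P² M'`. -/

open NumberField Module

namespace QTow

theorem exists_sqf {R : Type} [CommRing R] [IsDedekindDomain R] (𝔟 : Ideal R) (h𝔟 : 𝔟 ≠ ⊥)
    (T : Finset (Ideal R)) (hT : ∀ P ∈ T, P.IsPrime ∧ P ≠ ⊥) :
    ∃ t : R, t ∈ 𝔟 ^ 2 ∧ ∀ P ∈ T, t ∉ P ^ 2 * 𝔟 ^ 2 := by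
  classical
  have key : ∀ P : Ideal R, ∃ x : R, P ∈ T → (x ∈ 𝔟 ^ 2 * ∏ Q ∈ T.erase P, Q) ∧ x ∉ 𝔟 ^ 2 * P := by
    intro P
    by_cases hP : P ∈ T
    · have hnot : ¬ (𝔟 ^ 2 * ∏ Q ∈ T.erase P, Q) ≤ 𝔟 ^ 2 * P := by
        intro hle
        rw [← Ideal.dvd_iff_le] at hle
        have hb2 : 𝔟 ^ 2 ≠ 0 := pow_ne_zero 2 h𝔟
        rw [mul_dvd_mul_iff_left hb2] at hle
        have hPp : Prime P := Ideal.prime_of_isPrime (hT P hP).2 (hT P hP).1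
        obtain ⟨Q, hQ, hPQ⟩ := hPp.exists_mem_finset_dvd hle
        rw [Finset.mem_erase] at hQ
        have hQm : Q.IsMaximal := (hT Q hQ.2).1.isMaximal (hT Q hQ.2).2
        have hPQ' : Q ≤ P := Ideal.dvd_iff_le.mp hPQ
        exact hQ.1 (hQm.eq_of_le (hT P hP).1.ne_top hPQ')
      obtain ⟨x, hx, hx'⟩ := SetLike.not_le_iff_exists.mp hnot
      exact ⟨x, fun _ => ⟨hx, hx'⟩⟩
    · exact ⟨0, fun h => absurd h hP⟩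
  choose x hx using key
  refine ⟨∑ P ∈ T, x P, ?_, ?_⟩
  · refine Ideal.sum_mem _ fun P hP => ?_
    have h0 : (𝔟 ^ 2 * ∏ Q ∈ T.erase P, Q) ≤ 𝔟 ^ 2 := Ideal.mul_le_left
    exact h0 (hx P hP).1
  · intro P hP hmem
    have h1 : ∑ Q ∈ T, x Q = x P + ∑ Q ∈ T.erase P, x Q := (Finset.add_sum_erase T x hP).symm
    have h2 : ∑ Q ∈ T.erase P, x Q ∈ 𝔟 ^ 2 * P := by
      refine Ideal.sum_mem _ fun Q hQ => ?_
      rw [Finset.mem_erase] at hQ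
      have h3 := (hx Q hQ.2).1
      have h5 : ∏ Q' ∈ T.erase Q, Q' ≤ P :=
        Ideal.prod_le_inf.trans (Finset.inf_le (Finset.mem_erase.mpr ⟨Ne.symm hQ.1, hP⟩))
      have h6 : (𝔟 ^ 2 * ∏ Q' ∈ T.erase Q, Q') ≤ 𝔟 ^ 2 * P := Ideal.mul_mono_right h5
      exact h6 h3
    have h4 : ∑ Q ∈ T, x Q ∈ 𝔟 ^ 2 * P := by
      have : P ^ 2 * 𝔟 ^ 2 ≤ 𝔟 ^ 2 * P := by
        rw [mul_comm]
        exact Ideal.mul_mono_right (Ideal.pow_le_self two_ne_zero)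
      exact this hmem
    rw [h1] at h4
    exact (hx P hP).2 ((Ideal.add_mem_iff_left _ h2).mp h4)

theorem coset_inter {R : Type} [CommRing R] [IsDedekindDomain R] (𝔟 M' P : Ideal R)
    (h𝔟 : 𝔟 ≠ ⊥) (hP : P.IsPrime) (hP0 : P ≠ ⊥) (hM : ¬ M' ≤ P) (x : R)
    (hx : x ∈ M' * 𝔟 ^ 2) (hx' : x ∈ P ^ 2 * 𝔟 ^ 2) : x ∈ P ^ 2 * (M' * 𝔟 ^ 2) := by
  have hmax : P.IsMaximal := hP.isMaximal hP0
  have hcop : IsCoprime P M' := by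
    rw [Ideal.isCoprime_iff_sup_eq]
    have : P < P ⊔ M' := lt_of_le_of_ne le_sup_left fun h => hM (by rw [h]; exact le_sup_right)
    exact hmax.1.2 _ this
  have hcop2 : IsCoprime (P ^ 2) M' := hcop.pow_left
  rw [← Ideal.span_singleton_le_iff_mem, ← Ideal.dvd_iff_le] at hx hx' ⊢
  have hb2 : 𝔟 ^ 2 ≠ 0 := pow_ne_zero 2 h𝔟
  obtain ⟨B, hB⟩ := hx
  rw [hB] at hx' ⊢
  have e1 : M' * 𝔟 ^ 2 * B = (M' * B) * 𝔟 ^ 2 := by ring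
  have e2 : P ^ 2 * (M' * 𝔟 ^ 2) = (P ^ 2) * (M' * 𝔟 ^ 2) := rfl
  rw [e1, mul_dvd_mul_iff_right hb2] at hx'
  have h3 : P ^ 2 ∣ B := hcop2.dvd_of_dvd_mul_left hx'
  obtain ⟨C, hC⟩ := h3
  refine ⟨C, ?_⟩
  rw [hC]
  ring

end QTow
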