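import Pool.Agent.Lib.MP_44a56e_nt.Defs2
import Pool.Agent.Lib.MP_44a56e_nt.Cone
import Pool.Agent.Lib.MP_44a56e_nt.SieveA

/-! # MP_44a56e_nt, module SieveC: existence of the limit. -/

open NumberField Module Filter Topology

set_option linter.unusedSectionVars false

namespace QTow

private theorem sieveC_limit (f : ℝ → ℝ)
    (h : ∀ ε > 0, ∃ c : ℝ, ∀ᶠ X in atTop, |f X - c| ≤ ε) : ∃ c, Tendsto f atTop (𝓝 c) := by
  rw [← cauchy_map_iff_exists_tendsto, Metric.cauchy_iff]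
  refine ⟨inferInstance, fun ε hε => ?_⟩
  obtain ⟨c, hc⟩ := h (ε / 3) (by positivity)
  refine ⟨{y | |y - c| ≤ ε / 3}, hc, fun x hx y hy => ?_⟩
  have hx' : |x - c| ≤ ε / 3 := hx
  have hy' : |y - c| ≤ ε / 3 := hy
  rw [Real.dist_eq]
  rw [abs_le] at hx' hy'
  rw [abs_lt]
  constructor <;> linarith [hx'.1, hx'.2, hy'.1, hy'.2]

section sieve
variable (F : Type) [Field F] [NumberField F]

/-- The elements of `𝔟²` that are not in `P² 𝔟²` for the ideals `P` in the finite set `T`. -/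
private def siS (𝔟 : Ideal (𝓞 F)) (T : Finset (Ideal (𝓞 F))) : Set (𝓞 F) :=
  {α | α ∈ 𝔟 ^ 2 ∧ ∀ P ∈ T, α ∉ P ^ 2 * 𝔟 ^ 2}

private theorem siS_per (𝔟 I : Ideal (𝓞 F)) (g : 𝓞 F → ℝ)
    (hg : ∀ x y, x - y ∈ I → g x = g y) (T : Finset (Ideal (𝓞 F))) (v : ℝ) :
    Per (I * 𝔟 ^ 2 * ∏ P ∈ T, P ^ 2) {α | α ∈ siS F 𝔟 T ∧ g α = v} := by
  have hI : I * 𝔟 ^ 2 * ∏ P ∈ T, P ^ 2 ≤ I :=
    Ideal.le_of_dvd ((dvd_mul_right I _).trans (dvd_mul_right _ _))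
  have hb : I * 𝔟 ^ 2 * ∏ P ∈ T, P ^ 2 ≤ 𝔟 ^ 2 :=
    Ideal.le_of_dvd ((dvd_mul_left (𝔟 ^ 2) I).trans (dvd_mul_right _ _))
  have hP : ∀ P ∈ T, I * 𝔟 ^ 2 * ∏ P ∈ T, P ^ 2 ≤ P ^ 2 * 𝔟 ^ 2 := by
    intro P hP
    refine Ideal.le_of_dvd ?_
    have h1 : P ^ 2 ∣ ∏ P ∈ T, P ^ 2 := Finset.dvd_prod_of_mem (fun P : Ideal (𝓞 F) => P ^ 2) hP
    rw [mul_comm (P ^ 2)]
    exact mul_dvd_mul (dvd_mul_left _ _) h1
  have key : ∀ J : Ideal (𝓞 F), I * 𝔟 ^ 2 * ∏ P ∈ T, P ^ 2 ≤ J → ∀ x y,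
      x - y ∈ I * 𝔟 ^ 2 * ∏ P ∈ T, P ^ 2 → (x ∈ J ↔ y ∈ J) := by
    intro J hJ x y hxy
    have h1 := hJ hxy
    constructor
    · intro hx
      have := J.sub_mem hx h1
      rwa [sub_sub_cancel] at this
    · intro hy
      have := J.add_mem h1 hy
      rwa [sub_add_cancel] at this
  intro x y hxy
  have e1 := key _ hb x y hxy
  have e2 : g x = g y := hg x y (hI hxy)
  have e3 : ∀ P ∈ T, (x ∈ P ^ 2 * 𝔟 ^ 2 ↔ y ∈ P ^ 2 * 𝔟 ^ 2) := fun P hP' =>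
    key _ (hP P hP') x y hxy
  simp only [siS, Set.mem_ofPred_eq]
  rw [e1, e2]
  refine and_congr_left fun _ => and_congr_right fun _ => ?_
  exact forall₂_congr fun P hP => not_congr (e3 P hP)

private theorem siS_ne (𝔟 I : Ideal (𝓞 F)) (h𝔟 : 𝔟 ≠ ⊥) (hI : I ≠ ⊥)
    (T : Finset (Ideal (𝓞 F))) (hT : ∀ P ∈ T, P ≠ ⊥) :
    I * 𝔟 ^ 2 * ∏ P ∈ T, P ^ 2 ≠ ⊥ := by
  rw [← Ideal.zero_eq_bot] at h𝔟 hI hT ⊢
  refine mul_ne_zero (mul_ne_zero hI (pow_ne_zero _ h𝔟)) ?_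
  exact Finset.prod_ne_zero_iff.2 fun P hP => pow_ne_zero _ (hT P hP)

private theorem si_card (Z : ℝ) (p : 𝓞 F → Prop) [DecidablePred p] (hp : ∀ α, p α → InCone F α ∧ nrm F α ≤ Z) :
    Nat.card {α : 𝓞 F // p α} = ((cone_finite F Z).toFinset.filter p).card := by
  refine Nat.subtype_card _ fun α => ?_
  rw [Finset.mem_filter, Set.Finite.mem_toFinset]
  exact ⟨fun h => h.2, fun h => ⟨hp α h, h⟩⟩

/-- The function `g` takes finitely many values. -/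
private theorem si_range (I : Ideal (𝓞 F)) (hI : I ≠ ⊥) (g : 𝓞 F → ℝ)
    (hg : ∀ x y, x - y ∈ I → g x = g y) : (Set.range g).Finite := by
  have : Finite (𝓞 F ⧸ I) := Ideal.finiteQuotientOfFreeOfNeBot I hI
  have h : Set.range g ⊆ Set.range fun q : 𝓞 F ⧸ I => g q.out := by
    rintro _ ⟨x, rfl⟩
    refine ⟨Ideal.Quotient.mk I x, hg _ _ ?_⟩
    rw [← Ideal.Quotient.mk_eq_mk_iff_sub_mem]
    exact Quotient.out_eq _
  exact (Set.finite_range _).subset h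

/-- The asymptotics with finitely many conditions. -/
private theorem si_conv (𝔟 I : Ideal (𝓞 F)) (h𝔟 : 𝔟 ≠ ⊥)
    (hI : I ≠ ⊥) (g : 𝓞 F → ℝ) (hg : ∀ x y, x - y ∈ I → g x = g y) (hpos : ∀ x, 0 < g x)
    (T : Finset (Ideal (𝓞 F))) (hT : ∀ P ∈ T, P ≠ ⊥) :
    ∃ c : ℝ, Tendsto (fun X : ℝ =>
      (Nat.card {α : 𝓞 F // α ∈ siS F 𝔟 T ∧ InCone F α ∧ nrm F α ≤ g α * X} : ℝ) / X)
      atTop (𝓝 c) := by
  classical
  set V : Finset ℝ := (si_range F I hI g hg).toFinset with hV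
  have hVpos : ∀ v ∈ V, 0 < v := by
    intro v hv
    rw [hV, Set.Finite.mem_toFinset] at hv
    obtain ⟨x, rfl⟩ := hv
    exact hpos x
  have hVmem : ∀ x, g x ∈ V := fun x => by
    rw [hV, Set.Finite.mem_toFinset]
    exact ⟨x, rfl⟩
  have hM := siS_ne F 𝔟 I h𝔟 hI T hT
  -- each value
  have h1 : ∀ v ∈ V, Tendsto (fun X : ℝ => (Nat.card {α : 𝓞 F //
      α ∈ {α | α ∈ siS F 𝔟 T ∧ g α = v} ∧ InCone F α ∧ nrm F α ≤ v * X} : ℝ) / X) atTop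
      (𝓝 (v * (kap F * dens (I * 𝔟 ^ 2 * ∏ P ∈ T, P ^ 2) {α | α ∈ siS F 𝔟 T ∧ g α = v}))) := by
    intro v hv
    have hv0 := hVpos v hv
    have h2 := cone_per F _ hM _ (siS_per F 𝔟 I g hg T v)
    have h3 : Tendsto (fun X : ℝ => v * X) atTop atTop := tendsto_id.const_mul_atTop hv0
    refine ((h2.comp h3).const_mul v).congr fun X => ?_
    change v * (_ / (v * X)) = _
    rw [mul_div_assoc', mul_div_mul_left _ _ hv0.ne']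
  refine ⟨_, (tendsto_finsetSum V h1).congr' ?_⟩
  filter_upwards [eventually_gt_atTop 0] with X hX
  rw [← Finset.sum_div]
  congr 1
  rw [← Nat.cast_sum]
  congr 1
  -- the largest value
  obtain ⟨G, hG⟩ : ∃ G : ℝ, ∀ v ∈ V, v ≤ G := by
    obtain ⟨G, hG⟩ := V.bddAbove
    exact ⟨G, fun v hv => hG hv⟩
  have hle : ∀ v ∈ V, v * X ≤ G * X := fun v hv => mul_le_mul_of_nonneg_right (hG v hv) hX.le
  rw [si_card F (G * X) _ fun α hα => ⟨hα.2.1, hα.2.2.trans (hle _ (hVmem α))⟩]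
  rw [Finset.card_eq_sum_card_fiberwise (f := g) (t := V) fun α _ => hVmem α]
  refine Finset.sum_congr rfl fun v hv => ?_
  rw [si_card F (G * X) _ fun α hα => ⟨hα.2.1, hα.2.2.trans (hle v hv)⟩]
  refine congrArg Finset.card (Finset.ext fun α => ?_)
  rw [Finset.mem_filter, Finset.mem_filter, Finset.mem_filter]
  constructor
  · rintro ⟨h1, ⟨h2, h3⟩, h4, h5⟩
    exact ⟨⟨h1, h2, h4, by rw [h3]; exact h5⟩, h3⟩
  · rintro ⟨⟨h1, h2, h3, h4⟩, h5⟩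
    exact ⟨h1, ⟨h2, h5⟩, h3, by rw [← h5]; exact h4⟩

private theorem si_union {α β : Type} [DecidableEq α] [DecidableEq β] (D A : Finset α)
    (hDA : D ⊆ A) (π : α → β) (R : β → α → Prop) [∀ b, DecidablePred (R b)]
    (hR : ∀ a ∈ D, R (π a) a) (f : β → ℝ) (hf : ∀ b, ((A.filter (R b)).card : ℝ) ≤ f b) :
    (D.card : ℝ) ≤ ∑ b ∈ D.image π, f b := by
  have h1 : D ⊆ (D.image π).biUnion fun b => A.filter (R b) := by
    intro a ha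
    rw [Finset.mem_biUnion]
    exact ⟨π a, Finset.mem_image_of_mem π ha, Finset.mem_filter.2 ⟨hDA ha, hR a ha⟩⟩
  have h2 : D.card ≤ ∑ b ∈ D.image π, (A.filter (R b)).card :=
    (Finset.card_le_card h1).trans Finset.card_biUnion_le
  have h3 : (D.card : ℝ) ≤ ∑ b ∈ D.image π, ((A.filter (R b)).card : ℝ) := by
    exact_mod_cast h2
  exact h3.trans (Finset.sum_le_sum fun b _ => hf b)

/-- Elements in `P² 𝔟²`. -/
private theorem si_prime (𝔟 : Ideal (𝓞 F)) (h𝔟 : 𝔟 ≠ ⊥) {C : ℝ} (hC : 0 < C)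
    (hCle : ∀ J : Ideal (𝓞 F), J ≠ ⊥ → ∀ Z : ℝ, 0 < Z →
      (Nat.card {α : 𝓞 F // α ∈ J ∧ InCone F α ∧ nrm F α ≤ Z} : ℝ) ≤
        C * Z / (Ideal.absNorm J : ℝ)) (Z : ℝ) (hZ : 0 < Z) (P : Ideal (𝓞 F)) (hP : P ≠ ⊥) :
    (Nat.card {α : 𝓞 F // α ∈ P ^ 2 * 𝔟 ^ 2 ∧ InCone F α ∧ nrm F α ≤ Z} : ℝ) ≤
      C * Z * (1 / (Ideal.absNorm P : ℝ) ^ 2) := by
  have hne : P ^ 2 * 𝔟 ^ 2 ≠ ⊥ := by
    rw [← Ideal.zero_eq_bot] at hP h𝔟 ⊢
    exact mul_ne_zero (pow_ne_zero _ hP) (pow_ne_zero _ h𝔟)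
  refine (hCle _ hne Z hZ).trans ?_
  rw [mul_one_div]
  have h5 : (0 : ℝ) < Ideal.absNorm P := by
    have : Ideal.absNorm P ≠ 0 := by
      rw [Ne, Ideal.absNorm_eq_zero_iff]
      exact hP
    exact_mod_cast Nat.pos_of_ne_zero this
  have h6 : (1 : ℝ) ≤ (Ideal.absNorm 𝔟 : ℝ) := by
    have : Ideal.absNorm 𝔟 ≠ 0 := by
      rw [Ne, Ideal.absNorm_eq_zero_iff]
      exact h𝔟
    exact_mod_cast Nat.one_le_iff_ne_zero.2 this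
  refine div_le_div_of_nonneg_left (by positivity) (by positivity) ?_
  rw [map_mul, map_pow, map_pow, Nat.cast_mul, Nat.cast_pow, Nat.cast_pow]
  exact le_mul_of_one_le_right (by positivity) (one_le_pow₀ h6)

/-- The tail of the sieve. -/
private theorem si_tail (𝔟 : Ideal (𝓞 F)) (h𝔟 : 𝔟 ≠ ⊥) (g : 𝓞 F → ℝ) (G : ℝ) (hG : ∀ x, g x ≤ G)
    (hpos : ∀ x, 0 < g x) (ε : ℝ) (hε : 0 < ε) :
    ∃ T : Finset (Ideal (𝓞 F)), (∀ P ∈ T, P ≠ ⊥) ∧ ∀ X : ℝ, 0 < X →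
      |(Nat.card {α : 𝓞 F // SqF 𝔟 α ∧ InCone F α ∧ nrm F α ≤ g α * X} : ℝ) / X -
        (Nat.card {α : 𝓞 F // α ∈ siS F 𝔟 T ∧ InCone F α ∧ nrm F α ≤ g α * X} : ℝ) / X| ≤ ε := by
  classical
  have hG0 : 0 < G := (hpos 0).trans_le (hG 0)
  obtain ⟨C, hC, hCle⟩ := cone_ideal_le F
  obtain ⟨s₀, hs₀⟩ := summable_iff_vanishing_norm.1 (summable_prime F) (ε / (C * G))
    (by positivity)
  refine ⟨s₀.image fun P => P.1, ?_, fun X hX => ?_⟩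
  · intro P hP
    rw [Finset.mem_image] at hP
    obtain ⟨P, _, rfl⟩ := hP
    exact P.2.2
  obtain ⟨A, hA⟩ : ∃ A : Finset (𝓞 F), A = (cone_finite F (G * X)).toFinset := ⟨_, rfl⟩
  have hAm : ∀ α, α ∈ A ↔ InCone F α ∧ nrm F α ≤ G * X := fun α => by
    rw [hA, Set.Finite.mem_toFinset]
    rfl
  have hle : ∀ α, g α * X ≤ G * X := fun α => mul_le_mul_of_nonneg_right (hG α) hX.le
  rw [si_card F (G * X) _ fun α hα => ⟨hα.2.1, hα.2.2.trans (hle α)⟩,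
    si_card F (G * X) _ fun α hα => ⟨hα.2.1, hα.2.2.trans (hle α)⟩, ← hA]
  obtain ⟨N₁, hN₁⟩ : ∃ N₁ : Finset (𝓞 F),
      N₁ = A.filter fun α => SqF 𝔟 α ∧ InCone F α ∧ nrm F α ≤ g α * X := ⟨_, rfl⟩
  obtain ⟨N₂, hN₂⟩ : ∃ N₂ : Finset (𝓞 F),
      N₂ = A.filter fun α => α ∈ siS F 𝔟 (s₀.image fun P => P.1) ∧ InCone F α ∧
        nrm F α ≤ g α * X := ⟨_, rfl⟩
  rw [← hN₁, ← hN₂]
  have hsub : N₁ ⊆ N₂ := by
    intro α hα
    rw [hN₁, Finset.mem_filter] at hα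
    rw [hN₂, Finset.mem_filter]
    refine ⟨hα.1, ⟨hα.2.1.1, fun P hP => ?_⟩, hα.2.2⟩
    rw [Finset.mem_image] at hP
    obtain ⟨P, _, rfl⟩ := hP
    exact hα.2.1.2 P.1 P.2.1
  have hDA : N₂ \ N₁ ⊆ A := by
    intro α hα
    rw [Finset.mem_sdiff, hN₂, Finset.mem_filter] at hα
    exact hα.1.1
  -- the bad elements
  have hbad : ∀ α ∈ N₂ \ N₁, ∃ P : {P : Ideal (𝓞 F) // P.IsPrime ∧ P ≠ ⊥}, P ∉ s₀ ∧
      α ∈ P.1 ^ 2 * 𝔟 ^ 2 := by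
    intro α hα
    rw [Finset.mem_sdiff, hN₁, hN₂, Finset.mem_filter, Finset.mem_filter] at hα
    obtain ⟨⟨hαA, ⟨hαb, hαT⟩, hαc, hαn⟩, hα2⟩ := hα
    have h1 : ¬ SqF 𝔟 α := fun h => hα2 ⟨hαA, h, hαc, hαn⟩
    unfold SqF at h1
    push Not at h1
    obtain ⟨P, hP, hαP⟩ := h1 hαb
    have hP0 : P ≠ ⊥ := by
      rintro rfl
      refine ne_zero_of_inCone F hαc ?_
      rw [← Ideal.zero_eq_bot, zero_pow two_ne_zero, zero_mul] at hαP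
      exact hαP
    refine ⟨⟨P, hP, hP0⟩, fun h => ?_, hαP⟩
    exact hαT P (Finset.mem_image.2 ⟨_, h, rfl⟩) hαP
  obtain ⟨D, hD⟩ : ∃ D : Finset (𝓞 F), D = N₂ \ N₁ := ⟨_, rfl⟩
  have hcd : (D.card : ℝ) = N₂.card - N₁.card := by
    rw [hD, Finset.card_sdiff_of_subset hsub, Nat.cast_sub (Finset.card_le_card hsub)]
  have hle' : (N₁.card : ℝ) ≤ N₂.card := by exact_mod_cast Finset.card_le_card hsub
  rw [← hD] at hDA hbad
  have hDX : (D.card : ℝ) ≤ ε * X := by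
    rcases D.eq_empty_or_nonempty with hD0 | ⟨α₀, hα₀⟩
    · rw [hD0, Finset.card_empty, Nat.cast_zero]
      positivity
    obtain ⟨P₀, _⟩ := hbad α₀ hα₀
    have hall : ∀ α, ∃ P : {P : Ideal (𝓞 F) // P.IsPrime ∧ P ≠ ⊥}, α ∈ D → P ∉ s₀ ∧
        α ∈ P.1 ^ 2 * 𝔟 ^ 2 := by
      intro α
      by_cases hα : α ∈ D
      · obtain ⟨P, hP⟩ := hbad α hα
        exact ⟨P, fun _ => hP⟩
      · exact ⟨P₀, fun h => absurd h hα⟩
    choose π hπ using hall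
    have h1 := si_union D A hDA π
      (fun P α => α ∈ P.1 ^ 2 * 𝔟 ^ 2 ∧ InCone F α ∧ nrm F α ≤ G * X)
      (fun α hα => ⟨(hπ α hα).2, (hAm α).1 (hDA hα)⟩)
      (fun P => C * (G * X) * (1 / (Ideal.absNorm P.1 : ℝ) ^ 2)) (fun P => by
        have h4 := si_prime F 𝔟 h𝔟 hC hCle (G * X) (by positivity) P.1 P.2.2
        rw [si_card F (G * X) _ fun α hα => ⟨hα.2.1, hα.2.2⟩, ← hA] at h4
        exact h4)
    have h4 : ∑ P ∈ D.image π, 1 / (Ideal.absNorm P.1 : ℝ) ^ 2 ≤ ε / (C * G) := by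
      have hdisj : Disjoint (D.image π) s₀ := by
        rw [Finset.disjoint_left]
        intro P hP hP'
        rw [Finset.mem_image] at hP
        obtain ⟨α, hα, rfl⟩ := hP
        exact (hπ α hα).1 hP'
      exact (le_abs_self _).trans (hs₀ _ hdisj).le
    calc (D.card : ℝ) ≤ ∑ P ∈ D.image π,
        C * (G * X) * (1 / (Ideal.absNorm P.1 : ℝ) ^ 2) := h1
      _ = C * (G * X) * ∑ P ∈ D.image π, 1 / (Ideal.absNorm P.1 : ℝ) ^ 2 := by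
          rw [Finset.mul_sum]
      _ ≤ C * (G * X) * (ε / (C * G)) := mul_le_mul_of_nonneg_left h4 (by positivity)
      _ = ε * X := by field_simp
  rw [← sub_div, abs_div, abs_of_pos hX, div_le_iff₀ hX, abs_sub_comm, abs_of_nonneg
    (by linarith), ← hcd]
  exact hDX

end sieve

theorem sieve_exists (F : Type) [Field F] [NumberField F] (𝔟 I : Ideal (𝓞 F)) (h𝔟 : 𝔟 ≠ ⊥)
    (hI : I ≠ ⊥) (g : 𝓞 F → ℝ) (hg : ∀ x y, x - y ∈ I → g x = g y) (hpos : ∀ x, 0 < g x) :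
    ∃ c : ℝ, Tendsto (fun X : ℝ =>
      (Nat.card {α : 𝓞 F // SqF 𝔟 α ∧ InCone F α ∧ nrm F α ≤ g α * X} : ℝ) / X)
      atTop (𝓝 c) := by
  obtain ⟨G, hG⟩ := (si_range F I hI g hg).bddAbove
  have hG' : ∀ x, g x ≤ G := fun x => hG ⟨x, rfl⟩
  refine sieveC_limit _ fun ε hε => ?_
  obtain ⟨T, hT, hT2⟩ := si_tail F 𝔟 h𝔟 g G hG' hpos (ε / 2) (by positivity)
  obtain ⟨c, hc⟩ := si_conv F 𝔟 I h𝔟 hI g hg hpos T hT
  refine ⟨c, ?_⟩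
  filter_upwards [eventually_gt_atTop 0, (Metric.tendsto_nhds.1 hc) (ε / 2) (by positivity)]
    with X hX hX2
  have h1 := hT2 X hX
  rw [Real.dist_eq] at hX2
  calc |_ - c| = |(_ - _) + (_ - c)| := by rw [sub_add_sub_cancel]
    _ ≤ |_ - _| + |_ - c| := abs_add_le _ _
    _ ≤ ε / 2 + ε / 2 := add_le_add h1 hX2.le
    _ = ε := by ring

end QTow
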