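import Pool.Agent.Lib.MP_44a56e_nt.Defs2
import Pool.Agent.Lib.MP_44a56e_nt.Cone
import Pool.Agent.Lib.MP_44a56e_nt.SieveA
import Pool.Agent.Lib.MP_44a56e_nt.SieveB
import Pool.Agent.Lib.MP_44a56e_nt.SieveC

/-! # MP_44a56e_nt, module SieveD: positivity of the limit.

PROOF of `sieve_lower`. Choose `y₀` such that every nonzero prime `P ≥ I` has `absNorm P ≤ y₀` and
`∑_{absNorm P > y₀} (absNorm P)^{-2} ≤ 1/2` (`summable_prime`). `T` = the finite set of the nonzero primes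
of norm `≤ y₀`, `t` from `exists_sqf`, `M' = I ∏_{P ∈ T} P²`, `M = M' 𝔟²`; `v = g t > 0`. All
`α ∈ t + M` have `g α = v`, `α ∈ 𝔟²`, `α ∉ P² 𝔟²` for `P ∈ T` (`M ≤ P² 𝔟²`). So
`N(X) ≥ A(X) - ∑_{P ∉ T, P ≠ ⊥} A_P(X)`, `A(X) = card {α ∈ t + M, InCone α, nrm α ≤ v X}`,
`A_P(X) = card {α ∈ (t + M) ∩ P² 𝔟², InCone α, nrm α ≤ v X}`.
`A(X)/X → v κ / absNorm M` (`cone_coset`). For `P ∉ T`: `(t + M) ∩ P² 𝔟²` is empty or a coset of `P² M`
(`coset_inter`, `¬ M' ≤ P`: a prime containing `M'` contains `I` or some `Q ∈ T`, so equals `Q`), so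
`A_P(X)/X → ` a limit `≤ v κ / (absNorm M (absNorm P)^2)`. For all `P`: `A_P(X) ≤ C v X /
(absNorm P)^2` (`cone_ideal_le`, `absNorm (P² 𝔟²) ≥ (absNorm P)^2`). Choose `y ≥ y₀` with
`C v ∑_{absNorm P > y} (absNorm P)^{-2} < v κ/(8 absNorm M)`. Then eventually `N(X)/X ≥ (v κ/absNorm M)
(1 - 1/2 - 1/8 - 1/8) > 0`. -/

open NumberField Module Filter Topology

namespace QTow

private theorem sd_union {A ι : Type*} {L N : Set A} {U : Finset ι}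
    {E : ι → Set A} (hN : N.Finite) (hE : ∀ i, (E i).Finite) (h : L ⊆ N ∪ ⋃ i ∈ U, E i) :
    (L.ncard : ℝ) ≤ N.ncard + ∑ i ∈ U, ((E i).ncard : ℝ) := by
  classical
  have h1 : ∀ U : Finset ι, (⋃ i ∈ U, E i).ncard ≤ ∑ i ∈ U, (E i).ncard := by
    intro U
    induction U using Finset.induction_on with
    | empty => simp
    | insert i U hi ih =>
      rw [Finset.sum_insert hi, Finset.set_biUnion_insert]
      exact (Set.ncard_union_le _ _).trans (by omega)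
  have hfin : (⋃ i ∈ U, E i).Finite := Set.Finite.biUnion U.finite_toSet fun i _ => hE i
  have h2 := (Set.ncard_le_ncard h (hN.union hfin)).trans (Set.ncard_union_le _ _)
  have h3 := h1 U
  have h4 : L.ncard ≤ N.ncard + ∑ i ∈ U, (E i).ncard := h2.trans (by omega)
  exact_mod_cast h4

private theorem sd_cover {A ι : Type*} {B : Set A} (hB : B.Finite) {p : ι → Prop}
    {E : ι → Set A} (h : ∀ a ∈ B, ∃ i, p i ∧ a ∈ E i) :
    ∃ S : Finset ι, (∀ i ∈ S, p i) ∧ B ⊆ ⋃ i ∈ S, E i := by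
  classical
  choose f hf using h
  refine ⟨hB.toFinset.attach.image fun a => f a.1 (hB.mem_toFinset.1 a.2), ?_, ?_⟩
  · intro i hi
    obtain ⟨a, _, rfl⟩ := Finset.mem_image.1 hi
    exact (hf _ _).1
  · intro a ha
    rw [Set.mem_iUnion₂]
    refine ⟨f a ha, ?_, (hf a ha).2⟩
    rw [Finset.mem_image]
    exact ⟨⟨a, hB.mem_toFinset.2 ha⟩, Finset.mem_attach _ _, rfl⟩

private theorem sd_scale {c : ℝ → ℝ} {ℓ v : ℝ} (hv : 0 < v)
    (h : Tendsto (fun Z => c Z / Z) atTop (𝓝 ℓ)) :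
    Tendsto (fun X => c (v * X) / X) atTop (𝓝 (v * ℓ)) := by
  have h1 : Tendsto (fun X : ℝ => v * X) atTop atTop := tendsto_id.const_mul_atTop hv
  have h2 := (h.comp h1).const_mul v
  refine h2.congr' ?_
  filter_upwards [eventually_gt_atTop 0] with X hX
  simp only [Function.comp]
  field_simp

private theorem sd_not_le {R : Type} [CommRing R] [IsDedekindDomain R] {I P : Ideal R}
    {T : Finset (Ideal R)} (hP : P.IsPrime) (hPT : P ∉ T) (hT : ∀ Q ∈ T, Q.IsPrime ∧ Q ≠ ⊥)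
    (hI : ¬ I ≤ P) : ¬ I * ∏ Q ∈ T, Q ^ 2 ≤ P := by
  intro h
  rcases (hP.mul_le).1 h with h | h
  · exact hI h
  · obtain ⟨Q, hQ, hQP⟩ := (hP.prod_le).1 h
    have h2 : Q ≤ P := (Ideal.IsPrime.pow_le_iff (hP := hP) two_ne_zero).1 hQP
    have h3 : Q = P := ((hT Q hQ).1.isMaximal (hT Q hQ).2).eq_of_le hP.ne_top h2
    exact hPT (h3 ▸ hQ)

/-- a periodic function is bounded -/
private theorem sd_bdd (F : Type) [Field F] [NumberField F] (I : Ideal (𝓞 F)) (hI : I ≠ ⊥)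
    (g : 𝓞 F → ℝ) (hg : ∀ x y, x - y ∈ I → g x = g y) : ∃ G : ℝ, ∀ x, g x ≤ G := by
  have hfin : Finite (𝓞 F ⧸ I) := Ideal.finiteQuotientOfFreeOfNeBot I hI
  obtain ⟨G, hG⟩ := (Set.finite_range fun q : 𝓞 F ⧸ I => g (Quotient.out q)).bddAbove
  refine ⟨G, fun x => ?_⟩
  have h1 : g x = g (Quotient.out (Ideal.Quotient.mk I x)) := by
    apply hg
    rw [← Ideal.Quotient.eq]
    exact (Quotient.out_eq _).symm
  rw [h1]
  exact hG (Set.mem_range_self _)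

theorem sieve_lower (F : Type) [Field F] [NumberField F] (𝔟 I : Ideal (𝓞 F)) (h𝔟 : 𝔟 ≠ ⊥)
    (hI : I ≠ ⊥) (g : 𝓞 F → ℝ) (hg : ∀ x y, x - y ∈ I → g x = g y) (hpos : ∀ x, 0 < g x) :
    ∃ c : ℝ, 0 < c ∧ ∀ᶠ X : ℝ in atTop,
      c ≤ (Nat.card {α : 𝓞 F // SqF 𝔟 α ∧ InCone F α ∧ nrm F α ≤ g α * X} : ℝ) / X := by
  classical
  obtain ⟨C, hC, hCJ⟩ := cone_ideal_le F
  have hsum := summable_prime F
  set f : {P : Ideal (𝓞 F) // P.IsPrime ∧ P ≠ ⊥} → ℝ :=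
    fun P => 1 / ((Ideal.absNorm P.1 : ℝ)) ^ 2 with hf
  have hκ := kap_pos F
  obtain ⟨G, hG⟩ := sd_bdd F I hI g hg
  have h𝔟2 : 𝔟 ^ 2 ≠ ⊥ := pow_ne_zero 2 h𝔟
  have hn𝔟 : (1 : ℝ) ≤ (Ideal.absNorm (𝔟 ^ 2) : ℝ) := by
    have h1 : Ideal.absNorm (𝔟 ^ 2) ≠ 0 := fun h => h𝔟2 (Ideal.absNorm_eq_zero_iff.1 h)
    exact_mod_cast Nat.one_le_iff_ne_zero.2 h1
  have hnP : ∀ P : {P : Ideal (𝓞 F) // P.IsPrime ∧ P ≠ ⊥}, (0 : ℝ) < (Ideal.absNorm P.1 : ℝ) := by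
    intro P
    have h1 : Ideal.absNorm P.1 ≠ 0 := fun h => P.2.2 (Ideal.absNorm_eq_zero_iff.1 h)
    exact_mod_cast Nat.pos_of_ne_zero h1
  have hf0 : ∀ P, 0 ≤ f P := fun P => by
    simp only [hf]
    positivity
  -- the primes above `I`
  have hfinI : {P : {P : Ideal (𝓞 F) // P.IsPrime ∧ P ≠ ⊥} | I ≤ P.1}.Finite := by
    have h1 := Ideal.finite_factors (I := I) hI
    refine Set.Finite.of_finite_image (f := fun P => P.1) ?_ Subtype.val_injective.injOn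
    refine (h1.image fun v => v.asIdeal).subset ?_
    rintro _ ⟨P, hP, rfl⟩
    exact ⟨⟨P.1, P.2.1, P.2.2⟩, Ideal.dvd_iff_le.2 hP, rfl⟩
  obtain ⟨s₀, hs₀⟩ := summable_iff_vanishing_norm.1 hsum (1 / 2) (by norm_num)
  obtain ⟨T₀, hT₀⟩ : ∃ T₀ : Finset {P : Ideal (𝓞 F) // P.IsPrime ∧ P ≠ ⊥},
    T₀ = s₀ ∪ hfinI.toFinset := ⟨_, rfl⟩
  obtain ⟨T, hTdef⟩ : ∃ T : Finset (Ideal (𝓞 F)), T = T₀.image Subtype.val := ⟨_, rfl⟩
  have hTmem : ∀ P : {P : Ideal (𝓞 F) // P.IsPrime ∧ P ≠ ⊥}, P.1 ∈ T ↔ P ∈ T₀ := by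
    intro P
    rw [hTdef, Finset.mem_image]
    constructor
    · rintro ⟨Q, hQ, hQP⟩
      rwa [← Subtype.ext hQP]
    · exact fun h => ⟨P, h, rfl⟩
  have hT : ∀ Q ∈ T, Q.IsPrime ∧ Q ≠ ⊥ := by
    intro Q hQ
    rw [hTdef, Finset.mem_image] at hQ
    obtain ⟨P, _, rfl⟩ := hQ
    exact P.2
  obtain ⟨t, ht, htT⟩ := exists_sqf 𝔟 h𝔟 T hT
  obtain ⟨M', hM'⟩ : ∃ M' : Ideal (𝓞 F), M' = I * ∏ Q ∈ T, Q ^ 2 := ⟨_, rfl⟩
  obtain ⟨M, hMdef⟩ : ∃ M : Ideal (𝓞 F), M = M' * 𝔟 ^ 2 := ⟨_, rfl⟩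
  have hM'0 : M' ≠ ⊥ := by
    rw [hM']
    refine mul_ne_zero hI ?_
    rw [Finset.prod_ne_zero_iff]
    exact fun Q hQ => pow_ne_zero 2 (hT Q hQ).2
  have hM0 : M ≠ ⊥ := by
    rw [hMdef]
    exact mul_ne_zero hM'0 h𝔟2
  have hMI : M ≤ I := by
    rw [hMdef, hM']
    exact Ideal.mul_le_left.trans Ideal.mul_le_left
  have hM𝔟 : M ≤ 𝔟 ^ 2 := by
    rw [hMdef]
    exact Ideal.mul_le_right
  have hMP : ∀ Q ∈ T, M ≤ Q ^ 2 * 𝔟 ^ 2 := by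
    intro Q hQ
    rw [hMdef, hM']
    refine Ideal.mul_mono_left (Ideal.mul_le_right.trans ?_)
    exact Ideal.le_of_dvd (Finset.dvd_prod_of_mem (fun Q : Ideal (𝓞 F) => Q ^ 2) hQ)
  have hv := hpos t
  set v := g t with hvdef
  have hnM : (0 : ℝ) < (Ideal.absNorm M : ℝ) := by
    have h1 : Ideal.absNorm M ≠ 0 := fun h => hM0 (Ideal.absNorm_eq_zero_iff.1 h)
    exact_mod_cast Nat.pos_of_ne_zero h1
  obtain ⟨a, ha⟩ : ∃ a : ℝ, a = v * (kap F / (Ideal.absNorm M : ℝ)) := ⟨_, rfl⟩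
  have ha0 : 0 < a := by rw [ha]; positivity
  obtain ⟨s₁, hs₁⟩ := summable_iff_vanishing_norm.1 hsum (a / (8 * (C * v))) (by positivity)
  obtain ⟨T₁, hT₁⟩ : ∃ T₁ : Finset {P : Ideal (𝓞 F) // P.IsPrime ∧ P ≠ ⊥},
    T₁ = s₁ ∪ T₀ := ⟨_, rfl⟩
  obtain ⟨U, hU⟩ : ∃ U : Finset {P : Ideal (𝓞 F) // P.IsPrime ∧ P ≠ ⊥}, U = T₁ \ T₀ := ⟨_, rfl⟩
  -- the counting functions
  have hA : Tendsto (fun X : ℝ =>
      (Set.ncard {α : 𝓞 F | α - t ∈ M ∧ InCone F α ∧ nrm F α ≤ v * X} : ℝ) / X) atTop (𝓝 a) := by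
    rw [ha]
    exact sd_scale (c := fun Z =>
      (Set.ncard {α : 𝓞 F | α - t ∈ M ∧ InCone F α ∧ nrm F α ≤ Z} : ℝ)) hv (cone_coset F M hM0 t)
  have hP : ∀ P : {P : Ideal (𝓞 F) // P.IsPrime ∧ P ≠ ⊥}, P ∉ T₀ → ∃ ℓ : ℝ, ℓ ≤ a * f P ∧
      Tendsto (fun X : ℝ => (Set.ncard {α : 𝓞 F | (α - t ∈ M ∧ α ∈ P.1 ^ 2 * 𝔟 ^ 2) ∧
        InCone F α ∧ nrm F α ≤ v * X} : ℝ) / X) atTop (𝓝 ℓ) := by
    intro P hPT
    by_cases hex : ∃ t' : 𝓞 F, t' - t ∈ M ∧ t' ∈ P.1 ^ 2 * 𝔟 ^ 2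
    · obtain ⟨t', ht'M, ht'P⟩ := hex
      have hPM' : ¬ M' ≤ P.1 := by
        rw [hM']
        refine sd_not_le P.2.1 (fun h => hPT ((hTmem P).1 h)) hT fun h => hPT ?_
        rw [hT₀]
        exact Finset.mem_union_right _ (hfinI.mem_toFinset.2 h)
      have hset : ∀ α : 𝓞 F, (α - t ∈ M ∧ α ∈ P.1 ^ 2 * 𝔟 ^ 2) ↔
          α - t' ∈ P.1 ^ 2 * (M' * 𝔟 ^ 2) := by
        intro α
        constructor
        · rintro ⟨h1, h2⟩
          refine coset_inter 𝔟 M' P.1 h𝔟 P.2.1 P.2.2 hPM' _ ?_ (sub_mem h2 ht'P)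
          rw [← hMdef]
          have h3 : α - t' = (α - t) - (t' - t) := by ring
          rw [h3]
          exact sub_mem h1 ht'M
        · intro h1
          have h2 : α - t' ∈ M := by
            rw [hMdef]
            exact Ideal.mul_le_right h1
          have h3 : α - t' ∈ P.1 ^ 2 * 𝔟 ^ 2 :=
            Ideal.mul_mono_right Ideal.mul_le_right h1
          have e1 : α - t = (α - t') + (t' - t) := by ring
          have e2 : α = (α - t') + t' := by ring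
          refine ⟨?_, ?_⟩
          · rw [e1]
            exact add_mem h2 ht'M
          · rw [e2]
            exact add_mem h3 ht'P
      have hne : P.1 ^ 2 * (M' * 𝔟 ^ 2) ≠ ⊥ :=
        mul_ne_zero (pow_ne_zero 2 P.2.2) (mul_ne_zero hM'0 h𝔟2)
      refine ⟨v * (kap F / (Ideal.absNorm (P.1 ^ 2 * (M' * 𝔟 ^ 2)) : ℝ)), ?_, ?_⟩
      · rw [ha, map_mul, map_pow, ← hMdef]
        simp only [hf]
        push_cast
        have := hnP P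
        apply le_of_eq
        field_simp
      · have h1 := sd_scale (c := fun Z => (Set.ncard {α : 𝓞 F |
          α - t' ∈ P.1 ^ 2 * (M' * 𝔟 ^ 2) ∧ InCone F α ∧ nrm F α ≤ Z} : ℝ)) hv
          (cone_coset F _ hne t')
        simp only [hset]
        exact h1
    · refine ⟨0, mul_nonneg ha0.le (hf0 P), ?_⟩
      have h1 : ∀ X : ℝ, {α : 𝓞 F | (α - t ∈ M ∧ α ∈ P.1 ^ 2 * 𝔟 ^ 2) ∧
          InCone F α ∧ nrm F α ≤ v * X} = ∅ := by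
        intro X
        rw [Set.eq_empty_iff_forall_notMem]
        rintro α ⟨h, -⟩
        exact hex ⟨α, h⟩
      simp only [h1, Set.ncard_empty, Nat.cast_zero, zero_div]
      exact tendsto_const_nhds
  choose! ℓ hℓ1 hℓ2 using hP
  have hUT : ∀ P ∈ U, P ∉ T₀ := by
    intro P hPU
    rw [hU, Finset.mem_sdiff] at hPU
    exact hPU.2
  have hUlim := tendsto_finset_sum U fun P hPU => hℓ2 P (hUT P hPU)
  have hUle : ∑ P ∈ U, ℓ P ≤ a / 2 := by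
    have h1 : ∑ P ∈ U, ℓ P ≤ a * ∑ P ∈ U, f P := by
      rw [Finset.mul_sum]
      exact Finset.sum_le_sum fun P hPU => hℓ1 P (hUT P hPU)
    have h2 := hs₀ U (by
      rw [Finset.disjoint_left]
      intro P hPU hPs
      apply hUT P hPU
      rw [hT₀]
      exact Finset.mem_union_left _ hPs)
    rw [Real.norm_eq_abs] at h2
    have h3 := (le_abs_self _).trans h2.le
    have h4 := mul_le_mul_of_nonneg_left h3 ha0.le
    linarith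
  refine ⟨a / 8, by positivity, ?_⟩
  have hev1 := hA.eventually (lt_mem_nhds (by linarith : a * (7 / 8) < a))
  have hev2 := hUlim.eventually (gt_mem_nhds (by linarith : ∑ P ∈ U, ℓ P < a * (5 / 8)))
  filter_upwards [hev1, hev2, eventually_gt_atTop 0] with X h1 h2 hX
  have hvX : 0 < v * X := by positivity
  -- the finite sets
  have hfin : ∀ (Q : 𝓞 F → Prop) (Z : ℝ), {α : 𝓞 F | Q α ∧ InCone F α ∧ nrm F α ≤ Z}.Finite :=
    fun Q Z => (cone_finite F Z).subset fun α hα => hα.2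
  have hNfin : {α : 𝓞 F | SqF 𝔟 α ∧ InCone F α ∧ nrm F α ≤ g α * X}.Finite := by
    refine (cone_finite F (G * X)).subset fun α hα => ⟨hα.2.1, hα.2.2.trans ?_⟩
    exact mul_le_mul_of_nonneg_right (hG α) hX.le
  obtain ⟨B, hB⟩ : ∃ B : Set (𝓞 F), B = {α : 𝓞 F | (α - t ∈ M ∧
    ∃ P : {P : Ideal (𝓞 F) // P.IsPrime ∧ P ≠ ⊥}, P ∉ T₁ ∧ α ∈ P.1 ^ 2 * 𝔟 ^ 2) ∧
      InCone F α ∧ nrm F α ≤ v * X} := ⟨_, rfl⟩
  have hBfin : B.Finite := by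
    rw [hB]
    exact hfin _ _
  obtain ⟨S, hS1, hS2⟩ := sd_cover (B := B) hBfin
    (p := fun P : {P : Ideal (𝓞 F) // P.IsPrime ∧ P ≠ ⊥} => P ∉ T₁)
    (E := fun P => {α : 𝓞 F | α ∈ P.1 ^ 2 * 𝔟 ^ 2 ∧ InCone F α ∧ nrm F α ≤ v * X}) (by
      intro α hα
      rw [hB] at hα
      obtain ⟨⟨_, P, hPT, hPα⟩, h3⟩ := hα
      exact ⟨P, hPT, hPα, h3⟩)
  have hBle : (B.ncard : ℝ) ≤ a / 8 * X := by
    have h3 := sd_union (L := B) (N := (∅ : Set (𝓞 F))) (U := S) Set.finite_empty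
      (fun P : {P : Ideal (𝓞 F) // P.IsPrime ∧ P ≠ ⊥} => hfin (fun α => α ∈ P.1 ^ 2 * 𝔟 ^ 2) (v * X))
      (by rw [Set.empty_union]; exact hS2)
    rw [Set.ncard_empty, Nat.cast_zero, zero_add] at h3
    refine h3.trans ?_
    have h4 : ∀ P ∈ S, ((Set.ncard {α : 𝓞 F | α ∈ P.1 ^ 2 * 𝔟 ^ 2 ∧ InCone F α ∧
        nrm F α ≤ v * X} : ℕ) : ℝ) ≤ C * (v * X) * f P := by
      intro P _
      have hne : P.1 ^ 2 * 𝔟 ^ 2 ≠ ⊥ := mul_ne_zero (pow_ne_zero 2 P.2.2) h𝔟2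
      refine (hCJ (P.1 ^ 2 * 𝔟 ^ 2) hne (v * X) hvX).trans ?_
      rw [map_mul, map_pow]
      simp only [hf]
      push_cast
      have h5 := hnP P
      rw [mul_one_div]
      apply div_le_div_of_nonneg_left (by positivity) (by positivity)
      push_cast at hn𝔟
      have h6 : (0 : ℝ) < (Ideal.absNorm P.1 : ℝ) ^ 2 := by positivity
      nlinarith
    refine (Finset.sum_le_sum h4).trans ?_
    rw [← Finset.mul_sum]
    have h5 := hs₁ S (by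
      rw [Finset.disjoint_left]
      intro P hPS hPs
      apply hS1 P hPS
      rw [hT₁]
      exact Finset.mem_union_left _ hPs)
    rw [Real.norm_eq_abs] at h5
    have h6 := (le_abs_self _).trans h5.le
    have h7 := mul_le_mul_of_nonneg_left h6 (by positivity : 0 ≤ C * (v * X))
    refine h7.trans (le_of_eq ?_)
    field_simp
  have hmain := sd_union (L := {α : 𝓞 F | α - t ∈ M ∧ InCone F α ∧ nrm F α ≤ v * X})
    (N := {α : 𝓞 F | SqF 𝔟 α ∧ InCone F α ∧ nrm F α ≤ g α * X} ∪ B) (U := U)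
    (hNfin.union hBfin)
    (fun P : {P : Ideal (𝓞 F) // P.IsPrime ∧ P ≠ ⊥} =>
      hfin (fun α => α - t ∈ M ∧ α ∈ P.1 ^ 2 * 𝔟 ^ 2) (v * X)) (by
    rintro α ⟨hαM, hαc, hαn⟩
    by_cases hex : ∃ P : {P : Ideal (𝓞 F) // P.IsPrime ∧ P ≠ ⊥}, P ∉ T₀ ∧ α ∈ P.1 ^ 2 * 𝔟 ^ 2
    · obtain ⟨P, hPT, hPα⟩ := hex
      by_cases hPT1 : P ∈ T₁
      · right
        rw [Set.mem_iUnion₂]
        refine ⟨P, ?_, ⟨hαM, hPα⟩, hαc, hαn⟩
        rw [hU, Finset.mem_sdiff]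
        exact ⟨hPT1, hPT⟩
      · left
        right
        rw [hB]
        exact ⟨⟨hαM, P, hPT1, hPα⟩, hαc, hαn⟩
    · left
      left
      have e2 : α = (α - t) + t := by ring
      refine ⟨⟨?_, fun P hPp hPα => ?_⟩, hαc, ?_⟩
      · rw [e2]
        exact add_mem (hM𝔟 hαM) ht
      · by_cases hP0 : P = ⊥
        · subst hP0
          have h3 : (⊥ : Ideal (𝓞 F)) ^ 2 * 𝔟 ^ 2 = ⊥ := by
            rw [← Ideal.zero_eq_bot, zero_pow two_ne_zero, zero_mul]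
          rw [h3, Ideal.mem_bot] at hPα
          exact ne_zero_of_inCone F hαc hPα
        · by_cases hPT : (⟨P, hPp, hP0⟩ : {P : Ideal (𝓞 F) // P.IsPrime ∧ P ≠ ⊥}) ∈ T₀
          · have hPT' : P ∈ T := (hTmem ⟨P, hPp, hP0⟩).2 hPT
            apply htT P hPT'
            have e3 : t = α - (α - t) := by ring
            rw [e3]
            exact sub_mem hPα (hMP P hPT' hαM)
          · exact hex ⟨⟨P, hPp, hP0⟩, hPT, hPα⟩
      · have h3 : g α = v := hg α t (hMI hαM)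
        rw [h3]
        exact hαn)
  have hmain2 : (({α : 𝓞 F | SqF 𝔟 α ∧ InCone F α ∧ nrm F α ≤ g α * X} ∪ B).ncard : ℝ) ≤
      (Set.ncard {α : 𝓞 F | SqF 𝔟 α ∧ InCone F α ∧ nrm F α ≤ g α * X} : ℝ) + B.ncard := by
    exact_mod_cast Set.ncard_union_le _ _
  have h3 : a * (7 / 8) * X < (Set.ncard {α : 𝓞 F | α - t ∈ M ∧ InCone F α ∧
      nrm F α ≤ v * X} : ℝ) := (lt_div_iff₀ hX).1 h1
  have h4 : ∑ P ∈ U, (Set.ncard {α : 𝓞 F | (α - t ∈ M ∧ α ∈ P.1 ^ 2 * 𝔟 ^ 2) ∧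
        InCone F α ∧ nrm F α ≤ v * X} : ℝ) < a * (5 / 8) * X := by
    rw [← Finset.sum_div] at h2
    exact (div_lt_iff₀ hX).1 h2
  rw [le_div_iff₀ hX]
  change a / 8 * X ≤ (Set.ncard {α : 𝓞 F | SqF 𝔟 α ∧ InCone F α ∧ nrm F α ≤ g α * X} : ℝ)
  linarith

theorem sieve_limit (F : Type) [Field F] [NumberField F] (𝔟 I : Ideal (𝓞 F)) (h𝔟 : 𝔟 ≠ ⊥)
    (hI : I ≠ ⊥) (g : 𝓞 F → ℝ) (hg : ∀ x y, x - y ∈ I → g x = g y) (hpos : ∀ x, 0 < g x) :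
    ∃ c : ℝ, 0 < c ∧ Tendsto (fun X : ℝ =>
      (Nat.card {α : 𝓞 F // SqF 𝔟 α ∧ InCone F α ∧ nrm F α ≤ g α * X} : ℝ) / X)
      atTop (𝓝 c) := by
  obtain ⟨c, hc⟩ := sieve_exists F 𝔟 I h𝔟 hI g hg hpos
  obtain ⟨c', hc', h⟩ := sieve_lower F 𝔟 I h𝔟 hI g hg hpos
  exact ⟨c, lt_of_lt_of_le hc' (ge_of_tendsto hc h), hc⟩

end QTow
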