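import Pool.Agent.Lib.MP_44a56e_nt.Defs2
import Pool.Agent.Lib.MP_44a56e_nt.SFBasic
import Pool.Agent.Lib.MP_44a56e_nt.Cone
import Pool.Agent.Lib.MP_44a56e_nt.DiscC
import Pool.Agent.Lib.MP_44a56e_nt.SieveD
import Pool.Agent.Lib.MP_44a56e_nt.ParamB

/-! # MP_44a56e_nt, module LimF: the number of quadratic extensions of a fixed number field. -/

open NumberField Module Filter Topology UniqueFactorizationMonoid

namespace QTow

private theorem dvd_of_sq {R : Type} [CommRing R] [IsDedekindDomain R] {A B : Ideal R}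
    (h : A ^ 2 ∣ B ^ 2) : A ∣ B := by
  by_cases hB : B = 0
  · rw [hB]; exact dvd_zero _
  have hA : A ≠ 0 := by
    rintro rfl
    rw [zero_pow two_ne_zero, zero_dvd_iff] at h
    exact hB (pow_eq_zero_iff two_ne_zero |>.1 h)
  rw [dvd_iff_normalizedFactors_le_normalizedFactors (pow_ne_zero 2 hA) (pow_ne_zero 2 hB),
    normalizedFactors_pow, normalizedFactors_pow] at h
  rw [dvd_iff_normalizedFactors_le_normalizedFactors hA hB]
  classical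
  rw [Multiset.le_iff_count] at h ⊢
  intro P
  have := h P
  rw [Multiset.count_nsmul, Multiset.count_nsmul] at this
  omega

private theorem norm_of_square (F : Type) [Field F] [NumberField F] (𝔟 : Ideal (𝓞 F))
    (h𝔟 : 𝔟 ≠ ⊥) (α β : 𝓞 F) (hα : SqF 𝔟 α) (hβ : β ^ 2 = α) :
    nrm F α = (Ideal.absNorm 𝔟 : ℝ) ^ 2 := by
  obtain ⟨𝔞, h𝔞, he⟩ := exists_sqf_ideal F 𝔟 h𝔟 α hα
  rw [← hβ, ← Ideal.span_singleton_pow] at he
  have hdvd : 𝔟 ^ 2 ∣ Ideal.span {β} ^ 2 := ⟨𝔞, by rw [← he, mul_comm]⟩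
  obtain ⟨𝔢, h𝔢⟩ := dvd_of_sq hdvd
  have h1 : 𝔞 = 𝔢 ^ 2 := by
    rw [h𝔢, mul_pow] at he
    have h2 : 𝔟 ^ 2 ≠ 0 := pow_ne_zero 2 h𝔟
    have h3 : 𝔟 ^ 2 * 𝔞 = 𝔟 ^ 2 * 𝔢 ^ 2 := by rw [← he, mul_comm]
    exact mul_left_cancel₀ h2 h3
  have h2 : 𝔢 = ⊤ := by
    by_contra hne
    obtain ⟨P, hP, hle⟩ := Ideal.exists_le_maximal 𝔢 hne
    refine h𝔞 P hP.isPrime ?_
    rw [h1]
    exact Ideal.pow_right_mono hle 2
  have h3 : Ideal.span {α} = 𝔟 ^ 2 := by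
    rw [← hβ, ← Ideal.span_singleton_pow, h𝔢, h2, Ideal.mul_top]
  rw [nrm_eq_absNorm, h3, map_pow]
  push_cast
  rfl

/-- The limit for one ideal and one unit. -/
private theorem one_limit (F : SF) [NumberField F] (𝔟 : Ideal (𝓞 F)) (h𝔟 : 𝔟 ≠ ⊥)
    (u : (𝓞 F)ˣ) : ∃ c : ℝ, 0 < c ∧ Tendsto (fun X : ℝ => (Nat.card {α : 𝓞 F //
        SqF 𝔟 α ∧ InCone F α ∧ ∃ K ∈ Quad F, dabs K ≤ X ∧ Rt F K ((u : 𝓞 F) * α)} : ℝ) / X)
      atTop (𝓝 c) := by
  classical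
  obtain ⟨j, hj0, hjper, hjf⟩ := disc_formula_SF F 𝔟 h𝔟
  set m := deg F with hm
  set D := dabs F with hD
  have hD0 : 0 < D := lt_of_lt_of_le one_pos (one_le_dabs F)
  set I : Ideal (𝓞 F) := Ideal.span {4} * 𝔟 ^ 2 with hI
  have hI0 : I ≠ ⊥ := by
    rw [hI, ← Ideal.zero_eq_bot]
    refine mul_ne_zero ?_ (pow_ne_zero 2 (by rwa [Ideal.zero_eq_bot]))
    rw [Ideal.zero_eq_bot, Ne, Ideal.span_singleton_eq_bot]
    have h4 : ((4 : ℕ) : 𝓞 F) ≠ 0 := Nat.cast_ne_zero.2 (by norm_num)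
    exact_mod_cast h4
  have hN : (0 : ℝ) < Ideal.absNorm 𝔟 := by
    have : Ideal.absNorm 𝔟 ≠ 0 := by
      rw [Ne, Ideal.absNorm_eq_zero_iff]
      exact h𝔟
    exact_mod_cast Nat.pos_of_ne_zero this
  set g : 𝓞 F → ℝ := fun α => (j ((u : 𝓞 F) * α) : ℝ) ^ 2 * (Ideal.absNorm 𝔟 : ℝ) ^ 2 /
    (4 ^ m * D ^ 2) with hg
  have hgper : ∀ x y, x - y ∈ I → g x = g y := by
    intro x y hxy
    have h1 : (u : 𝓞 F) * x - (u : 𝓞 F) * y ∈ I := by
      rw [← mul_sub]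
      exact I.mul_mem_left _ hxy
    simp only [hg]
    rw [hjper _ _ h1]
  have hgpos : ∀ x, 0 < g x := by
    intro x
    have h1 : (0 : ℝ) < j ((u : 𝓞 F) * x) := by exact_mod_cast hj0 _
    simp only [hg]
    positivity
  -- boundedness of `g`
  have hfinq : Finite (𝓞 F ⧸ I) := Ideal.finiteQuotientOfFreeOfNeBot I hI0
  obtain ⟨G, hG⟩ : ∃ G : ℝ, ∀ x, g x ≤ G := by
    obtain ⟨G, hG⟩ := (Set.finite_range (fun q : 𝓞 F ⧸ I => g (Quotient.out q))).bddAbove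
    refine ⟨G, fun x => ?_⟩
    have h1 : g x = g (Quotient.out (Ideal.Quotient.mk I x)) := by
      apply hgper
      rw [← Ideal.Quotient.eq, Ideal.Quotient.mk_out]
    rw [h1]
    exact hG ⟨_, rfl⟩
  obtain ⟨c, hc, hlim⟩ := sieve_limit F 𝔟 I h𝔟 hI0 g hgper hgpos
  -- the discriminant in terms of `g`
  have hdisc : ∀ (α : 𝓞 F), SqF 𝔟 α → ∀ K ∈ Quad F, Rt F K ((u : 𝓞 F) * α) →
      nrm F α = g α * dabs K := by
    intro α hα K hK ⟨s, hs, hsF, hs2⟩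
    have h1 := hjf K hK s ((u : 𝓞 F) * α) hs hsF hs2 ((sqf_unit_mul F 𝔟 α u).2 hα)
    rw [nrm_unit_mul] at h1
    simp only [hg]
    field_simp
    linarith
  set A : ℝ → Set (𝓞 F) := fun X => {α : 𝓞 F | SqF 𝔟 α ∧ InCone F α ∧
    ∃ K ∈ Quad F, dabs K ≤ X ∧ Rt F K ((u : 𝓞 F) * α)} with hA
  set B : ℝ → Set (𝓞 F) := fun X => {α : 𝓞 F | SqF 𝔟 α ∧ InCone F α ∧
    nrm F α ≤ g α * X} with hB
  set S₀ : Set (𝓞 F) := {α : 𝓞 F | InCone F α ∧ nrm F α ≤ (Ideal.absNorm 𝔟 : ℝ) ^ 2} with hS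
  have hSfin : S₀.Finite := cone_finite F _
  have hAB : ∀ X, A X ⊆ B X := by
    rintro X α ⟨h1, h2, K, hK, hKX, hR⟩
    refine ⟨h1, h2, ?_⟩
    rw [hdisc α h1 K hK hR]
    exact mul_le_mul_of_nonneg_left hKX (hgpos α).le
  have hBA : ∀ X, B X ⊆ A X ∪ S₀ := by
    rintro X α ⟨h1, h2, h3⟩
    obtain ⟨s, hs⟩ : ∃ s : ℂ, s ^ 2 = ((((u : 𝓞 F) * α : 𝓞 F) : F) : ℂ) :=
      IsAlgClosed.exists_pow_nat_eq _ two_pos
    by_cases hsF : s ∈ F
    · right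
      refine ⟨h2, ?_⟩
      have hint : IsIntegral ℤ (⟨s, hsF⟩ : F) := by
        have h4 : IsIntegral ℤ ((⟨s, hsF⟩ : F) ^ 2) := by
          have h5 : ((⟨s, hsF⟩ : F) ^ 2) = (((u : 𝓞 F) * α : 𝓞 F) : F) := by
            apply Subtype.ext
            exact hs
          rw [h5]
          exact RingOfIntegers.isIntegral_coe _
        exact IsIntegral.of_pow two_pos h4
      have h6 : (⟨⟨s, hsF⟩, hint⟩ : 𝓞 F) ^ 2 = (u : 𝓞 F) * α := by
        apply RingOfIntegers.ext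
        apply Subtype.ext
        exact hs
      have h7 := norm_of_square F 𝔟 h𝔟 ((u : 𝓞 F) * α) _ ((sqf_unit_mul F 𝔟 α u).2 h1) h6
      rw [nrm_unit_mul] at h7
      exact h7.le
    · left
      obtain ⟨K, hK, hsK⟩ := exists_quad F (s := s) (by rw [hs]; exact SetLike.coe_mem _) hsF
      have hR : Rt F K ((u : 𝓞 F) * α) := ⟨s, hsK, hsF, hs⟩
      refine ⟨h1, h2, K, hK, ?_, hR⟩
      rw [hdisc α h1 K hK hR] at h3
      exact le_of_mul_le_mul_left h3 (hgpos α)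
  have hBfin : ∀ X : ℝ, 0 < X → (B X).Finite := by
    intro X hX
    refine (cone_finite F (G * X)).subset ?_
    rintro α ⟨_, h2, h3⟩
    exact ⟨h2, le_trans h3 (mul_le_mul_of_nonneg_right (hG α) hX.le)⟩
  refine ⟨c, hc, ?_⟩
  have hlow : Tendsto (fun X : ℝ => (Nat.card (B X) : ℝ) / X - (S₀.ncard : ℝ) / X) atTop
      (𝓝 (c - 0)) := hlim.sub (tendsto_const_nhds.div_atTop tendsto_id)
  rw [sub_zero] at hlow
  refine tendsto_of_tendsto_of_tendsto_of_le_of_le' hlow hlim ?_ ?_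
  · filter_upwards [eventually_gt_atTop 0] with X hX
    rw [← sub_div]
    gcongr
    have h1 : (B X).ncard ≤ (A X).ncard + S₀.ncard :=
      le_trans (Set.ncard_le_ncard (hBA X) (((hBfin X hX).subset (hAB X)).union hSfin))
        (Set.ncard_union_le _ _)
    have h2 : (Nat.card (B X) : ℝ) ≤ (Nat.card (A X) : ℝ) + (S₀.ncard : ℝ) := by
      exact_mod_cast h1
    change (Nat.card (B X) : ℝ) - (S₀.ncard : ℝ) ≤ (Nat.card (A X) : ℝ)
    linarith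
  · filter_upwards [eventually_gt_atTop 0] with X hX
    gcongr
    exact Set.ncard_le_ncard (hAB X) (hBfin X hX)

theorem quad_limit (F : SF) [NumberField F] :
    ∃ c : ℝ, 0 < c ∧ Tendsto (fun X : ℝ => (qcount F X : ℝ) / X) atTop (𝓝 c) := by
  classical
  obtain ⟨h, 𝔟, r, u, hh, hr, h𝔟, hpar⟩ := param F
  choose c hc hlim using fun (i : Fin h) (k : Fin r) => one_limit F (𝔟 i) (h𝔟 i) (u k)
  have hw : (0 : ℝ) < Units.torsionOrder F := by
    exact_mod_cast Nat.pos_of_ne_zero (Units.torsionOrder_ne_zero F)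
  refine ⟨(∑ i, ∑ k, c i k) / Units.torsionOrder F, ?_, ?_⟩
  · refine div_pos ?_ hw
    have : Nonempty (Fin h) := ⟨⟨0, hh⟩⟩
    have : Nonempty (Fin r) := ⟨⟨0, hr⟩⟩
    exact Finset.sum_pos (fun i _ => Finset.sum_pos (fun k _ => hc i k) Finset.univ_nonempty)
      Finset.univ_nonempty
  · have h1 := (tendsto_finsetSum Finset.univ fun i _ =>
      tendsto_finsetSum Finset.univ fun k _ => hlim i k).div_const (Units.torsionOrder F : ℝ)
    refine h1.congr fun X => ?_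
    have h2 : ((Units.torsionOrder F : ℕ) : ℝ) * (qcount F X : ℝ) =
        ((∑ i, ∑ k, Nat.card {α : 𝓞 F // SqF (𝔟 i) α ∧ InCone F α ∧
          ∃ K ∈ Quad F, dabs K ≤ X ∧ Rt F K ((u k : 𝓞 F) * α)} : ℕ) : ℝ) := by
      rw [← hpar X]
      push_cast
      rfl
    push_cast at h2
    simp_rw [← Finset.sum_div]
    rw [← h2]
    field_simp

end QTow
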