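import Pool.Agent.Lib.MP_44a56e_nt.Defs2
import Pool.Agent.Lib.MP_44a56e_nt.SFBasic
import Pool.Agent.Lib.MP_44a56e_nt.Level
import Pool.Agent.Lib.MP_44a56e_nt.LimF
import Pool.Agent.Lib.MP_44a56e_nt.BadCount
import Pool.Agent.Lib.MP_44a56e_nt.Iso

/-! # MP_44a56e_nt, module Main: the asymptotic formula for towers of quadratic extensions. -/

open NumberField Module Filter Topology

namespace QTow

/-- The number of quadratic extensions of `F` with exactly two automorphisms and small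
discriminant. -/
noncomputable def gcount (F : SF) (X : ℝ) : ℕ :=
  Set.ncard {K | K ∈ Quad F ∧ dabs K < X ∧ Nat.card (K ≃ₐ[ℚ] K) = 2}

/-- The number of bad quadratic extensions of `F` with small discriminant. -/
noncomputable def bcount (F : SF) (X : ℝ) : ℕ := Set.ncard {K | K ∈ Bad F ∧ dabs K ≤ X}

theorem quad_finite (F : SF) (X : ℝ) : {K | K ∈ Quad F ∧ dabs K ≤ X}.Finite :=
  (finite_dabs X).subset fun _ hK => ⟨hK.1.1, hK.2⟩

theorem gcount_finite (F : SF) (X : ℝ) :
    {K | K ∈ Quad F ∧ dabs K < X ∧ Nat.card (K ≃ₐ[ℚ] K) = 2}.Finite :=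
  (quad_finite F X).subset fun _ hK => ⟨hK.1, hK.2.1.le⟩

theorem bcount_finite (F : SF) (X : ℝ) : {K | K ∈ Bad F ∧ dabs K ≤ X}.Finite :=
  (quad_finite F X).subset fun _ hK => ⟨hK.1.1, hK.2⟩

theorem gcount_le (F : SF) (X : ℝ) : gcount F X ≤ qcount F X :=
  Set.ncard_le_ncard (fun _ hK => ⟨hK.1, hK.2.1.le⟩) (quad_finite F X)

theorem bcount_le (F : SF) (X : ℝ) : bcount F X ≤ qcount F X :=
  Set.ncard_le_ncard (fun _ hK => ⟨hK.1.1, hK.2⟩) (quad_finite F X)

theorem qcount_le (F : SF) (X : ℝ) : qcount F (X - 1) ≤ gcount F X + bcount F X := by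
  unfold qcount gcount bcount
  refine le_trans (Set.ncard_le_ncard ?_ ((gcount_finite F X).union (bcount_finite F X)))
    (Set.ncard_union_le _ _)
  rintro K ⟨hK, hd⟩
  by_cases h : Nat.card (K ≃ₐ[ℚ] K) = 2
  · exact Or.inl ⟨hK, by linarith, h⟩
  · exact Or.inr ⟨⟨hK, h⟩, by linarith⟩

theorem gcount_limit (F : SF) [NumberField F] (c : ℝ)
    (hc : Tendsto (fun X : ℝ => (qcount F X : ℝ) / X) atTop (𝓝 c)) :
    Tendsto (fun X : ℝ => (gcount F X : ℝ) / X) atTop (𝓝 c) := by
  have hb : Tendsto (fun X : ℝ => (bcount F X : ℝ) / X) atTop (𝓝 0) := bad_limit F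
  have h1 : Tendsto (fun X : ℝ => (qcount F (X - 1) : ℝ) / (X - 1)) atTop (𝓝 c) :=
    hc.comp (tendsto_atTop_add_const_right _ (-1) tendsto_id)
  have h2 : Tendsto (fun X : ℝ => (X - 1) / X) atTop (𝓝 1) := by
    have : Tendsto (fun X : ℝ => 1 - X⁻¹) atTop (𝓝 (1 - 0)) :=
      tendsto_const_nhds.sub tendsto_inv_atTop_zero
    rw [sub_zero] at this
    refine this.congr' ?_
    filter_upwards [eventually_gt_atTop 0] with X hX
    field_simp
  have h3 : Tendsto (fun X : ℝ => (qcount F (X - 1) : ℝ) / (X - 1) * ((X - 1) / X) -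
      (bcount F X : ℝ) / X) atTop (𝓝 (c * 1 - 0)) := (h1.mul h2).sub hb
  rw [mul_one, sub_zero] at h3
  refine tendsto_of_tendsto_of_tendsto_of_le_of_le' h3 hc ?_ ?_
  · filter_upwards [eventually_gt_atTop 1] with X hX
    have hX0 : 0 < X := by linarith
    have hX1 : 0 < X - 1 := by linarith
    have := qcount_le F X
    have h4 : (qcount F (X - 1) : ℝ) ≤ gcount F X + bcount F X := by exact_mod_cast this
    have h5 : (qcount F (X - 1) : ℝ) / (X - 1) * ((X - 1) / X) = (qcount F (X - 1) : ℝ) / X := by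
      field_simp
    rw [h5, ← sub_div]
    gcongr
    linarith
  · filter_upwards [eventually_gt_atTop 0] with X hX
    gcongr
    exact_mod_cast gcount_le F X

theorem clo_numberField {B : Set SF} (hfd : ∀ F ∈ B, FiniteDimensional ℚ F) {F : SF}
    (hF : F ∈ Clo B) : NumberField F := by
  rcases hF with h | h
  · exact numberField_of F (hfd F h)
  · cases h with
    | base h1 h2 => exact quad_numberField h2
    | step h1 h2 => exact quad_numberField h2

theorem tow_iff {B : Set SF} {K : SF} : Tow B K ↔ ∃ F ∈ Clo B, K ∈ Quad F := by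
  constructor
  · intro h
    cases h with
    | base h1 h2 => exact ⟨_, Or.inl h1, h2⟩
    | step h1 h2 => exact ⟨_, Or.inr h1, h2⟩
  · rintro ⟨F, hF | hF, hK⟩
    · exact Tow.base hF hK
    · exact Tow.step hF hK

theorem dabs_base_le {F K : SF} (h : K ∈ Quad F) : dabs F ≤ dabs K := by
  have := quad_base h
  have h1 := one_le_dabs F
  have h2 := sq_le h
  nlinarith

/-- The comparison of the number of isomorphism classes with the sum over the base fields. -/
theorem count_compare (B : Set SF) (hB : IsoClosed B) (hfd : ∀ F ∈ B, FiniteDimensional ℚ F)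
    (X : ℝ) :
    (∑' F : Clo B, (gcount F.1 X : ℝ) / deg F.1) ≤ (countIso {K | Tow B K} X : ℝ) ∧
      (countIso {K | Tow B K} X : ℝ) ≤
        (∑' F : Clo B, (gcount F.1 X : ℝ) / deg F.1) + ∑' F : Clo B, (bcount F.1 X : ℝ) := by
  classical
  have hTfin : {K : SF | Tow B K ∧ FiniteDimensional ℚ K ∧ dabs K < X}.Finite :=
    (finite_dabs X).subset fun K hK => ⟨hK.2.1, hK.2.2.le⟩
  set T : Finset SF := hTfin.toFinset with hTdef
  have hT : ∀ K, K ∈ T ↔ K ∈ {K | Tow B K} ∧ FiniteDimensional ℚ K ∧ dabs K < X := by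
    intro K
    simp [hTdef]
  have hPfin : {F : Clo B | dabs F.1 ≤ X}.Finite := by
    refine Set.Finite.of_finite_image (f := Subtype.val) ?_ Subtype.val_injective.injOn
    refine (finite_dabs X).subset ?_
    rintro _ ⟨F, hF, rfl⟩
    have := clo_numberField hfd F.2
    exact ⟨inferInstance, hF⟩
  set P : Finset (Clo B) := hPfin.toFinset with hPdef
  have hP : ∀ F : Clo B, F ∈ P ↔ dabs F.1 ≤ X := by
    intro F
    simp [hPdef]
  have hg0 : ∀ F : Clo B, F ∉ P → (gcount F.1 X : ℝ) / deg F.1 = 0 := by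
    intro F hF
    have : gcount F.1 X = 0 := by
      unfold gcount
      rw [Set.ncard_eq_zero (gcount_finite F.1 X)]
      rw [Set.eq_empty_iff_forall_notMem]
      rintro K ⟨hK, hd, -⟩
      exact hF ((hP F).2 (le_trans (dabs_base_le hK) hd.le))
    rw [this]
    simp
  have hb0 : ∀ F : Clo B, F ∉ P → (bcount F.1 X : ℝ) = 0 := by
    intro F hF
    have : bcount F.1 X = 0 := by
      unfold bcount
      rw [Set.ncard_eq_zero (bcount_finite F.1 X)]
      rw [Set.eq_empty_iff_forall_notMem]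
      rintro K ⟨hK, hd⟩
      exact hF ((hP F).2 (le_trans (dabs_base_le hK.1) hd))
    rw [this]
    simp
  rw [tsum_eq_sum (s := P) hg0, tsum_eq_sum (s := P) hb0,
    countIso_eq {K | Tow B K} (tow_iso B hB) X T hT]
  have hsplit := Finset.sum_filter_add_sum_filter_not T
    (fun K : SF => Nat.card (K ≃ₐ[ℚ] K) = 2)
    (fun K : SF => (Nat.card (K ≃ₐ[ℚ] K) : ℝ) / (deg K : ℝ))
  have h1 : ∑ K ∈ T.filter (fun K : SF => Nat.card (K ≃ₐ[ℚ] K) = 2),
      (Nat.card (K ≃ₐ[ℚ] K) : ℝ) / (deg K : ℝ) = ∑ F ∈ P, (gcount F.1 X : ℝ) / deg F.1 := by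
    have h2 : ∀ K ∈ T.filter (fun K : SF => Nat.card (K ≃ₐ[ℚ] K) = 2),
        (Nat.card (K ≃ₐ[ℚ] K) : ℝ) / (deg K : ℝ) =
          ∑ F ∈ P, if K ∈ Quad F.1 then 1 / (deg F.1 : ℝ) else 0 := by
      intro K hK
      rw [Finset.mem_filter, hT] at hK
      obtain ⟨⟨hK1, hK2, hK3⟩, hK4⟩ := hK
      obtain ⟨F, hF, hFK⟩ := tow_iff.1 hK1
      have := clo_numberField hfd hF
      have hFP : (⟨F, hF⟩ : Clo B) ∈ P := (hP _).2 (le_trans (dabs_base_le hFK) hK3.le)
      rw [Finset.sum_eq_single_of_mem (⟨F, hF⟩ : Clo B) hFP]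
      · rw [if_pos hFK, hK4]
        have hdK : deg K = 2 * deg F := hFK.2.2
        have hdF : 0 < deg F := deg_pos F
        have : (deg K : ℝ) = 2 * deg F := by exact_mod_cast hdK
        rw [this]
        have hdF' : (0 : ℝ) < deg F := by exact_mod_cast hdF
        field_simp
        norm_num
      · intro G _ hne
        rw [if_neg]
        intro hGK
        exact hne (Subtype.ext (unique_base hGK hFK hK4))
    rw [Finset.sum_congr rfl h2, Finset.sum_comm]
    refine Finset.sum_congr rfl fun F _ => ?_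
    rw [← Finset.sum_filter, Finset.sum_const, nsmul_eq_mul, mul_one_div]
    congr 2
    unfold gcount
    rw [← Set.ncard_coe_finset]
    congr 1
    ext K
    simp only [Finset.coe_filter, Finset.mem_filter, hT, Set.mem_ofPred_eq]
    constructor
    · rintro ⟨⟨⟨_, _, h3⟩, h4⟩, h5⟩
      exact ⟨h5, h3, h4⟩
    · rintro ⟨h5, h3, h4⟩
      exact ⟨⟨⟨tow_iff.2 ⟨F.1, F.2, h5⟩, h5.1, h3⟩, h4⟩, h5⟩
  have h3 : ∑ K ∈ T.filter (fun K : SF => ¬ Nat.card (K ≃ₐ[ℚ] K) = 2),
      (Nat.card (K ≃ₐ[ℚ] K) : ℝ) / (deg K : ℝ) ≤ ∑ F ∈ P, (bcount F.1 X : ℝ) := by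
    have h4 : ∀ K ∈ T.filter (fun K : SF => ¬ Nat.card (K ≃ₐ[ℚ] K) = 2),
        (Nat.card (K ≃ₐ[ℚ] K) : ℝ) / (deg K : ℝ) ≤
          ∑ F ∈ P, if K ∈ Quad F.1 then (1 : ℝ) else 0 := by
      intro K hK
      rw [Finset.mem_filter, hT] at hK
      obtain ⟨⟨hK1, hK2, hK3⟩, hK4⟩ := hK
      obtain ⟨F, hF, hFK⟩ := tow_iff.1 hK1
      have := quad_numberField hFK
      have hFP : (⟨F, hF⟩ : Clo B) ∈ P := (hP _).2 (le_trans (dabs_base_le hFK) hK3.le)
      have h5 : (1 : ℝ) ≤ ∑ F ∈ P, if K ∈ Quad F.1 then (1 : ℝ) else 0 := by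
        have := Finset.single_le_sum (f := fun F : Clo B => if K ∈ Quad F.1 then (1 : ℝ) else 0)
          (fun G _ => by positivity) hFP
        simpa [hFK] using this
      refine le_trans ?_ h5
      have hdK : (0 : ℝ) < deg K := by exact_mod_cast deg_pos K
      rw [div_le_one hdK]
      exact_mod_cast (aut_le K).2
    refine le_trans (Finset.sum_le_sum h4) ?_
    rw [Finset.sum_comm]
    refine Finset.sum_le_sum fun F _ => ?_
    rw [← Finset.sum_filter, Finset.sum_const, nsmul_eq_mul, mul_one]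
    unfold bcount
    rw [← Set.ncard_coe_finset]
    refine Nat.cast_le.2 (Set.ncard_le_ncard ?_ (bcount_finite F.1 X))
    intro K
    simp only [Finset.coe_filter, Finset.mem_filter, hT, Set.mem_ofPred_eq]
    rintro ⟨⟨⟨_, _, h3⟩, h4⟩, h5⟩
    exact ⟨⟨h5, h4⟩, h3.le⟩
  have h0 : 0 ≤ ∑ K ∈ T.filter (fun K : SF => ¬ Nat.card (K ≃ₐ[ℚ] K) = 2),
      (Nat.card (K ≃ₐ[ℚ] K) : ℝ) / (deg K : ℝ) := Finset.sum_nonneg fun K _ => by positivity
  constructor
  · linarith
  · linarith

/-- The asymptotic formula. -/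
theorem main_limit (c : SF → ℝ) (hc : ∀ F : SF, FiniteDimensional ℚ F →
      Tendsto (fun X : ℝ => (qcount F X : ℝ) / X) atTop (𝓝 (c F)))
    (B : Set SF) (hB : IsoClosed B) (hfd : ∀ F ∈ B, FiniteDimensional ℚ F)
    (hsum : Summable fun F : B => wt F.1) :
    Summable (fun F : Clo B => c F.1 / deg F.1) ∧
      Tendsto (fun X : ℝ => (countIso {K | Tow B K} X : ℝ) / X) atTop
        (𝓝 (∑' F : Clo B, c F.1 / deg F.1)) := by
  classical
  obtain ⟨K₀, hK₀, hub⟩ := uniform_bound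
  have hS : Summable fun F : Clo B => wt F.1 := summable_clo B hfd hsum
  have hS' : Summable fun F : Clo B => K₀ * wt F.1 := hS.mul_left _
  have hnf : ∀ F : Clo B, NumberField F.1 := fun F => clo_numberField hfd F.2
  have hq : ∀ (F : Clo B) (X : ℝ), 0 < X → (qcount F.1 X : ℝ) / X ≤ K₀ * wt F.1 := by
    intro F X hX
    have := hnf F
    rw [div_le_iff₀ hX]
    exact hub F.1 X hX
  have hdeg : ∀ F : Clo B, (1 : ℝ) ≤ deg F.1 := by
    intro F
    have := hnf F
    exact_mod_cast deg_pos F.1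
  have hlim1 : ∀ F : Clo B, Tendsto (fun X : ℝ => (gcount F.1 X : ℝ) / deg F.1 / X) atTop
      (𝓝 (c F.1 / deg F.1)) := by
    intro F
    have := hnf F
    have h1 := (gcount_limit F.1 (c F.1) (hc F.1 inferInstance)).div_const (deg F.1 : ℝ)
    refine h1.congr fun X => ?_
    rw [div_right_comm]
  have hlim2 : ∀ F : Clo B, Tendsto (fun X : ℝ => (bcount F.1 X : ℝ) / X) atTop (𝓝 0) := by
    intro F
    have := hnf F
    exact bad_limit F.1
  have hbd1 : ∀ (F : Clo B) (X : ℝ), 0 < X →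
      ‖(gcount F.1 X : ℝ) / deg F.1 / X‖ ≤ K₀ * wt F.1 := by
    intro F X hX
    have hd := hdeg F
    rw [Real.norm_of_nonneg (by positivity)]
    refine le_trans ?_ (hq F X hX)
    gcongr
    rw [div_le_iff₀ (by linarith)]
    have h1 : (gcount F.1 X : ℝ) ≤ qcount F.1 X := by exact_mod_cast gcount_le F.1 X
    have h2 : (0 : ℝ) ≤ qcount F.1 X := by positivity
    nlinarith
  have hbd2 : ∀ (F : Clo B) (X : ℝ), 0 < X → ‖(bcount F.1 X : ℝ) / X‖ ≤ K₀ * wt F.1 := by
    intro F X hX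
    rw [Real.norm_of_nonneg (by positivity)]
    refine le_trans ?_ (hq F X hX)
    gcongr
    exact bcount_le F.1 X
  have hT1 : Tendsto (fun X : ℝ => ∑' F : Clo B, (gcount F.1 X : ℝ) / deg F.1 / X) atTop
      (𝓝 (∑' F : Clo B, c F.1 / deg F.1)) := by
    refine tendsto_tsum_of_dominated_convergence hS' hlim1 ?_
    filter_upwards [eventually_gt_atTop 0] with X hX F
    exact hbd1 F X hX
  have hT2 : Tendsto (fun X : ℝ => ∑' F : Clo B, (bcount F.1 X : ℝ) / X) atTop
      (𝓝 (∑' _ : Clo B, (0 : ℝ))) := by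
    refine tendsto_tsum_of_dominated_convergence hS' hlim2 ?_
    filter_upwards [eventually_gt_atTop 0] with X hX F
    exact hbd2 F X hX
  rw [tsum_zero] at hT2
  have hcs : Summable (fun F : Clo B => c F.1 / deg F.1) := by
    refine Summable.of_norm_bounded hS' fun F => ?_
    refine le_of_tendsto (hlim1 F).norm ?_
    filter_upwards [eventually_gt_atTop 0] with X hX
    exact hbd1 F X hX
  refine ⟨hcs, ?_⟩
  have hT3 := hT1.add hT2
  rw [add_zero] at hT3
  refine tendsto_of_tendsto_of_tendsto_of_le_of_le' hT1 hT3 ?_ ?_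
  · filter_upwards [eventually_gt_atTop 0] with X hX
    rw [tsum_div_const]
    gcongr
    exact (count_compare B hB hfd X).1
  · filter_upwards [eventually_gt_atTop 0] with X hX
    rw [tsum_div_const, tsum_div_const, ← add_div]
    gcongr
    exact (count_compare B hB hfd X).2

end QTow
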